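import Pool.Agent.H94.ER.BaC

/-!
# TrA: upper bound for `dirEig Ω m` by trial functions `ψ u`

Let `u` be a near-minimiser and `ψ_i` (`i ∈ ι`) bounded `C^1` functions with bounded derivatives;
`ψ_c = ∑ c_i ψ_i`. The functions `ψ_c u` are test functions, and

  `|∇(ψ u)|^2 = u^2 |∇ψ|^2 + ∇u · ∇(ψ^2 u)`   (pointwise, from the product rule),

so `energy (ψ_c u) = ∫ u^2 dot ψ_c ψ_c + ∫ dot u (ψ_c^2 u)`. By `hEL` with `v = ψ_c^2 u`
  `∫ dot u (ψ_c^2 u) ≤ L1 ∫ u^2 ψ_c^2 + ε √(energy (ψ_c^2 u))`.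
Put `|c|^2 = ∑ c_i^2`, `m = card ι`. `|ψ_c| ≤ A √m |c|`, `|pd j ψ_c| ≤ A √m |c|` (Cauchy-Schwarz), so
`φ = ψ_c^2` satisfies `|φ| ≤ m A^2 |c|^2`, `|pd j φ| ≤ 2 m A^2 |c|^2`, and by `energy_mul_le` (with
`B = 2 m A^2 |c|^2`) `energy (φ u) ≤ 2 B^2 (energy u + N) ≤ 2 B^2 (lam + 1 + N)`, so
`ε √(energy (φ u)) ≤ ε * (2 m A^2 |c|^2) * √(2 (lam + 1 + N)) ≤ η |c|^2` by `hsmall`. Hence
`energy (ψ_c u) ≤ κ ∫ u^2 ψ_c^2 - η |c|^2 + L1 ∫ u^2 ψ_c^2 + η |c|^2 ≤ (lam + κ) mass (ψ_c u)`.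

The linear map `c ↦ ψ_c u` is injective: if `ψ_c u = 0` then `∫ u^2 ψ_c^2 = 0` while
`0 ≤ ∫ u^2 dot ψ_c ψ_c ≤ κ * 0 - η |c|^2`, so `c = 0`. Hence its range has `finrank = card ι` and
`dirEig_le` applies.
-/

set_option autoImplicit false

open MeasureTheory

namespace Pool.Agent.H94.ER

variable {N : ℕ}

theorem TrA_cs {ι : Type*} [Fintype ι] (c a : ι → ℝ) (A : ℝ) (hA : 0 ≤ A)
    (ha : ∀ i, |a i| ≤ A) :
    (∑ i, c i * a i) ^ 2 ≤ (Fintype.card ι : ℝ) * A ^ 2 * ∑ i, c i ^ 2 := by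
  have h1 := Finset.sum_mul_sq_le_sq_mul_sq Finset.univ c a
  have h2 : ∑ i, a i ^ 2 ≤ (Fintype.card ι : ℝ) * A ^ 2 := by
    have h3 : ∑ i, a i ^ 2 ≤ ∑ _i : ι, A ^ 2 := by
      refine Finset.sum_le_sum fun i _ => ?_
      rw [← sq_abs (a i)]
      exact pow_le_pow_left₀ (abs_nonneg _) (ha i) 2
    rw [Finset.sum_const, Finset.card_univ, nsmul_eq_mul] at h3
    exact h3
  have h4 : 0 ≤ ∑ i, c i ^ 2 := Finset.sum_nonneg fun i _ => sq_nonneg _
  calc _ ≤ (∑ i, c i ^ 2) * ∑ i, a i ^ 2 := h1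
    _ ≤ (∑ i, c i ^ 2) * ((Fintype.card ι : ℝ) * A ^ 2) := mul_le_mul_of_nonneg_left h2 h4
    _ = _ := by ring

theorem TrA_contDiff {ι : Type*} [Fintype ι] (ψ : ι → E N → ℝ) (hψ : ∀ i, ContDiff ℝ 1 (ψ i))
    (c : ι → ℝ) : ContDiff ℝ 1 (fun y => ∑ i, c i * ψ i y) :=
  ContDiff.sum fun i _ => contDiff_const.mul (hψ i)

theorem TrA_pd {ι : Type*} [Fintype ι] (ψ : ι → E N → ℝ) (hψ : ∀ i, ContDiff ℝ 1 (ψ i))
    (c : ι → ℝ) (j : Fin N) (x : E N) :
    pd j (fun y => ∑ i, c i * ψ i y) x = ∑ i, c i * pd j (ψ i) x := by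
  rw [pd_sum Finset.univ j (fun i y => c i * ψ i y) x
    (fun i _ => ((contDiff_const.mul (hψ i)).differentiable one_ne_zero) x)]
  exact Finset.sum_congr rfl fun i _ => pd_const_mul j (c i) (ψ i) x

/-- the pointwise identity -/
theorem TrA_dot (u φ : E N → ℝ) (hu : ContDiff ℝ 1 u) (hφ : ContDiff ℝ 1 φ) (x : E N) :
    dot (fun y => φ y * u y) (fun y => φ y * u y) x =
      u x ^ 2 * dot φ φ x + dot u (fun y => (φ y * φ y) * u y) x := by
  have hud := (hu.differentiable one_ne_zero) x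
  have hφd := (hφ.differentiable one_ne_zero) x
  unfold dot
  rw [Finset.mul_sum, ← Finset.sum_add_distrib]
  refine Finset.sum_congr rfl fun i _ => ?_
  rw [pd_mul i φ u x hφd hud, pd_mul i (fun y => φ y * φ y) u x (hφd.mul hφd) hud,
    pd_mul i φ φ x hφd hφd]
  ring

theorem TrA_int_left (u φ : E N → ℝ) (hu : ContDiff ℝ 1 u) (hc : HasCompactSupport u)
    (hφ : ContDiff ℝ 1 φ) : Integrable (fun x => u x ^ 2 * dot φ φ x) := by
  have h1 : (fun x => u x ^ 2 * dot φ φ x) = u * fun x => u x * dot φ φ x := by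
    funext x
    simp only [Pi.mul_apply]
    ring
  rw [h1]
  have h2 : Continuous (u * fun x => u x * dot φ φ x) :=
    hu.continuous.mul (hu.continuous.mul (continuous_dot φ φ hφ hφ))
  exact h2.integrable_of_hasCompactSupport hc.mul_right

theorem TrA_energy (u φ : E N → ℝ) (hu : ContDiff ℝ 1 u) (hc : HasCompactSupport u)
    (hφ : ContDiff ℝ 1 φ) :
    energy (fun y => φ y * u y) =
      (∫ x, u x ^ 2 * dot φ φ x) + ∫ x, dot u (fun y => (φ y * φ y) * u y) x := by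
  unfold energy
  rw [← integral_add (TrA_int_left u φ hu hc hφ)]
  · exact integral_congr_ae (Filter.Eventually.of_forall fun x => TrA_dot u φ hu hφ x)
  · exact (continuous_dot _ _ hu ((hφ.mul hφ).mul hu)).integrable_of_hasCompactSupport
      (hasCompactSupport_dot _ _ hc)

theorem trial_bound {ι : Type*} [Fintype ι] (hcard : 1 ≤ Fintype.card ι) (Ω : Set (E N))
    (u : E N → ℝ) (hu : IsTest Ω u) (hmass : mass u = 1)
    (L1 lam κ η A ε : ℝ) (hL0 : 0 ≤ L1) (hL1 : L1 ≤ lam) (hen : energy u ≤ lam + 1)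
    (ψ : ι → E N → ℝ) (hψ : ∀ i, ContDiff ℝ 1 (ψ i)) (hA0 : 0 ≤ A)
    (hA : ∀ i x, |ψ i x| ≤ A ∧ ∀ j, |pd j (ψ i) x| ≤ A) (hε : 0 ≤ ε)
    (hEL : ∀ v, IsTest Ω v → |(∫ x, dot u v x) - L1 * ∫ x, u x * v x| ≤ ε * √(energy v))
    (hη : 0 < η) (hsmall : ε * (4 * (Fintype.card ι : ℝ) * A ^ 2 * √(2 * (lam + 1 + N))) ≤ η)
    (hQ : ∀ c : ι → ℝ, ∫ x, u x ^ 2 * dot (fun y => ∑ i, c i * ψ i y) (fun y => ∑ i, c i * ψ i y) x
      ≤ κ * (∫ x, u x ^ 2 * (∑ i, c i * ψ i x) ^ 2) - η * ∑ i, c i ^ 2) :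
    dirEig Ω (Fintype.card ι) ≤ lam + κ := by
  have hu1 := hu.1
  have huc := hu.2.1
  have hNn : (0 : ℝ) ≤ N := Nat.cast_nonneg N
  have hmn : (0 : ℝ) ≤ Fintype.card ι := Nat.cast_nonneg _
  have hlam : 0 ≤ lam := hL0.trans hL1
  -- the main estimate
  have key : ∀ c : ι → ℝ, energy (fun y => (∑ i, c i * ψ i y) * u y) ≤
      (lam + κ) * mass (fun y => (∑ i, c i * ψ i y) * u y) := by
    intro c
    set φ : E N → ℝ := fun y => ∑ i, c i * ψ i y with hφdef
    have hφ : ContDiff ℝ 1 φ := TrA_contDiff ψ hψ c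
    set S : ℝ := ∑ i, c i ^ 2 with hS
    have hS0 : 0 ≤ S := Finset.sum_nonneg fun i _ => sq_nonneg _
    set D : ℝ := (Fintype.card ι : ℝ) * A ^ 2 * S with hD
    have hD0 : 0 ≤ D := by positivity
    have hb1 : ∀ x, φ x ^ 2 ≤ D := fun x => TrA_cs c (fun i => ψ i x) A hA0 fun i => (hA i x).1
    have hb2 : ∀ x j, pd j φ x ^ 2 ≤ D := by
      intro x j
      rw [hφdef, TrA_pd ψ hψ c j x]
      exact TrA_cs c (fun i => pd j (ψ i) x) A hA0 fun i => (hA i x).2 j
    have hφφ : ContDiff ℝ 1 (fun y => φ y * φ y) := hφ.mul hφ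
    have hv : IsTest Ω (fun y => (φ y * φ y) * u y) := hu.mul_left _ hφφ
    have hbd : ∀ x, |φ x * φ x| ≤ 2 * D ∧ ∀ i, |pd i (fun y => φ y * φ y) x| ≤ 2 * D := by
      intro x
      refine ⟨?_, fun i => ?_⟩
      · rw [abs_of_nonneg (mul_self_nonneg _), ← sq]
        have := hb1 x
        linarith
      · have hφd := (hφ.differentiable one_ne_zero) x
        rw [pd_mul i φ φ x hφd hφd]
        have h1 := hb1 x
        have h2 := hb2 x i
        rw [abs_le]
        constructor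
        · nlinarith [sq_nonneg (φ x + pd i φ x)]
        · nlinarith [sq_nonneg (φ x - pd i φ x)]
    have hen1 := energy_mul_le u (fun y => φ y * φ y) hu1 huc hφφ (2 * D) hbd
    rw [hmass, mul_one] at hen1
    have hen2 : energy (fun y => (φ y * φ y) * u y) ≤ (2 * D) ^ 2 * (2 * (lam + 1 + N)) := by
      refine hen1.trans ?_
      have h1 : energy u + N ≤ lam + 1 + N := by linarith
      calc 2 * (2 * D) ^ 2 * (energy u + N) ≤ 2 * (2 * D) ^ 2 * (lam + 1 + N) :=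
            mul_le_mul_of_nonneg_left h1 (by positivity)
        _ = _ := by ring
    have hsq : √(energy (fun y => (φ y * φ y) * u y)) ≤ 2 * D * √(2 * (lam + 1 + N)) := by
      refine (Real.sqrt_le_sqrt hen2).trans (le_of_eq ?_)
      rw [Real.sqrt_mul (by positivity), Real.sqrt_sq (by positivity)]
    have herr : ε * √(energy (fun y => (φ y * φ y) * u y)) ≤ η * S := by
      have h1 := mul_le_mul_of_nonneg_left hsq hε
      have h2 := mul_le_mul_of_nonneg_right hsmall hS0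
      have h3 : ε * (2 * D * √(2 * (lam + 1 + N))) =
          (ε * (4 * (Fintype.card ι : ℝ) * A ^ 2 * √(2 * (lam + 1 + N))) * S) / 2 := by
        rw [hD]
        ring
      have h4 : 0 ≤ η * S := by positivity
      rw [h3] at h1
      linarith
    have hEL' := hEL _ hv
    have hM : ∫ x, u x * ((φ x * φ x) * u x) = mass (fun y => φ y * u y) := by
      unfold mass
      refine integral_congr_ae (Filter.Eventually.of_forall fun x => ?_)
      show u x * ((φ x * φ x) * u x) = (φ x * u x) ^ 2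
      ring
    have hM' : ∫ x, u x ^ 2 * (∑ i, c i * ψ i x) ^ 2 = mass (fun y => φ y * u y) := by
      unfold mass
      refine integral_congr_ae (Filter.Eventually.of_forall fun x => ?_)
      show u x ^ 2 * φ x ^ 2 = (φ x * u x) ^ 2
      ring
    rw [hM] at hEL'
    have h1 := (abs_le.1 hEL').2
    have h2 := hQ c
    rw [hM'] at h2
    rw [TrA_energy u φ hu1 huc hφ]
    have h3 : L1 * mass (fun y => φ y * u y) ≤ lam * mass (fun y => φ y * u y) :=
      mul_le_mul_of_nonneg_right hL1 (mass_nonneg _)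
    have h4 : (lam + κ) * mass (fun y => φ y * u y) =
      lam * mass (fun y => φ y * u y) + κ * mass (fun y => φ y * u y) := by ring
    rw [h4]
    have h5 : ∫ x, u x ^ 2 * dot φ φ x ≤ κ * mass (fun y => φ y * u y) - η * S := h2
    linarith
  -- the space
  let T : (ι → ℝ) →ₗ[ℝ] (E N → ℝ) :=
    { toFun := fun c x => (∑ i, c i * ψ i x) * u x
      map_add' := by
        intro c d
        funext x
        simp only [Pi.add_apply, add_mul, Finset.sum_add_distrib]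
      map_smul' := by
        intro r c
        funext x
        simp only [Pi.smul_apply, smul_eq_mul, RingHom.id_apply, Finset.mul_sum, mul_assoc,
          Finset.sum_mul] }
  have hTinj : Function.Injective T := by
    rw [injective_iff_map_eq_zero]
    intro c hc
    have h1 : ∀ x, (∑ i, c i * ψ i x) * u x = 0 := fun x => congrFun hc x
    have h2 := hQ c
    have h3 : ∫ x, u x ^ 2 * (∑ i, c i * ψ i x) ^ 2 = 0 := by
      have h4 : (fun x => u x ^ 2 * (∑ i, c i * ψ i x) ^ 2) = fun _ => (0 : ℝ) := by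
        funext x
        have h5 : u x ^ 2 * (∑ i, c i * ψ i x) ^ 2 = ((∑ i, c i * ψ i x) * u x) ^ 2 := by ring
        rw [h5, h1 x]
        norm_num
      rw [h4, integral_zero]
    rw [h3, mul_zero] at h2
    have h4 : 0 ≤ ∫ x, u x ^ 2 *
        dot (fun y => ∑ i, c i * ψ i y) (fun y => ∑ i, c i * ψ i y) x :=
      integral_nonneg fun x => mul_nonneg (sq_nonneg _) (dot_self_nonneg _ _)
    have h5 : ∑ i, c i ^ 2 ≤ 0 := by
      by_contra h6
      push Not at h6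
      have := mul_pos hη h6
      linarith
    funext i
    have h6 : c i ^ 2 ≤ ∑ i, c i ^ 2 :=
      Finset.single_le_sum (f := fun i => c i ^ 2) (fun j _ => sq_nonneg _) (Finset.mem_univ i)
    have h7 : c i ^ 2 = 0 := le_antisymm (h6.trans h5) (sq_nonneg _)
    exact pow_eq_zero_iff two_ne_zero |>.1 h7
  refine dirEig_le Ω (Fintype.card ι) hcard (lam + κ) (LinearMap.range T) ?_ ?_
  · rw [LinearMap.finrank_range_of_inj hTinj, Module.finrank_fintype_fun_eq_card]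
  · rintro w ⟨c, rfl⟩
    exact ⟨hu.mul_left _ (TrA_contDiff ψ hψ c), key c⟩

end Pool.Agent.H94.ER
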