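import Pool.Agent.H94.ER.BaA

/-!
# TrC: isotropy

Let `W : E N → ℝ` be continuous with compact support and invariant under the group `G` of
linear isometries, `G` irreducible. Then `∫ W x_i x_j = δ_ij (1/N) ∫ W ‖x‖^2`.

Proof. The symmetric bilinear form `T(v,v') = ∫ W ⟪x,v⟫⟪x,v'⟫` satisfies `T(gv,gv') = T(v,v')`
(`g` preserves the volume, `g.measurePreserving`, and `W (g x) = W x`). Let `A` be the symmetric
operator with `⟪A v, v'⟫ = T(v,v')` (`A = ∑_{ij} ...`, or `Matrix.toEuclideanLin` of the matrix
`M i j = ∫ W x_i x_j`); `A g = g A` for `g ∈ G`. `N ≥ 1`, so `A` has an eigenvalue `μ`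
(`LinearMap.IsSymmetric.hasEigenvalue_iSup_of_finiteDimensional` or
`IsSymmetric.eigenvectorBasis`); its eigenspace is nonzero and `G`-invariant, so it is
everything: `A = μ`. So `M i j = μ δ_ij`, and the trace gives `N μ = ∫ W ‖x‖^2`.

`int_odd`: if `f (-x) = - f x` then `∫ f = 0` (`integral_neg_eq_self`).
-/

/-!
# TrC: isotropy

Let `W : E N → ℝ` be continuous with compact support and invariant under the group `G` of
linear isometries, `G` irreducible. Then `∫ W x_i x_j = δ_ij (1/N) ∫ W ‖x‖^2`.

Proof. The symmetric operator `A v = ∫ W x ⟪x,v⟫ x` commutes with `G`; an eigenspace of it is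
nonzero and `G`-invariant, so it is everything.
-/

set_option autoImplicit false

open MeasureTheory

namespace Pool.Agent.H94.ER

variable {N : ℕ}

theorem int_odd (f : E N → ℝ) (hf : ∀ x, f (-x) = - f x) : ∫ x, f x = 0 := by
  have h1 : ∫ x, f (-x) = ∫ x, f x := integral_neg_eq_self f volume
  have h2 : ∫ x, f (-x) = - ∫ x, f x := by
    rw [← integral_neg]
    exact integral_congr_ae (Filter.Eventually.of_forall hf)
  linarith

theorem TrC_int (W : E N → ℝ) (hW : Continuous W) (hc : HasCompactSupport W) (v : E N) :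
    Integrable (fun x : E N => (W x * inner ℝ x v) • x) := by
  refine Continuous.integrable_of_hasCompactSupport (by fun_prop) ?_
  refine HasCompactSupport.smul_right (f := fun x : E N => W x * inner ℝ x v) ?_
  exact hc.mul_right

/-- the operator of second moments -/
noncomputable def TrC_A (W : E N → ℝ) (hW : Continuous W) (hc : HasCompactSupport W) :
    E N →ₗ[ℝ] E N where
  toFun v := ∫ x, (W x * inner ℝ x v) • x
  map_add' u v := by
    rw [← integral_add (TrC_int W hW hc u) (TrC_int W hW hc v)]
    congr 1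
    funext x
    rw [inner_add_right, mul_add, add_smul]
  map_smul' c v := by
    rw [RingHom.id_apply, ← integral_smul]
    congr 1
    funext x
    rw [inner_smul_right, smul_smul]
    congr 1
    ring

theorem TrC_inner (W : E N → ℝ) (hW : Continuous W) (hc : HasCompactSupport W) (u v : E N) :
    inner ℝ (TrC_A W hW hc u) v = ∫ x, W x * (inner ℝ x u * inner ℝ x v) := by
  rw [real_inner_comm]
  show inner ℝ v (∫ x, (W x * inner ℝ x u) • x) = _
  rw [← integral_inner (TrC_int W hW hc u)]
  congr 1
  funext x
  rw [inner_smul_right, real_inner_comm v x]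
  ring

theorem isotropy (hN : 1 ≤ N) (W : E N → ℝ) (hW : Continuous W) (hc : HasCompactSupport W)
    (G : Subgroup (E N ≃ₗᵢ[ℝ] E N))
    (hirr : ∀ V : Submodule ℝ (E N), (∀ g ∈ G, ∀ v ∈ V, g v ∈ V) → V = ⊥ ∨ V = ⊤)
    (hinv : ∀ g ∈ G, ∀ x, W (g x) = W x) (i j : Fin N) :
    ∫ x, W x * (x i * x j) = if i = j then (∫ x, W x * ‖x‖ ^ 2) / N else 0 := by
  classical
  set A := TrC_A W hW hc with hA
  have hsymm : A.IsSymmetric := by
    intro u v
    rw [hA, TrC_inner, real_inner_comm, TrC_inner]
    congr 1
    funext x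
    ring
  have : Nonempty (Fin N) := ⟨⟨0, hN⟩⟩
  have : Nontrivial (E N) := inferInstance
  obtain ⟨μ, hμ⟩ : ∃ μ : ℝ, Module.End.HasEigenvalue A μ :=
    ⟨_, hsymm.hasEigenvalue_iSup_of_finiteDimensional⟩
  have hcomm : ∀ g ∈ G, ∀ v, A (g v) = g (A v) := by
    intro g hg v
    show ∫ x, (W x * inner ℝ x (g v)) • x = g (∫ x, (W x * inner ℝ x v) • x)
    have h1 : ∫ x, (W x * inner ℝ x (g v)) • x = ∫ x, (W (g x) * inner ℝ (g x) (g v)) • g x :=
      (g.measurePreserving.integral_comp' (f := g.toHomeomorph.toMeasurableEquiv)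
        (fun x => (W x * inner ℝ x (g v)) • x)).symm
    rw [h1]
    have h2 := (g.toContinuousLinearEquiv : E N →L[ℝ] E N).integral_comp_comm (TrC_int W hW hc v)
    refine Eq.trans ?_ h2
    congr 1
    funext x
    rw [hinv g hg, LinearIsometryEquiv.inner_map_map]
    exact (map_smul g _ _).symm
  have hV : Module.End.eigenspace A μ = ⊤ := by
    rcases hirr (Module.End.eigenspace A μ) (by
      intro g hg v hv
      rw [Module.End.mem_eigenspace_iff] at hv ⊢
      rw [hcomm g hg, hv, map_smul]) with h | h
    · exact absurd h hμ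
    · exact h
  have hAv : ∀ v, A v = μ • v := by
    intro v
    have : v ∈ Module.End.eigenspace A μ := by rw [hV]; trivial
    exact Module.End.mem_eigenspace_iff.mp this
  have hM : ∀ i j : Fin N, ∫ x, W x * (x i * x j) = if i = j then μ else 0 := by
    intro i j
    have h1 := TrC_inner W hW hc (EuclideanSpace.single i 1) (EuclideanSpace.single j 1)
    rw [← hA, hAv, inner_smul_left, EuclideanSpace.inner_single_left] at h1
    simp only [EuclideanSpace.inner_single_right] at h1
    simp only [map_one, one_mul, conj_trivial] at h1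
    rw [← h1]
    simp
  have htr : ∫ x, W x * ‖x‖ ^ 2 = N * μ := by
    have h1 : ∀ x : E N, W x * ‖x‖ ^ 2 = ∑ i, W x * (x i * x i) := by
      intro x
      rw [EuclideanSpace.norm_sq_eq, Finset.mul_sum]
      refine Finset.sum_congr rfl fun i _ => ?_
      rw [Real.norm_eq_abs, sq_abs, sq]
    rw [integral_congr_ae (Filter.Eventually.of_forall h1), integral_finsetSum]
    · simp only [hM]
      simp
    · intro i _
      refine Continuous.integrable_of_hasCompactSupport (by fun_prop) hc.mul_right
  rw [hM, htr]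
  have : (N : ℝ) ≠ 0 := by positivity
  split_ifs
  · field_simp
  · rfl

end Pool.Agent.H94.ER
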