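import Pool.Agent.H94.ER.UpA

/-!
# UpB: scaling: `dirEig Ω (N+2) * bz N ≤ bz (N+4) * dirEig Ω 1`

For every `c > dirEig Ω 1` (so `c > 0`) put `a = √(c / bz N)`, `Ω' = a • Ω` (open, nonempty, invariant
under `G` as linear maps commute with scaling): `dirEig Ω' 1 = dirEig Ω 1 / a^2 = bz N dirEig Ω 1 / c ≤ bz N`
(`dirEig_smul`), so by `upper_scaled` `dirEig Ω (N+2) = a^2 dirEig Ω' (N+2) ≤ (c / bz N) bz (N+4)`. Let
`c → dirEig Ω 1` (`le_of_forall_gt_imp_ge_of_dense` or `le_of_forall_pos_le_add`).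
-/

set_option autoImplicit false

open MeasureTheory

namespace Pool.Agent.H94.ER

variable {N : ℕ}

open Pointwise in
theorem upb_invariant (Ω : Set (E N)) (a : ℝ) (g : E N ≃ₗᵢ[ℝ] E N) (hg : g '' Ω = Ω) :
    g '' (a • Ω) = a • Ω := by
  have h0 : a • Ω = (fun x : E N => a • x) '' Ω := rfl
  rw [h0, ← Set.image_comp]
  have h1 : (g : E N → E N) ∘ (fun x : E N => a • x) = (fun x : E N => a • x) ∘ g := by
    funext x
    exact map_smul g a x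
  rw [h1, Set.image_comp, hg]

open Pointwise in
theorem upb_step (hN : 2 ≤ N) (Ω : Set (E N)) (hΩ : IsOpen Ω) (hne : Ω.Nonempty)
    (G : Subgroup (E N ≃ₗᵢ[ℝ] E N)) [Finite G] (hG : ∀ g ∈ G, g '' Ω = Ω)
    (hneg : LinearIsometryEquiv.neg ℝ ∈ G)
    (hirr : ∀ V : Submodule ℝ (E N), (∀ g ∈ G, ∀ v ∈ V, g v ∈ V) → V = ⊥ ∨ V = ⊤)
    (c : ℝ) (hc : dirEig Ω 1 < c) :
    dirEig Ω (N + 2) * bz N ≤ bz (N + 4) * c := by
  have hb : 0 < bz (N : ℝ) := bz_pos _ (by exact_mod_cast hN)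
  have hc0 : 0 < c := (dirEig_nonneg Ω 1).trans_lt hc
  have hcb : 0 < c / bz N := div_pos hc0 hb
  have ha : 0 < √(c / bz N) := Real.sqrt_pos.2 hcb
  have ha2 : √(c / bz N) ^ 2 = c / bz N := Real.sq_sqrt hcb.le
  have h1 : dirEig (√(c / bz N) • Ω) 1 ≤ bz N := by
    rw [dirEig_smul (by omega) Ω 1 _ ha, ha2, div_le_iff₀ hcb, mul_div_assoc', mul_comm,
      mul_div_assoc, div_self hb.ne', mul_one]
    exact hc.le
  have h2 := upper_scaled hN (√(c / bz N) • Ω) (hΩ.smul₀ ha.ne') (hne.smul_set) G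
    (fun g hg => upb_invariant Ω _ g (hG g hg)) hneg hirr h1
  rw [dirEig_smul (by omega) Ω (N + 2) _ ha, ha2, div_le_iff₀ hcb, mul_div_assoc',
    le_div_iff₀ hb] at h2
  exact h2

theorem upper (hN : 2 ≤ N) (Ω : Set (E N)) (hΩ : IsOpen Ω) (hne : Ω.Nonempty)
    (G : Subgroup (E N ≃ₗᵢ[ℝ] E N)) [Finite G] (hG : ∀ g ∈ G, g '' Ω = Ω)
    (hneg : LinearIsometryEquiv.neg ℝ ∈ G)
    (hirr : ∀ V : Submodule ℝ (E N), (∀ g ∈ G, ∀ v ∈ V, g v ∈ V) → V = ⊥ ∨ V = ⊤) :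
    dirEig Ω (N + 2) * bz N ≤ bz (N + 4) * dirEig Ω 1 := by
  have hb : 0 < bz ((N : ℝ) + 4) := bz_pos _ (by
    have : (2 : ℝ) ≤ N := by exact_mod_cast hN
    linarith)
  have h1 : ∀ c, dirEig Ω 1 < c → dirEig Ω (N + 2) * bz N / bz (N + 4) ≤ c := fun c hc => by
    rw [div_le_iff₀ hb, mul_comm c]
    exact upb_step hN Ω hΩ hne G hG hneg hirr c hc
  have h2 := le_of_forall_gt_imp_ge_of_dense h1
  rw [div_le_iff₀ hb] at h2
  linarith

end Pool.Agent.H94.ER
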