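import Pool.Agent.H94.ER.BaC

/-!
# BaD: near-minimisers that are invariant under a finite group of isometries

Let `G` be a finite group of linear isometries with `g '' Ω = Ω`.
1. (nonnegative near-minimisers) Let `u` be a test function and `η > 0`;
   `v = √(u^2+η^2) - η` is a nonnegative test function with `|pd i v| ≤ |pd i u|`
   (`pd i v = u pd i u / √(u^2+η^2)`), so `energy v ≤ energy u`; and `|u| - η ≤ v ≤ |u|`, so
   `mass v ≥ mass u - 2 η ∫ |u|`. Start with `mass u = 1`, `energy u ≤ dirEig Ω 1 + δ`, and choose `η`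
   with `2 η ∫ |u| ≤ δ`: then `1 - δ ≤ mass v ≤ 1` and
   `q v := energy v - dirEig Ω 1 * mass v ≤ δ + dirEig Ω 1 * δ`.
2. (averaging) `w = ∑_{g ∈ G} v ∘ g`. It is a nonnegative test function (`IsTest.comp`), invariant
   under `G` (reindex the sum). `mass w ≥ mass v` because `w ≥ v ≥ 0` (the term `g = 1`).
   `q w ≤ |G|^2 q v`: `q ≥ 0` on test functions, so by Cauchy-Schwarz
   `q (∑ v_g) ≤ |G| ∑ q (v_g)`, and `q (v ∘ g) = q v`: `energy (v ∘ g) = energy v` by `dot_comp_isometry`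
   and `g.measurePreserving.integral_comp'`. (The inequality `q (∑_{i∈s} v_i) ≤ |s| ∑ q(v_i)` for a
   nonnegative quadratic form: `q(∑ v_i) = ∑_{ij} B(v_i,v_j) ≤ ∑_{ij} (q v_i + q v_j)/2`, from
   `q(v_i - v_j) ≥ 0`.)
3. Normalise: `u' = w / √(mass w)`; `q u' = q w / mass w ≤ |G|^2 q v / mass v ≤ ε` for `δ` small.
-/

set_option autoImplicit false

open MeasureTheory

namespace Pool.Agent.H94.ER

variable {N : ℕ}

theorem BaD_int_dot (u v : E N → ℝ) (hu : ContDiff ℝ 1 u) (hv : ContDiff ℝ 1 v)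
    (hc : HasCompactSupport u) : Integrable (fun x => dot u v x) :=
  (continuous_dot u v hu hv).integrable_of_hasCompactSupport (hasCompactSupport_dot u v hc)

theorem BaD_int_mul (u v : E N → ℝ) (hu : Continuous u) (hv : Continuous v)
    (hc : HasCompactSupport u) : Integrable (fun x => u x * v x) :=
  (hu.mul hv).integrable_of_hasCompactSupport hc.mul_right

theorem BaD_int_sq (u : E N → ℝ) (hu : Continuous u)
    (hc : HasCompactSupport u) : Integrable (fun x => u x ^ 2) := by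
  simpa only [pow_two] using BaD_int_mul u u hu hu hc

theorem BaD_pd_comb (i : Fin N) (a b : E N → ℝ) (c d : ℝ) (x : E N)
    (ha : DifferentiableAt ℝ a x) (hb : DifferentiableAt ℝ b x) :
    pd i (fun y => c * a y + d * b y) x = c * pd i a x + d * pd i b x := by
  rw [pd_add i (fun y => c * a y) (fun y => d * b y) x (ha.const_mul c) (hb.const_mul d),
    pd_const_mul, pd_const_mul]

theorem BaD_dot_comb (a b : E N → ℝ) (c d : ℝ) (x : E N)
    (ha : DifferentiableAt ℝ a x) (hb : DifferentiableAt ℝ b x) :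
    dot (fun y => c * a y + d * b y) (fun y => c * a y + d * b y) x
      = c ^ 2 * dot a a x + 2 * c * d * dot a b x + d ^ 2 * dot b b x := by
  unfold dot
  rw [Finset.mul_sum, Finset.mul_sum, Finset.mul_sum, ← Finset.sum_add_distrib,
    ← Finset.sum_add_distrib]
  refine Finset.sum_congr rfl fun i _ => ?_
  rw [BaD_pd_comb i a b c d x ha hb]
  ring

/-- the quadratic form `energy - L mass` -/
noncomputable def BaD_q (L : ℝ) (u : E N → ℝ) : ℝ := energy u - L * mass u

theorem BaD_q_comb (L : ℝ) (a b : E N → ℝ) (ha : ContDiff ℝ 1 a) (hb : ContDiff ℝ 1 b)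
    (hac : HasCompactSupport a) (hbc : HasCompactSupport b) (c d : ℝ) :
    BaD_q L (fun y => c * a y + d * b y)
      = c ^ 2 * BaD_q L a + 2 * c * d * ((∫ x, dot a b x) - L * ∫ x, a x * b x)
        + d ^ 2 * BaD_q L b := by
  have da : Differentiable ℝ a := ha.differentiable one_ne_zero
  have db : Differentiable ℝ b := hb.differentiable one_ne_zero
  have e1 : energy (fun y => c * a y + d * b y)
      = c ^ 2 * energy a + 2 * c * d * (∫ x, dot a b x) + d ^ 2 * energy b := by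
    unfold energy
    have h1 : (fun x => dot (fun y => c * a y + d * b y) (fun y => c * a y + d * b y) x)
        = fun x => c ^ 2 * dot a a x + 2 * c * d * dot a b x + d ^ 2 * dot b b x :=
      funext fun x => BaD_dot_comb a b c d x (da x) (db x)
    rw [h1]
    have i1 : Integrable (fun x => c ^ 2 * dot a a x) := (BaD_int_dot a a ha ha hac).const_mul _
    have i2 : Integrable (fun x => 2 * c * d * dot a b x) :=
      (BaD_int_dot a b ha hb hac).const_mul _
    have i3 : Integrable (fun x => d ^ 2 * dot b b x) := (BaD_int_dot b b hb hb hbc).const_mul _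
    have i12 : Integrable (fun x => c ^ 2 * dot a a x + 2 * c * d * dot a b x) := i1.add i2
    rw [integral_add i12 i3, integral_add i1 i2, integral_const_mul, integral_const_mul,
      integral_const_mul]
  have e2 : mass (fun y => c * a y + d * b y)
      = c ^ 2 * mass a + 2 * c * d * (∫ x, a x * b x) + d ^ 2 * mass b := by
    unfold mass
    have h1 : (fun x => (c * a x + d * b x) ^ 2)
        = fun x => c ^ 2 * a x ^ 2 + 2 * c * d * (a x * b x) + d ^ 2 * b x ^ 2 :=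
      funext fun x => by ring
    rw [h1]
    have i1 : Integrable (fun x => c ^ 2 * a x ^ 2) :=
      (BaD_int_sq a ha.continuous hac).const_mul _
    have i2 : Integrable (fun x => 2 * c * d * (a x * b x)) :=
      (BaD_int_mul a b ha.continuous hb.continuous hac).const_mul _
    have i3 : Integrable (fun x => d ^ 2 * b x ^ 2) :=
      (BaD_int_sq b hb.continuous hbc).const_mul _
    have i12 : Integrable (fun x => c ^ 2 * a x ^ 2 + 2 * c * d * (a x * b x)) := i1.add i2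
    rw [integral_add i12 i3, integral_add i1 i2, integral_const_mul, integral_const_mul,
      integral_const_mul]
  unfold BaD_q
  rw [e1, e2]
  ring

theorem BaD_test_comb {Ω : Set (E N)} {a b : E N → ℝ} (ha : IsTest Ω a) (hb : IsTest Ω b)
    (c d : ℝ) : IsTest Ω (fun y => c * a y + d * b y) :=
  (ha.smul c).add (hb.smul d)

theorem BaD_q_add_le (Ω : Set (E N)) (L : ℝ) (hpos : ∀ v : E N → ℝ, IsTest Ω v → 0 ≤ BaD_q L v)
    (a b : E N → ℝ) (ha : IsTest Ω a) (hb : IsTest Ω b) (t : ℝ) (ht : 0 < t) :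
    BaD_q L (fun y => a y + b y) ≤ (1 + t) * BaD_q L a + (1 + 1 / t) * BaD_q L b := by
  have h1 := BaD_q_comb L a b ha.1 hb.1 ha.2.1 hb.2.1 1 1
  simp only [one_mul, one_pow, mul_one] at h1
  have h2 := BaD_q_comb L a b ha.1 hb.1 ha.2.1 hb.2.1 (√t) (-(1 / √t))
  have h3 := hpos _ (BaD_test_comb ha hb (√t) (-(1 / √t)))
  rw [h2] at h3
  have hs : √t ≠ 0 := (Real.sqrt_pos.2 ht).ne'
  have h4 : √t ^ 2 = t := Real.sq_sqrt ht.le
  have h5 : 2 * √t * -(1 / √t) = -2 := by field_simp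
  have h6 : (-(1 / √t)) ^ 2 = 1 / t := by rw [neg_sq, div_pow, h4, one_pow]
  rw [h4, h5, h6] at h3
  rw [h1]
  linarith

theorem BaD_q_zero (L : ℝ) : BaD_q L (fun _ : E N => (0 : ℝ)) = 0 := by
  have h : ContDiff ℝ 1 (fun _ : E N => (0 : ℝ)) := contDiff_const
  have hc : HasCompactSupport (fun _ : E N => (0 : ℝ)) := HasCompactSupport.zero
  have h1 := BaD_q_comb L (fun _ : E N => (0 : ℝ)) (fun _ : E N => (0 : ℝ)) h h hc hc 0 0
  simpa using h1

theorem BaD_test_sum {ι : Type*} {Ω : Set (E N)} (s : Finset ι) (v : ι → E N → ℝ)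
    (hv : ∀ i ∈ s, IsTest Ω (v i)) : IsTest Ω (fun x => ∑ i ∈ s, v i x) := by
  classical
  induction s using Finset.induction_on with
  | empty =>
    have h : (fun x : E N => ∑ i ∈ (∅ : Finset ι), v i x) = 0 := by
      funext x
      simp
    rw [h]
    exact IsTest.zero Ω
  | insert a s ha ih =>
    have h1 := ih (fun i hi => hv i (Finset.mem_insert_of_mem hi))
    have h2 := (hv a (Finset.mem_insert_self a s)).add h1
    have h3 : (fun x => ∑ i ∈ insert a s, v i x) = v a + fun x => ∑ i ∈ s, v i x := by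
      funext x
      rw [Finset.sum_insert ha]
      rfl
    rw [h3]
    exact h2

theorem BaD_q_sum {ι : Type*} (Ω : Set (E N)) (L : ℝ)
    (hpos : ∀ v : E N → ℝ, IsTest Ω v → 0 ≤ BaD_q L v) (s : Finset ι) (v : ι → E N → ℝ)
    (hv : ∀ i ∈ s, IsTest Ω (v i)) :
    BaD_q L (fun x => ∑ i ∈ s, v i x) ≤ s.card * ∑ i ∈ s, BaD_q L (v i) := by
  classical
  induction s using Finset.induction_on with
  | empty => simpa using (BaD_q_zero (N := N) L).le
  | insert a s ha ih =>
    have hv' : ∀ i ∈ s, IsTest Ω (v i) := fun i hi => hv i (Finset.mem_insert_of_mem hi)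
    have hva := hv a (Finset.mem_insert_self a s)
    have h1 := ih hv'
    have h3 : (fun x => ∑ i ∈ insert a s, v i x) = fun x => v a x + ∑ i ∈ s, v i x := by
      funext x
      rw [Finset.sum_insert ha]
    rw [h3, Finset.card_insert_of_notMem ha, Finset.sum_insert ha]
    rcases Finset.eq_empty_or_nonempty s with rfl | hne
    · simp
    · have hc : (0 : ℝ) < s.card := by exact_mod_cast hne.card_pos
      have h4 := BaD_q_add_le Ω L hpos (v a) (fun x => ∑ i ∈ s, v i x) hva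
        (BaD_test_sum s v hv') s.card hc
      refine h4.trans ?_
      push_cast
      have h5 : (1 + 1 / (s.card : ℝ)) * BaD_q L (fun x => ∑ i ∈ s, v i x)
          ≤ (1 + 1 / (s.card : ℝ)) * (s.card * ∑ i ∈ s, BaD_q L (v i)) :=
        mul_le_mul_of_nonneg_left h1 (by positivity)
      have h6 : (1 + 1 / (s.card : ℝ)) * (s.card * ∑ i ∈ s, BaD_q L (v i))
          = (s.card + 1) * ∑ i ∈ s, BaD_q L (v i) := by
        field_simp
      rw [h6] at h5
      linarith

theorem BaD_f (η : ℝ) (hη : 0 < η) (t : ℝ) :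
    HasDerivAt (fun s : ℝ => √(s ^ 2 + η ^ 2) - η) (t / √(t ^ 2 + η ^ 2)) t := by
  have h0 : t ^ 2 + η ^ 2 ≠ 0 := by positivity
  have h1 : HasDerivAt (fun s : ℝ => s ^ 2 + η ^ 2) (2 * t) t := by
    simpa using (hasDerivAt_pow 2 t).add_const (η ^ 2)
  have h2 := (h1.sqrt h0).sub_const η
  refine h2.congr_deriv ?_
  rw [mul_div_mul_left _ _ two_ne_zero]

theorem BaD_abs (Ω : Set (E N)) (u : E N → ℝ) (hu : IsTest Ω u) (η : ℝ) (hη : 0 < η) :
    ∃ v : E N → ℝ, IsTest Ω v ∧ (∀ x, 0 ≤ v x) ∧ energy v ≤ energy u ∧ mass v ≤ mass u ∧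
      mass u - 2 * η * (∫ x, |u x|) ≤ mass v := by
  have hv1 : ContDiff ℝ 1 (fun x => √(u x ^ 2 + η ^ 2) - η) :=
    (((hu.1.pow 2).add contDiff_const).sqrt (fun x => by positivity)).sub contDiff_const
  have hv2 : HasCompactSupport (fun x => √(u x ^ 2 + η ^ 2) - η) := by
    have := hu.2.1.comp_left (g := fun s : ℝ => √(s ^ 2 + η ^ 2) - η)
      (by simp [Real.sqrt_sq hη.le])
    exact this
  have hv3 : tsupport (fun x => √(u x ^ 2 + η ^ 2) - η) ⊆ Ω := by
    refine (closure_mono ?_).trans hu.2.2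
    intro x hx
    rw [Function.mem_support] at hx ⊢
    intro h0
    apply hx
    simp [h0, Real.sqrt_sq hη.le]
  have hlow : ∀ x, |u x| - η ≤ √(u x ^ 2 + η ^ 2) - η := by
    intro x
    have : |u x| ≤ √(u x ^ 2 + η ^ 2) := by
      apply Real.le_sqrt_of_sq_le
      rw [sq_abs]
      nlinarith
    linarith
  have hnn : ∀ x, 0 ≤ √(u x ^ 2 + η ^ 2) - η := by
    intro x
    have : η ≤ √(u x ^ 2 + η ^ 2) := by
      apply Real.le_sqrt_of_sq_le
      nlinarith [sq_nonneg (u x)]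
    linarith
  have hup : ∀ x, √(u x ^ 2 + η ^ 2) - η ≤ |u x| := by
    intro x
    have : √(u x ^ 2 + η ^ 2) ≤ |u x| + η := by
      apply Real.sqrt_le_iff.2 ⟨by positivity, ?_⟩
      have := abs_nonneg (u x)
      nlinarith [sq_abs (u x)]
    linarith
  refine ⟨fun x => √(u x ^ 2 + η ^ 2) - η, ⟨hv1, hv2, hv3⟩, hnn, ?_, ?_, ?_⟩
  · unfold energy
    refine integral_mono (BaD_int_dot _ _ hv1 hv1 hv2) (BaD_int_dot _ _ hu.1 hu.1 hu.2.1) ?_
    intro x
    unfold dot
    refine Finset.sum_le_sum fun i _ => ?_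
    have hd : HasFDerivAt u (fderiv ℝ u x) x :=
      ((hu.1.differentiable one_ne_zero) x).hasFDerivAt
    have h1 := (BaD_f η hη (u x)).comp_hasFDerivAt x hd
    have h2 : pd i (fun x => √(u x ^ 2 + η ^ 2) - η) x
        = u x / √(u x ^ 2 + η ^ 2) * pd i u x := by
      unfold pd
      have h3 : fderiv ℝ (fun x => √(u x ^ 2 + η ^ 2) - η) x
          = (u x / √(u x ^ 2 + η ^ 2)) • fderiv ℝ u x := h1.fderiv
      rw [h3]
      rfl
    rw [h2]
    have h4 : (u x / √(u x ^ 2 + η ^ 2)) ^ 2 ≤ 1 := by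
      rw [div_pow, Real.sq_sqrt (by positivity), div_le_one (by positivity)]
      nlinarith
    have h5 : 0 ≤ pd i u x * pd i u x := mul_self_nonneg _
    calc u x / √(u x ^ 2 + η ^ 2) * pd i u x * (u x / √(u x ^ 2 + η ^ 2) * pd i u x)
        = (u x / √(u x ^ 2 + η ^ 2)) ^ 2 * (pd i u x * pd i u x) := by ring
      _ ≤ 1 * (pd i u x * pd i u x) := mul_le_mul_of_nonneg_right h4 h5
      _ = pd i u x * pd i u x := one_mul _
  · unfold mass
    refine integral_mono (BaD_int_sq _ hv1.continuous hv2)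
      (BaD_int_sq _ hu.1.continuous hu.2.1) ?_
    intro x
    have := pow_le_pow_left₀ (hnn x) (hup x) 2
    rw [sq_abs] at this
    exact this
  · have hi1 : Integrable (fun x => u x ^ 2) := BaD_int_sq _ hu.1.continuous hu.2.1
    have hi2 : Integrable (fun x => |u x|) :=
      (hu.1.continuous.integrable_of_hasCompactSupport hu.2.1).abs
    have h1 : mass u - 2 * η * (∫ x, |u x|) = ∫ x, (u x ^ 2 - 2 * η * |u x|) := by
      unfold mass
      rw [integral_sub hi1 (hi2.const_mul _), integral_const_mul]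
    rw [h1]
    unfold mass
    refine integral_mono (hi1.sub (hi2.const_mul _)) (BaD_int_sq _ hv1.continuous hv2) ?_
    intro x
    have h2 := hlow x
    have h3 := hnn x
    have h4 := abs_nonneg (u x)
    show u x ^ 2 - 2 * η * |u x| ≤ (√(u x ^ 2 + η ^ 2) - η) ^ 2
    rw [← sq_abs (u x)] at h2 h3 ⊢
    rcases le_total η |u x| with h5 | h5
    · have h6 : (|u x| - η) ^ 2 ≤ (√(|u x| ^ 2 + η ^ 2) - η) ^ 2 :=
        pow_le_pow_left₀ (by linarith) h2 2
      nlinarith
    · nlinarith [sq_nonneg (√(|u x| ^ 2 + η ^ 2) - η)]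

theorem BaD_int_comp (g : E N ≃ₗᵢ[ℝ] E N) (f : E N → ℝ) : ∫ x, f (g x) = ∫ x, f x :=
  g.measurePreserving.integral_comp g.toHomeomorph.measurableEmbedding f

theorem BaD_q_comp (L : ℝ) (g : E N ≃ₗᵢ[ℝ] E N) (v : E N → ℝ) :
    BaD_q L (fun x => v (g x)) = BaD_q L v := by
  unfold BaD_q energy mass
  have h1 : (fun x => dot (fun x => v (g x)) (fun x => v (g x)) x) = fun x => dot v v (g x) :=
    funext fun x => dot_comp_isometry g v v x
  rw [h1, BaD_int_comp g (fun x => dot v v x), BaD_int_comp g (fun x => v x ^ 2)]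

theorem near_min_inv (hN : 1 ≤ N) (Ω : Set (E N)) (hΩ : IsOpen Ω) (hne : Ω.Nonempty)
    (G : Subgroup (E N ≃ₗᵢ[ℝ] E N)) [Finite G] (hG : ∀ g ∈ G, g '' Ω = Ω) (ε : ℝ) (hε : 0 < ε) :
    ∃ u : E N → ℝ, IsTest Ω u ∧ mass u = 1 ∧ energy u ≤ dirEig Ω 1 + ε ∧
      ∀ g ∈ G, ∀ x, u (g x) = u x := by
  classical
  have := Fintype.ofFinite G
  have hL : 0 ≤ dirEig Ω 1 := dirEig_nonneg Ω 1
  have hpos : ∀ v : E N → ℝ, IsTest Ω v → 0 ≤ BaD_q (dirEig Ω 1) v := by
    intro v hv
    have := eig_one_le Ω v hv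
    unfold BaD_q
    linarith
  set L := dirEig Ω 1 with hLdef
  set n : ℝ := (Fintype.card G : ℝ) with hn
  have hn1 : 1 ≤ n := by
    rw [hn]
    exact_mod_cast Fintype.card_pos
  obtain ⟨δ, hδ0, hδ1, hδ2⟩ : ∃ δ : ℝ, 0 < δ ∧ δ ≤ 1 / 2 ∧ 2 * n ^ 2 * (δ * (1 + L)) ≤ ε := by
    refine ⟨min (1 / 2) (ε / (2 * n ^ 2 * (1 + L))), by positivity, min_le_left _ _, ?_⟩
    have h1 : min (1 / 2) (ε / (2 * n ^ 2 * (1 + L))) ≤ ε / (2 * n ^ 2 * (1 + L)) :=
      min_le_right _ _
    have h2 : (0 : ℝ) < 2 * n ^ 2 * (1 + L) := by positivity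
    calc 2 * n ^ 2 * (min (1 / 2) (ε / (2 * n ^ 2 * (1 + L))) * (1 + L))
        = min (1 / 2) (ε / (2 * n ^ 2 * (1 + L))) * (2 * n ^ 2 * (1 + L)) := by ring
      _ ≤ ε / (2 * n ^ 2 * (1 + L)) * (2 * n ^ 2 * (1 + L)) :=
          mul_le_mul_of_nonneg_right h1 h2.le
      _ = ε := div_mul_cancel₀ _ h2.ne'
  obtain ⟨u, hu, hum, hue⟩ := near_min hN Ω hΩ hne δ hδ0
  rw [← hLdef] at hue
  have hI : 0 ≤ ∫ x, |u x| := integral_nonneg fun x => abs_nonneg _
  obtain ⟨η, hη, hη2⟩ : ∃ η : ℝ, 0 < η ∧ 2 * η * (∫ x, |u x|) ≤ δ := by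
    refine ⟨δ / (2 * ((∫ x, |u x|) + 1)), by positivity, ?_⟩
    have h1 : 2 * (δ / (2 * ((∫ x, |u x|) + 1))) * (∫ x, |u x|)
        = δ * ((∫ x, |u x|) / ((∫ x, |u x|) + 1)) := by
      have : (∫ x, |u x|) + 1 ≠ 0 := by positivity
      field_simp
    rw [h1]
    have h2 : (∫ x, |u x|) / ((∫ x, |u x|) + 1) ≤ 1 := by
      rw [div_le_one (by positivity)]
      linarith
    calc δ * ((∫ x, |u x|) / ((∫ x, |u x|) + 1)) ≤ δ * 1 := mul_le_mul_of_nonneg_left h2 hδ0.le
      _ = δ := mul_one δ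
  obtain ⟨v, hv, hv0, hve, hvm1, hvm2⟩ := BaD_abs Ω u hu η hη
  have hvm : 1 - δ ≤ mass v := by
    rw [hum] at hvm2
    linarith
  have hqv : BaD_q L v ≤ δ * (1 + L) := by
    unfold BaD_q
    have : L * (1 - δ) ≤ L * mass v := mul_le_mul_of_nonneg_left hvm hL
    linarith
  -- the average
  have hpre : ∀ g : G, (g : E N ≃ₗᵢ[ℝ] E N) ⁻¹' Ω = Ω := by
    intro g
    have h1 := hG g.1 g.2
    conv_lhs => rw [← h1]
    exact Set.preimage_image_eq _ (g : E N ≃ₗᵢ[ℝ] E N).injective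
  have hvg : ∀ g : G, IsTest Ω (fun x => v ((g : E N ≃ₗᵢ[ℝ] E N) x)) :=
    fun g => hv.comp g.1 (hpre g)
  set w : E N → ℝ := fun x => ∑ g : G, v ((g : E N ≃ₗᵢ[ℝ] E N) x) with hw
  have hwt : IsTest Ω w := BaD_test_sum Finset.univ _ fun g _ => hvg g
  have hqw : BaD_q L w ≤ n ^ 2 * BaD_q L v := by
    have h1 := BaD_q_sum Ω L hpos Finset.univ (fun (g : G) x => v ((g : E N ≃ₗᵢ[ℝ] E N) x))
      (fun g _ => hvg g)
    refine h1.trans (le_of_eq ?_)
    rw [Finset.sum_congr rfl fun g _ => BaD_q_comp L g.1 v, Finset.sum_const, Finset.card_univ,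
      nsmul_eq_mul]
    ring
  have hwinv : ∀ g ∈ G, ∀ x, w (g x) = w x := by
    intro h hh x
    rw [hw]
    have h1 := Equiv.sum_comp (Equiv.mulRight (⟨h, hh⟩ : G))
      (fun g : G => v ((g : E N ≃ₗᵢ[ℝ] E N) x))
    refine Eq.trans ?_ h1
    refine Finset.sum_congr rfl fun g _ => ?_
    rfl
  have hwv : ∀ x, v x ≤ w x := by
    intro x
    have h1 : v (((1 : G) : E N ≃ₗᵢ[ℝ] E N) x) ≤ w x :=
      Finset.single_le_sum (f := fun g : G => v ((g : E N ≃ₗᵢ[ℝ] E N) x))
        (fun g _ => hv0 _) (Finset.mem_univ (1 : G))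
    exact h1
  have hwm : mass v ≤ mass w := by
    unfold mass
    refine integral_mono (BaD_int_sq _ hv.1.continuous hv.2.1)
      (BaD_int_sq _ hwt.1.continuous hwt.2.1) ?_
    intro x
    exact pow_le_pow_left₀ (hv0 x) (hwv x) 2
  have hwm2 : 1 / 2 ≤ mass w := by linarith
  have hmw : 0 < mass w := by linarith
  -- normalise
  have hc2 : (1 / √(mass w)) ^ 2 = 1 / mass w := by
    rw [div_pow, Real.sq_sqrt hmw.le, one_pow]
  have hmass : mass (fun x => (1 / √(mass w)) * w x) = 1 := by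
    unfold mass
    have h1 : (fun x => ((1 / √(∫ x, w x ^ 2)) * w x) ^ 2)
        = fun x => (1 / √(∫ x, w x ^ 2)) ^ 2 * w x ^ 2 := funext fun x => by ring
    rw [h1, integral_const_mul]
    have h2 : (1 / √(∫ x, w x ^ 2)) ^ 2 = 1 / ∫ x, w x ^ 2 := hc2
    rw [h2]
    exact one_div_mul_cancel hmw.ne'
  have hq2 : BaD_q L (fun x => (1 / √(mass w)) * w x) = 1 / mass w * BaD_q L w := by
    have h1 := BaD_q_comb L w w hwt.1 hwt.1 hwt.2.1 hwt.2.1 (1 / √(mass w)) 0
    simp only [zero_mul, add_zero, mul_zero] at h1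
    rw [h1, hc2]
    ring
  refine ⟨fun x => (1 / √(mass w)) * w x, hwt.smul _, hmass, ?_, ?_⟩
  · have h1 : energy (fun x => (1 / √(mass w)) * w x)
        = L + 1 / mass w * BaD_q L w := by
      rw [← hq2]
      unfold BaD_q
      rw [hmass]
      ring
    rw [h1]
    have h2 : 1 / mass w ≤ 2 := by
      rw [div_le_iff₀ hmw]
      linarith
    have h3 : BaD_q L w ≤ n ^ 2 * (δ * (1 + L)) :=
      hqw.trans (mul_le_mul_of_nonneg_left hqv (by positivity))
    have h4 : 0 ≤ BaD_q L w := hpos w hwt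
    have h5 : 1 / mass w * BaD_q L w ≤ 2 * (n ^ 2 * (δ * (1 + L))) :=
      mul_le_mul h2 h3 h4 (by norm_num)
    linarith
  · intro g hg x
    show 1 / √(mass w) * w (g x) = 1 / √(mass w) * w x
    rw [hwinv g hg x]

end Pool.Agent.H94.ER
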