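import Pool.Agent.H94.ER.PrG

/-!
# PrH: the inequality of degree `k` (the `J`-identity)

For `u ∈ C^1_c(E N)`, `k ≥ 1`, with `H̃ x = Hk N k (‖x‖^2)`, `γ = bz (N+2k) - bz N`:
  `bz N * ∫ H̃ u^2 - ∫ ∇u·∇(H̃ u) ≤ ∫ u^2 (γ Pk - En)(‖x‖^2)`.

Proof. `cert` with `H = H̃` (`C^1` because `Fp` is, `≥ 0` by `Pk_le`), `ξ` from `exists_xi`, `X = Xf ξ`,
`p x = 2 (U'/U)(‖x‖^2) • x` for `‖x‖ < 1` and `0` otherwise (`U s = bj N (bz N * s)`):
`(1/2) pd i H̃ x = Hk' x_i` (`pd_radial`), so `X = (1/2)∇H̃ + H̃ p` for `‖x‖ < 1`, and for `‖x‖ > 1` both sides vanish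
(`Hk = 0` on `[1,∞)`, `Pk_out`). `Θ x = (γ Pk - En - bz N * Hk)(‖x‖^2)` for `‖x‖ < 1` and `0` otherwise:
by `Xf_div`, `xi_identity` and `‖p‖^2 = 4 s (U'/U)^2` this is `div X + H̃ ‖p‖^2` at all `x ≠ 0` with
`‖x‖ ≠ 1`. It is bounded (continuous function of `s` on `[0,1]`; `En` is continuous as `Fp` is
`C^1`), so `u^2 Θ` is integrable. `cert` gives `-∫ u^2 Θ ≤ ∫ dot u (H̃ u)`. Finally
`u^2 (γ Pk - En) - bz N * H̃ u^2 ≥ u^2 Θ` everywhere: equality for `‖x‖ < 1`, and for `‖x‖ ≥ 1`,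
`Hk = 0`, `γ Pk - En = ρ^2 (γ - k(N+k-2)/s) ≥ 0` (`En_out` for `s > 1`, the sphere is a null set; `gamma_gt`).
-/

set_option autoImplicit false

open MeasureTheory

namespace Pool.Agent.H94.ER

variable {N : ℕ}

theorem PrH_contDiff_Hk (k : ℕ) (hN : 2 ≤ N) : ContDiff ℝ 1 (Hk N k) := by
  have hF := contDiff_Fp N k hN
  unfold Hk Pk
  fun_prop

theorem PrH_contDiff_nsq : ContDiff ℝ 1 (fun x : E N => ‖x‖ ^ 2) := by
  exact contDiff_norm_sq ℝ

theorem contDiff_Ht (k : ℕ) (hN : 2 ≤ N) (hk : 1 ≤ k) :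
    ContDiff ℝ 1 (fun x : E N => Hk N k (‖x‖ ^ 2)) :=
  (PrH_contDiff_Hk k hN).comp PrH_contDiff_nsq

theorem Ht_nonneg (k : ℕ) (hN : 2 ≤ N) (hk : 1 ≤ k) (x : E N) : 0 ≤ Hk N k (‖x‖ ^ 2) := by
  have := Pk_le N k hN hk (‖x‖ ^ 2) (by positivity)
  unfold Hk
  linarith

theorem PrH_Hk_out (k : ℕ) (hN : 2 ≤ N) (s : ℝ) (hs : 1 ≤ s) : Hk N k s = 0 := by
  unfold Hk
  rw [Pk_out N k hN s hs, sub_self]

theorem PrH_compact (k : ℕ) (hN : 2 ≤ N) :
    HasCompactSupport (fun x : E N => Hk N k (‖x‖ ^ 2)) := by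
  refine HasCompactSupport.of_support_subset_isCompact (isCompact_closedBall (0 : E N) 1) ?_
  intro x hx
  rw [Metric.mem_closedBall, dist_zero_right]
  by_contra h
  push Not at h
  refine hx (PrH_Hk_out k hN _ ?_)
  nlinarith [norm_nonneg x]

theorem Ht_bound (k : ℕ) (hN : 2 ≤ N) (hk : 1 ≤ k) :
    ∃ A : ℝ, 0 ≤ A ∧ ∀ x : E N, |Hk N k (‖x‖ ^ 2)| ≤ A ∧
      ∀ i, |pd i (fun y : E N => Hk N k (‖y‖ ^ 2)) x| ≤ A := by
  have hC := contDiff_Ht (N := N) k hN hk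
  have hS := PrH_compact (N := N) k hN
  obtain ⟨B, hB⟩ := hS.exists_bound_of_continuous hC.continuous
  have hD : ∀ i : Fin N, ∃ D : ℝ, ∀ x : E N, ‖pd i (fun y : E N => Hk N k (‖y‖ ^ 2)) x‖ ≤ D :=
    fun i => (hasCompactSupport_pd i _ hS).exists_bound_of_continuous (continuous_pd i _ hC)
  choose D hD using hD
  have hB0 : 0 ≤ B := (norm_nonneg _).trans (hB 0)
  have hD0 : ∀ i, 0 ≤ D i := fun i => (norm_nonneg _).trans (hD i 0)
  refine ⟨B + ∑ i, D i, add_nonneg hB0 (Finset.sum_nonneg fun i _ => hD0 i), fun x => ⟨?_, fun i => ?_⟩⟩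
  · refine (hB x).trans ?_
    linarith [Finset.sum_nonneg fun i (_ : i ∈ Finset.univ) => hD0 i]
  · refine (hD i x).trans ?_
    linarith [Finset.single_le_sum (fun j _ => hD0 j) (Finset.mem_univ i)]

theorem PrH_ae_sphere (hN : 2 ≤ N) : ∀ᵐ x : E N, ‖x‖ ≠ 1 := by
  have h : (volume : Measure (E N)) (Metric.sphere 0 1) = 0 :=
    Measure.addHaar_sphere_of_ne_zero _ _ one_ne_zero
  rw [ae_iff]
  refine measure_mono_null ?_ h
  intro x hx
  simpa using hx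

theorem PrH_ae_zero (hN : 2 ≤ N) : ∀ᵐ x : E N, x ≠ 0 := by
  have : Nonempty (Fin N) := ⟨⟨0, by omega⟩⟩
  have : Nontrivial (E N) := inferInstance
  rw [ae_iff]
  refine measure_mono_null (t := {0}) ?_ (measure_singleton _)
  intro x hx
  simpa using hx

theorem PrH_pd (k : ℕ) (hN : 2 ≤ N) (i : Fin N) (x : E N) :
    pd i (fun y : E N => Hk N k (‖y‖ ^ 2)) x = 2 * deriv (Hk N k) (‖x‖ ^ 2) * x i :=
  pd_radial i _ x ((PrH_contDiff_Hk k hN).differentiable (by norm_num) _)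

theorem PrH_deriv_out (k : ℕ) (hN : 2 ≤ N) (s : ℝ) (hs : 1 < s) : deriv (Hk N k) s = 0 := by
  have h : Hk N k =ᶠ[nhds s] fun _ => 0 := by
    filter_upwards [lt_mem_nhds hs] with t ht
    exact PrH_Hk_out k hN t ht.le
  rw [h.deriv_eq]
  simp

theorem PrH_cont (k : ℕ) (hN : 2 ≤ N) (γ b : ℝ) :
    Continuous (fun x : E N => γ * Pk k (Fp N k) (‖x‖ ^ 2) - En N k (Fp N k) (‖x‖ ^ 2)
      - b * Hk N k (‖x‖ ^ 2)) := by
  have hF := contDiff_Fp N k hN
  have h1 : Continuous (Fp N k) := hF.continuous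
  have h2 : Continuous (deriv (Fp N k)) := hF.continuous_deriv le_rfl
  have h3 : Continuous (Pk k (Fp N k)) := by unfold Pk; fun_prop
  have h4 : Continuous (En N k (Fp N k)) := by unfold En; fun_prop
  have h5 : Continuous (Hk N k) := by unfold Hk; fun_prop
  fun_prop

theorem J_ineq (k : ℕ) (hN : 2 ≤ N) (hk : 1 ≤ k) (u : E N → ℝ) (hu : ContDiff ℝ 1 u)
    (hc : HasCompactSupport u) :
    bz N * (∫ x, Hk N k (‖x‖ ^ 2) * u x ^ 2)
        - ∫ x, dot u (fun y => Hk N k (‖y‖ ^ 2) * u y) x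
      ≤ ∫ x, u x ^ 2 * ((bz (N + 2 * k) - bz N) * Pk k (Fp N k) (‖x‖ ^ 2)
          - En N k (Fp N k) (‖x‖ ^ 2)) := by
  obtain ⟨ξ, hξ, hξ1, hξe⟩ := exists_xi N k hN hk
  set γ : ℝ := bz (N + 2 * k) - bz N with hγ
  obtain ⟨K, hK⟩ := Xf_lipschitz (N := N) ξ hξ hξ1
  set H : E N → ℝ := fun x => Hk N k (‖x‖ ^ 2) with hH
  set p : E N → E N := fun x =>
    if ‖x‖ < 1 then (2 * (uder N (‖x‖ ^ 2) / bj N (bz N * ‖x‖ ^ 2))) • x else 0 with hp
  set Q : E N → ℝ := fun x => γ * Pk k (Fp N k) (‖x‖ ^ 2) - En N k (Fp N k) (‖x‖ ^ 2)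
      - bz N * Hk N k (‖x‖ ^ 2) with hQ
  set Θ : E N → ℝ := fun x => if ‖x‖ < 1 then Q x else 0 with hΘ
  have hQc : Continuous Q := PrH_cont k hN γ (bz N)
  have hu2 : HasCompactSupport (fun x => u x ^ 2) := by
    have h := hc.mul_right (f' := u)
    have e : (fun x => u x ^ 2) = u * u := by
      funext x
      simp [pow_two]
    rw [e]
    exact h
  have huc : Continuous (fun x => u x ^ 2) := by
    have := hu.continuous
    fun_prop
  have hlt : ∀ x : E N, ‖x‖ < 1 → ‖x‖ ^ 2 < 1 := fun x hx => by nlinarith [norm_nonneg x]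
  have hgt : ∀ x : E N, 1 < ‖x‖ → 1 < ‖x‖ ^ 2 := fun x hx => by nlinarith [norm_nonneg x]
  have hint : Integrable (fun x => u x ^ 2 * Θ x) := by
    have h1 : Integrable (fun x => u x ^ 2 * Q x) :=
      (huc.mul hQc).integrable_of_hasCompactSupport hu2.mul_right
    have h2 := h1.indicator (s := Metric.ball (0 : E N) 1) measurableSet_ball
    refine h2.congr (Filter.Eventually.of_forall fun x => ?_)
    by_cases hx : ‖x‖ < 1
    · have : x ∈ Metric.ball (0 : E N) 1 := by simpa using hx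
      simp [Set.indicator_of_mem this, hΘ, hx]
    · have : x ∉ Metric.ball (0 : E N) 1 := by simpa using hx
      simp [Set.indicator_of_notMem this, hΘ, hx]
  have hcert := cert H (contDiff_Ht k hN hk) (fun x => Ht_nonneg k hN hk x) (Xf ξ) K hK
    (Xf_support ξ) p (by
      filter_upwards [PrH_ae_sphere hN] with x hx1 i
      rw [show pd i H x = 2 * deriv (Hk N k) (‖x‖ ^ 2) * x i from PrH_pd k hN i x]
      rcases lt_or_gt_of_ne hx1 with hx | hx
      · have e1 : Xf ξ x i = ξ (‖x‖ ^ 2) * x i := by simp [Xf, hx]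
        have e2 : p x i = 2 * (uder N (‖x‖ ^ 2) / bj N (bz N * ‖x‖ ^ 2)) * x i := by
          simp [hp, hx]
        rw [e1, e2, hξe _ (hlt x hx)]
        simp only [hH]
        ring
      · have hx' : ¬ ‖x‖ < 1 := not_lt.2 hx.le
        have e1 : Xf ξ x i = 0 := by simp [Xf, hx']
        have e2 : p x i = 0 := by simp [hp, hx']
        rw [e1, e2, PrH_deriv_out k hN _ (hgt x hx)]
        simp) Θ (by
      filter_upwards [PrH_ae_sphere hN, PrH_ae_zero hN] with x hx1 hx0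
      rcases lt_or_gt_of_ne hx1 with hx | hx
      · have hs0 : 0 < ‖x‖ ^ 2 := by
          have := norm_pos_iff.2 hx0
          positivity
        obtain ⟨x2, hd, he⟩ := xi_identity N k hN hk ξ hξe (‖x‖ ^ 2) hs0 (hlt x hx)
        rw [Xf_div ξ hξ x hx, hd.deriv]
        have e2 : ‖p x‖ ^ 2 = 4 * ‖x‖ ^ 2 * (uder N (‖x‖ ^ 2) / bj N (bz N * ‖x‖ ^ 2)) ^ 2 := by
          simp only [hp, hx, if_true]
          rw [norm_smul, mul_pow, Real.norm_eq_abs, sq_abs]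
          ring
        rw [e2]
        simp only [hΘ, hx, if_true, hQ, hH]
        linarith
      · have hx' : ¬ ‖x‖ < 1 := not_lt.2 hx.le
        rw [Xf_div_out ξ x hx]
        simp [hΘ, hp, hx']) u hu hc hint
  have hHc : Continuous H := (contDiff_Ht (N := N) k hN hk).continuous
  have hi1 : Integrable (fun x => H x * u x ^ 2) :=
    (hHc.mul huc).integrable_of_hasCompactSupport hu2.mul_left
  have hi2 : Integrable (fun x => u x ^ 2 * (γ * Pk k (Fp N k) (‖x‖ ^ 2)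
      - En N k (Fp N k) (‖x‖ ^ 2))) := by
    have hc' : Continuous (fun x : E N => γ * Pk k (Fp N k) (‖x‖ ^ 2)
      - En N k (Fp N k) (‖x‖ ^ 2)) := by
      have := PrH_cont (N := N) k hN γ 0
      simpa using this
    exact (huc.mul hc').integrable_of_hasCompactSupport hu2.mul_right
  have key : bz N * (∫ x, H x * u x ^ 2) + ∫ x, u x ^ 2 * Θ x ≤
      ∫ x, u x ^ 2 * (γ * Pk k (Fp N k) (‖x‖ ^ 2) - En N k (Fp N k) (‖x‖ ^ 2)) := by
    rw [← integral_const_mul, ← integral_add (hi1.const_mul _) hint]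
    refine integral_mono_ae ((hi1.const_mul _).add hint) hi2 ?_
    filter_upwards [PrH_ae_sphere hN] with x hx1
    rcases lt_or_gt_of_ne hx1 with hx | hx
    · simp only [hΘ, hx, if_true, hQ, hH]
      apply le_of_eq
      ring
    · have hx' : ¬ ‖x‖ < 1 := not_lt.2 hx.le
      have hs := hgt x hx
      simp only [hΘ, hx', if_false, hH]
      rw [PrH_Hk_out k hN _ hs.le, Pk_out N k hN _ hs.le, En_out N k hN hk _ hs]
      have hγ' := gamma_gt N k hN hk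
      have hμ : (0 : ℝ) ≤ (k : ℝ) * (N + k - 2) := by
        have h1 : (2 : ℝ) ≤ N := by exact_mod_cast hN
        have h2 : (1 : ℝ) ≤ k := by exact_mod_cast hk
        apply mul_nonneg <;> linarith
      have h3 : (k : ℝ) * (N + k - 2) * Fp N k 1 ^ 2 / ‖x‖ ^ 2
          ≤ (k : ℝ) * (N + k - 2) * Fp N k 1 ^ 2 :=
        div_le_self (mul_nonneg hμ (sq_nonneg _)) hs.le
      have h4 : (k : ℝ) * (N + k - 2) * Fp N k 1 ^ 2 ≤ γ * Fp N k 1 ^ 2 :=
        mul_le_mul_of_nonneg_right hγ'.le (sq_nonneg _)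
      have h5 : 0 ≤ γ * Fp N k 1 ^ 2 - (k : ℝ) * (N + k - 2) * Fp N k 1 ^ 2 / ‖x‖ ^ 2 := by
        linarith
      have := mul_nonneg (sq_nonneg (u x)) h5
      simpa using this
  linarith

end Pool.Agent.H94.ER
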