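import Pool.Agent.H94.ER.BaB

/-!
# TrB: a function with bounded energy is not concentrated at the origin

`N ≥ 2`, `mass u = 1`, `energy u ≤ C`. Let `s = ‖x‖^2`, `X x = x / (1 + s)` (smooth), `w = u^2`.
Integration by parts (for each coordinate, `integral_mul_fderiv_eq_neg_fderiv_mul_of_integrable` or
`integral_bilinear_hasLineDerivAt_right_eq_neg_left_of_integrable`; all functions are `C^1`, one
factor has compact support):
 `∫ w div X = - ∑_i ∫ 2 u pd_i u x_i/(1+s) ≤ 2 (energy u)^{1/2} (∫ w s/(1+s)^2)^{1/2}`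
(pointwise `-2 u ∇u·X ≤ t |∇u|^2 + t⁻¹ u^2 s/(1+s)^2` for all `t > 0` is enough).
`div X = N/(1+s) - 2s/(1+s)^2 = (N + (N-2) s)/(1+s)^2 ≥ 2/(1+s)^2`  (`N ≥ 2`).
Put `T = ∫ w (1 - 1/(1+s)^2) = ∫ w (2s+s^2)/(1+s)^2`. Then `s/(1+s)^2 ≤ (2s+s^2)/(1+s)^2`, so
`2 (1 - T) ≤ 2 √(C T)`, i.e. `1 - T ≤ √(C T)`, and `T ≥ T0(C) > 0`, e.g. `T0 = 1/(4 (1 + C))`: if
`T < 1/(4(1+C))` then `T < 1/4` and `C T < 1/4`, so `1 - T > 3/4 > 1/2 ≥ √(C T)`.
Moreover `(2s+s^2)/(1+s)^2 ≤ 2 min(s,1)`, so `∫ w min(1,s) ≥ T0/2`; finally by Jensen (or Hölder; `w`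
is a probability density) `∫ w min(1,s)^k ≥ (∫ w min(1,s))^k ≥ (T0/2)^k`. (Elementary: for `0 ≤ m`,
`m^k ≥ a^k + k a^{k-1} (m - a)` (Bernoulli), integrate with `a = ∫ w min(1,s)`.)
-/

set_option autoImplicit false

open MeasureTheory

namespace Pool.Agent.H94.ER

variable {N : ℕ}

theorem TrB_cd (i : Fin N) : ContDiff ℝ 1 (fun x : E N => x i * (1 + ‖x‖ ^ 2)⁻¹) := by
  have h1 : ContDiff ℝ 1 (fun x : E N => x i) := (EuclideanSpace.proj (𝕜 := ℝ) i).contDiff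
  have h2 : ContDiff ℝ 1 (fun x : E N => (1 + ‖x‖ ^ 2)⁻¹) :=
    (contDiff_const.add (contDiff_norm_sq ℝ)).inv (fun x => by positivity)
  exact h1.mul h2

theorem TrB_F (s : ℝ) (hs : 0 ≤ s) : DifferentiableAt ℝ (fun s : ℝ => (1 + s)⁻¹) s ∧
    deriv (fun s : ℝ => (1 + s)⁻¹) s = -((1 + s) ^ 2)⁻¹ := by
  have h0 : (1 + s) ≠ 0 := by positivity
  have h1 : HasDerivAt (fun s : ℝ => 1 + s) 1 s := (hasDerivAt_id s).const_add 1
  have h2 := h1.inv h0
  refine ⟨h2.differentiableAt, ?_⟩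
  have h3 : deriv (fun s : ℝ => (1 + s)⁻¹) s = -1 / (1 + s) ^ 2 := h2.deriv
  rw [h3]
  field_simp

theorem TrB_pd (i : Fin N) (x : E N) : pd i (fun x : E N => x i * (1 + ‖x‖ ^ 2)⁻¹) x =
    (1 + ‖x‖ ^ 2)⁻¹ - 2 * ((1 + ‖x‖ ^ 2) ^ 2)⁻¹ * x i ^ 2 := by
  have hF := TrB_F (‖x‖ ^ 2) (by positivity)
  have h1 : DifferentiableAt ℝ (fun x : E N => x i) x :=
    (EuclideanSpace.proj (𝕜 := ℝ) i).differentiableAt
  have h2 : DifferentiableAt ℝ (fun x : E N => (1 + ‖x‖ ^ 2)⁻¹) x := by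
    have h3 : ContDiff ℝ 1 (fun x : E N => (1 + ‖x‖ ^ 2)⁻¹) :=
      (contDiff_const.add (contDiff_norm_sq ℝ)).inv (fun x => by positivity)
    exact h3.differentiable (by norm_num) x
  have h4 := pd_mul i (fun x : E N => x i) (fun x : E N => (1 + ‖x‖ ^ 2)⁻¹) x h1 h2
  have h5 := pd_radial i (fun s : ℝ => (1 + s)⁻¹) x hF.1
  rw [h4, h5, hF.2, pd_coord, if_pos rfl]
  ring

theorem TrB_sum (x : E N) : ∑ i, pd i (fun x : E N => x i * (1 + ‖x‖ ^ 2)⁻¹) x =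
    N * (1 + ‖x‖ ^ 2)⁻¹ - 2 * ((1 + ‖x‖ ^ 2) ^ 2)⁻¹ * ‖x‖ ^ 2 := by
  simp_rw [TrB_pd]
  rw [Finset.sum_sub_distrib, ← Finset.mul_sum, sum_coord_sq]
  simp

theorem TrB_int {u : E N → ℝ} (hu : Continuous u) (hc : HasCompactSupport u) {h : E N → ℝ}
    (hh : Continuous h) : Integrable (fun x => u x ^ 2 * h x) := by
  have hcs : HasCompactSupport (fun x => u x ^ 2) :=
    hc.comp_left (g := fun t : ℝ => t ^ 2) (by norm_num)
  have h2 : HasCompactSupport (fun x => u x ^ 2 * h x) := hcs.mul_right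
  exact ((hu.pow 2).mul hh).integrable_of_hasCompactSupport h2

theorem TrB_ibp {u : E N → ℝ} (hu : ContDiff ℝ 1 u) (hc : HasCompactSupport u) (i : Fin N) :
    ∫ x, u x ^ 2 * pd i (fun x : E N => x i * (1 + ‖x‖ ^ 2)⁻¹) x =
      - ∫ x, (2 * (u x * pd i u x)) * (x i * (1 + ‖x‖ ^ 2)⁻¹) := by
  have hsq : ContDiff ℝ 1 (fun x => u x ^ 2) := hu.pow 2
  have hcs : HasCompactSupport (fun x => u x ^ 2) :=
    hc.comp_left (g := fun t : ℝ => t ^ 2) (by norm_num)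
  have hφ := TrB_cd (N := N) i
  have e1 : ∀ x, pd i (fun x => u x ^ 2) x = 2 * (u x * pd i u x) := by
    intro x
    have hd : DifferentiableAt ℝ u x := hu.differentiable (by norm_num) x
    have h4 := pd_mul i u u x hd hd
    have h5 : (fun x => u x ^ 2) = fun x => u x * u x := by
      funext y; ring
    rw [h5, h4]
    ring
  have hpu : Continuous (pd i (fun x => u x ^ 2)) := continuous_pd i _ hsq
  have hcpu : HasCompactSupport (pd i (fun x => u x ^ 2)) := hasCompactSupport_pd i _ hcs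
  have hpφ : Continuous (pd i (fun x : E N => x i * (1 + ‖x‖ ^ 2)⁻¹)) := continuous_pd i _ hφ
  have i1 : Integrable (fun x => pd i (fun x => u x ^ 2) x * (x i * (1 + ‖x‖ ^ 2)⁻¹)) :=
    (hpu.mul hφ.continuous).integrable_of_hasCompactSupport hcpu.mul_right
  have i2 : Integrable (fun x => u x ^ 2 * pd i (fun x : E N => x i * (1 + ‖x‖ ^ 2)⁻¹) x) :=
    (hsq.continuous.mul hpφ).integrable_of_hasCompactSupport hcs.mul_right
  have i3 : Integrable (fun x => u x ^ 2 * (x i * (1 + ‖x‖ ^ 2)⁻¹)) :=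
    (hsq.continuous.mul hφ.continuous).integrable_of_hasCompactSupport hcs.mul_right
  have key := integral_mul_fderiv_eq_neg_fderiv_mul_of_integrable (μ := (volume : Measure (E N)))
    (f := fun x => u x ^ 2) (g := fun x : E N => x i * (1 + ‖x‖ ^ 2)⁻¹)
    (v := EuclideanSpace.single i 1) i1 i2 i3
    (fun x _ => hsq.differentiable (by norm_num) x) (fun x _ => hφ.differentiable (by norm_num) x)
  have key2 : ∫ x, u x ^ 2 * pd i (fun x : E N => x i * (1 + ‖x‖ ^ 2)⁻¹) x =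
      - ∫ x, pd i (fun x => u x ^ 2) x * (x i * (1 + ‖x‖ ^ 2)⁻¹) := key
  rw [key2]
  simp_rw [e1]

theorem TrB_point (t U a b : ℝ) (ht : 0 < t) : -(2 * (U * a)) * b ≤ t * a ^ 2 + t⁻¹ * (U ^ 2 * b ^ 2) := by
  have h : 0 ≤ (t * a + U * b) ^ 2 := sq_nonneg _
  have e : t * (t * a ^ 2 + t⁻¹ * (U ^ 2 * b ^ 2)) = (t * a) ^ 2 + U ^ 2 * b ^ 2 := by
    field_simp
  have e2 : t * (-(2 * (U * a)) * b) ≤ t * (t * a ^ 2 + t⁻¹ * (U ^ 2 * b ^ 2)) := by
    rw [e]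
    nlinarith
  exact le_of_mul_le_mul_left e2 ht

/-- the weight -/
noncomputable def TrB_q (s : ℝ) : ℝ := (2 * s + s ^ 2) * ((1 + s) ^ 2)⁻¹

theorem TrB_main (hN : 2 ≤ N) {t : ℝ} (ht : 0 < t) {u : E N → ℝ} (hu : ContDiff ℝ 1 u)
    (hc : HasCompactSupport u) (hm : mass u = 1) :
    2 * (1 - ∫ x, u x ^ 2 * TrB_q (‖x‖ ^ 2)) ≤
      t * energy u + t⁻¹ * ∫ x, u x ^ 2 * TrB_q (‖x‖ ^ 2) := by
  have hcn : Continuous (fun x : E N => ‖x‖ ^ 2) := continuous_norm.pow 2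
  have hpos : ∀ x : E N, (0 : ℝ) < 1 + ‖x‖ ^ 2 := fun x => by positivity
  have hci : Continuous (fun x : E N => (1 + ‖x‖ ^ 2)⁻¹) :=
    (continuous_const.add hcn).inv₀ fun x => (hpos x).ne'
  have hci2 : Continuous (fun x : E N => ((1 + ‖x‖ ^ 2) ^ 2)⁻¹) :=
    ((continuous_const.add hcn).pow 2).inv₀ fun x => (pow_pos (hpos x) 2).ne'
  have hq : Continuous (fun x : E N => TrB_q (‖x‖ ^ 2)) := by
    unfold TrB_q
    exact ((continuous_const.mul hcn).add (hcn.pow 2)).mul hci2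
  have iq := TrB_int hu.continuous hc hq
  have i1 := TrB_int hu.continuous hc (h := fun _ => (1 : ℝ)) continuous_const
  have hcu := hu.continuous
  -- left side
  have hdiv : ∫ x, u x ^ 2 * (N * (1 + ‖x‖ ^ 2)⁻¹ - 2 * ((1 + ‖x‖ ^ 2) ^ 2)⁻¹ * ‖x‖ ^ 2) =
      ∑ i, ∫ x, u x ^ 2 * pd i (fun x : E N => x i * (1 + ‖x‖ ^ 2)⁻¹) x := by
    rw [← integral_finsetSum]
    · refine integral_congr_ae (Filter.Eventually.of_forall fun x => ?_)
      change u x ^ 2 * _ = ∑ i, u x ^ 2 * _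
      rw [← Finset.mul_sum, TrB_sum]
    · intro i _
      exact TrB_int hcu hc (continuous_pd i _ (TrB_cd i))
  have hlow : 2 * (1 - ∫ x, u x ^ 2 * TrB_q (‖x‖ ^ 2)) ≤
      ∫ x, u x ^ 2 * (N * (1 + ‖x‖ ^ 2)⁻¹ - 2 * ((1 + ‖x‖ ^ 2) ^ 2)⁻¹ * ‖x‖ ^ 2) := by
    have e1 : 2 * (1 - ∫ x, u x ^ 2 * TrB_q (‖x‖ ^ 2)) =
        ∫ x, 2 * (u x ^ 2 * 1 - u x ^ 2 * TrB_q (‖x‖ ^ 2)) := by
      rw [integral_const_mul, integral_sub i1 iq]
      have e0 : ∫ x, u x ^ 2 * (1 : ℝ) = mass u := by simp [mass]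
      rw [e0, hm]
    rw [e1]
    refine integral_mono ((i1.sub iq).const_mul 2) (TrB_int hcu hc ?_) fun x => ?_
    · exact (continuous_const.mul hci).sub ((continuous_const.mul hci2).mul hcn)
    · have h1 := hpos x
      set s := ‖x‖ ^ 2 with hs
      have hs0 : 0 ≤ s := by positivity
      have hN' : (2 : ℝ) ≤ N := by exact_mod_cast hN
      have e2 : (N : ℝ) * (1 + s)⁻¹ - 2 * ((1 + s) ^ 2)⁻¹ * s =
          (N * (1 + s) - 2 * s) * ((1 + s) ^ 2)⁻¹ := by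
        field_simp
      have e3 : 1 - TrB_q s = ((1 + s) ^ 2)⁻¹ := by
        unfold TrB_q
        field_simp
        ring
      have e4 : 2 * (u x ^ 2 * 1 - u x ^ 2 * TrB_q s) = u x ^ 2 * (2 * ((1 + s) ^ 2)⁻¹) := by
        rw [← e3]; ring
      change 2 * (u x ^ 2 * 1 - u x ^ 2 * TrB_q s) ≤ u x ^ 2 * (N * (1 + s)⁻¹ - 2 * ((1 + s) ^ 2)⁻¹ * s)
      rw [e4, e2]
      refine mul_le_mul_of_nonneg_left ?_ (sq_nonneg _)
      refine mul_le_mul_of_nonneg_right ?_ (by positivity)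
      nlinarith
  refine hlow.trans ?_
  rw [hdiv]
  simp_rw [TrB_ibp hu hc]
  have hdc : Continuous (dot u u) := continuous_dot u u hu hu
  have hdi : Integrable (dot u u) :=
    hdc.integrable_of_hasCompactSupport (hasCompactSupport_dot u u hc)
  have iI : ∀ i : Fin N, Integrable (fun x =>
      (2 * (u x * pd i u x)) * (x i * (1 + ‖x‖ ^ 2)⁻¹)) := by
    intro i
    refine (((continuous_const.mul (hcu.mul (continuous_pd i u hu))).mul
      (TrB_cd i).continuous)).integrable_of_hasCompactSupport ?_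
    exact (HasCompactSupport.mul_left (hc.mul_right)).mul_right
  have e5 : ∑ i, -∫ x, (2 * (u x * pd i u x)) * (x i * (1 + ‖x‖ ^ 2)⁻¹) =
      ∫ x, ∑ i, -((2 * (u x * pd i u x)) * (x i * (1 + ‖x‖ ^ 2)⁻¹)) := by
    rw [integral_finsetSum]
    · refine Finset.sum_congr rfl fun i _ => ?_
      rw [integral_neg]
    · intro i _
      exact (iI i).neg
  rw [e5, energy, ← integral_const_mul, ← integral_const_mul,
    ← integral_add (hdi.const_mul t) (iq.const_mul t⁻¹)]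
  refine integral_mono (integrable_finset_sum _ fun i _ => (iI i).neg)
    ((hdi.const_mul t).add (iq.const_mul t⁻¹)) fun x => ?_
  have h1 := hpos x
  change ∑ i, -((2 * (u x * pd i u x)) * (x i * (1 + ‖x‖ ^ 2)⁻¹)) ≤
    t * dot u u x + t⁻¹ * (u x ^ 2 * TrB_q (‖x‖ ^ 2))
  calc ∑ i, -((2 * (u x * pd i u x)) * (x i * (1 + ‖x‖ ^ 2)⁻¹))
      ≤ ∑ i, (t * (pd i u x) ^ 2 + t⁻¹ * (u x ^ 2 * (x i * (1 + ‖x‖ ^ 2)⁻¹) ^ 2)) := by
        refine Finset.sum_le_sum fun i _ => ?_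
        have := TrB_point t (u x) (pd i u x) (x i * (1 + ‖x‖ ^ 2)⁻¹) ht
        linarith
    _ = t * dot u u x + t⁻¹ * (u x ^ 2 * (‖x‖ ^ 2 * ((1 + ‖x‖ ^ 2) ^ 2)⁻¹)) := by
        rw [Finset.sum_add_distrib, ← Finset.mul_sum, ← Finset.mul_sum, ← Finset.mul_sum]
        congr 1
        · rw [dot]
          congr 1
          exact Finset.sum_congr rfl fun i _ => sq _
        · congr 2
          simp_rw [mul_pow]
          rw [← Finset.sum_mul, sum_coord_sq, inv_pow]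
    _ ≤ _ := by
        refine add_le_add le_rfl (mul_le_mul_of_nonneg_left ?_ (by positivity))
        refine mul_le_mul_of_nonneg_left ?_ (sq_nonneg _)
        unfold TrB_q
        refine mul_le_mul_of_nonneg_right ?_ (by positivity)
        have : 0 ≤ ‖x‖ ^ 2 := by positivity
        nlinarith

theorem TrB_q_le (s : ℝ) (hs : 0 ≤ s) : TrB_q s ≤ 2 * min 1 s := by
  unfold TrB_q
  have h1 : 0 < (1 + s) ^ 2 := by positivity
  rw [← div_eq_mul_inv, div_le_iff₀ h1]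
  rcases le_total 1 s with h | h
  · rw [min_eq_left h]; nlinarith
  · rw [min_eq_right h]
    have h2 : 0 ≤ s ^ 2 := by positivity
    have h3 : 0 ≤ s ^ 3 := by positivity
    nlinarith

theorem TrB_bern (m a : ℝ) (hm : 0 ≤ m) (ha : 0 < a) (k : ℕ) :
    a ^ k * (1 + k * (m / a - 1)) ≤ m ^ k := by
  have h1 : -2 ≤ m / a - 1 := by
    have : 0 ≤ m / a := by positivity
    linarith
  have h2 := one_add_mul_le_pow h1 k
  have h3 : (1 + (m / a - 1)) = m / a := by ring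
  rw [h3] at h2
  calc a ^ k * (1 + k * (m / a - 1)) ≤ a ^ k * (m / a) ^ k :=
        mul_le_mul_of_nonneg_left h2 (by positivity)
    _ = m ^ k := by rw [← mul_pow, mul_div_cancel₀ _ ha.ne']

theorem anticonc (hN : 2 ≤ N) (C : ℝ) (hC : 0 ≤ C) (k : ℕ) :
    ∃ c : ℝ, 0 < c ∧ ∀ u : E N → ℝ, ContDiff ℝ 1 u → HasCompactSupport u → mass u = 1 →
      energy u ≤ C → c ≤ ∫ x, u x ^ 2 * (min 1 (‖x‖ ^ 2)) ^ k := by
  set a : ℝ := 1 / (2 * (3 + C)) with hadef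
  have ha : 0 < a := by positivity
  refine ⟨a ^ k, by positivity, fun u hu hc hm he => ?_⟩
  have hcn : Continuous (fun x : E N => ‖x‖ ^ 2) := continuous_norm.pow 2
  have hpos : ∀ x : E N, (0 : ℝ) < 1 + ‖x‖ ^ 2 := fun x => by positivity
  have hci2 : Continuous (fun x : E N => ((1 + ‖x‖ ^ 2) ^ 2)⁻¹) :=
    ((continuous_const.add hcn).pow 2).inv₀ fun x => (pow_pos (hpos x) 2).ne'
  have hq : Continuous (fun x : E N => TrB_q (‖x‖ ^ 2)) := by
    unfold TrB_q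
    exact ((continuous_const.mul hcn).add (hcn.pow 2)).mul hci2
  have hmin : Continuous (fun x : E N => min 1 (‖x‖ ^ 2)) := continuous_const.min hcn
  have hcu := hu.continuous
  have iq := TrB_int hcu hc hq
  have im := TrB_int hcu hc hmin
  have i1 := TrB_int hcu hc (h := fun _ => (1 : ℝ)) continuous_const
  have ik := TrB_int hcu hc (hmin.pow k)
  have e1 : ∫ x, u x ^ 2 * (1 : ℝ) = 1 := by
    have e0 : ∫ x, u x ^ 2 * (1 : ℝ) = mass u := by simp [mass]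
    rw [e0, hm]
  set T := ∫ x, u x ^ 2 * TrB_q (‖x‖ ^ 2) with hT
  set M := ∫ x, u x ^ 2 * min 1 (‖x‖ ^ 2) with hM
  have hmain := TrB_main hN (t := (1 + C)⁻¹) (by positivity) hu hc hm
  rw [← hT, inv_inv] at hmain
  have h2 : (1 + C)⁻¹ * energy u ≤ 1 := by
    calc (1 + C)⁻¹ * energy u ≤ (1 + C)⁻¹ * C :=
          mul_le_mul_of_nonneg_left he (by positivity)
      _ ≤ (1 + C)⁻¹ * (1 + C) := mul_le_mul_of_nonneg_left (by linarith) (by positivity)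
      _ = 1 := inv_mul_cancel₀ (by positivity)
  have h3 : 1 ≤ (3 + C) * T := by linarith
  have h4 : T ≤ 2 * M := by
    rw [hT, hM, ← integral_const_mul]
    refine integral_mono iq (im.const_mul 2) fun x => ?_
    change u x ^ 2 * TrB_q (‖x‖ ^ 2) ≤ 2 * (u x ^ 2 * min 1 (‖x‖ ^ 2))
    have := mul_le_mul_of_nonneg_left (TrB_q_le (‖x‖ ^ 2) (by positivity)) (sq_nonneg (u x))
    linarith
  have h5 : a ≤ M := by
    rw [hadef, div_le_iff₀ (by positivity)]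
    nlinarith
  have h6 : a ^ k * (1 + k * (M / a - 1)) ≤ ∫ x, u x ^ 2 * (min 1 (‖x‖ ^ 2)) ^ k := by
    have e2 : a ^ k * (1 + k * (M / a - 1)) = ∫ x, (a ^ k * (1 - k) * (u x ^ 2 * 1) +
        a ^ k * k / a * (u x ^ 2 * min 1 (‖x‖ ^ 2))) := by
      rw [integral_add (i1.const_mul _) (im.const_mul _), integral_const_mul, integral_const_mul,
        e1, ← hM]
      ring
    rw [e2]
    refine integral_mono ((i1.const_mul _).add (im.const_mul _)) ik fun x => ?_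
    change a ^ k * (1 - k) * (u x ^ 2 * 1) + a ^ k * k / a * (u x ^ 2 * min 1 (‖x‖ ^ 2)) ≤
      u x ^ 2 * (min 1 (‖x‖ ^ 2)) ^ k
    have h7 := TrB_bern (min 1 (‖x‖ ^ 2)) a (le_min zero_le_one (by positivity)) ha k
    have h8 := mul_le_mul_of_nonneg_left h7 (sq_nonneg (u x))
    calc _ = u x ^ 2 * (a ^ k * (1 + k * (min 1 (‖x‖ ^ 2) / a - 1))) := by ring
      _ ≤ _ := h8
  refine le_trans ?_ h6
  have h9 : 0 ≤ M / a - 1 := by
    rw [sub_nonneg, one_le_div ha]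
    exact h5
  have h10 : 0 ≤ (k : ℝ) * (M / a - 1) := by positivity
  calc a ^ k = a ^ k * 1 := (mul_one _).symm
    _ ≤ _ := mul_le_mul_of_nonneg_left (by linarith) (by positivity)

end Pool.Agent.H94.ER
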