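import Pool.Agent.H94.ER.BaB

/-!
# TrD: the trial functions of degree 1 and 2

`F : ℝ → ℝ` of class `C^1`, `s = ‖x‖^2`, `F' = deriv F s`.
`pd l (tf F j) x = F δ_lj + 2 F' x_l x_j` (`pd_radial`, `pd_coord`, `pd_mul`), hence
`dot (tf i) (tf j) = F^2 δ_ij + (4 F F' + 4 s F'^2) x_i x_j`.
For degree 2 with `Y = x_a x_b - δ_ab s/N`: `pd l (F Y) = F pd_l Y + 2 F' x_l Y`, `x · ∇Y = 2 Y`,
`∑_ab Y^2 = (1 - 1/N) s^2`, `∑_ab |∇Y|^2 = (1 - 1/N) 2 (N+2) s`, so
`∑_ab |∇(F Y)|^2 = (1-1/N) (2(N+2) s F^2 + 8 s^2 F F' + 4 s^3 F'^2) = (1-1/N) En N 2 F s`,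
`∑_ab (F Y)^2 = (1-1/N) s^2 F^2 = (1 - 1/N) Pk 2 F s`; also
`∑_j (tf F j)^2 = Pk 1 F s`, `∑_j dot (tf F j) (tf F j) = En N 1 F s`.

Bounds (`tf_bound`, `tg_bound`): if `F s = ρ s^(-k/2)` for `s ≥ 1` (`k = 1` for `tf`, `k = 2` for `tg`)
then outside the unit ball `tf F j = ρ x_j/‖x‖` and `tg F a b = ρ (x_a x_b/‖x‖^2 - δ_ab/N)`, which
are bounded with bounded derivatives there (from the formula for `pd` with
`deriv F s = -(k/2) ρ s^(-k/2-1)` for `s > 1`, and by continuity of `deriv F` also at `s = 1`); on the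
closed unit ball use continuity on a compact set.

`tf_odd`, `tg_even`, `dot_tf_tg_odd`: parity (`pd l` of an odd function is even and conversely; or use
the explicit formulas for the derivatives).
-/

set_option autoImplicit false

open MeasureTheory

namespace Pool.Agent.H94.ER

variable {N : ℕ}

theorem trd_coord_contDiff (j : Fin N) : ContDiff ℝ 1 (fun y : E N => y j) :=
  (EuclideanSpace.proj (𝕜 := ℝ) j : E N →L[ℝ] ℝ).contDiff

theorem contDiff_tf (F : ℝ → ℝ) (hF : ContDiff ℝ 1 F) (j : Fin N) : ContDiff ℝ 1 (tf F j) := by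
  have h1 : ContDiff ℝ 1 (fun y : E N => F (‖y‖ ^ 2)) := hF.comp (contDiff_norm_sq ℝ)
  exact h1.mul (trd_coord_contDiff j)

/-- the coefficient of the trace -/
noncomputable def trdc {N : ℕ} (a b : Fin N) : ℝ := if a = b then 1 / (N : ℝ) else 0

theorem trd_tg_eq (F : ℝ → ℝ) (a b : Fin N) : tg F a b =
    fun y : E N => F (‖y‖ ^ 2) * (y a * y b + (-trdc a b) * ‖y‖ ^ 2) := by
  funext y
  unfold tg trdc
  by_cases h : a = b
  · rw [if_pos h, if_pos h]; ring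
  · rw [if_neg h, if_neg h]; ring

theorem trd_Y_contDiff (a b : Fin N) :
    ContDiff ℝ 1 (fun y : E N => y a * y b + (-trdc a b) * ‖y‖ ^ 2) :=
  ((trd_coord_contDiff a).mul (trd_coord_contDiff b)).add
    (contDiff_const.mul (contDiff_norm_sq ℝ))

theorem contDiff_tg (F : ℝ → ℝ) (hF : ContDiff ℝ 1 F) (a b : Fin N) : ContDiff ℝ 1 (tg F a b) := by
  rw [trd_tg_eq]
  have h1 : ContDiff ℝ 1 (fun y : E N => F (‖y‖ ^ 2)) := hF.comp (contDiff_norm_sq ℝ)
  exact h1.mul (trd_Y_contDiff a b)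

theorem trd_pd_tf (F : ℝ → ℝ) (hF : ContDiff ℝ 1 F) (l j : Fin N) (x : E N) :
    pd l (tf F j) x = F (‖x‖ ^ 2) * (if l = j then 1 else 0)
      + 2 * deriv F (‖x‖ ^ 2) * x l * x j := by
  have h1 : ContDiff ℝ 1 (fun y : E N => F (‖y‖ ^ 2)) := hF.comp (contDiff_norm_sq ℝ)
  have h2 := pd_mul l (fun y : E N => F (‖y‖ ^ 2)) (fun y : E N => y j) x
    (h1.differentiable one_ne_zero x) ((trd_coord_contDiff j).differentiable one_ne_zero x)
  have h3 : pd l (tf F j) x = pd l (fun y : E N => F (‖y‖ ^ 2) * y j) x := rfl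
  rw [h3, h2, pd_coord, pd_radial l F x (hF.differentiable one_ne_zero _)]

theorem trd_pd_Y (l a b : Fin N) (x : E N) :
    pd l (fun y : E N => y a * y b + (-trdc a b) * ‖y‖ ^ 2) x =
      x a * (if l = b then 1 else 0) + (if l = a then 1 else 0) * x b - 2 * trdc a b * x l := by
  have ha := (trd_coord_contDiff a).differentiable one_ne_zero x
  have hb := (trd_coord_contDiff b).differentiable one_ne_zero x
  have hn : DifferentiableAt ℝ (fun y : E N => (-trdc a b) * ‖y‖ ^ 2) x :=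
    (contDiff_const.mul (contDiff_norm_sq ℝ) : ContDiff ℝ 1 _).differentiable one_ne_zero x
  rw [pd_add l (fun y : E N => y a * y b) (fun y : E N => (-trdc a b) * ‖y‖ ^ 2) x
    (ha.mul hb) hn, pd_mul l (fun y : E N => y a) (fun y : E N => y b) x ha hb, pd_coord, pd_coord]
  have h := pd_radial l (fun s => (-trdc a b) * s) x
    ((differentiable_const _).mul differentiable_id _)
  rw [show pd l (fun y : E N => (-trdc a b) * ‖y‖ ^ 2) x =
    pd l (fun y : E N => (fun s => (-trdc a b) * s) (‖y‖ ^ 2)) x from rfl, h]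
  rw [deriv_const_mul _ differentiableAt_id]
  have : deriv (fun y : ℝ => y) (‖x‖ ^ 2) = 1 := deriv_id _
  rw [this]
  ring

theorem trd_pd_tg (F : ℝ → ℝ) (hF : ContDiff ℝ 1 F) (l a b : Fin N) (x : E N) :
    pd l (tg F a b) x = F (‖x‖ ^ 2) * (x a * (if l = b then 1 else 0)
        + (if l = a then 1 else 0) * x b - 2 * trdc a b * x l)
      + 2 * deriv F (‖x‖ ^ 2) * x l * (x a * x b + (-trdc a b) * ‖x‖ ^ 2) := by
  have h1 : ContDiff ℝ 1 (fun y : E N => F (‖y‖ ^ 2)) := hF.comp (contDiff_norm_sq ℝ)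
  rw [trd_tg_eq, pd_mul l (fun y : E N => F (‖y‖ ^ 2))
    (fun y : E N => y a * y b + (-trdc a b) * ‖y‖ ^ 2) x (h1.differentiable one_ne_zero x)
    ((trd_Y_contDiff a b).differentiable one_ne_zero x), trd_pd_Y,
    pd_radial l F x (hF.differentiable one_ne_zero _)]

theorem dot_tf (F : ℝ → ℝ) (hF : ContDiff ℝ 1 F) (i j : Fin N) (x : E N) :
    dot (tf F i) (tf F j) x = (if i = j then F (‖x‖ ^ 2) ^ 2 else 0)
      + (4 * F (‖x‖ ^ 2) * deriv F (‖x‖ ^ 2) + 4 * ‖x‖ ^ 2 * deriv F (‖x‖ ^ 2) ^ 2)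
        * (x i * x j) := by
  unfold dot
  set f := F (‖x‖ ^ 2) with hf
  set g := deriv F (‖x‖ ^ 2) with hg
  have h : ∀ l : Fin N, pd l (tf F i) x * pd l (tf F j) x =
      f ^ 2 * ((if l = i then 1 else 0) * (if l = j then 1 else 0))
      + 2 * f * g * x j * ((if l = i then 1 else 0) * x l)
      + 2 * f * g * x i * ((if l = j then 1 else 0) * x l)
      + 4 * g ^ 2 * (x i * x j) * x l ^ 2 := by
    intro l
    rw [trd_pd_tf F hF, trd_pd_tf F hF, ← hf, ← hg]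
    ring
  rw [Finset.sum_congr rfl (fun l _ => h l)]
  simp only [Finset.sum_add_distrib, ← Finset.mul_sum, sum_coord_sq]
  simp only [ite_mul, one_mul, zero_mul, Finset.sum_ite_eq', Finset.mem_univ, if_true]
  by_cases hij : i = j
  · subst hij
    simp only [if_true]
    ring
  · rw [if_neg hij, if_neg hij]
    ring

theorem sum_tf_sq (F : ℝ → ℝ) (x : E N) : ∑ j, tf F j x ^ 2 = Pk 1 F (‖x‖ ^ 2) := by
  unfold tf Pk
  rw [Finset.sum_congr rfl (fun j _ => mul_pow (F (‖x‖ ^ 2)) (x j) 2), ← Finset.mul_sum,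
    sum_coord_sq]
  ring

theorem sum_dot_tf (F : ℝ → ℝ) (hF : ContDiff ℝ 1 F) (x : E N) :
    ∑ j, dot (tf F j) (tf F j) x = En N 1 F (‖x‖ ^ 2) := by
  rw [Finset.sum_congr rfl (fun j _ => dot_tf F hF j j x)]
  simp only [if_true, Finset.sum_add_distrib, ← Finset.mul_sum, Finset.sum_const,
    Finset.card_univ, Fintype.card_fin, nsmul_eq_mul]
  rw [Finset.sum_congr rfl (fun j _ => (pow_two (x j)).symm), sum_coord_sq]
  unfold En
  push_cast
  ring

theorem trd_c_sum (hN : 1 ≤ N) (G : Fin N → Fin N → ℝ) :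
    ∑ a, ∑ b, trdc a b * G a b = (1 / (N : ℝ)) * ∑ a, G a a := by
  unfold trdc
  simp only [ite_mul, zero_mul, Finset.sum_ite_eq, Finset.mem_univ, if_true]
  rw [Finset.mul_sum]

theorem trd_prod_sum (x : E N) : ∑ a, ∑ b, x a ^ 2 * x b ^ 2 = ‖x‖ ^ 2 * ‖x‖ ^ 2 := by
  rw [← sum_coord_sq, Finset.sum_mul_sum]

theorem trd_Y_sum (hN : 1 ≤ N) (x : E N) :
    ∑ a, ∑ b, (x a * x b + (-trdc a b) * ‖x‖ ^ 2) ^ 2 = (1 - 1 / (N : ℝ)) * (‖x‖ ^ 2) ^ 2 := by
  have hN0 : (N : ℝ) ≠ 0 := by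
    have : 0 < N := hN
    positivity
  have h : ∀ a b : Fin N, (x a * x b + (-trdc a b) * ‖x‖ ^ 2) ^ 2 =
      x a ^ 2 * x b ^ 2 + trdc a b * (-2 * ‖x‖ ^ 2 * (x a * x b)) +
        trdc a b * ((‖x‖ ^ 2) ^ 2 * trdc a b) := by
    intro a b; ring
  rw [Finset.sum_congr rfl (fun a _ => Finset.sum_congr rfl (fun b _ => h a b))]
  simp only [Finset.sum_add_distrib]
  rw [trd_prod_sum, trd_c_sum hN, trd_c_sum hN]
  rw [← Finset.mul_sum, ← Finset.mul_sum, Finset.sum_congr rfl (fun j _ => (pow_two (x j)).symm),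
    sum_coord_sq]
  have h2 : ∑ i : Fin N, trdc i i = 1 := by
    unfold trdc
    simp only [if_true, Finset.sum_const, Finset.card_univ, Fintype.card_fin, nsmul_eq_mul]
    field_simp
  rw [h2]
  ring

theorem sum_tg_sq (hN : 1 ≤ N) (F : ℝ → ℝ) (x : E N) :
    ∑ a, ∑ b, tg F a b x ^ 2 = (1 - 1 / (N : ℝ)) * Pk 2 F (‖x‖ ^ 2) := by
  have h : ∀ a b : Fin N, tg F a b x ^ 2 =
      F (‖x‖ ^ 2) ^ 2 * (x a * x b + (-trdc a b) * ‖x‖ ^ 2) ^ 2 := by
    intro a b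
    rw [trd_tg_eq]
    ring
  rw [Finset.sum_congr rfl (fun a _ => Finset.sum_congr rfl (fun b _ => h a b))]
  simp only [← Finset.mul_sum]
  rw [trd_Y_sum hN]
  unfold Pk
  ring

theorem trd_dot_tg (F : ℝ → ℝ) (hF : ContDiff ℝ 1 F) (a b : Fin N) (x : E N) :
    dot (tg F a b) (tg F a b) x =
      F (‖x‖ ^ 2) ^ 2 * (x a ^ 2 + x b ^ 2 + 2 * ((if a = b then 1 else 0) * (x a * x b))
        + trdc a b * (4 * ‖x‖ ^ 2 * trdc a b) + trdc a b * (-8 * (x a * x b)))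
      + (8 * F (‖x‖ ^ 2) * deriv F (‖x‖ ^ 2) + 4 * deriv F (‖x‖ ^ 2) ^ 2 * ‖x‖ ^ 2) *
        (x a * x b + (-trdc a b) * ‖x‖ ^ 2) ^ 2 := by
  unfold dot
  set f := F (‖x‖ ^ 2) with hf
  set g := deriv F (‖x‖ ^ 2) with hg
  set c := trdc a b with hc
  set Y := x a * x b + (-c) * ‖x‖ ^ 2 with hY
  have hd : ∀ (l k : Fin N), (if l = k then (1 : ℝ) else 0) * (if l = k then 1 else 0) =
      if l = k then 1 else 0 := by
    intro l k
    by_cases h : l = k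
    · rw [if_pos h]; ring
    · rw [if_neg h]; ring
  have h : ∀ l : Fin N, pd l (tg F a b) x * pd l (tg F a b) x =
      f ^ 2 * x a ^ 2 * (if l = b then 1 else 0)
      + f ^ 2 * x b ^ 2 * (if l = a then 1 else 0)
      + 2 * f ^ 2 * x a * x b * ((if l = a then 1 else 0) * (if l = b then 1 else 0))
      + (4 * f * g * Y * x a - 4 * c * f ^ 2 * x a) * ((if l = b then 1 else 0) * x l)
      + (4 * f * g * Y * x b - 4 * c * f ^ 2 * x b) * ((if l = a then 1 else 0) * x l)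
      + (4 * c ^ 2 * f ^ 2 - 8 * c * f * g * Y + 4 * g ^ 2 * Y ^ 2) * x l ^ 2 := by
    intro l
    rw [trd_pd_tg F hF, ← hf, ← hg, ← hc, ← hY]
    have h1 := hd l a
    have h2 := hd l b
    generalize (if l = a then (1 : ℝ) else 0) = A at h1 ⊢
    generalize (if l = b then (1 : ℝ) else 0) = B at h2 ⊢
    linear_combination (f ^ 2 * x b ^ 2) * h1 + (f ^ 2 * x a ^ 2) * h2
  rw [Finset.sum_congr rfl (fun l _ => h l)]
  simp only [Finset.sum_add_distrib, ← Finset.mul_sum, sum_coord_sq]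
  simp only [ite_mul, one_mul, zero_mul, Finset.sum_ite_eq', Finset.mem_univ, if_true]
  rw [hY]
  by_cases hab : a = b
  · rw [if_pos hab, if_pos hab]
    ring
  · rw [if_neg hab, if_neg hab]
    ring

theorem sum_dot_tg (hN : 1 ≤ N) (F : ℝ → ℝ) (hF : ContDiff ℝ 1 F) (x : E N) :
    ∑ a, ∑ b, dot (tg F a b) (tg F a b) x = (1 - 1 / (N : ℝ)) * En N 2 F (‖x‖ ^ 2) := by
  have hN0 : (N : ℝ) ≠ 0 := by
    have : 0 < N := hN
    positivity
  rw [Finset.sum_congr rfl (fun a _ => Finset.sum_congr rfl (fun b _ => trd_dot_tg F hF a b x))]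
  simp only [Finset.sum_add_distrib, ← Finset.mul_sum]
  rw [trd_Y_sum hN, trd_c_sum hN, trd_c_sum hN]
  have h1 : ∑ a : Fin N, ∑ _b : Fin N, x a ^ 2 = N * ‖x‖ ^ 2 := by
    simp only [Finset.sum_const, Finset.card_univ, Fintype.card_fin, nsmul_eq_mul]
    rw [← Finset.mul_sum, sum_coord_sq]
  have h2 : ∑ _a : Fin N, ∑ b : Fin N, x b ^ 2 = N * ‖x‖ ^ 2 := by
    rw [sum_coord_sq]
    simp only [Finset.sum_const, Finset.card_univ, Fintype.card_fin, nsmul_eq_mul]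
  have h3 : ∑ a : Fin N, ∑ b : Fin N, (if a = b then (1 : ℝ) else 0) * (x a * x b) = ‖x‖ ^ 2 := by
    simp only [ite_mul, one_mul, zero_mul, Finset.sum_ite_eq, Finset.mem_univ, if_true]
    rw [Finset.sum_congr rfl (fun j _ => (pow_two (x j)).symm), sum_coord_sq]
  have h4 : ∑ i : Fin N, trdc i i = 1 := by
    unfold trdc
    simp only [if_true, Finset.sum_const, Finset.card_univ, Fintype.card_fin, nsmul_eq_mul]
    field_simp
  rw [h1, h2, h3, ← Finset.mul_sum, ← Finset.mul_sum, h4,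
    Finset.sum_congr rfl (fun j _ => (pow_two (x j)).symm), sum_coord_sq]
  unfold En
  push_cast
  field_simp
  ring

theorem trd_bound {κ : Type} [Fintype κ] (f : κ → E N → ℝ) (hf : ∀ j, ContDiff ℝ 1 (f j))
    (B : ℝ) (hB : 0 ≤ B)
    (hout : ∀ (j : κ) (x : E N), 1 < ‖x‖ → |f j x| ≤ B ∧ ∀ i, |pd i (f j) x| ≤ B) :
    ∃ A : ℝ, 0 ≤ A ∧ ∀ (j : κ) (x : E N), |f j x| ≤ A ∧ ∀ i, |pd i (f j) x| ≤ A := by
  have hcont : Continuous (fun x : E N => ∑ j, |f j x| + ∑ j, ∑ i, |pd i (f j) x|) := by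
    refine Continuous.add ?_ ?_
    · exact continuous_finsetSum _ (fun j _ => (hf j).continuous.abs)
    · exact continuous_finsetSum _ (fun j _ => continuous_finsetSum _
        (fun i _ => (continuous_pd i (f j) (hf j)).abs))
  obtain ⟨C, hC⟩ := (isCompact_closedBall (0 : E N) 1).exists_bound_of_continuousOn
    hcont.continuousOn
  have h1 : ∀ (j : κ) (x : E N), |f j x| ≤ ∑ j, |f j x| + ∑ j, ∑ i, |pd i (f j) x| := by
    intro j x
    have h2 := Finset.single_le_sum (f := fun j => |f j x|) (fun j _ => abs_nonneg _)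
      (Finset.mem_univ j)
    have h3 : 0 ≤ ∑ j, ∑ i, |pd i (f j) x| :=
      Finset.sum_nonneg (fun j _ => Finset.sum_nonneg (fun i _ => abs_nonneg _))
    linarith
  have h1' : ∀ (j : κ) (i : Fin N) (x : E N),
      |pd i (f j) x| ≤ ∑ j, |f j x| + ∑ j, ∑ i, |pd i (f j) x| := by
    intro j i x
    have h2 := Finset.single_le_sum (f := fun i => |pd i (f j) x|) (fun i _ => abs_nonneg _)
      (Finset.mem_univ i)
    have h4 := Finset.single_le_sum (f := fun j => ∑ i, |pd i (f j) x|)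
      (fun j _ => Finset.sum_nonneg (fun i _ => abs_nonneg _)) (Finset.mem_univ j)
    have h3 : 0 ≤ ∑ j, |f j x| := Finset.sum_nonneg (fun j _ => abs_nonneg _)
    have h5 : |pd i (f j) x| ≤ ∑ i, |pd i (f j) x| := h2
    have h6 : ∑ i, |pd i (f j) x| ≤ ∑ j, ∑ i, |pd i (f j) x| := h4
    linarith
  have hin : ∀ x : E N, ‖x‖ ≤ 1 → ∑ j, |f j x| + ∑ j, ∑ i, |pd i (f j) x| ≤ C := by
    intro x hx
    have := hC x (by rw [mem_closedBall_zero_iff]; exact hx)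
    exact (le_abs_self _).trans this
  refine ⟨max B C, le_max_of_le_left hB, fun j x => ?_⟩
  by_cases hx : ‖x‖ ≤ 1
  · exact ⟨(h1 j x).trans ((hin x hx).trans (le_max_right _ _)),
      fun i => (h1' j i x).trans ((hin x hx).trans (le_max_right _ _))⟩
  · have h := hout j x (not_le.1 hx)
    exact ⟨h.1.trans (le_max_left _ _), fun i => (h.2 i).trans (le_max_left _ _)⟩

theorem trd_abs (x : E N) (l : Fin N) : |x l| ≤ ‖x‖ := PiLp.norm_apply_le x l

theorem trd_deriv (F : ℝ → ℝ) (r : ℝ) (hout : ∀ s, 1 ≤ s → F s = F 1 * s ^ r) (s : ℝ)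
    (hs : 1 < s) : deriv F s = F 1 * (r * s ^ (r - 1)) := by
  have h1 : F =ᶠ[nhds s] fun t => F 1 * t ^ r := by
    filter_upwards [Ioi_mem_nhds hs] with t ht
    exact hout t (le_of_lt ht)
  rw [h1.deriv_eq]
  have h2 : HasDerivAt (fun t : ℝ => t ^ r) (r * s ^ (r - 1)) s :=
    Real.hasDerivAt_rpow_const (Or.inl (by linarith))
  exact (h2.const_mul (F 1)).deriv

theorem tf_bound (F : ℝ → ℝ) (hF : ContDiff ℝ 1 F)
    (hout : ∀ s, 1 ≤ s → F s = F 1 * s ^ (-(1 : ℝ) / 2)) :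
    ∃ A : ℝ, 0 ≤ A ∧ ∀ (j : Fin N) (x : E N), |tf F j x| ≤ A ∧ ∀ i, |pd i (tf F j) x| ≤ A := by
  refine trd_bound (fun j => tf F j) (fun j => contDiff_tf F hF j) (2 * |F 1|)
    (by positivity) ?_
  intro j x hx
  have ht0 : 0 < ‖x‖ := by linarith
  have hs : 1 < ‖x‖ ^ 2 := by nlinarith
  have hs0 : (0 : ℝ) < ‖x‖ ^ 2 := by positivity
  have e1 : (‖x‖ ^ 2) ^ (-(1 : ℝ) / 2) = ‖x‖⁻¹ := by
    rw [← Real.rpow_natCast, ← Real.rpow_mul ht0.le]
    norm_num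
    exact Real.rpow_neg_one _
  have e2 : (‖x‖ ^ 2) ^ (-(1 : ℝ) / 2 - 1) = ‖x‖⁻¹ * (‖x‖ ^ 2)⁻¹ := by
    rw [Real.rpow_sub hs0, e1, Real.rpow_one, div_eq_mul_inv]
  have hFs : F (‖x‖ ^ 2) = F 1 * ‖x‖⁻¹ := by rw [hout _ hs.le, e1]
  have hDs : deriv F (‖x‖ ^ 2) = F 1 * ((-(1 : ℝ) / 2) * (‖x‖⁻¹ * (‖x‖ ^ 2)⁻¹)) := by
    rw [trd_deriv F _ hout _ hs, e2]
  have hinv : ‖x‖⁻¹ ≤ 1 := inv_le_one_of_one_le₀ hx.le
  have hinv0 : 0 < ‖x‖⁻¹ := inv_pos.2 ht0
  have hF1 : |F (‖x‖ ^ 2)| ≤ |F 1| := by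
    rw [hFs, abs_mul, abs_of_pos hinv0]
    exact mul_le_of_le_one_right (abs_nonneg _) hinv
  refine ⟨?_, fun i => ?_⟩
  · show |F (‖x‖ ^ 2) * x j| ≤ _
    rw [hFs, abs_mul, abs_mul, abs_of_pos hinv0, mul_assoc]
    have h2 : ‖x‖⁻¹ * |x j| ≤ 1 := by
      rw [inv_mul_le_iff₀ ht0, mul_one]
      exact trd_abs x j
    have h3 := mul_le_mul_of_nonneg_left h2 (abs_nonneg (F 1))
    have h4 := abs_nonneg (F 1)
    linarith
  · show |pd i (tf F j) x| ≤ _
    rw [trd_pd_tf F hF]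
    have h1 : |F (‖x‖ ^ 2) * (if i = j then (1 : ℝ) else 0)| ≤ |F 1| := by
      rw [abs_mul]
      by_cases h : i = j
      · rw [if_pos h, abs_one, mul_one]; exact hF1
      · rw [if_neg h, abs_zero, mul_zero]; exact abs_nonneg _
    have h2 : |2 * deriv F (‖x‖ ^ 2) * x i * x j| ≤ |F 1| := by
      rw [hDs]
      have e3 : 2 * (F 1 * ((-(1 : ℝ) / 2) * (‖x‖⁻¹ * (‖x‖ ^ 2)⁻¹))) * x i * x j =
          -(F 1 * (‖x‖⁻¹ * ((‖x‖⁻¹ * x i) * (‖x‖⁻¹ * x j)))) := by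
        rw [pow_two, mul_inv]; ring
      rw [e3, abs_neg, abs_mul, abs_mul, abs_mul, abs_mul, abs_mul, abs_of_pos hinv0]
      have h3 : ‖x‖⁻¹ * |x i| ≤ 1 := by
        rw [inv_mul_le_iff₀ ht0, mul_one]
        exact trd_abs x i
      have h4 : ‖x‖⁻¹ * |x j| ≤ 1 := by
        rw [inv_mul_le_iff₀ ht0, mul_one]
        exact trd_abs x j
      have h5 : (‖x‖⁻¹ * |x i|) * (‖x‖⁻¹ * |x j|) ≤ 1 :=
        mul_le_one₀ h3 (by positivity) h4
      have h6 : ‖x‖⁻¹ * ((‖x‖⁻¹ * |x i|) * (‖x‖⁻¹ * |x j|)) ≤ 1 :=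
        mul_le_one₀ hinv (by positivity) h5
      exact mul_le_of_le_one_right (abs_nonneg _) h6
    calc _ ≤ |F (‖x‖ ^ 2) * (if i = j then (1 : ℝ) else 0)| +
          |2 * deriv F (‖x‖ ^ 2) * x i * x j| := abs_add_le _ _
      _ ≤ 2 * |F 1| := by linarith

theorem trd_c_bound (a b : Fin N) : 0 ≤ trdc a b ∧ trdc a b ≤ 1 := by
  have hN : 0 < N := Fin.pos a
  have hN1 : (1 : ℝ) ≤ N := by exact_mod_cast hN
  unfold trdc
  by_cases h : a = b
  · rw [if_pos h]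
    refine ⟨by positivity, ?_⟩
    rw [div_le_one (by linarith)]
    exact hN1
  · rw [if_neg h]
    exact ⟨le_refl _, zero_le_one⟩

theorem tg_bound (F : ℝ → ℝ) (hF : ContDiff ℝ 1 F)
    (hout : ∀ s, 1 ≤ s → F s = F 1 * s ^ (-(2 : ℝ) / 2)) :
    ∃ A : ℝ, 0 ≤ A ∧ ∀ (a b : Fin N) (x : E N), |tg F a b x| ≤ A ∧
      ∀ i, |pd i (tg F a b) x| ≤ A := by
  have key : ∃ A : ℝ, 0 ≤ A ∧ ∀ (p : Fin N × Fin N) (x : E N), |tg F p.1 p.2 x| ≤ A ∧
      ∀ i, |pd i (tg F p.1 p.2) x| ≤ A := by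
    refine trd_bound (fun p : Fin N × Fin N => tg F p.1 p.2)
      (fun p => contDiff_tg F hF p.1 p.2) (8 * |F 1|) (by positivity) ?_
    rintro ⟨a, b⟩ x hx
    have ht0 : 0 < ‖x‖ := by linarith
    have hs : 1 < ‖x‖ ^ 2 := by nlinarith
    have hs0 : (0 : ℝ) < ‖x‖ ^ 2 := by positivity
    have e0 : (-(2 : ℝ) / 2) = -1 := by norm_num
    have e1 : (‖x‖ ^ 2) ^ (-(2 : ℝ) / 2) = ‖x‖⁻¹ * ‖x‖⁻¹ := by
      rw [e0, Real.rpow_neg_one, pow_two, mul_inv]
    have e2 : (‖x‖ ^ 2) ^ (-(2 : ℝ) / 2 - 1) = (‖x‖⁻¹ * ‖x‖⁻¹) * (‖x‖⁻¹ * ‖x‖⁻¹) := by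
      rw [Real.rpow_sub hs0, e1, Real.rpow_one, div_eq_mul_inv, pow_two, mul_inv]
    have hinv : ‖x‖⁻¹ ≤ 1 := inv_le_one_of_one_le₀ hx.le
    have hinv0 : 0 < ‖x‖⁻¹ := inv_pos.2 ht0
    have hFs : F (‖x‖ ^ 2) = F 1 * (‖x‖⁻¹ * ‖x‖⁻¹) := by rw [hout _ hs.le, e1]
    have hDs : deriv F (‖x‖ ^ 2) =
        F 1 * (-1 * ((‖x‖⁻¹ * ‖x‖⁻¹) * (‖x‖⁻¹ * ‖x‖⁻¹))) := by
      rw [trd_deriv F _ hout _ hs, e2, e0]
    obtain ⟨c0, c1⟩ := trd_c_bound a b
    have hx1 : ∀ l : Fin N, |‖x‖⁻¹ * x l| ≤ 1 := by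
      intro l
      rw [abs_mul, abs_of_pos hinv0, inv_mul_le_iff₀ ht0, mul_one]
      exact trd_abs x l
    have hxx : ‖x‖⁻¹ * ‖x‖ = 1 := inv_mul_cancel₀ ht0.ne'
    set T := ‖x‖⁻¹ with hT
    set c := trdc a b with hc
    have hY : |(T * x a) * (T * x b) - c| ≤ 2 := by
      have h1 : |(T * x a) * (T * x b)| ≤ 1 := by
        rw [abs_mul]
        exact mul_le_one₀ (hx1 a) (abs_nonneg _) (hx1 b)
      have h2 : |c| ≤ 1 := by rw [abs_of_nonneg c0]; exact c1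
      calc _ ≤ |(T * x a) * (T * x b)| + |c| := abs_sub _ _
        _ ≤ 2 := by linarith
    refine ⟨?_, fun i => ?_⟩
    · show |tg F a b x| ≤ _
      rw [trd_tg_eq]
      show |F (‖x‖ ^ 2) * (x a * x b + (-c) * ‖x‖ ^ 2)| ≤ _
      have e3 : F (‖x‖ ^ 2) * (x a * x b + (-c) * ‖x‖ ^ 2) =
          F 1 * ((T * x a) * (T * x b) - c) := by
        rw [hFs]
        linear_combination (-c * F 1 * (T * ‖x‖ + 1)) * hxx
      rw [e3, abs_mul]
      have h3 := mul_le_mul_of_nonneg_left hY (abs_nonneg (F 1))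
      have h4 := abs_nonneg (F 1)
      linarith
    · show |pd i (tg F a b) x| ≤ _
      rw [trd_pd_tg F hF, ← hc]
      have e4 : F (‖x‖ ^ 2) * (x a * (if i = b then 1 else 0) + (if i = a then 1 else 0) * x b
            - 2 * c * x i)
          + 2 * deriv F (‖x‖ ^ 2) * x i * (x a * x b + (-c) * ‖x‖ ^ 2) =
          F 1 * (T * ((T * x a) * (if i = b then 1 else 0) + (if i = a then 1 else 0) * (T * x b)
            - 2 * c * (T * x i) - 2 * (T * x i) * ((T * x a) * (T * x b) - c))) := by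
        rw [hFs, hDs]
        linear_combination (2 * F 1 * T * (T * x i) * c * (T * ‖x‖ + 1)) * hxx
      rw [e4, abs_mul]
      have hδ : ∀ l : Fin N, |(if i = l then (1 : ℝ) else 0)| ≤ 1 := by
        intro l
        by_cases h : i = l
        · rw [if_pos h, abs_one]
        · rw [if_neg h, abs_zero]; exact zero_le_one
      have g1 : |(T * x a) * (if i = b then (1 : ℝ) else 0)| ≤ 1 := by
        rw [abs_mul]
        exact mul_le_one₀ (hx1 a) (abs_nonneg _) (hδ b)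
      have g2 : |(if i = a then (1 : ℝ) else 0) * (T * x b)| ≤ 1 := by
        rw [abs_mul]
        exact mul_le_one₀ (hδ a) (abs_nonneg _) (hx1 b)
      have g3 : |2 * c * (T * x i)| ≤ 2 := by
        rw [abs_mul, abs_mul, abs_of_nonneg c0, abs_two]
        have h1 : c * |T * x i| ≤ 1 := mul_le_one₀ c1 (abs_nonneg _) (hx1 i)
        nlinarith
      have g4 : |2 * (T * x i) * ((T * x a) * (T * x b) - c)| ≤ 4 := by
        rw [abs_mul, abs_mul, abs_two]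
        have h1 : |T * x i| * |(T * x a) * (T * x b) - c| ≤ 1 * 2 :=
          mul_le_mul (hx1 i) hY (abs_nonneg _) zero_le_one
        nlinarith
      have g5 : |(T * x a) * (if i = b then (1 : ℝ) else 0)
          + (if i = a then (1 : ℝ) else 0) * (T * x b)
          - 2 * c * (T * x i) - 2 * (T * x i) * ((T * x a) * (T * x b) - c)| ≤ 8 := by
        calc _ ≤ |(T * x a) * (if i = b then (1 : ℝ) else 0)
              + (if i = a then (1 : ℝ) else 0) * (T * x b) - 2 * c * (T * x i)| +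
              |2 * (T * x i) * ((T * x a) * (T * x b) - c)| := abs_sub _ _
          _ ≤ (|(T * x a) * (if i = b then (1 : ℝ) else 0)
              + (if i = a then (1 : ℝ) else 0) * (T * x b)| + |2 * c * (T * x i)|) +
              |2 * (T * x i) * ((T * x a) * (T * x b) - c)| :=
              add_le_add_left (abs_sub _ _) _
          _ ≤ ((|(T * x a) * (if i = b then (1 : ℝ) else 0)|
              + |(if i = a then (1 : ℝ) else 0) * (T * x b)|) + |2 * c * (T * x i)|) +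
              |2 * (T * x i) * ((T * x a) * (T * x b) - c)| :=
              add_le_add_left (add_le_add_left (abs_add_le _ _) _) _
          _ ≤ 8 := by linarith
      have g6 : |T * ((T * x a) * (if i = b then (1 : ℝ) else 0)
          + (if i = a then (1 : ℝ) else 0) * (T * x b)
          - 2 * c * (T * x i) - 2 * (T * x i) * ((T * x a) * (T * x b) - c))| ≤ 8 := by
        rw [abs_mul, abs_of_pos hinv0]
        calc _ ≤ 1 * 8 := mul_le_mul hinv g5 (abs_nonneg _) zero_le_one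
          _ = 8 := one_mul _
      have h3 := mul_le_mul_of_nonneg_left g6 (abs_nonneg (F 1))
      linarith
  obtain ⟨A, hA, h⟩ := key
  exact ⟨A, hA, fun a b x => h (a, b) x⟩

theorem tf_odd (F : ℝ → ℝ) (j : Fin N) (x : E N) : tf F j (-x) = - tf F j x := by
  unfold tf
  rw [norm_neg]
  show F (‖x‖ ^ 2) * (-(x j)) = _
  ring

theorem tg_even (F : ℝ → ℝ) (a b : Fin N) (x : E N) : tg F a b (-x) = tg F a b x := by
  unfold tg
  rw [norm_neg]
  show F (‖x‖ ^ 2) * ((-(x a)) * (-(x b)) - _) = _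
  rw [neg_mul_neg]

theorem dot_tf_tg_odd (F F' : ℝ → ℝ) (hF : ContDiff ℝ 1 F) (hF' : ContDiff ℝ 1 F')
    (j a b : Fin N) (x : E N) :
    dot (tf F j) (tg F' a b) (-x) = - dot (tf F j) (tg F' a b) x := by
  unfold dot
  rw [← Finset.sum_neg_distrib]
  refine Finset.sum_congr rfl (fun l _ => ?_)
  rw [trd_pd_tf F hF, trd_pd_tf F hF, trd_pd_tg F' hF', trd_pd_tg F' hF', norm_neg]
  have h : ∀ i : Fin N, (-x) i = -(x i) := fun i => rfl
  rw [h, h, h, h]
  ring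

end Pool.Agent.H94.ER
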