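import Pool.Agent.H94.ER.TrC
import Pool.Agent.H94.ER.TrD

/-!
# TrE: the quadratic form on the trial space is block diagonal and negative

`w = u^2`, `mass u = 1`, `u` invariant under `G` (irreducible, `-1 ∈ G`), `N ≥ 2`.
`F1`, `F2` are `C^1` profiles of degree 1 and 2 with
 (h1) `∫ w (γ1 Pk 1 F1 - En N 1 F1) ≥ -τ`, (h2) `∫ w (γ2 Pk 2 F2 - En N 2 F2) ≥ -τ`,
 (c1) `∫ w Pk 1 F1 ≥ c`, (c2) `∫ w Pk 2 F2 ≥ c`, `0 < γ1 < γ2`, and
 `κ = γ2 + δ`, `τ ≤ (γ2 - γ1) c / 2`, `τ ≤ δ c / 2`.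
(`Pk`, `En` evaluated at `‖x‖^2`.) Then for some pair `(a,b)` the functions
`1`, `tg F2 a b`, `tf F1 j` satisfy `∫ w |∇ψ_c|^2 ≤ κ ∫ w ψ_c^2 - η |c|^2` with
`η = min κ (min ((γ2-γ1) c/(2N)) ((1-1/N) δ c/(2 N^2)))`.

Proof. Let `Q(φ,ψ) = ∫ w (dot φ ψ - κ φ ψ)`.
* `Q(1,1) = -κ`.
* `Q(1, tf j) = -κ ∫ w tf j = 0` (odd), `Q(1, tg a b) = -κ ∫ w tg a b = 0`: `isotropy` with
  `W = w F2(‖x‖^2)` (continuous, compact support, `G`-invariant).
* `Q(tf j, tg a b) = 0` (odd; `dot_tf_tg_odd`, `tf_odd`, `tg_even`, `w` even as `-1 ∈ G`).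
* `Q(tf i, tf j)`: by `dot_tf` it is `∫ w F^2 δ_ij + ∫ w k(‖x‖^2) x_i x_j` with `k = 4FF'+4sF'^2-κF^2`; by
  `isotropy` it is `δ_ij q` with `N q = ∑_j Q(tf j, tf j) = ∫ w (En N 1 F1 - κ Pk 1 F1)
  ≤ τ - (κ - γ1) ∫ w Pk 1 F1 ≤ τ - (γ2 - γ1) c ≤ -(γ2-γ1) c/2`.
* `∑_ab Q(tg a b, tg a b) = (1-1/N) ∫ w (En N 2 F2 - κ Pk 2 F2) ≤ (1-1/N) (τ - δ c)
  ≤ -(1-1/N) δ c/2`, so for some `(a,b)` it is `≤ -(1-1/N) δ c/(2N^2)`
  (`Finset.exists_le_of_sum_le` or by contradiction).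
Expand `Q(ψ_c, ψ_c)` bilinearly (pointwise identity, then linearity of the integral; every integrand
is continuous with compact support). The index type is `Option (Option (Fin N))`:
`none ↦ 1`, `some none ↦ tg F2 a b`, `some (some j) ↦ tf F1 j`.
-/

set_option autoImplicit false

open MeasureTheory

namespace Pool.Agent.H94.ER

variable {N : ℕ}

/-- the trial family -/
noncomputable def psi (F1 F2 : ℝ → ℝ) (a b : Fin N) : Option (Option (Fin N)) → E N → ℝ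
  | none => fun _ => 1
  | some none => tg F2 a b
  | some (some j) => tf F1 j

theorem TrE_contDiff_psi (F1 F2 : ℝ → ℝ) (hF1 : ContDiff ℝ 1 F1) (hF2 : ContDiff ℝ 1 F2)
    (a b : Fin N) (i : Option (Option (Fin N))) : ContDiff ℝ 1 (psi F1 F2 a b i) := by
  rcases i with _ | _ | j
  · exact contDiff_const
  · exact contDiff_tg F2 hF2 a b
  · exact contDiff_tf F1 hF1 j

theorem TrE_integrable (u : E N → ℝ) (hu : ContDiff ℝ 1 u) (hc : HasCompactSupport u)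
    (g : E N → ℝ) (hg : Continuous g) : Integrable (fun x => u x ^ 2 * g x) := by
  have h1 : HasCompactSupport (fun x => u x ^ 2 * g x) := by
    have h2 : HasCompactSupport (fun x => u x ^ 2) :=
      hc.comp_left (g := fun t : ℝ => t ^ 2) (by simp)
    exact h2.mul_right
  exact ((hu.continuous.pow 2).mul hg).integrable_of_hasCompactSupport h1

theorem TrE_dot_sum {ι : Type*} [Fintype ι] (ψ : ι → E N → ℝ) (hψ : ∀ i, ContDiff ℝ 1 (ψ i))
    (c : ι → ℝ) (x : E N) :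
    dot (fun y => ∑ i, c i * ψ i y) (fun y => ∑ i, c i * ψ i y) x
      = ∑ i, ∑ j, c i * c j * dot (ψ i) (ψ j) x := by
  have hd : ∀ l, pd l (fun y => ∑ i, c i * ψ i y) x = ∑ i, c i * pd l (ψ i) x := by
    intro l
    rw [pd_sum]
    · exact Finset.sum_congr rfl fun i _ => pd_const_mul l (c i) (ψ i) x
    · intro i _
      exact (((hψ i).differentiable (by norm_num)).differentiableAt).const_mul (c i)
  unfold dot
  simp only [hd]
  have h2 : ∀ l : Fin N, (∑ i, c i * pd l (ψ i) x) * (∑ i, c i * pd l (ψ i) x)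
      = ∑ i, ∑ j, c i * c j * (pd l (ψ i) x * pd l (ψ j) x) := by
    intro l
    rw [Finset.sum_mul_sum]
    exact Finset.sum_congr rfl fun i _ => Finset.sum_congr rfl fun j _ => by ring
  simp only [h2]
  rw [Finset.sum_comm]
  refine Finset.sum_congr rfl fun i _ => ?_
  rw [Finset.sum_comm]
  refine Finset.sum_congr rfl fun j _ => ?_
  rw [Finset.mul_sum]

theorem TrE_expand {ι : Type*} [Fintype ι] (u : E N → ℝ) (hu : ContDiff ℝ 1 u)
    (hc : HasCompactSupport u) (ψ : ι → E N → ℝ) (hψ : ∀ i, ContDiff ℝ 1 (ψ i))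
    (κ : ℝ) (c : ι → ℝ) :
    (∫ x, u x ^ 2 * dot (fun y => ∑ i, c i * ψ i y) (fun y => ∑ i, c i * ψ i y) x)
      - κ * (∫ x, u x ^ 2 * (∑ i, c i * ψ i x) ^ 2)
      = ∑ i, ∑ j, c i * c j * ∫ x, u x ^ 2 * (dot (ψ i) (ψ j) x - κ * (ψ i x * ψ j x)) := by
  have hI : ∀ i j, Integrable (fun x => u x ^ 2 * (dot (ψ i) (ψ j) x - κ * (ψ i x * ψ j x))) := by
    intro i j
    exact TrE_integrable u hu hc _ ((continuous_dot _ _ (hψ i) (hψ j)).sub
      (continuous_const.mul ((hψ i).continuous.mul (hψ j).continuous)))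
  have hS : ContDiff ℝ 1 (fun y => ∑ i, c i * ψ i y) :=
    ContDiff.sum fun i _ => contDiff_const.mul (hψ i)
  have hA := TrE_integrable u hu hc _ (continuous_dot _ _ hS hS)
  have hB := TrE_integrable u hu hc (fun x => (∑ i, c i * ψ i x) ^ 2) (hS.continuous.pow 2)
  rw [← integral_const_mul, ← integral_sub hA (hB.const_mul κ)]
  have h1 : ∀ i, (∑ j, c i * c j * ∫ x, u x ^ 2 * (dot (ψ i) (ψ j) x - κ * (ψ i x * ψ j x)))
      = ∫ x, ∑ j, c i * c j * (u x ^ 2 * (dot (ψ i) (ψ j) x - κ * (ψ i x * ψ j x))) := by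
    intro i
    rw [integral_finsetSum _ (fun j _ => (hI i j).const_mul _)]
    exact Finset.sum_congr rfl fun j _ => (integral_const_mul _ _).symm
  simp only [h1]
  rw [← integral_finsetSum]
  · congr 1
    ext x
    rw [TrE_dot_sum ψ hψ c x]
    have h2 : (∑ i, c i * ψ i x) ^ 2 = ∑ i, ∑ j, c i * c j * (ψ i x * ψ j x) := by
      rw [sq, Finset.sum_mul_sum]
      exact Finset.sum_congr rfl fun i _ => Finset.sum_congr rfl fun j _ => by ring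
    rw [h2]
    simp only [Finset.mul_sum]
    rw [← Finset.sum_sub_distrib]
    refine Finset.sum_congr rfl fun i _ => ?_
    rw [← Finset.sum_sub_distrib]
    refine Finset.sum_congr rfl fun j _ => ?_
    ring
  · intro i _
    exact integrable_finsetSum _ (fun j _ => (hI i j).const_mul _)

/-- the entries of the form -/
noncomputable def TrE_Q (u : E N → ℝ) (κ : ℝ) (φ ψ : E N → ℝ) : ℝ :=
  ∫ x, u x ^ 2 * (dot φ ψ x - κ * (φ x * ψ x))

theorem TrE_Q_comm (u : E N → ℝ) (κ : ℝ) (φ ψ : E N → ℝ) :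
    TrE_Q u κ φ ψ = TrE_Q u κ ψ φ := by
  unfold TrE_Q
  congr 1
  ext x
  rw [dot_comm φ ψ x]
  ring

theorem TrE_dot_one (ψ : E N → ℝ) (x : E N) : dot (fun _ => (1 : ℝ)) ψ x = 0 := by
  unfold dot
  exact Finset.sum_eq_zero fun i _ => by rw [pd_const]; ring

theorem TrE_Q_one_one (u : E N → ℝ) (κ : ℝ) (hmass : mass u = 1) :
    TrE_Q u κ (fun _ => (1 : ℝ)) (fun _ => 1) = -κ := by
  unfold TrE_Q
  have : (fun x : E N => u x ^ 2 * (dot (fun _ => (1 : ℝ)) (fun _ => 1) x - κ * (1 * 1)))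
      = fun x => (-κ) * u x ^ 2 := by
    ext x
    rw [TrE_dot_one]
    ring
  rw [this, integral_const_mul]
  unfold mass at hmass
  rw [hmass]
  ring

theorem TrE_Q_one_tf (u : E N → ℝ) (κ : ℝ) (hneg : ∀ x, u (-x) = u x) (F : ℝ → ℝ) (j : Fin N) :
    TrE_Q u κ (fun _ => (1 : ℝ)) (tf F j) = 0 := by
  unfold TrE_Q
  apply int_odd
  intro x
  rw [TrE_dot_one, TrE_dot_one, tf_odd, hneg]
  ring

theorem TrE_Q_tf_tg (u : E N → ℝ) (κ : ℝ) (hneg : ∀ x, u (-x) = u x) (F F' : ℝ → ℝ)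
    (hF : ContDiff ℝ 1 F) (hF' : ContDiff ℝ 1 F') (j a b : Fin N) :
    TrE_Q u κ (tf F j) (tg F' a b) = 0 := by
  unfold TrE_Q
  apply int_odd
  intro x
  rw [dot_tf_tg_odd F F' hF hF', tf_odd, tg_even, hneg]
  ring

theorem TrE_iso (hN : 1 ≤ N) (G : Subgroup (E N ≃ₗᵢ[ℝ] E N))
    (hirr : ∀ V : Submodule ℝ (E N), (∀ g ∈ G, ∀ v ∈ V, g v ∈ V) → V = ⊥ ∨ V = ⊤)
    (u : E N → ℝ) (hu : ContDiff ℝ 1 u) (hc : HasCompactSupport u)
    (hinv : ∀ g ∈ G, ∀ x, u (g x) = u x) (K : ℝ → ℝ) (hK : Continuous K) (i j : Fin N) :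
    ∫ x, u x ^ 2 * (K (‖x‖ ^ 2) * (x i * x j))
      = if i = j then (∫ x, u x ^ 2 * (K (‖x‖ ^ 2) * ‖x‖ ^ 2)) / N else 0 := by
  have hW : Continuous (fun x : E N => u x ^ 2 * K (‖x‖ ^ 2)) :=
    (hu.continuous.pow 2).mul (hK.comp (continuous_norm.pow 2))
  have hWc : HasCompactSupport (fun x : E N => u x ^ 2 * K (‖x‖ ^ 2)) := by
    have h2 : HasCompactSupport (fun x => u x ^ 2) :=
      hc.comp_left (g := fun t : ℝ => t ^ 2) (by simp)
    exact h2.mul_right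
  have h := isotropy hN (fun x : E N => u x ^ 2 * K (‖x‖ ^ 2)) hW hWc G hirr
    (fun g hg x => by simp only [hinv g hg x, LinearIsometryEquiv.norm_map]) i j
  simp only [mul_assoc] at h
  exact h

theorem TrE_Q_one_tg (hN : 1 ≤ N) (G : Subgroup (E N ≃ₗᵢ[ℝ] E N))
    (hirr : ∀ V : Submodule ℝ (E N), (∀ g ∈ G, ∀ v ∈ V, g v ∈ V) → V = ⊥ ∨ V = ⊤)
    (u : E N → ℝ) (hu : ContDiff ℝ 1 u) (hc : HasCompactSupport u)
    (hinv : ∀ g ∈ G, ∀ x, u (g x) = u x) (κ : ℝ) (F : ℝ → ℝ) (hF : Continuous F)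
    (a b : Fin N) : TrE_Q u κ (fun _ => (1 : ℝ)) (tg F a b) = 0 := by
  unfold TrE_Q
  have h1 : (fun x : E N => u x ^ 2 * (dot (fun _ => (1 : ℝ)) (tg F a b) x
        - κ * (1 * tg F a b x)))
      = fun x => (-κ) * (u x ^ 2 * (F (‖x‖ ^ 2) * (x a * x b))
        - (if a = b then (u x ^ 2 * (F (‖x‖ ^ 2) * ‖x‖ ^ 2)) / N else 0)) := by
    ext x
    rw [TrE_dot_one]
    unfold tg
    split_ifs <;> ring
  have hi := TrE_iso hN G hirr u hu hc hinv F hF a b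
  have hI1 : Integrable (fun x : E N => u x ^ 2 * (F (‖x‖ ^ 2) * (x a * x b))) :=
    TrE_integrable u hu hc _ (by fun_prop)
  have hI2 : Integrable (fun x : E N => u x ^ 2 * (F (‖x‖ ^ 2) * ‖x‖ ^ 2)) :=
    TrE_integrable u hu hc _ (by fun_prop)
  rw [h1, integral_const_mul, integral_sub hI1, hi]
  · split_ifs with hab
    · rw [integral_div]
      ring
    · simp
  · split_ifs with hab
    · exact hI2.div_const _
    · exact integrable_zero _ _ _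

theorem TrE_Q_tf_tf (hN : 1 ≤ N) (G : Subgroup (E N ≃ₗᵢ[ℝ] E N))
    (hirr : ∀ V : Submodule ℝ (E N), (∀ g ∈ G, ∀ v ∈ V, g v ∈ V) → V = ⊥ ∨ V = ⊤)
    (u : E N → ℝ) (hu : ContDiff ℝ 1 u) (hc : HasCompactSupport u)
    (hinv : ∀ g ∈ G, ∀ x, u (g x) = u x) (κ : ℝ) (F : ℝ → ℝ) (hF : ContDiff ℝ 1 F)
    (i j : Fin N) : TrE_Q u κ (tf F i) (tf F j) =
      if i = j then (∫ x : E N, u x ^ 2 * F (‖x‖ ^ 2) ^ 2)
        + (∫ x : E N, u x ^ 2 * ((4 * F (‖x‖ ^ 2) * deriv F (‖x‖ ^ 2)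
          + 4 * ‖x‖ ^ 2 * deriv F (‖x‖ ^ 2) ^ 2 - κ * F (‖x‖ ^ 2) ^ 2) * ‖x‖ ^ 2)) / N
      else 0 := by
  have hdc : Continuous (deriv F) := hF.continuous_deriv le_rfl
  have hFc : Continuous F := hF.continuous
  have hK : Continuous (fun s : ℝ => 4 * F s * deriv F s + 4 * s * deriv F s ^ 2
      - κ * F s ^ 2) := by fun_prop
  have hi := TrE_iso hN G hirr u hu hc hinv (fun s : ℝ => 4 * F s * deriv F s
    + 4 * s * deriv F s ^ 2 - κ * F s ^ 2) hK i j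
  unfold TrE_Q
  have h1 : (fun x : E N => u x ^ 2 * (dot (tf F i) (tf F j) x - κ * (tf F i x * tf F j x)))
      = fun x => (if i = j then u x ^ 2 * F (‖x‖ ^ 2) ^ 2 else 0)
        + u x ^ 2 * ((4 * F (‖x‖ ^ 2) * deriv F (‖x‖ ^ 2)
          + 4 * ‖x‖ ^ 2 * deriv F (‖x‖ ^ 2) ^ 2 - κ * F (‖x‖ ^ 2) ^ 2) * (x i * x j)) := by
    ext x
    rw [dot_tf F hF]
    unfold tf
    split_ifs <;> ring
  have hI1 : Integrable (fun x : E N => u x ^ 2 * F (‖x‖ ^ 2) ^ 2) :=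
    TrE_integrable u hu hc _ (by fun_prop)
  have hI2 : Integrable (fun x : E N => u x ^ 2 * ((4 * F (‖x‖ ^ 2) * deriv F (‖x‖ ^ 2)
          + 4 * ‖x‖ ^ 2 * deriv F (‖x‖ ^ 2) ^ 2 - κ * F (‖x‖ ^ 2) ^ 2) * (x i * x j))) :=
    TrE_integrable u hu hc _ (by fun_prop)
  rw [h1, integral_add _ hI2]
  · simp only at hi
    rw [hi]
    split_ifs with hij
    · rfl
    · simp
  · split_ifs with hij
    · exact hI1
    · exact integrable_zero _ _ _

theorem TrE_sum_tf (u : E N → ℝ) (hu : ContDiff ℝ 1 u)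
    (hc : HasCompactSupport u) (κ : ℝ) (F : ℝ → ℝ) (hF : ContDiff ℝ 1 F) :
    ∑ j : Fin N, TrE_Q u κ (tf F j) (tf F j)
      = ∫ x : E N, u x ^ 2 * (En N 1 F (‖x‖ ^ 2) - κ * Pk 1 F (‖x‖ ^ 2)) := by
  unfold TrE_Q
  rw [← integral_finsetSum]
  · congr 1
    ext x
    rw [← Finset.mul_sum, Finset.sum_sub_distrib, ← Finset.mul_sum, sum_dot_tf F hF x,
      ← sum_tf_sq F x]
    simp only [sq]
  · intro j _
    have := contDiff_tf F hF j
    exact TrE_integrable u hu hc _ ((continuous_dot _ _ this this).sub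
      (continuous_const.mul (this.continuous.mul this.continuous)))

theorem TrE_sum_tg (hN : 1 ≤ N) (u : E N → ℝ) (hu : ContDiff ℝ 1 u)
    (hc : HasCompactSupport u) (κ : ℝ) (F : ℝ → ℝ) (hF : ContDiff ℝ 1 F) :
    ∑ a : Fin N, ∑ b : Fin N, TrE_Q u κ (tg F a b) (tg F a b)
      = (1 - 1 / (N : ℝ)) * ∫ x : E N, u x ^ 2 * (En N 2 F (‖x‖ ^ 2) - κ * Pk 2 F (‖x‖ ^ 2)) := by
  have hI : ∀ a b : Fin N, Integrable (fun x : E N => u x ^ 2 * (dot (tg F a b) (tg F a b) x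
      - κ * (tg F a b x * tg F a b x))) := by
    intro a b
    have := contDiff_tg F hF a b
    exact TrE_integrable u hu hc _ ((continuous_dot _ _ this this).sub
      (continuous_const.mul (this.continuous.mul this.continuous)))
  unfold TrE_Q
  have h1 : ∀ a : Fin N, (∑ b : Fin N, ∫ x : E N, u x ^ 2 * (dot (tg F a b) (tg F a b) x
      - κ * (tg F a b x * tg F a b x))) = ∫ x : E N, ∑ b : Fin N, u x ^ 2 *
        (dot (tg F a b) (tg F a b) x - κ * (tg F a b x * tg F a b x)) := by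
    intro a
    rw [integral_finsetSum _ (fun b _ => hI a b)]
  simp only [h1]
  rw [← integral_finsetSum _ (fun a _ => integrable_finsetSum _ (fun b _ => hI a b)),
    ← integral_const_mul]
  congr 1
  ext x
  have h2 := sum_dot_tg hN F hF x
  have h3 := sum_tg_sq hN F x
  have h4 : ∑ a : Fin N, ∑ b : Fin N, u x ^ 2 * (dot (tg F a b) (tg F a b) x
      - κ * (tg F a b x * tg F a b x)) = u x ^ 2 * ((∑ a : Fin N, ∑ b : Fin N,
        dot (tg F a b) (tg F a b) x) - κ * ∑ a : Fin N, ∑ b : Fin N, tg F a b x ^ 2) := by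
    simp only [Finset.mul_sum, ← Finset.sum_sub_distrib]
    refine Finset.sum_congr rfl fun a _ => Finset.sum_congr rfl fun b _ => ?_
    ring
  rw [h4, h2, h3]
  ring

theorem block (hN : 2 ≤ N) (G : Subgroup (E N ≃ₗᵢ[ℝ] E N))
    (hneg : LinearIsometryEquiv.neg ℝ ∈ G)
    (hirr : ∀ V : Submodule ℝ (E N), (∀ g ∈ G, ∀ v ∈ V, g v ∈ V) → V = ⊥ ∨ V = ⊤)
    (u : E N → ℝ) (hu : ContDiff ℝ 1 u) (hc : HasCompactSupport u) (hmass : mass u = 1)
    (hinv : ∀ g ∈ G, ∀ x, u (g x) = u x)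
    (F1 F2 : ℝ → ℝ) (hF1 : ContDiff ℝ 1 F1) (hF2 : ContDiff ℝ 1 F2)
    (γ1 γ2 δ τ c : ℝ) (hγ1 : 0 < γ1) (hγ2 : γ1 < γ2) (hδ : 0 < δ) (hcpos : 0 < c)
    (h1 : -τ ≤ ∫ x, u x ^ 2 * (γ1 * Pk 1 F1 (‖x‖ ^ 2) - En N 1 F1 (‖x‖ ^ 2)))
    (h2 : -τ ≤ ∫ x, u x ^ 2 * (γ2 * Pk 2 F2 (‖x‖ ^ 2) - En N 2 F2 (‖x‖ ^ 2)))
    (c1 : c ≤ ∫ x, u x ^ 2 * Pk 1 F1 (‖x‖ ^ 2)) (c2 : c ≤ ∫ x, u x ^ 2 * Pk 2 F2 (‖x‖ ^ 2))
    (hτ1 : τ ≤ (γ2 - γ1) * c / 2) (hτ2 : τ ≤ δ * c / 2) :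
    ∃ a b : Fin N, ∀ cc : Option (Option (Fin N)) → ℝ,
      ∫ x, u x ^ 2 * dot (fun y => ∑ i, cc i * psi F1 F2 a b i y)
          (fun y => ∑ i, cc i * psi F1 F2 a b i y) x
        ≤ (γ2 + δ) * (∫ x, u x ^ 2 * (∑ i, cc i * psi F1 F2 a b i x) ^ 2)
          - min (γ2 + δ) (min ((γ2 - γ1) * c / (2 * N)) ((1 - 1 / (N : ℝ)) * δ * c / (2 * N ^ 2)))
            * ∑ i, cc i ^ 2 := by
  have hN1 : 1 ≤ N := by omega
  have hNR : (2 : ℝ) ≤ N := by exact_mod_cast hN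
  have hNpos : (0 : ℝ) < N := by linarith
  have hneg' : ∀ x, u (-x) = u x := fun x => by
    have := hinv _ hneg x
    simpa using this
  have hd1 : Continuous (deriv F1) := hF1.continuous_deriv le_rfl
  have hf1 : Continuous F1 := hF1.continuous
  have hd2 : Continuous (deriv F2) := hF2.continuous_deriv le_rfl
  have hf2 : Continuous F2 := hF2.continuous
  have hP1 : Integrable (fun x : E N => u x ^ 2 * Pk 1 F1 (‖x‖ ^ 2)) :=
    TrE_integrable u hu hc _ (by unfold Pk; fun_prop)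
  have hP2 : Integrable (fun x : E N => u x ^ 2 * Pk 2 F2 (‖x‖ ^ 2)) :=
    TrE_integrable u hu hc _ (by unfold Pk; fun_prop)
  have hE1 : Integrable (fun x : E N => u x ^ 2 * En N 1 F1 (‖x‖ ^ 2)) :=
    TrE_integrable u hu hc _ (by unfold En; fun_prop)
  have hE2 : Integrable (fun x : E N => u x ^ 2 * En N 2 F2 (‖x‖ ^ 2)) :=
    TrE_integrable u hu hc _ (by unfold En; fun_prop)
  have key : ∀ (κ γ : ℝ) (k : ℕ) (F : ℝ → ℝ),
      Integrable (fun x : E N => u x ^ 2 * Pk k F (‖x‖ ^ 2)) →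
      Integrable (fun x : E N => u x ^ 2 * En N k F (‖x‖ ^ 2)) →
      ∫ x : E N, u x ^ 2 * (En N k F (‖x‖ ^ 2) - κ * Pk k F (‖x‖ ^ 2))
        = - (∫ x : E N, u x ^ 2 * (γ * Pk k F (‖x‖ ^ 2) - En N k F (‖x‖ ^ 2)))
          - (κ - γ) * ∫ x : E N, u x ^ 2 * Pk k F (‖x‖ ^ 2) := by
    intro κ γ k F hP hE
    have e1 : ∫ x : E N, u x ^ 2 * (En N k F (‖x‖ ^ 2) - κ * Pk k F (‖x‖ ^ 2))
        = (∫ x : E N, u x ^ 2 * En N k F (‖x‖ ^ 2)) - κ * ∫ x : E N, u x ^ 2 * Pk k F (‖x‖ ^ 2) := by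
      rw [← integral_const_mul, ← integral_sub hE (hP.const_mul κ)]
      congr 1
      ext x
      ring
    have e2 : ∫ x : E N, u x ^ 2 * (γ * Pk k F (‖x‖ ^ 2) - En N k F (‖x‖ ^ 2))
        = γ * (∫ x : E N, u x ^ 2 * Pk k F (‖x‖ ^ 2)) - ∫ x : E N, u x ^ 2 * En N k F (‖x‖ ^ 2) := by
      rw [← integral_const_mul, ← integral_sub (hP.const_mul γ) hE]
      congr 1
      ext x
      ring
    rw [e1, e2]
    ring
  set κ : ℝ := γ2 + δ with hκ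
  have hS1 : ∑ j : Fin N, TrE_Q u κ (tf F1 j) (tf F1 j) ≤ -((γ2 - γ1) * c / 2) := by
    rw [TrE_sum_tf u hu hc κ F1 hF1, key κ γ1 1 F1 hP1 hE1]
    have : (γ2 - γ1) * c ≤ (κ - γ1) * ∫ x : E N, u x ^ 2 * Pk 1 F1 (‖x‖ ^ 2) := by
      apply mul_le_mul _ c1 hcpos.le _
      · rw [hκ]; linarith
      · rw [hκ]; linarith
    linarith
  have hS2 : ∑ a : Fin N, ∑ b : Fin N, TrE_Q u κ (tg F2 a b) (tg F2 a b)
      ≤ -((1 - 1 / (N : ℝ)) * δ * c / 2) := by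
    rw [TrE_sum_tg hN1 u hu hc κ F2 hF2, key κ γ2 2 F2 hP2 hE2]
    have h3 : δ * c ≤ (κ - γ2) * ∫ x : E N, u x ^ 2 * Pk 2 F2 (‖x‖ ^ 2) := by
      have : κ - γ2 = δ := by rw [hκ]; ring
      rw [this]
      exact mul_le_mul_of_nonneg_left c2 hδ.le
    have h4 : 0 ≤ 1 - 1 / (N : ℝ) := by
      rw [sub_nonneg, div_le_one hNpos]
      linarith
    have h5 : - (∫ x : E N, u x ^ 2 * (γ2 * Pk 2 F2 (‖x‖ ^ 2) - En N 2 F2 (‖x‖ ^ 2)))
        - (κ - γ2) * ∫ x : E N, u x ^ 2 * Pk 2 F2 (‖x‖ ^ 2) ≤ -(δ * c / 2) := by linarith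
    calc _ ≤ (1 - 1 / (N : ℝ)) * (-(δ * c / 2)) := mul_le_mul_of_nonneg_left h5 h4
      _ = _ := by ring
  -- choose a, b
  obtain ⟨a, b, hab⟩ : ∃ a b : Fin N, TrE_Q u κ (tg F2 a b) (tg F2 a b)
      ≤ -((1 - 1 / (N : ℝ)) * δ * c / (2 * N ^ 2)) := by
    by_contra hcon
    push Not at hcon
    have hne : (Finset.univ : Finset (Fin N)).Nonempty := ⟨⟨0, by omega⟩, Finset.mem_univ _⟩
    have h6 : ∑ a : Fin N, ∑ b : Fin N, (-((1 - 1 / (N : ℝ)) * δ * c / (2 * N ^ 2)))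
        < ∑ a : Fin N, ∑ b : Fin N, TrE_Q u κ (tg F2 a b) (tg F2 a b) :=
      Finset.sum_lt_sum_of_nonempty hne fun a _ => Finset.sum_lt_sum_of_nonempty hne
        fun b _ => hcon a b
    simp only [Finset.sum_const, Finset.card_univ, Fintype.card_fin, nsmul_eq_mul] at h6
    have h7 : (N : ℝ) * (N * (-((1 - 1 / (N : ℝ)) * δ * c / (2 * N ^ 2))))
        = -((1 - 1 / (N : ℝ)) * δ * c / 2) := by
      field_simp
    rw [h7] at h6
    linarith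
  refine ⟨a, b, fun cc => ?_⟩
  set η : ℝ := min κ (min ((γ2 - γ1) * c / (2 * N)) ((1 - 1 / (N : ℝ)) * δ * c / (2 * N ^ 2)))
    with hη
  have hη1 : η ≤ κ := min_le_left _ _
  have hη2 : η ≤ (γ2 - γ1) * c / (2 * N) := le_trans (min_le_right _ _) (min_le_left _ _)
  have hη3 : η ≤ (1 - 1 / (N : ℝ)) * δ * c / (2 * N ^ 2) :=
    le_trans (min_le_right _ _) (min_le_right _ _)
  -- diagonal tf
  have hdiag : ∀ j : Fin N, TrE_Q u κ (tf F1 j) (tf F1 j) ≤ -((γ2 - γ1) * c / (2 * N)) := by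
    intro j
    have hall : ∀ i : Fin N, TrE_Q u κ (tf F1 i) (tf F1 i) = TrE_Q u κ (tf F1 j) (tf F1 j) := by
      intro i
      rw [TrE_Q_tf_tf hN1 G hirr u hu hc hinv κ F1 hF1 i i,
        TrE_Q_tf_tf hN1 G hirr u hu hc hinv κ F1 hF1 j j, if_pos rfl, if_pos rfl]
    rw [Finset.sum_congr rfl (fun i _ => hall i)] at hS1
    simp only [Finset.sum_const, Finset.card_univ, Fintype.card_fin, nsmul_eq_mul] at hS1
    have h8 : TrE_Q u κ (tf F1 j) (tf F1 j) = ((N : ℝ) * TrE_Q u κ (tf F1 j) (tf F1 j)) / N := by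
      field_simp
    rw [h8]
    have h9 : -((γ2 - γ1) * c / (2 * N)) = (-((γ2 - γ1) * c / 2)) / N := by
      field_simp
    rw [h9]
    exact div_le_div_of_nonneg_right hS1 hNpos.le
  have hoff : ∀ i j : Option (Option (Fin N)), i ≠ j →
      TrE_Q u κ (psi F1 F2 a b i) (psi F1 F2 a b j) = 0 := by
    intro i j hij
    rcases i with _ | _ | i <;> rcases j with _ | _ | j
    · exact absurd rfl hij
    · exact TrE_Q_one_tg hN1 G hirr u hu hc hinv κ F2 hf2 a b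
    · exact TrE_Q_one_tf u κ hneg' F1 j
    · rw [TrE_Q_comm]
      exact TrE_Q_one_tg hN1 G hirr u hu hc hinv κ F2 hf2 a b
    · exact absurd rfl hij
    · rw [TrE_Q_comm]
      exact TrE_Q_tf_tg u κ hneg' F1 F2 hF1 hF2 j a b
    · rw [TrE_Q_comm]
      exact TrE_Q_one_tf u κ hneg' F1 i
    · exact TrE_Q_tf_tg u κ hneg' F1 F2 hF1 hF2 i a b
    · have hne : i ≠ j := fun h => hij (by rw [h])
      show TrE_Q u κ (tf F1 i) (tf F1 j) = 0
      rw [TrE_Q_tf_tf hN1 G hirr u hu hc hinv κ F1 hF1 i j, if_neg hne]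
  have hon : ∀ i : Option (Option (Fin N)),
      TrE_Q u κ (psi F1 F2 a b i) (psi F1 F2 a b i) ≤ -η := by
    intro i
    rcases i with _ | _ | i
    · show TrE_Q u κ (fun _ => (1 : ℝ)) (fun _ => 1) ≤ -η
      rw [TrE_Q_one_one u κ hmass]
      linarith
    · show TrE_Q u κ (tg F2 a b) (tg F2 a b) ≤ -η
      linarith
    · show TrE_Q u κ (tf F1 i) (tf F1 i) ≤ -η
      linarith [hdiag i]
  have hexp := TrE_expand u hu hc (psi F1 F2 a b) (TrE_contDiff_psi F1 F2 hF1 hF2 a b) κ cc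
  have hsum : ∑ i, ∑ j, cc i * cc j * (∫ x, u x ^ 2 * (dot (psi F1 F2 a b i) (psi F1 F2 a b j) x
      - κ * (psi F1 F2 a b i x * psi F1 F2 a b j x))) ≤ -η * ∑ i, cc i ^ 2 := by
    rw [Finset.mul_sum]
    refine Finset.sum_le_sum fun i _ => ?_
    have h10 : ∑ j, cc i * cc j * (∫ x, u x ^ 2 * (dot (psi F1 F2 a b i) (psi F1 F2 a b j) x
      - κ * (psi F1 F2 a b i x * psi F1 F2 a b j x)))
        = cc i * cc i * TrE_Q u κ (psi F1 F2 a b i) (psi F1 F2 a b i) := by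
      rw [Finset.sum_eq_single i]
      · rfl
      · intro j _ hji
        have := hoff i j (fun h => hji h.symm)
        unfold TrE_Q at this
        rw [this, mul_zero]
      · intro h
        exact absurd (Finset.mem_univ i) h
    rw [h10]
    have h11 := mul_le_mul_of_nonneg_left (hon i) (mul_self_nonneg (cc i))
    calc _ ≤ cc i * cc i * -η := h11
      _ = _ := by ring
  linarith

end Pool.Agent.H94.ER
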