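import Pool.Agent.H94.ER.TrA
import Pool.Agent.H94.ER.TrB
import Pool.Agent.H94.ER.TrE
import Pool.Agent.H94.ER.PrH
import Pool.Agent.H94.ER.BaD

/-!
# UpA: the upper bound `dirEig Ω (N+2) ≤ bz (N+4)` if `dirEig Ω 1 ≤ bz N`

Fix `δ > 0`; show `dirEig Ω (N+2) ≤ bz (N+4) + δ`. Put `lam = bz N`, `L1 = dirEig Ω 1 ∈ [0, lam]`,
`γ1 = bz (N+2) - bz N`, `γ2 = bz (N+4) - bz N`, `κ = γ2 + δ`; `0 < γ1` (`gamma_gt N 1`: `γ1 > N - 1`), `γ1 < γ2`
(`bz_lt (N+2)`).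
* constants: `A` bounds `1`, `tf (Fp N 1) j`, `tg (Fp N 2) a b` and all their partial derivatives
  (`tf_bound`, `tg_bound`, hypotheses from `Fp_out`), and `Hk N 1`, `Hk N 2` (`Ht_bound`).
  `c = min(c1,c2) > 0` with `∫ u^2 Pk k (Fp N k)(‖x‖^2) ≥ c` (`k = 1,2`) for all `u` with `mass u = 1`,
  `energy u ≤ lam + 1`: `anticonc` and `Pk_lower`.
* take `u` from `near_min_inv` with `energy u ≤ L1 + ε^2`, `ε ≤ 1` small. `form_cs` (with `L = L1`, `ε^2` in place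
  of `ε`; `hpos` is `eig_one_le`) gives `hEL`: `|∫ dot u v - L1 ∫ u v| ≤ ε √(energy v)` for test `v`.
* `τ`: for `k = 1,2` apply this to `v = H̃ u`, `H̃ = Hk N k (‖x‖^2)`: `energy v ≤ 2 A^2 (lam + 1 + N)` (`energy_mul_le`), so
  `∫ dot u (H̃ u) ≤ L1 ∫ H̃ u^2 + ε A √(2 (lam+1+N)) ≤ bz N ∫ H̃ u^2 + τ`, `τ := ε A √(2 (lam+1+N))`, and
  `J_ineq` gives `∫ u^2 (γk Pk - En) ≥ -τ`.
* for `ε` small `block` applies (with `γ1, γ2, δ, τ, c`) and gives `a, b` and `hQ` with `η > 0` independent of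
  `ε`; for `ε` small `hsmall` of `trial_bound` holds too. `trial_bound` with `ι = Option (Option (Fin N))`,
  `card ι = N + 2`, gives `dirEig Ω (N+2) ≤ lam + κ = bz (N+4) + δ`.
Order of quantifiers: first `A, c, η`, then `ε`, then `u`, then `(a,b)`.
-/

set_option autoImplicit false

open MeasureTheory

namespace Pool.Agent.H94.ER

variable {N : ℕ}

theorem upA_cont (N k : ℕ) (hN : 2 ≤ N) :
    Continuous (fun x : E N => Pk k (Fp N k) (‖x‖ ^ 2)) := by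
  have h1 : Continuous (Fp N k) := (contDiff_Fp N k hN).continuous
  have h2 : Continuous (fun x : E N => ‖x‖ ^ 2) := continuous_norm.pow 2
  unfold Pk
  exact (h2.pow k).mul ((h1.comp h2).pow 2)

theorem upA_integrable (u φ : E N → ℝ) (hu : Continuous u) (hc : HasCompactSupport u)
    (hφ : Continuous φ) : Integrable (fun x => u x ^ 2 * φ x) := by
  have h1 : (fun x => u x ^ 2 * φ x) = u * fun x => u x * φ x := by
    funext x
    simp only [Pi.mul_apply]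
    ring
  rw [h1]
  exact (hu.mul (hu.mul hφ)).integrable_of_hasCompactSupport hc.mul_right

/-- the weights of degree `k` do not vanish -/
theorem upA_lower (hN : 2 ≤ N) (k : ℕ) (hk : 1 ≤ k) (C : ℝ) (hC : 0 ≤ C) :
    ∃ c : ℝ, 0 < c ∧ ∀ u : E N → ℝ, ContDiff ℝ 1 u → HasCompactSupport u → mass u = 1 →
      energy u ≤ C → c ≤ ∫ x, u x ^ 2 * Pk k (Fp N k) (‖x‖ ^ 2) := by
  obtain ⟨a, ha, h1⟩ := anticonc hN C hC k
  obtain ⟨p, hp, h2⟩ := Pk_lower N k hN hk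
  refine ⟨p * a, mul_pos hp ha, fun u hu hc hm he => ?_⟩
  have h3 := h1 u hu hc hm he
  have h4 : Continuous (fun x : E N => (min 1 (‖x‖ ^ 2)) ^ k) :=
    (continuous_const.min (continuous_norm.pow 2)).pow k
  calc p * a ≤ p * ∫ x, u x ^ 2 * (min 1 (‖x‖ ^ 2)) ^ k := mul_le_mul_of_nonneg_left h3 hp.le
    _ = ∫ x, p * (u x ^ 2 * (min 1 (‖x‖ ^ 2)) ^ k) := (integral_const_mul _ _).symm
    _ ≤ ∫ x, u x ^ 2 * Pk k (Fp N k) (‖x‖ ^ 2) := by
        refine integral_mono ((upA_integrable u _ hu.continuous hc h4).const_mul p)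
          (upA_integrable u _ hu.continuous hc (upA_cont N k hN)) fun x => ?_
        have h5 := h2 (‖x‖ ^ 2) (by positivity)
        have h6 := mul_le_mul_of_nonneg_left h5 (sq_nonneg (u x))
        calc p * (u x ^ 2 * (min 1 (‖x‖ ^ 2)) ^ k)
            = u x ^ 2 * (p * (min 1 (‖x‖ ^ 2)) ^ k) := by ring
          _ ≤ _ := h6

/-- the inequality of degree `k` for a near-minimiser -/
theorem upA_tau (hN : 2 ≤ N) (k : ℕ) (hk : 1 ≤ k) (Ω : Set (E N)) (u : E N → ℝ)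
    (hu : IsTest Ω u) (hmass : mass u = 1) (L1 ε B : ℝ) (hL1 : L1 ≤ bz N)
    (hen : energy u ≤ bz N + 1) (hε : 0 ≤ ε) (hB0 : 0 ≤ B)
    (hB : ∀ x : E N, |Hk N k (‖x‖ ^ 2)| ≤ B ∧
      ∀ i, |pd i (fun y : E N => Hk N k (‖y‖ ^ 2)) x| ≤ B)
    (hEL : ∀ v, IsTest Ω v → |(∫ x, dot u v x) - L1 * ∫ x, u x * v x| ≤ ε * √(energy v)) :
    -(ε * (B * √(2 * (bz N + 1 + N)))) ≤
      ∫ x, u x ^ 2 * ((bz (N + 2 * k) - bz N) * Pk k (Fp N k) (‖x‖ ^ 2)
          - En N k (Fp N k) (‖x‖ ^ 2)) := by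
  have hφ := contDiff_Ht (N := N) k hN hk
  have hv : IsTest Ω (fun y => Hk N k (‖y‖ ^ 2) * u y) := hu.mul_left _ hφ
  have h1 := energy_mul_le u (fun y : E N => Hk N k (‖y‖ ^ 2)) hu.1 hu.2.1 hφ B hB
  rw [hmass, mul_one] at h1
  have h2 : energy (fun y => Hk N k (‖y‖ ^ 2) * u y) ≤ B ^ 2 * (2 * (bz N + 1 + N)) := by
    refine h1.trans ?_
    have h3 : energy u + N ≤ bz N + 1 + N := by linarith
    calc 2 * B ^ 2 * (energy u + N) ≤ 2 * B ^ 2 * (bz N + 1 + N) :=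
          mul_le_mul_of_nonneg_left h3 (by positivity)
      _ = _ := by ring
  have h3 : √(energy (fun y => Hk N k (‖y‖ ^ 2) * u y)) ≤ B * √(2 * (bz N + 1 + N)) := by
    refine (Real.sqrt_le_sqrt h2).trans (le_of_eq ?_)
    rw [Real.sqrt_mul (by positivity), Real.sqrt_sq hB0]
  have h4 := (abs_le.1 (hEL _ hv)).2
  have h5 := mul_le_mul_of_nonneg_left h3 hε
  have h6 := J_ineq (N := N) k hN hk u hu.1 hu.2.1
  have h7 : ∫ x, u x * (Hk N k (‖x‖ ^ 2) * u x) = ∫ x, Hk N k (‖x‖ ^ 2) * u x ^ 2 := by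
    refine integral_congr_ae (Filter.Eventually.of_forall fun x => ?_)
    show u x * (Hk N k (‖x‖ ^ 2) * u x) = Hk N k (‖x‖ ^ 2) * u x ^ 2
    ring
  have h8 : 0 ≤ ∫ x, Hk N k (‖x‖ ^ 2) * u x ^ 2 :=
    integral_nonneg fun x => mul_nonneg (Ht_nonneg k hN hk x) (sq_nonneg _)
  rw [h7] at h4
  have h9 := mul_le_mul_of_nonneg_right hL1 h8
  linarith

theorem upper_scaled (hN : 2 ≤ N) (Ω : Set (E N)) (hΩ : IsOpen Ω) (hne : Ω.Nonempty)
    (G : Subgroup (E N ≃ₗᵢ[ℝ] E N)) [Finite G] (hG : ∀ g ∈ G, g '' Ω = Ω)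
    (hneg : LinearIsometryEquiv.neg ℝ ∈ G)
    (hirr : ∀ V : Submodule ℝ (E N), (∀ g ∈ G, ∀ v ∈ V, g v ∈ V) → V = ⊥ ∨ V = ⊤)
    (h1 : dirEig Ω 1 ≤ bz N) : dirEig Ω (N + 2) ≤ bz (N + 4) := by
  refine le_of_forall_pos_le_add fun δ hδ => ?_
  have hN1 : 1 ≤ N := by omega
  have hNr : (2 : ℝ) ≤ (N : ℝ) := by exact_mod_cast hN
  have hN0 : (0 : ℝ) < (N : ℝ) := by linarith
  have hlam : 0 < bz N := bz_pos N hNr
  have hL0 : 0 ≤ dirEig Ω 1 := dirEig_nonneg Ω 1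
  -- the gaps
  set γ1 : ℝ := bz (N + 2 * ((1 : ℕ) : ℝ)) - bz N with hγ1
  set γ2 : ℝ := bz (N + 2 * ((2 : ℕ) : ℝ)) - bz N with hγ2
  have hg1 : 0 < γ1 := by
    have h2 := gamma_gt N 1 hN le_rfl
    have h3 : (0 : ℝ) ≤ ((1 : ℕ) : ℝ) * (N + ((1 : ℕ) : ℝ) - 2) := by
      push_cast
      linarith
    linarith
  have hg2 : γ1 < γ2 := by
    have h2 := bz_lt ((N : ℝ) + 2) (by linarith)
    have e1 : (N : ℝ) + 2 * ((1 : ℕ) : ℝ) = (N : ℝ) + 2 := by push_cast; ring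
    have e2 : (N : ℝ) + 2 * ((2 : ℕ) : ℝ) = (N : ℝ) + 2 + 2 := by push_cast; ring
    rw [hγ1, hγ2, e1, e2]
    linarith
  have hg4 : bz ((N : ℝ) + 4) = bz N + γ2 := by
    have e2 : (N : ℝ) + 2 * ((2 : ℕ) : ℝ) = (N : ℝ) + 4 := by push_cast; ring
    rw [hγ2, e2]
    ring
  have hF1 := contDiff_Fp N 1 hN
  have hF2 := contDiff_Fp N 2 hN
  -- the constants
  obtain ⟨A1, hA10, hA1⟩ := tf_bound (N := N) (Fp N 1) hF1 (fun s hs => by
    have h2 := Fp_out N 1 s hs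
    rw [Nat.cast_one] at h2
    exact h2)
  obtain ⟨A2, hA20, hA2⟩ := tg_bound (N := N) (Fp N 2) hF2 (fun s hs => by
    have h2 := Fp_out N 2 s hs
    rw [Nat.cast_ofNat] at h2
    exact h2)
  obtain ⟨B1, hB10, hB1⟩ := Ht_bound (N := N) 1 hN le_rfl
  obtain ⟨B2, hB20, hB2⟩ := Ht_bound (N := N) 2 hN (by norm_num)
  obtain ⟨c1, hc1, hC1⟩ := upA_lower hN 1 le_rfl (bz N + 1) (by linarith)
  obtain ⟨c2, hc2, hC2⟩ := upA_lower hN 2 (by norm_num) (bz N + 1) (by linarith)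
  set c : ℝ := min c1 c2 with hc
  have hcpos : 0 < c := lt_min hc1 hc2
  set A : ℝ := 1 + A1 + A2 with hA
  set B : ℝ := B1 + B2 with hB
  have hA0 : 0 ≤ A := by positivity
  have hB0 : 0 ≤ B := by positivity
  set R : ℝ := √(2 * (bz N + 1 + N)) with hR
  have hR0 : 0 ≤ R := Real.sqrt_nonneg _
  set η : ℝ := min (γ2 + δ) (min ((γ2 - γ1) * c / (2 * N))
    ((1 - 1 / (N : ℝ)) * δ * c / (2 * N ^ 2))) with hη
  have hg21 : 0 < γ2 - γ1 := by linarith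
  have h1N : 0 < 1 - 1 / (N : ℝ) := by
    have h2 : 1 / (N : ℝ) ≤ 1 / 2 := one_div_le_one_div_of_le (by norm_num) hNr
    linarith
  have hηpos : 0 < η := by
    refine lt_min (by linarith) (lt_min (by positivity) (by positivity))
  set θ : ℝ := min η (min ((γ2 - γ1) * c / 2) (δ * c / 2)) with hθ
  have hθpos : 0 < θ := lt_min hηpos (lt_min (by positivity) (by positivity))
  set M : ℝ := 4 * ((N : ℝ) + 2) * A ^ 2 * R + B * R + 1 with hM
  have hM1 : 0 ≤ 4 * ((N : ℝ) + 2) * A ^ 2 * R := by positivity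
  have hM2 : 0 ≤ B * R := by positivity
  have hMpos : 0 < M := by linarith
  set ε : ℝ := min 1 (θ / M) with hε
  have hεpos : 0 < ε := lt_min one_pos (div_pos hθpos hMpos)
  have hε1 : ε ≤ 1 := min_le_left _ _
  have hεM : ε * M ≤ θ := by
    have h2 : ε ≤ θ / M := min_le_right _ _
    calc ε * M ≤ θ / M * M := mul_le_mul_of_nonneg_right h2 hMpos.le
      _ = θ := div_mul_cancel₀ _ hMpos.ne'
  -- the near-minimiser
  obtain ⟨u, hu, hmass, hen, hinv⟩ := near_min_inv hN1 Ω hΩ hne G hG (ε ^ 2) (by positivity)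
  have hε2 : ε ^ 2 ≤ 1 := pow_le_one₀ hεpos.le hε1
  have hen' : energy u ≤ bz N + 1 := by linarith
  have hEL : ∀ v, IsTest Ω v →
      |(∫ x, dot u v x) - dirEig Ω 1 * ∫ x, u x * v x| ≤ ε * √(energy v) := by
    intro v hv
    have h2 := form_cs Ω (dirEig Ω 1) (ε ^ 2) hL0 (eig_one_le Ω) u hu
      (by rw [hmass, mul_one]; exact hen) v hv
    rwa [Real.sqrt_sq hεpos.le] at h2
  set τ : ℝ := ε * (B * R) with hτ
  have hτθ : τ ≤ θ := by
    have h2 : ε * (B * R) ≤ ε * M := mul_le_mul_of_nonneg_left (by linarith) hεpos.le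
    linarith
  have hτ1 : τ ≤ (γ2 - γ1) * c / 2 := hτθ.trans ((min_le_right _ _).trans (min_le_left _ _))
  have hτ2 : τ ≤ δ * c / 2 := hτθ.trans ((min_le_right _ _).trans (min_le_right _ _))
  have hJ1 := upA_tau hN 1 le_rfl Ω u hu hmass (dirEig Ω 1) ε B h1 hen' hεpos.le hB0
    (fun x => ⟨(hB1 x).1.trans (by linarith), fun i => ((hB1 x).2 i).trans (by linarith)⟩) hEL
  have hJ2 := upA_tau hN 2 (by norm_num) Ω u hu hmass (dirEig Ω 1) ε B h1 hen' hεpos.le hB0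
    (fun x => ⟨(hB2 x).1.trans (by linarith), fun i => ((hB2 x).2 i).trans (by linarith)⟩) hEL
  obtain ⟨a, b, hQ⟩ := block hN G hneg hirr u hu.1 hu.2.1 hmass hinv (Fp N 1) (Fp N 2) hF1 hF2
    γ1 γ2 δ τ c hg1 hg2 hδ hcpos hJ1 hJ2
    ((min_le_left _ _).trans (hC1 u hu.1 hu.2.1 hmass hen'))
    ((min_le_right _ _).trans (hC2 u hu.1 hu.2.1 hmass hen')) hτ1 hτ2
  have hcard : Fintype.card (Option (Option (Fin N))) = N + 2 := by
    rw [Fintype.card_option, Fintype.card_option, Fintype.card_fin]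
  have hsmall : ε * (4 * (Fintype.card (Option (Option (Fin N))) : ℝ) * A ^ 2 *
      √(2 * (bz N + 1 + N))) ≤ η := by
    rw [hcard]
    push_cast
    have h2 : ε * (4 * ((N : ℝ) + 2) * A ^ 2 * R) ≤ ε * M :=
      mul_le_mul_of_nonneg_left (by linarith) hεpos.le
    have h3 : θ ≤ η := min_le_left _ _
    linarith
  have hfin := trial_bound (ι := Option (Option (Fin N))) (by rw [hcard]; omega) Ω u hu hmass
    (dirEig Ω 1) (bz N) (γ2 + δ) η A ε hL0 h1 hen' (psi (Fp N 1) (Fp N 2) a b)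
    (by
      rintro (_ | _ | j)
      · exact contDiff_const
      · exact contDiff_tg _ hF2 a b
      · exact contDiff_tf _ hF1 j)
    hA0
    (by
      rintro (_ | _ | j) x
      · refine ⟨?_, fun j => ?_⟩
        · show |(1 : ℝ)| ≤ A
          rw [abs_one]
          linarith
        · show |pd j (fun _ => (1 : ℝ)) x| ≤ A
          rw [pd_const, abs_zero]
          exact hA0
      · exact ⟨(hA2 a b x).1.trans (by linarith),
          fun i => ((hA2 a b x).2 i).trans (by linarith)⟩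
      · exact ⟨(hA1 j x).1.trans (by linarith),
          fun i => ((hA1 j x).2 i).trans (by linarith)⟩)
    hεpos.le hEL hηpos hsmall hQ
  rw [hcard] at hfin
  rw [hg4]
  linarith

end Pool.Agent.H94.ER
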