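import Pool.Agent.H94.ER.PrD

/-!
# PrE: the extended profile `Fp N k` is `C^1`

`Fp N k s = F0 N k s` for `s ≤ 1` and `F0 N k 1 * s^(-k/2)` for `s ≥ 1`; the two pieces are smooth near
`(-∞,1]` and `[1,∞)`, their values and derivatives agree at `1` (`F0_deriv_one`). So `Fp` is differentiable
with continuous derivative. (`HasDerivAt` at `1` from the one-sided derivatives, `HasDerivWithinAt.union`.)
* `Pk k (Fp N k)` is constant `= F0 N k 1 ^ 2` on `[1,∞)` and monotone on `[0,1]`: its derivative is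
  `s^(k-1) F (k F + 2 s F') ≥ 0` there (`G_nonneg`). So `0 ≤ Pk ≤ Fp 1 ^ 2` on `[0,∞)`.
* `Pk_lower`: `Fp > 0` is continuous, so `≥ c` on `[0,1]`; `Pk = s^k F^2 ≥ c^2 s^k` there.
* `En_out`: for `s > 1`, `En N k Fp s = k (N + k - 2) Fp(1)^2 / s`.
-/

set_option autoImplicit false

namespace Pool.Agent.H94.ER

theorem pre_hasDerivAt (f g df dg : ℝ → ℝ) (hf : ∀ s ≤ 1, HasDerivAt f (df s) s)
    (hg : ∀ s, 1 ≤ s → HasDerivAt g (dg s) s) (h0 : f 1 = g 1) (h1 : df 1 = dg 1) (s : ℝ) :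
    HasDerivAt (fun s => if s ≤ 1 then f s else g s) (if s ≤ 1 then df s else dg s) s := by
  rcases lt_trichotomy s 1 with h | h | h
  · rw [if_pos h.le]
    refine (hf s h.le).congr_of_eventuallyEq ?_
    filter_upwards [Iio_mem_nhds h] with t ht
    exact if_pos (le_of_lt ht)
  · subst h
    rw [if_pos le_rfl]
    have h2 : HasDerivWithinAt (fun s => if s ≤ 1 then f s else g s) (df 1) (Set.Iic 1) 1 :=
      (hf 1 le_rfl).hasDerivWithinAt.congr (fun t ht => if_pos ht) (if_pos le_rfl)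
    have h3 : HasDerivWithinAt (fun s => if s ≤ 1 then f s else g s) (df 1) (Set.Ici 1) 1 := by
      rw [h1]
      refine (hg 1 le_rfl).hasDerivWithinAt.congr (fun t ht => ?_) ?_
      · rcases eq_or_lt_of_le (Set.mem_Ici.1 ht) with h4 | h4
        · rw [← h4, if_pos le_rfl, h0]
        · exact if_neg (not_le.2 h4)
      · rw [if_pos le_rfl, h0]
    have h4 := h2.union h3
    rw [Set.Iic_union_Ici, hasDerivWithinAt_univ] at h4
    exact h4
  · rw [if_neg (not_le.2 h)]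
    refine (hg s h.le).congr_of_eventuallyEq ?_
    filter_upwards [Ioi_mem_nhds h] with t ht
    exact if_neg (not_le.2 ht)

theorem pre_continuous (f g : ℝ → ℝ) (hf : ∀ s ≤ 1, ContinuousAt f s)
    (hg : ∀ s, 1 ≤ s → ContinuousAt g s) (h0 : f 1 = g 1) :
    Continuous (fun s => if s ≤ 1 then f s else g s) := by
  rw [continuous_iff_continuousAt]
  intro s
  rcases lt_trichotomy s 1 with h | h | h
  · refine (hf s h.le).congr ?_
    filter_upwards [Iio_mem_nhds h] with t ht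
    exact (if_pos (le_of_lt ht)).symm
  · subst h
    have h2 : ContinuousWithinAt (fun s => if s ≤ 1 then f s else g s) (Set.Iic 1) 1 :=
      (hf 1 le_rfl).continuousWithinAt.congr (fun t ht => if_pos ht) (if_pos le_rfl)
    have h3 : ContinuousWithinAt (fun s => if s ≤ 1 then f s else g s) (Set.Ici 1) 1 := by
      refine (hg 1 le_rfl).continuousWithinAt.congr (fun t ht => ?_) ?_
      · rcases eq_or_lt_of_le (Set.mem_Ici.1 ht) with h4 | h4
        · rw [← h4, if_pos le_rfl, h0]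
        · exact if_neg (not_le.2 h4)
      · rw [if_pos le_rfl, h0]
    have h4 := h2.union h3
    rw [Set.Iic_union_Ici, continuousWithinAt_univ] at h4
    exact h4
  · refine (hg s h.le).congr ?_
    filter_upwards [Ioi_mem_nhds h] with t ht
    exact (if_neg (not_le.2 ht)).symm

theorem pre_hasDerivAt_out (N k : ℕ) (s : ℝ) (hs : 1 ≤ s) :
    HasDerivAt (fun s : ℝ => F0 N k 1 * s ^ (-(k : ℝ) / 2))
      (F0 N k 1 * (-(k : ℝ) / 2 * s ^ (-(k : ℝ) / 2 - 1))) s :=
  (Real.hasDerivAt_rpow_const (Or.inl (by positivity))).const_mul _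

theorem pre_hasDerivAt_in (N k : ℕ) (hN : 2 ≤ N) (s : ℝ) (hs : s ≤ 1) :
    HasDerivAt (F0 N k) (deriv (F0 N k) s) s :=
  ((F0_smooth N k hN s hs 1).differentiableAt (by norm_num)).hasDerivAt

theorem pre_match (N k : ℕ) (hN : 2 ≤ N) :
    deriv (F0 N k) 1 = F0 N k 1 * (-(k : ℝ) / 2 * (1 : ℝ) ^ (-(k : ℝ) / 2 - 1)) := by
  rw [F0_deriv_one N k hN, Real.one_rpow]
  ring

theorem pre_Fp (N k : ℕ) (hN : 2 ≤ N) (s : ℝ) :
    HasDerivAt (Fp N k) (if s ≤ 1 then deriv (F0 N k) s else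
      F0 N k 1 * (-(k : ℝ) / 2 * s ^ (-(k : ℝ) / 2 - 1))) s :=
  pre_hasDerivAt (F0 N k) (fun s : ℝ => F0 N k 1 * s ^ (-(k : ℝ) / 2)) (deriv (F0 N k))
    (fun s => F0 N k 1 * (-(k : ℝ) / 2 * s ^ (-(k : ℝ) / 2 - 1)))
    (fun s hs => pre_hasDerivAt_in N k hN s hs) (fun s hs => pre_hasDerivAt_out N k s hs)
    (by simp) (pre_match N k hN) s

theorem contDiff_Fp (N k : ℕ) (hN : 2 ≤ N) : ContDiff ℝ 1 (Fp N k) := by
  rw [contDiff_one_iff_deriv]
  refine ⟨fun s => (pre_Fp N k hN s).differentiableAt, ?_⟩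
  have h1 : deriv (Fp N k) = fun s => if s ≤ 1 then deriv (F0 N k) s else
      F0 N k 1 * (-(k : ℝ) / 2 * s ^ (-(k : ℝ) / 2 - 1)) := funext fun s => (pre_Fp N k hN s).deriv
  rw [h1]
  refine pre_continuous (deriv (F0 N k)) _ (fun s hs => ?_) (fun s hs => ?_) (pre_match N k hN)
  · have h2 : ContDiffAt ℝ (2 : ℕ) (F0 N k) s := F0_smooth N k hN s hs 2
    have h3 : ContDiffAt ℝ 1 (fderiv ℝ (F0 N k)) s := h2.fderiv_right (by norm_num)
    have h4 : (deriv (F0 N k)) = fun x => fderiv ℝ (F0 N k) x 1 := by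
      funext x
      exact (fderiv_apply_one_eq_deriv).symm
    rw [h4]
    exact h3.continuousAt.clm_apply continuousAt_const
  · exact ((Real.continuousAt_rpow_const _ _ (Or.inl (by positivity))).const_mul _).const_mul _

theorem Fp_pos (N k : ℕ) (hN : 2 ≤ N) (s : ℝ) : 0 < Fp N k s := by
  unfold Fp
  split_ifs with h
  · exact F0_pos N k hN s h
  · have h1 := F0_pos N k hN 1 le_rfl
    have h2 : 0 < s := by linarith
    positivity

theorem Fp_out (N k : ℕ) (s : ℝ) (hs : 1 ≤ s) :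
    Fp N k s = Fp N k 1 * s ^ (-(k : ℝ) / 2) := by
  have h1 : Fp N k 1 = F0 N k 1 := if_pos le_rfl
  rcases eq_or_lt_of_le hs with h | h
  · rw [← h, Real.one_rpow, mul_one]
  · rw [h1]
    exact if_neg (not_le.2 h)

theorem deriv_Fp (N k : ℕ) (hN : 2 ≤ N) (s : ℝ) (hs : s ≤ 1) :
    deriv (Fp N k) s = deriv (F0 N k) s := by
  rw [(pre_Fp N k hN s).deriv, if_pos hs]

theorem Pk_out (N k : ℕ) (hN : 2 ≤ N) (s : ℝ) (hs : 1 ≤ s) :
    Pk k (Fp N k) s = Fp N k 1 ^ 2 := by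
  have h0 : 0 < s := by linarith
  unfold Pk
  rw [Fp_out N k s hs, mul_pow, ← Real.rpow_natCast (s ^ (-(k : ℝ) / 2)) 2, ← Real.rpow_mul h0.le]
  have h1 : -(k : ℝ) / 2 * ((2 : ℕ) : ℝ) = -(k : ℝ) := by push_cast; ring
  rw [h1, Real.rpow_neg h0.le, Real.rpow_natCast]
  have h2 : s ^ k ≠ 0 := by positivity
  field_simp

theorem Pk_le (N k : ℕ) (hN : 2 ≤ N) (hk : 1 ≤ k) (s : ℝ) (hs : 0 ≤ s) :
    Pk k (Fp N k) s ≤ Fp N k 1 ^ 2 := by
  rcases le_total s 1 with h | h
  · have hmono : MonotoneOn (fun s => s ^ k * F0 N k s ^ 2) (Set.Icc 0 1) := by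
      have hd : ∀ x : ℝ, x ≤ 1 → HasDerivAt (fun s => s ^ k * F0 N k s ^ 2)
          ((k : ℝ) * x ^ (k - 1) * F0 N k x ^ 2 + x ^ k * (2 * F0 N k x * deriv (F0 N k) x)) x := by
        intro x hx
        have h1 := (hasDerivAt_pow k x).mul ((pre_hasDerivAt_in N k hN x hx).pow 2)
        refine h1.congr_deriv ?_
        simp only [Pi.pow_apply]
        push_cast
        ring
      refine monotoneOn_of_deriv_nonneg (convex_Icc 0 1)
        (fun x hx => (hd x hx.2).continuousAt.continuousWithinAt)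
        (fun x hx => ?_) (fun x hx => ?_)
      · rw [interior_Icc] at hx
        exact (hd x hx.2.le).differentiableAt.differentiableWithinAt
      · rw [interior_Icc] at hx
        rw [(hd x hx.2.le).deriv]
        have h1 := G_nonneg N k hN hk x hx.1.le hx.2.le
        have h2 := F0_pos N k hN x hx.2.le
        have h3 : x ^ k = x ^ (k - 1) * x := by
          rw [← pow_succ]
          congr 1
          omega
        have h4 : (k : ℝ) * x ^ (k - 1) * F0 N k x ^ 2 + x ^ k * (2 * F0 N k x * deriv (F0 N k) x) =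
            x ^ (k - 1) * F0 N k x * (k * F0 N k x + 2 * x * deriv (F0 N k) x) := by
          rw [h3]
          ring
        rw [h4]
        have h5 : 0 ≤ x ^ (k - 1) := pow_nonneg hx.1.le _
        exact mul_nonneg (mul_nonneg h5 h2.le) h1
    have h1 := hmono ⟨hs, h⟩ ⟨zero_le_one, le_rfl⟩ h
    have h2 : Fp N k s = F0 N k s := if_pos h
    have h3 : Fp N k 1 = F0 N k 1 := if_pos le_rfl
    unfold Pk
    rw [h2, h3]
    simpa using h1
  · exact (Pk_out N k hN s h).le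

theorem Pk_lower (N k : ℕ) (hN : 2 ≤ N) (hk : 1 ≤ k) :
    ∃ c : ℝ, 0 < c ∧ ∀ s, 0 ≤ s → c * (min 1 s) ^ k ≤ Pk k (Fp N k) s := by
  have hc : Continuous (Fp N k) := (contDiff_Fp N k hN).continuous
  obtain ⟨x, hx, hmin⟩ := isCompact_Icc.exists_isMinOn (s := Set.Icc (0 : ℝ) 1)
    (Set.nonempty_Icc.2 zero_le_one) hc.continuousOn
  have hpos := Fp_pos N k hN x
  refine ⟨Fp N k x ^ 2, by positivity, fun s hs => ?_⟩
  rcases le_total s 1 with h | h
  · rw [min_eq_right h]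
    have h1 : Fp N k x ≤ Fp N k s := hmin ⟨hs, h⟩
    unfold Pk
    rw [mul_comm]
    exact mul_le_mul_of_nonneg_left (pow_le_pow_left₀ hpos.le h1 2) (pow_nonneg hs k)
  · rw [min_eq_left h, one_pow, mul_one, Pk_out N k hN s h]
    exact pow_le_pow_left₀ hpos.le (hmin ⟨zero_le_one, le_rfl⟩) 2

theorem En_out (N k : ℕ) (hN : 2 ≤ N) (hk : 1 ≤ k) (s : ℝ) (hs : 1 < s) :
    En N k (Fp N k) s = (k : ℝ) * (N + k - 2) * Fp N k 1 ^ 2 / s := by
  have h0 : 0 < s := by linarith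
  have h1 : deriv (Fp N k) s = -(k : ℝ) / 2 * Fp N k s / s := by
    rw [(pre_Fp N k hN s).deriv, if_neg (not_le.2 hs), Fp_out N k s hs.le,
      Real.rpow_sub_one h0.ne']
    have h3 : Fp N k 1 = F0 N k 1 := if_pos le_rfl
    rw [h3]
    ring
  have h2 := Pk_out N k hN s hs.le
  unfold Pk at h2
  unfold En
  rw [h1, ← h2]
  obtain ⟨j, rfl⟩ : ∃ j, k = j + 1 := ⟨k - 1, by omega⟩
  rw [Nat.add_sub_cancel]
  field_simp
  ring

end Pool.Agent.H94.ER
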