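import Pool.Agent.H94.ER.Defs

/-!
# BaA: calculus with partial derivatives on `R^N`

* `norm_fderiv_sq`: `‖L‖^2 = ∑ (L e_i)^2` for a continuous linear functional `L` on Euclidean space
  (Riesz: `L = ⟪v, ·⟫`, `‖L‖ = ‖v‖`, `L e_i = v i`; `(InnerProductSpace.toDual ℝ _).symm`,
  `EuclideanSpace.norm_sq_eq`). No differentiability is needed.
* product rule, sum rule etc: unfold `pd`, use `fderiv_mul`, `fderiv_add`, `fderiv_sum`,
  `fderiv_const_mul`.
* `pd_radial`: chain rule, `fderiv (fun x => ‖x‖^2) x = 2 • ⟪x, ·⟫` (`fderiv_norm_sq`).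
* `pd_comp_isometry`: `pd i (u ∘ g) x = fderiv u (g x) (g e_i)`, so
  `dot (u ∘ g) (v ∘ g) x = dot u v (g x)` because `(g e_i)` is again an orthonormal basis
  (write `fderiv u y = ⟪a, ·⟫`, `fderiv v y = ⟪b, ·⟫`: `∑ ⟪a, g e_i⟫ ⟪b, g e_i⟫ = ⟪a, b⟫`, e.g. with
  `OrthonormalBasis.sum_inner_mul_inner`).
-/

set_option autoImplicit false

open MeasureTheory

namespace Pool.Agent.H94.ER

variable {N : ℕ}

theorem BaA_riesz (u : E N → ℝ) (x : E N) (v : E N) :
    fderiv ℝ u x v = inner ℝ ((InnerProductSpace.toDual ℝ (E N)).symm (fderiv ℝ u x)) v := by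
  rw [InnerProductSpace.toDual_symm_apply]

theorem BaA_pd_eq (i : Fin N) (u : E N → ℝ) (x : E N) :
    pd i u x = ((InnerProductSpace.toDual ℝ (E N)).symm (fderiv ℝ u x)) i := by
  unfold pd
  rw [BaA_riesz, EuclideanSpace.inner_single_right]
  simp only [one_mul, conj_trivial]

theorem norm_fderiv_sq (u : E N → ℝ) (x : E N) : ‖fderiv ℝ u x‖ ^ 2 = dot u u x := by
  have h : ‖fderiv ℝ u x‖ = ‖(InnerProductSpace.toDual ℝ (E N)).symm (fderiv ℝ u x)‖ := by
    rw [LinearIsometryEquiv.norm_map]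
  rw [h, EuclideanSpace.norm_sq_eq]
  unfold dot
  refine Finset.sum_congr rfl fun i _ => ?_
  rw [BaA_pd_eq, Real.norm_eq_abs, sq_abs, sq]

theorem dot_comm (u v : E N → ℝ) (x : E N) : dot u v x = dot v u x := by
  unfold dot
  exact Finset.sum_congr rfl fun i _ => mul_comm _ _

theorem dot_self_nonneg (u : E N → ℝ) (x : E N) : 0 ≤ dot u u x := by
  unfold dot
  exact Finset.sum_nonneg fun i _ => mul_self_nonneg _

theorem pd_add (i : Fin N) (u v : E N → ℝ) (x : E N) (hu : DifferentiableAt ℝ u x)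
    (hv : DifferentiableAt ℝ v x) :
    pd i (fun y => u y + v y) x = pd i u x + pd i v x := by
  unfold pd
  rw [fderiv_fun_add hu hv]
  rfl

theorem pd_mul (i : Fin N) (u v : E N → ℝ) (x : E N) (hu : DifferentiableAt ℝ u x)
    (hv : DifferentiableAt ℝ v x) :
    pd i (fun y => u y * v y) x = u x * pd i v x + pd i u x * v x := by
  unfold pd
  rw [fderiv_fun_mul hu hv]
  simp [mul_comm]

theorem pd_const_mul (i : Fin N) (c : ℝ) (u : E N → ℝ) (x : E N) :
    pd i (fun y => c * u y) x = c * pd i u x := by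
  unfold pd
  by_cases hc : c = 0
  · subst hc
    simp
  by_cases hu : DifferentiableAt ℝ u x
  · rw [fderiv_const_mul hu]
    rfl
  · have h2 : ¬ DifferentiableAt ℝ (fun y => c * u y) x := by
      intro h
      apply hu
      have := h.const_mul (c⁻¹)
      refine this.congr_of_eventuallyEq (Filter.Eventually.of_forall fun y => ?_)
      simp only
      field_simp
    rw [fderiv_zero_of_not_differentiableAt hu, fderiv_zero_of_not_differentiableAt h2]
    simp

theorem pd_sum {ι : Type*} (s : Finset ι) (i : Fin N) (u : ι → E N → ℝ) (x : E N)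
    (hu : ∀ j ∈ s, DifferentiableAt ℝ (u j) x) :
    pd i (fun y => ∑ j ∈ s, u j y) x = ∑ j ∈ s, pd i (u j) x := by
  unfold pd
  rw [fderiv_fun_sum hu]
  simp

theorem pd_coord (i j : Fin N) (x : E N) :
    pd i (fun y => y j) x = if i = j then 1 else 0 := by
  unfold pd
  have h : HasFDerivAt (fun y : E N => y j) (EuclideanSpace.proj j : E N →L[ℝ] ℝ) x :=
    (EuclideanSpace.proj j : E N →L[ℝ] ℝ).hasFDerivAt
  rw [h.fderiv]
  by_cases hij : i = j
  · simp [hij]
  · simp [hij, Ne.symm hij]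

theorem pd_const (i : Fin N) (c : ℝ) (x : E N) : pd i (fun _ => c) x = 0 := by
  unfold pd
  simp

theorem pd_radial (i : Fin N) (F : ℝ → ℝ) (x : E N) (hF : DifferentiableAt ℝ F (‖x‖ ^ 2)) :
    pd i (fun y => F (‖y‖ ^ 2)) x = 2 * deriv F (‖x‖ ^ 2) * x i := by
  unfold pd
  have h1 : HasFDerivAt (fun y : E N => ‖y‖ ^ 2) (2 • (innerSL ℝ x)) x := by
    have := (hasStrictFDerivAt_norm_sq x).hasFDerivAt
    exact this
  have h2 := hF.hasDerivAt.comp_hasFDerivAt x h1
  have h3 : fderiv ℝ (fun y : E N => F (‖y‖ ^ 2)) x = deriv F (‖x‖ ^ 2) • (2 • (innerSL ℝ x)) :=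
    h2.fderiv
  rw [h3]
  simp [EuclideanSpace.inner_single_right]
  ring

theorem sum_coord_sq (x : E N) : ∑ i, x i ^ 2 = ‖x‖ ^ 2 := by
  rw [EuclideanSpace.norm_sq_eq]
  simp

theorem fderiv_eq_sum (u : E N → ℝ) (x v : E N) : fderiv ℝ u x v = ∑ i, v i * pd i u x := by
  rw [BaA_riesz, PiLp.inner_apply]
  refine Finset.sum_congr rfl fun i _ => ?_
  rw [BaA_pd_eq]
  simp

theorem BaA_dot_eq (u v : E N → ℝ) (x : E N) :
    dot u v x = inner ℝ ((InnerProductSpace.toDual ℝ (E N)).symm (fderiv ℝ u x))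
      ((InnerProductSpace.toDual ℝ (E N)).symm (fderiv ℝ v x)) := by
  rw [PiLp.inner_apply]
  unfold dot
  refine Finset.sum_congr rfl fun i _ => ?_
  rw [BaA_pd_eq, BaA_pd_eq]
  simp [mul_comm]

theorem BaA_grad_comp (g : E N ≃ₗᵢ[ℝ] E N) (u : E N → ℝ) (x : E N) :
    (InnerProductSpace.toDual ℝ (E N)).symm (fderiv ℝ (fun y => u (g y)) x)
      = g.symm ((InnerProductSpace.toDual ℝ (E N)).symm (fderiv ℝ u (g x))) := by
  have h1 : fderiv ℝ (fun y => u (g y)) x
      = (fderiv ℝ u (g x)).comp (g.toContinuousLinearEquiv : E N →L[ℝ] E N) := by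
    have := g.toContinuousLinearEquiv.comp_right_fderiv (f := u) (x := x)
    exact this
  refine ext_inner_right ℝ fun w => ?_
  rw [InnerProductSpace.toDual_symm_apply, h1]
  have h2 : inner ℝ (g.symm ((InnerProductSpace.toDual ℝ (E N)).symm (fderiv ℝ u (g x)))) w
      = inner ℝ ((InnerProductSpace.toDual ℝ (E N)).symm (fderiv ℝ u (g x))) (g w) := by
    rw [← g.inner_map_map, g.apply_symm_apply]
  rw [h2, InnerProductSpace.toDual_symm_apply]
  rfl

theorem dot_comp_isometry (g : E N ≃ₗᵢ[ℝ] E N) (u v : E N → ℝ) (x : E N) :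
    dot (fun y => u (g y)) (fun y => v (g y)) x = dot u v (g x) := by
  rw [BaA_dot_eq, BaA_dot_eq, BaA_grad_comp, BaA_grad_comp, g.symm.inner_map_map]

end Pool.Agent.H94.ER
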