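import Pool.Agent.H94.ER.BaA

/-!
# BaB: test functions

Elementary closure properties of `IsTest`, continuity and compact support of the partial
derivatives (so that all integrals below are integrals of continuous functions with compact
support), and the cost of a multiplier.

* `IsTest.mul_left`: `tsupport (φ u) ⊆ tsupport u`.
* `energy_mul_le`: `pd i (φ u) = φ pd i u + u pd i φ`, `(a+b)^2 ≤ 2a^2 + 2b^2`, sum over `i` and
  integrate: `∫ |∇(φ u)|^2 ≤ 2 A^2 ∫ |∇u|^2 + 2 N A^2 ∫ u^2`.
* `form_cs`: Cauchy-Schwarz for the nonnegative quadratic form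
  `q(v) = energy v - L * mass v` on test functions:
  `|B(u,v)|^2 ≤ q(u) q(v)`, and `q(u) ≤ ε`, `q(v) ≤ energy v` as `L ≥ 0`. Proof: for all real `t`,
  `0 ≤ q(u + t v) = q(u) + 2 t B(u,v) + t^2 q(v)`; discriminant (`discrim_le_zero` or
  choose `t`). Expanding `q(u+tv)` uses linearity of the integral
  (all integrands are continuous with compact support).
-/

set_option autoImplicit false

open MeasureTheory

namespace Pool.Agent.H94.ER

variable {N : ℕ}

theorem continuous_pd (i : Fin N) (u : E N → ℝ) (hu : ContDiff ℝ 1 u) : Continuous (pd i u) := by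
  have h := hu.continuous_fderiv (by norm_num)
  exact h.clm_apply continuous_const

theorem hasCompactSupport_pd (i : Fin N) (u : E N → ℝ) (hu : HasCompactSupport u) :
    HasCompactSupport (pd i u) := by
  refine (hu.fderiv ℝ).mono ?_
  intro x hx hx'
  apply hx
  change fderiv ℝ u x (EuclideanSpace.single i 1) = 0
  rw [hx']
  rfl

theorem continuous_dot (u v : E N → ℝ) (hu : ContDiff ℝ 1 u) (hv : ContDiff ℝ 1 v) :
    Continuous (dot u v) := by
  unfold dot
  exact continuous_finsetSum _ (fun i _ => (continuous_pd i u hu).mul (continuous_pd i v hv))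

theorem hasCompactSupport_dot (u v : E N → ℝ) (hu : HasCompactSupport u) :
    HasCompactSupport (dot u v) := by
  refine (hu.fderiv ℝ).mono ?_
  intro x hx hx'
  apply hx
  unfold dot pd
  apply Finset.sum_eq_zero
  intro i _
  rw [hx']
  simp

theorem energy_eq (u : E N → ℝ) : energy u = ∫ x, ‖fderiv ℝ u x‖ ^ 2 := by
  unfold energy
  simp_rw [norm_fderiv_sq]

theorem energy_nonneg (u : E N → ℝ) : 0 ≤ energy u := by
  exact integral_nonneg (fun x => dot_self_nonneg u x)

theorem mass_nonneg (u : E N → ℝ) : 0 ≤ mass u := by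
  exact integral_nonneg (fun x => sq_nonneg (u x))

theorem mass_pos (u : E N → ℝ) (hu : ContDiff ℝ 1 u) (hc : HasCompactSupport u) (h0 : u ≠ 0) :
    0 < mass u := by
  obtain ⟨x, hx⟩ : ∃ x, u x ≠ 0 := by
    by_contra hcon
    push Not at hcon
    exact h0 (funext hcon)
  unfold mass
  refine Continuous.integral_pos_of_hasCompactSupport_nonneg_nonzero (x := x)
    (hu.continuous.pow 2) ?_ (fun y => sq_nonneg (u y)) (pow_ne_zero 2 hx)
  exact hc.mono (fun y hy hy' => hy (by simp [hy']))

theorem IsTest.zero (Ω : Set (E N)) : IsTest Ω (0 : E N → ℝ) := by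
  refine ⟨contDiff_const, HasCompactSupport.zero, ?_⟩
  have h : tsupport (0 : E N → ℝ) = ∅ := by
    rw [tsupport_eq_empty_iff]
  rw [h]
  exact Set.empty_subset _

theorem IsTest.add {Ω : Set (E N)} {u v : E N → ℝ} (hu : IsTest Ω u) (hv : IsTest Ω v) :
    IsTest Ω (u + v) := by
  refine ⟨hu.1.add hv.1, hu.2.1.add hv.2.1, ?_⟩
  exact (tsupport_add u v).trans (Set.union_subset hu.2.2 hv.2.2)

theorem IsTest.smul {Ω : Set (E N)} {u : E N → ℝ} (c : ℝ) (hu : IsTest Ω u) :
    IsTest Ω (c • u) := by
  have hs : Function.support (c • u) ⊆ Function.support u := Function.support_const_smul_subset c u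
  exact ⟨hu.1.const_smul c, hu.2.1.mono hs, (closure_mono hs).trans hu.2.2⟩

theorem IsTest.mul_left {Ω : Set (E N)} {u : E N → ℝ} (φ : E N → ℝ) (hφ : ContDiff ℝ 1 φ)
    (hu : IsTest Ω u) : IsTest Ω (fun x => φ x * u x) := by
  have hs : Function.support (fun x => φ x * u x) ⊆ Function.support u := by
    intro x hx hx'
    apply hx
    change φ x * u x = 0
    rw [hx', mul_zero]
  exact ⟨hφ.mul hu.1, hu.2.1.mono hs, (closure_mono hs).trans hu.2.2⟩

theorem IsTest.comp {Ω : Set (E N)} {u : E N → ℝ} (g : E N ≃ₗᵢ[ℝ] E N) (hg : g ⁻¹' Ω = Ω)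
    (hu : IsTest Ω u) : IsTest Ω (fun x => u (g x)) := by
  refine ⟨hu.1.comp g.toContinuousLinearEquiv.contDiff, ?_, ?_⟩
  · exact hu.2.1.comp_homeomorph g.toHomeomorph
  · have h1 : tsupport (fun x => u (g x)) = g ⁻¹' tsupport u := by
      exact tsupport_comp_eq_preimage u g.toHomeomorph
    rw [h1, ← hg]
    exact Set.preimage_mono hu.2.2

theorem energy_mul_le (u φ : E N → ℝ) (hu : ContDiff ℝ 1 u) (hc : HasCompactSupport u)
    (hφ : ContDiff ℝ 1 φ) (A : ℝ) (hA : ∀ x, |φ x| ≤ A ∧ ∀ i, |pd i φ x| ≤ A) :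
    energy (fun x => φ x * u x) ≤ 2 * A ^ 2 * (energy u + N * mass u) := by
  have hsu : Integrable (fun x => dot u u x) :=
    (continuous_dot u u hu hu).integrable_of_hasCompactSupport (hasCompactSupport_dot u u hc)
  have hsm : Integrable (fun x => u x ^ 2) :=
    (hu.continuous.pow 2).integrable_of_hasCompactSupport
      (hc.mono (fun y hy hy' => hy (by simp [hy'])))
  have hpu : ContDiff ℝ 1 (fun x => φ x * u x) := hφ.mul hu
  have hpc : HasCompactSupport (fun x => φ x * u x) := hc.mono (by
    intro x hx hx'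
    apply hx
    change φ x * u x = 0
    rw [hx', mul_zero])
  have hsp : Integrable (fun x => dot (fun x => φ x * u x) (fun x => φ x * u x) x) :=
    (continuous_dot _ _ hpu hpu).integrable_of_hasCompactSupport (hasCompactSupport_dot _ _ hpc)
  have hpt : ∀ x, dot (fun x => φ x * u x) (fun x => φ x * u x) x
      ≤ 2 * A ^ 2 * (dot u u x + N * u x ^ 2) := by
    intro x
    have hA0 : 0 ≤ A := (abs_nonneg _).trans (hA x).1
    have hφ2 : φ x ^ 2 ≤ A ^ 2 := by
      rw [← sq_abs]
      exact pow_le_pow_left₀ (abs_nonneg _) (hA x).1 2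
    have h1 : ∀ i, pd i (fun x => φ x * u x) x * pd i (fun x => φ x * u x) x
        ≤ 2 * A ^ 2 * (pd i u x * pd i u x + u x ^ 2) := by
      intro i
      have hpi : pd i φ x ^ 2 ≤ A ^ 2 := by
        rw [← sq_abs]
        exact pow_le_pow_left₀ (abs_nonneg _) ((hA x).2 i) 2
      rw [pd_mul i φ u x (hφ.differentiable (by norm_num) x) (hu.differentiable (by norm_num) x)]
      have e1 : φ x ^ 2 * pd i u x ^ 2 ≤ A ^ 2 * pd i u x ^ 2 := by gcongr
      have e2 : pd i φ x ^ 2 * u x ^ 2 ≤ A ^ 2 * u x ^ 2 := by gcongr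
      nlinarith [sq_nonneg (φ x * pd i u x - pd i φ x * u x)]
    calc dot (fun x => φ x * u x) (fun x => φ x * u x) x
        ≤ ∑ i : Fin N, 2 * A ^ 2 * (pd i u x * pd i u x + u x ^ 2) :=
          Finset.sum_le_sum (fun i _ => h1 i)
      _ = 2 * A ^ 2 * (dot u u x + N * u x ^ 2) := by
          rw [← Finset.mul_sum, Finset.sum_add_distrib]
          simp [dot]
  unfold energy mass
  rw [← integral_const_mul (N : ℝ), ← integral_add hsu (hsm.const_mul _),
    ← integral_const_mul]
  exact integral_mono hsp ((hsu.add (hsm.const_mul _)).const_mul _) hpt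

theorem BaB_int3 {a b c : E N → ℝ} (ha : Integrable a) (hb : Integrable b) (hc : Integrable c)
    (s r : ℝ) : ∫ x, (a x + s * b x + r * c x) = (∫ x, a x) + s * (∫ x, b x) + r * ∫ x, c x := by
  have hab : Integrable (fun x => a x + s * b x) := ha.add (hb.const_mul _)
  rw [integral_add hab (hc.const_mul _), integral_add ha (hb.const_mul _), integral_const_mul,
    integral_const_mul]

theorem form_cs (Ω : Set (E N)) (L ε : ℝ) (hL : 0 ≤ L)
    (hpos : ∀ v : E N → ℝ, IsTest Ω v → L * mass v ≤ energy v)
    (u : E N → ℝ) (hu : IsTest Ω u) (hε : energy u ≤ L * mass u + ε)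
    (v : E N → ℝ) (hv : IsTest Ω v) :
    |(∫ x, dot u v x) - L * ∫ x, u x * v x| ≤ √ε * √(energy v) := by
  have hsuu : Integrable (fun x => dot u u x) :=
    (continuous_dot u u hu.1 hu.1).integrable_of_hasCompactSupport
      (hasCompactSupport_dot u u hu.2.1)
  have hsuv : Integrable (fun x => dot u v x) :=
    (continuous_dot u v hu.1 hv.1).integrable_of_hasCompactSupport
      (hasCompactSupport_dot u v hu.2.1)
  have hsvv : Integrable (fun x => dot v v x) :=
    (continuous_dot v v hv.1 hv.1).integrable_of_hasCompactSupport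
      (hasCompactSupport_dot v v hv.2.1)
  have hmuu : Integrable (fun x => u x ^ 2) :=
    (hu.1.continuous.pow 2).integrable_of_hasCompactSupport
      (hu.2.1.mono (fun y hy hy' => hy (by simp [hy'])))
  have hmvv : Integrable (fun x => v x ^ 2) :=
    (hv.1.continuous.pow 2).integrable_of_hasCompactSupport
      (hv.2.1.mono (fun y hy hy' => hy (by simp [hy'])))
  have hmuv : Integrable (fun x => u x * v x) :=
    (hu.1.continuous.mul hv.1.continuous).integrable_of_hasCompactSupport
      (hu.2.1.mono (fun y hy hy' => hy (by simp [hy'])))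
  have hq : ∀ t : ℝ, 0 ≤ energy v * (t * t)
      + 2 * ((∫ x, dot u v x) - L * ∫ x, u x * v x) * t + ε := by
    intro t
    have ht : IsTest Ω (u + t • v) := hu.add (hv.smul t)
    have h1 := hpos _ ht
    have hpd : ∀ i x, pd i (u + t • v) x = pd i u x + t * pd i v x := by
      intro i x
      have e0 : (u + t • v) = fun y => u y + t * v y := by
        funext y
        simp
      rw [e0, pd_add i u (fun y => t * v y) x (hu.1.differentiable (by norm_num) x)
        ((hv.1.differentiable (by norm_num) x).const_mul t), pd_const_mul]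
    have hE : energy (u + t • v) = energy u + 2 * t * (∫ x, dot u v x) + t ^ 2 * energy v := by
      have e1 : ∀ x, dot (u + t • v) (u + t • v) x
          = dot u u x + (2 * t) * dot u v x + t ^ 2 * dot v v x := by
        intro x
        unfold dot
        rw [Finset.mul_sum, Finset.mul_sum, ← Finset.sum_add_distrib, ← Finset.sum_add_distrib]
        apply Finset.sum_congr rfl
        intro i _
        rw [hpd]
        ring
      unfold energy
      simp_rw [e1]
      exact BaB_int3 hsuu hsuv hsvv (2 * t) (t ^ 2)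
    have hM : mass (u + t • v) = mass u + 2 * t * (∫ x, u x * v x) + t ^ 2 * mass v := by
      have e1 : ∀ x, (u + t • v) x ^ 2
          = u x ^ 2 + (2 * t) * (u x * v x) + t ^ 2 * v x ^ 2 := by
        intro x
        simp only [Pi.add_apply, Pi.smul_apply, smul_eq_mul]
        ring
      unfold mass
      simp_rw [e1]
      exact BaB_int3 hmuu hmuv hmvv (2 * t) (t ^ 2)
    rw [hE, hM] at h1
    have h2 : 0 ≤ L * (t ^ 2 * mass v) := by
      have := mass_nonneg v
      positivity
    nlinarith
  have hd := discrim_le_zero hq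
  have hε0 : 0 ≤ ε := by
    have := hq 0
    simpa using this
  have hsq : ((∫ x, dot u v x) - L * ∫ x, u x * v x) ^ 2 ≤ ε * energy v := by
    unfold discrim at hd
    nlinarith
  rw [← Real.sqrt_mul hε0]
  exact Real.abs_le_sqrt hsq

end Pool.Agent.H94.ER
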