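import Pool.Agent.H94.ER.BaB

/-!
# BaC: first eigenvalue, near-minimisers, scaling, and an upper bound for `dirEig Ω m`

* `dirEig_nonneg`, `eig_le` : for `k ≥ 1` every element `c` of the defining set is `≥ 0`: take
  `u ≠ 0` in `V` (`finrank V = k > 0`), then `0 ≤ energy u ≤ c * mass u` and `mass u > 0`. So the set
  is bounded below and `csInf_le` applies. For `k = 0` the set is everything or `sInf = 0` (unbounded
  below: `Real.sInf_of_not_bddBelow`), so `0 ≤ dirEig` still holds.
* `eig_one_le`: for a test function `v ≠ 0` take `V = span {v}` and `c = energy v / mass v`.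
* `exists_space`: in a nonempty open set there is a `k`-dimensional space of test functions: `k`
  disjoint balls inside a small ball, a smooth bump function (`ContDiffBump`) in each; on a finite
  dimensional space of test functions `energy ≤ c mass` for some `c` (for the span of functions with
  disjoint supports `energy (∑ c_i b_i) = ∑ c_i^2 energy b_i`, the same for `mass`, so
  `c = ∑ energy b_i / mass b_i` works).
* `near_min`: by definition of the infimum there are `c < dirEig Ω 1 + ε` and a line `V`; normalise a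
  nonzero element.
* `dirEig_smul`: the map `u ↦ u (a⁻¹ x)` is a linear bijection between test functions on `Ω` and
  on `a • Ω`, `energy` is multiplied by `a^(N-2)` and `mass` by `a^N`
  (`MeasureTheory.Measure.integral_comp_inv_smul_of_nonneg` or `Measure.setIntegral_comp_smul...`),
  so `c` belongs to the set of `Ω` iff `c / a^2` belongs to the set of `a • Ω`.
-/

set_option autoImplicit false

open MeasureTheory Pointwise

namespace Pool.Agent.H94.ER

variable {N : ℕ}

theorem BaC_mass_zero : mass (0 : E N → ℝ) = 0 := by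
  simp [mass]

theorem BaC_mass_smul (a : ℝ) (u : E N → ℝ) : mass (a • u) = a ^ 2 * mass u := by
  unfold mass
  rw [← integral_const_mul]
  congr 1
  ext x
  simp only [Pi.smul_apply, smul_eq_mul]
  ring

theorem BaC_energy_smul (a : ℝ) (u : E N → ℝ) : energy (a • u) = a ^ 2 * energy u := by
  unfold energy
  rw [← integral_const_mul]
  congr 1
  ext x
  have h : ∀ i, pd i (a • u) x = a * pd i u x := fun i => pd_const_mul i a u x
  unfold dot
  simp only [h]
  rw [Finset.mul_sum]
  refine Finset.sum_congr rfl fun i _ => ?_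
  ring

theorem BaC_exists_ne {V : Submodule ℝ (E N → ℝ)} {k : ℕ} (hk : 1 ≤ k)
    (hV : Module.finrank ℝ V = k) : ∃ u ∈ V, u ≠ 0 := by
  have h1 : V ≠ ⊥ := by
    rintro rfl
    rw [finrank_bot] at hV
    omega
  obtain ⟨u, hu, h0⟩ := Submodule.exists_mem_ne_zero_of_ne_bot h1
  exact ⟨u, hu, h0⟩

theorem BaC_mem_nonneg (Ω : Set (E N)) (k : ℕ) (hk : 1 ≤ k) (c : ℝ)
    (hc : c ∈ {c : ℝ | ∃ V : Submodule ℝ (E N → ℝ), Module.finrank ℝ V = k ∧
      ∀ u ∈ V, IsTest Ω u ∧ ∫ x, ‖fderiv ℝ u x‖ ^ 2 ≤ c * ∫ x, u x ^ 2}) : 0 ≤ c := by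
  obtain ⟨V, hV, h⟩ := hc
  obtain ⟨u, hu, h0⟩ := BaC_exists_ne hk hV
  obtain ⟨h1, h2⟩ := h u hu
  have h3 : 0 < mass u := mass_pos u h1.1 h1.2.1 h0
  have h4 : 0 ≤ energy u := energy_nonneg u
  rw [← energy_eq] at h2
  change energy u ≤ c * mass u at h2
  by_contra hneg
  push Not at hneg
  have := mul_neg_of_neg_of_pos hneg h3
  linarith

theorem dirEig_nonneg (Ω : Set (E N)) (k : ℕ) : 0 ≤ dirEig Ω k := by
  unfold dirEig
  rcases Nat.eq_zero_or_pos k with rfl | hk
  · have huniv : {c : ℝ | ∃ V : Submodule ℝ (E N → ℝ), Module.finrank ℝ V = 0 ∧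
        ∀ u ∈ V, IsTest Ω u ∧ ∫ x, ‖fderiv ℝ u x‖ ^ 2 ≤ c * ∫ x, u x ^ 2} = Set.univ := by
      rw [Set.eq_univ_iff_forall]
      intro c
      refine ⟨⊥, by simp, ?_⟩
      intro u hu
      rw [Submodule.mem_bot] at hu
      subst hu
      refine ⟨IsTest.zero Ω, ?_⟩
      rw [← energy_eq]
      have h1 : energy (0 : E N → ℝ) = 0 := by
        have := BaC_energy_smul 0 (0 : E N → ℝ)
        simpa using this
      rw [h1]
      simp
    rw [huniv, Real.sInf_of_not_bddBelow not_bddBelow_univ]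
  · exact Real.sInf_nonneg fun c hc => BaC_mem_nonneg Ω k hk c hc

/-- a `k`-dimensional space on which `energy ≤ c mass` bounds `dirEig Ω k` -/
theorem dirEig_le (Ω : Set (E N)) (k : ℕ) (hk : 1 ≤ k) (c : ℝ) (V : Submodule ℝ (E N → ℝ))
    (hV : Module.finrank ℝ V = k) (h : ∀ u ∈ V, IsTest Ω u ∧ energy u ≤ c * mass u) :
    dirEig Ω k ≤ c := by
  unfold dirEig
  refine csInf_le ⟨0, fun c hc => BaC_mem_nonneg Ω k hk c hc⟩ ⟨V, hV, fun u hu => ?_⟩
  refine ⟨(h u hu).1, ?_⟩
  rw [← energy_eq]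
  exact (h u hu).2

theorem eig_one_le (Ω : Set (E N)) (v : E N → ℝ) (hv : IsTest Ω v) :
    dirEig Ω 1 * mass v ≤ energy v := by
  by_cases h0 : v = 0
  · subst h0
    rw [BaC_mass_zero, mul_zero]
    exact energy_nonneg _
  · have hm : 0 < mass v := mass_pos v hv.1 hv.2.1 h0
    have h1 : dirEig Ω 1 ≤ energy v / mass v := by
      refine dirEig_le Ω 1 le_rfl _ (Submodule.span ℝ {v}) (finrank_span_singleton h0) ?_
      intro u hu
      obtain ⟨a, rfl⟩ := Submodule.mem_span_singleton.1 hu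
      refine ⟨hv.smul a, le_of_eq ?_⟩
      rw [BaC_mass_smul, BaC_energy_smul]
      field_simp
    rwa [le_div_iff₀ hm] at h1

theorem BaC_bumps (Ω : Set (E N)) (hN : 1 ≤ N) (hΩ : IsOpen Ω) (hne : Ω.Nonempty) (k : ℕ) :
    ∃ (b : Fin k → E N → ℝ) (p : Fin k → E N), (∀ i, IsTest Ω (b i)) ∧ (∀ i, b i (p i) ≠ 0) ∧
      ∀ i j x, i ≠ j → b i x * b j x = 0 := by
  classical
  obtain ⟨x0, hx0⟩ := hne
  obtain ⟨r, hr, hball⟩ := Metric.isOpen_iff.1 hΩ x0 hx0
  have hk : (0 : ℝ) < (k : ℝ) + 1 := by positivity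
  set d : ℝ := r / ((k : ℝ) + 1) with hd
  have hdpos : 0 < d := div_pos hr hk
  have hdr : d * ((k : ℝ) + 1) = r := by rw [hd]; field_simp
  let e : E N := EuclideanSpace.single (⟨0, hN⟩ : Fin N) (1 : ℝ)
  have he : ‖e‖ = 1 := by simp [e]
  let p : Fin k → E N := fun i => x0 + (d * (i : ℕ)) • e
  let f : (i : Fin k) → ContDiffBump (p i) := fun i =>
    { rIn := d / 4, rOut := d / 2, rIn_pos := by positivity, rIn_lt_rOut := by linarith }
  refine ⟨fun i => (f i : E N → ℝ), p, ?_, ?_, ?_⟩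
  · intro i
    refine ⟨(f i).contDiff, (f i).hasCompactSupport, ?_⟩
    rw [(f i).tsupport_eq]
    intro x hx
    apply hball
    rw [Metric.mem_closedBall] at hx
    rw [Metric.mem_ball]
    have h1 : dist (p i) x0 = d * (i : ℕ) := by
      simp only [p, dist_eq_norm, add_sub_cancel_left, norm_smul, he, mul_one]
      rw [Real.norm_of_nonneg (by positivity)]
    have h2 : ((i : ℕ) : ℝ) + 1 ≤ k := by exact_mod_cast i.2
    have h3 : dist x x0 ≤ dist x (p i) + dist (p i) x0 := dist_triangle _ _ _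
    have h4 : (f i).rOut = d / 2 := rfl
    rw [h4] at hx
    nlinarith
  · intro i
    have h1 : (f i) (p i) = 1 := (f i).one_of_mem_closedBall (by
      rw [Metric.mem_closedBall, dist_self]; exact (f i).rIn_pos.le)
    change (f i) (p i) ≠ 0
    rw [h1]
    exact one_ne_zero
  · intro i j x hij
    change (f i) x * (f j) x = 0
    by_contra hcon
    have hi : (f i) x ≠ 0 := left_ne_zero_of_mul hcon
    have hj : (f j) x ≠ 0 := right_ne_zero_of_mul hcon
    have hi' : x ∈ Function.support (f i) := hi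
    have hj' : x ∈ Function.support (f j) := hj
    rw [(f i).support_eq, Metric.mem_ball] at hi'
    rw [(f j).support_eq, Metric.mem_ball] at hj'
    have h4 : (f i).rOut = d / 2 := rfl
    have h5 : (f j).rOut = d / 2 := rfl
    rw [h4] at hi'
    rw [h5] at hj'
    have h6 : dist (p i) (p j) < d := by
      calc dist (p i) (p j) ≤ dist (p i) x + dist x (p j) := dist_triangle _ _ _
        _ < d / 2 + d / 2 := by
          rw [dist_comm (p i) x]
          exact add_lt_add hi' hj'
        _ = d := by ring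
    have h7 : dist (p i) (p j) = d * |((i : ℕ) : ℝ) - (j : ℕ)| := by
      simp only [p, dist_eq_norm, add_sub_add_left_eq_sub]
      rw [← sub_smul, norm_smul, he, mul_one, ← mul_sub, norm_mul, Real.norm_of_nonneg hdpos.le,
        Real.norm_eq_abs]
    have h8 : (1 : ℝ) ≤ |((i : ℕ) : ℝ) - (j : ℕ)| := by
      have h9 : (1 : ℤ) ≤ |((i : ℕ) : ℤ) - (j : ℕ)| := by
        apply Int.one_le_abs
        intro h
        apply hij
        ext
        omega
      exact_mod_cast h9
    rw [h7] at h6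
    nlinarith

theorem exists_space (Ω : Set (E N)) (hN : 1 ≤ N) (hΩ : IsOpen Ω) (hne : Ω.Nonempty) (k : ℕ) :
    ∃ (c : ℝ) (V : Submodule ℝ (E N → ℝ)), Module.finrank ℝ V = k ∧
      ∀ u ∈ V, IsTest Ω u ∧ energy u ≤ c * mass u := by
  classical
  obtain ⟨b, p, htest, hp, hdisj⟩ := BaC_bumps Ω hN hΩ hne k
  have hb0 : ∀ i j, i ≠ j → b j (p i) = 0 := by
    intro i j hij
    rcases mul_eq_zero.1 (hdisj i j (p i) hij) with h | h
    · exact absurd h (hp i)
    · exact h
  have hlin : LinearIndependent ℝ b := by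
    rw [Fintype.linearIndependent_iff]
    intro g hg i
    have h1 := congrFun hg (p i)
    rw [Finset.sum_apply, Finset.sum_eq_single i] at h1
    · simp only [Pi.smul_apply, smul_eq_mul, Pi.zero_apply] at h1
      exact (mul_eq_zero.1 h1).resolve_right (hp i)
    · intro j _ hj
      simp [hb0 i j hj.symm]
    · simp
  have hmpos : ∀ i, 0 < mass (b i) := by
    intro i
    refine mass_pos _ (htest i).1 (htest i).2.1 ?_
    intro h
    apply hp i
    rw [h]
    rfl
  set C : ℝ := ∑ i, energy (b i) / mass (b i) with hC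
  have hCi : ∀ i, energy (b i) ≤ C * mass (b i) := by
    intro i
    have h1 : energy (b i) / mass (b i) ≤ C :=
      Finset.single_le_sum (f := fun i => energy (b i) / mass (b i))
        (fun j _ => div_nonneg (energy_nonneg _) (hmpos j).le) (Finset.mem_univ i)
    rwa [div_le_iff₀ (hmpos i)] at h1
  refine ⟨k * C, Submodule.span ℝ (Set.range b), ?_, ?_⟩
  · rw [finrank_span_eq_card hlin, Fintype.card_fin]
  · intro u hu
    obtain ⟨a, rfl⟩ := (Submodule.mem_span_range_iff_exists_fun ℝ).1 hu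
    have hsum : (∑ i, a i • b i) = fun x => ∑ i, (a i • b i) x := by
      ext x
      rw [Finset.sum_apply]
    have htu : IsTest Ω (∑ i, a i • b i) := by
      have : ∀ s : Finset (Fin k), IsTest Ω (∑ i ∈ s, a i • b i) := by
        intro s
        induction s using Finset.induction_on with
        | empty => simpa using IsTest.zero Ω
        | insert i s hi ih =>
          rw [Finset.sum_insert hi]
          exact ((htest i).smul (a i)).add ih
      exact this Finset.univ
    refine ⟨htu, ?_⟩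
    have hmass : mass (∑ i, a i • b i) = ∑ i, a i ^ 2 * mass (b i) := by
      unfold mass
      have h1 : ∀ x, (∑ i, a i • b i) x ^ 2 = ∑ i, a i ^ 2 * b i x ^ 2 := by
        intro x
        rw [Finset.sum_apply, sq, Finset.sum_mul_sum]
        refine Finset.sum_congr rfl fun i _ => ?_
        rw [Finset.sum_eq_single i]
        · simp only [Pi.smul_apply, smul_eq_mul]
          ring
        · intro j _ hj
          have := hdisj i j x hj.symm
          simp only [Pi.smul_apply, smul_eq_mul]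
          have h2 : a i * b i x * (a j * b j x) = a i * a j * (b i x * b j x) := by ring
          rw [h2, this, mul_zero]
        · simp
      simp only [h1]
      rw [integral_finsetSum]
      · refine Finset.sum_congr rfl fun i _ => ?_
        rw [integral_const_mul]
      · intro i _
        apply Integrable.const_mul
        have hc1 : Continuous (fun x => b i x ^ 2) := (htest i).1.continuous.pow 2
        refine hc1.integrable_of_hasCompactSupport ?_
        have : (fun x => b i x ^ 2) = fun x => b i x * b i x := by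
          ext x
          ring
        rw [this]
        exact (htest i).2.1.mul_left
    have henergy : energy (∑ i, a i • b i) ≤ ∑ i, k * (a i ^ 2 * energy (b i)) := by
      unfold energy
      have h1 : ∀ x, dot (∑ i, a i • b i) (∑ i, a i • b i) x ≤
          ∑ i, k * (a i ^ 2 * dot (b i) (b i) x) := by
        intro x
        have h2 : ∀ j, pd j (∑ i, a i • b i) x = ∑ i, a i * pd j (b i) x := by
          intro j
          rw [hsum, pd_sum]
          · refine Finset.sum_congr rfl fun i _ => ?_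
            exact pd_const_mul j (a i) (b i) x
          · intro i _
            exact ((htest i).1.differentiable one_ne_zero x).const_smul (a i)
        unfold dot
        simp only [h2]
        calc ∑ j, (∑ i, a i * pd j (b i) x) * (∑ i, a i * pd j (b i) x)
            ≤ ∑ j, ∑ i, (k : ℝ) * (a i * pd j (b i) x) ^ 2 := by
              refine Finset.sum_le_sum fun j _ => ?_
              have h3 := sq_sum_le_card_mul_sum_sq (s := (Finset.univ : Finset (Fin k)))
                (f := fun i => a i * pd j (b i) x)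
              rw [Finset.card_univ, Fintype.card_fin] at h3
              rw [← sq, ← Finset.mul_sum]
              exact h3
          _ = ∑ i, (k : ℝ) * (a i ^ 2 * ∑ j, pd j (b i) x * pd j (b i) x) := by
              rw [Finset.sum_comm]
              refine Finset.sum_congr rfl fun i _ => ?_
              rw [Finset.mul_sum, Finset.mul_sum]
              refine Finset.sum_congr rfl fun j _ => ?_
              ring
      have hint : ∀ i, Integrable (fun x => dot (b i) (b i) x) := fun i =>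
        (continuous_dot _ _ (htest i).1 (htest i).1).integrable_of_hasCompactSupport
          (hasCompactSupport_dot _ _ (htest i).2.1)
      have hint2 : Integrable (fun x => dot (∑ i, a i • b i) (∑ i, a i • b i) x) :=
        (continuous_dot _ _ htu.1 htu.1).integrable_of_hasCompactSupport
          (hasCompactSupport_dot _ _ htu.2.1)
      calc ∫ x, dot (∑ i, a i • b i) (∑ i, a i • b i) x
          ≤ ∫ x, ∑ i, k * (a i ^ 2 * dot (b i) (b i) x) := by
            refine integral_mono hint2 ?_ h1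
            exact integrable_finsetSum _ fun i _ => ((hint i).const_mul _).const_mul _
        _ = ∑ i, k * (a i ^ 2 * ∫ x, dot (b i) (b i) x) := by
            rw [integral_finsetSum _ fun i _ => ((hint i).const_mul _).const_mul _]
            refine Finset.sum_congr rfl fun i _ => ?_
            rw [integral_const_mul, integral_const_mul]
    refine henergy.trans ?_
    rw [hmass, Finset.mul_sum]
    refine Finset.sum_le_sum fun i _ => ?_
    have h1 := hCi i
    have h2 : a i ^ 2 * energy (b i) ≤ a i ^ 2 * (C * mass (b i)) :=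
      mul_le_mul_of_nonneg_left h1 (sq_nonneg _)
    have h3 : (k : ℝ) * (a i ^ 2 * energy (b i)) ≤ k * (a i ^ 2 * (C * mass (b i))) :=
      mul_le_mul_of_nonneg_left h2 (Nat.cast_nonneg k)
    linarith [h3, show (k : ℝ) * (a i ^ 2 * (C * mass (b i))) = k * C * (a i ^ 2 * mass (b i)) by
      ring]

theorem near_min (hN : 1 ≤ N) (Ω : Set (E N)) (hΩ : IsOpen Ω) (hne : Ω.Nonempty) (ε : ℝ)
    (hε : 0 < ε) : ∃ u : E N → ℝ, IsTest Ω u ∧ mass u = 1 ∧ energy u ≤ dirEig Ω 1 + ε := by
  obtain ⟨c0, V0, hV0, h0⟩ := exists_space Ω hN hΩ hne 1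
  obtain ⟨c, ⟨V, hV, h⟩, hc⟩ := Real.lt_sInf_add_pos
    (s := {c : ℝ | ∃ V : Submodule ℝ (E N → ℝ), Module.finrank ℝ V = 1 ∧
      ∀ u ∈ V, IsTest Ω u ∧ ∫ x, ‖fderiv ℝ u x‖ ^ 2 ≤ c * ∫ x, u x ^ 2})
    ⟨c0, V0, hV0, fun u hu => ⟨(h0 u hu).1, by rw [← energy_eq]; exact (h0 u hu).2⟩⟩ hε
  obtain ⟨u, hu, hu0⟩ := BaC_exists_ne le_rfl hV
  obtain ⟨h1, h2⟩ := h u hu
  rw [← energy_eq] at h2
  change energy u ≤ c * mass u at h2
  have hm : 0 < mass u := mass_pos u h1.1 h1.2.1 hu0
  have hs : 0 < √(mass u) := Real.sqrt_pos.2 hm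
  have hsq : √(mass u) ^ 2 = mass u := Real.sq_sqrt hm.le
  refine ⟨(√(mass u))⁻¹ • u, h1.smul _, ?_, ?_⟩
  · rw [BaC_mass_smul, inv_pow, hsq]
    field_simp
  · rw [BaC_energy_smul, inv_pow, hsq]
    have h3 : (mass u)⁻¹ * energy u ≤ c := by
      rw [inv_mul_le_iff₀ hm]
      linarith
    refine h3.trans ?_
    exact hc.le

theorem BaC_mem_smul (Ω : Set (E N)) (k : ℕ) (a : ℝ) (ha : 0 < a) (c : ℝ)
    (hc : c ∈ {c : ℝ | ∃ V : Submodule ℝ (E N → ℝ), Module.finrank ℝ V = k ∧
      ∀ u ∈ V, IsTest Ω u ∧ ∫ x, ‖fderiv ℝ u x‖ ^ 2 ≤ c * ∫ x, u x ^ 2}) :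
    (a ^ 2)⁻¹ * c ∈ {c : ℝ | ∃ V : Submodule ℝ (E N → ℝ), Module.finrank ℝ V = k ∧
      ∀ u ∈ V, IsTest (a • Ω) u ∧ ∫ x, ‖fderiv ℝ u x‖ ^ 2 ≤ c * ∫ x, u x ^ 2} := by
  obtain ⟨V, hV, h⟩ := hc
  have ha0 : a ≠ 0 := ha.ne'
  have hai : a⁻¹ ≠ 0 := inv_ne_zero ha0
  let hh : E N ≃ₜ E N := Homeomorph.smulOfNeZero a⁻¹ hai
  let L : (E N → ℝ) ≃ₗ[ℝ] (E N → ℝ) := LinearEquiv.funCongrLeft ℝ ℝ hh.toEquiv
  refine ⟨V.map (L : (E N → ℝ) →ₗ[ℝ] (E N → ℝ)), ?_, ?_⟩
  · rw [LinearEquiv.finrank_map_eq, hV]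
  · rintro _ ⟨u, hu, rfl⟩
    obtain ⟨⟨h1, h2, h3⟩, h4⟩ := h u hu
    have hLu : (L : (E N → ℝ) →ₗ[ℝ] (E N → ℝ)) u = fun x => u (a⁻¹ • x) := by
      ext x
      rfl
    rw [hLu]
    refine ⟨⟨?_, ?_, ?_⟩, ?_⟩
    · exact h1.comp (contDiff_const_smul _)
    · exact h2.comp_homeomorph hh
    · intro x hx
      have h5 : tsupport (u ∘ hh) = hh ⁻¹' tsupport u := tsupport_comp_eq_preimage u hh
      have h6 : x ∈ tsupport (u ∘ hh) := hx
      rw [h5] at h6
      have h7 : a⁻¹ • x ∈ Ω := h3 h6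
      exact (Set.mem_smul_set_iff_inv_smul_mem₀ ha0 _ _).2 h7
    · have h8 : ∀ x, fderiv ℝ (fun x => u (a⁻¹ • x)) x = a⁻¹ • fderiv ℝ u (a⁻¹ • x) := by
        intro x
        exact fderiv_comp_smul a⁻¹
      simp only [h8, norm_smul, mul_pow]
      rw [integral_const_mul]
      have h9 := Measure.integral_comp_smul (volume : Measure (E N))
        (fun x => ‖fderiv ℝ u x‖ ^ 2) a⁻¹
      have h10 := Measure.integral_comp_smul (volume : Measure (E N)) (fun x => u x ^ 2) a⁻¹
      rw [h9, h10]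
      simp only [smul_eq_mul]
      set K : ℝ := |((a⁻¹) ^ Module.finrank ℝ (E N))⁻¹| with hK
      have hK0 : 0 ≤ K := abs_nonneg _
      have h11 : ‖a⁻¹‖ ^ 2 = (a ^ 2)⁻¹ := by
        rw [Real.norm_of_nonneg (by positivity), inv_pow]
      rw [h11]
      have h12 : 0 ≤ (a ^ 2)⁻¹ * K := by positivity
      have h13 := mul_le_mul_of_nonneg_left h4 h12
      calc (a ^ 2)⁻¹ * (K * ∫ x, ‖fderiv ℝ u x‖ ^ 2)
          = (a ^ 2)⁻¹ * K * ∫ x, ‖fderiv ℝ u x‖ ^ 2 := by ring
        _ ≤ (a ^ 2)⁻¹ * K * (c * ∫ x, u x ^ 2) := h13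
        _ = (a ^ 2)⁻¹ * c * (K * ∫ x, u x ^ 2) := by ring

theorem dirEig_smul (hN : 1 ≤ N) (Ω : Set (E N)) (k : ℕ) (a : ℝ) (ha : 0 < a) :
    dirEig (a • Ω) k = dirEig Ω k / a ^ 2 := by
  have hset : {c : ℝ | ∃ V : Submodule ℝ (E N → ℝ), Module.finrank ℝ V = k ∧
      ∀ u ∈ V, IsTest (a • Ω) u ∧ ∫ x, ‖fderiv ℝ u x‖ ^ 2 ≤ c * ∫ x, u x ^ 2} =
      (a ^ 2)⁻¹ • {c : ℝ | ∃ V : Submodule ℝ (E N → ℝ), Module.finrank ℝ V = k ∧
        ∀ u ∈ V, IsTest Ω u ∧ ∫ x, ‖fderiv ℝ u x‖ ^ 2 ≤ c * ∫ x, u x ^ 2} := by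
    ext c
    constructor
    · intro hc
      have h1 := BaC_mem_smul (a • Ω) k a⁻¹ (inv_pos.2 ha) c hc
      rw [inv_smul_smul₀ ha.ne'] at h1
      refine ⟨_, h1, ?_⟩
      simp only [smul_eq_mul]
      field_simp
    · rintro ⟨c', hc', rfl⟩
      exact BaC_mem_smul Ω k a ha c' hc'
  unfold dirEig
  rw [hset, Real.sInf_smul_of_nonneg (by positivity), smul_eq_mul]
  field_simp

end Pool.Agent.H94.ER
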