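import Pool.Agent.H94.ER.Defs

/-!
# BjA: the normalised Bessel functions `bj d`

`bj d s = ∑ (-s)^k / (4^k k! ∏_{i<k} (d/2+i))`, `d > 0`. The series converges absolutely and locally
uniformly with all derivatives: the `k`-th coefficient is at most `1/(4^k k! (min(d/2,1))^k ...)`;
simplest: `∏_{i<k} (d/2+i) ≥ (d/2)^k`, so the terms are bounded by `(|s|/(2d))^k / k!`, an
exponential series.

* derivative: the derivative of the `k`-th term is `-(-s)^(k-1) / (4^k (k-1)! ∏_{i<k}(d/2+i))`, and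
  `∏_{i<k} (d/2+i) = (d/2) ∏_{i<k-1} ((d+2)/2+i)` (`Finset.prod_range_succ'`), so
  `(bj d)' = - bj (d+2) / (2d)`. Use `hasDerivAt_tsum_of_isPreconnected`, `hasDerivAt_tsum` on balls, or
  `HasFPowerSeriesOnBall`.
* `contDiff`: induction from the derivative formula (`contDiff_succ_iff_deriv`), for all `d > 0`.
* contiguity: `bj d s = bj (d+2) s - s/(d(d+2)) bj (d+4) s`: compare coefficients of `(-s)^k`:
  with `a_k(d) = 1/(4^k k! ∏_{i<k}(d/2+i))`: `a_k(d) - a_k(d+2) = a_{k-1}(d+4)/(d(d+2))`, because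
  `∏_{i<k}(d/2+i) = (d/2) ∏_{i<k-1}(d/2+1+i)`, `∏_{i<k}(d/2+1+i) = ∏_{i<k-1}(d/2+1+i) (d/2+k)` and
  `∏_{i<k-1}(d/2+2+i) = ∏_{i<k-1}(d/2+1+i) (d/2+k)/(d/2+1)`.
* `bj d s ≥ 1 > 0` for `s ≤ 0`: all terms are `≥ 0` and the first is 1.
* ODE: from the first two facts, `4 s (bj d)'' + 2 d (bj d)' + bj d = 0`.
-/

set_option autoImplicit false

namespace Pool.Agent.H94.ER

/-- coefficients of `bj d` -/
noncomputable def BjA_c (d : ℝ) (k : ℕ) : ℝ :=
  1 / (4 ^ k * (k.factorial : ℝ) * ∏ i ∈ Finset.range k, (d / 2 + i))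

theorem BjA_eq (d s : ℝ) : bj d s = ∑' k : ℕ, BjA_c d k * (-s) ^ k := by
  unfold bj BjA_c
  congr 1
  funext k
  ring

theorem BjA_prod_pos (d : ℝ) (hd : 0 < d) (k : ℕ) :
    0 < ∏ i ∈ Finset.range k, (d / 2 + (i : ℝ)) :=
  Finset.prod_pos fun i _ => by positivity

theorem BjA_c_pos (d : ℝ) (hd : 0 < d) (k : ℕ) : 0 < BjA_c d k := by
  unfold BjA_c
  have := BjA_prod_pos d hd k
  positivity

theorem BjA_prod_succ (d : ℝ) (k : ℕ) :
    ∏ i ∈ Finset.range (k + 1), (d / 2 + (i : ℝ))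
      = (∏ i ∈ Finset.range k, ((d + 2) / 2 + (i : ℝ))) * (d / 2) := by
  rw [Finset.prod_range_succ']
  congr 1
  · refine Finset.prod_congr rfl fun i _ => ?_
    push_cast; ring
  · simp

theorem BjA_c_succ (d : ℝ) (hd : 0 < d) (k : ℕ) :
    BjA_c d (k + 1) * (k + 1) = BjA_c (d + 2) k / (2 * d) := by
  unfold BjA_c
  rw [BjA_prod_succ]
  have h1 := BjA_prod_pos (d + 2) (by linarith) k
  have h2 : (0 : ℝ) < (k.factorial : ℝ) := by positivity
  rw [Nat.factorial_succ]
  push_cast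
  have h3 : (k : ℝ) + 1 ≠ 0 := by positivity
  field_simp
  ring

theorem BjA_c_le (d : ℝ) (hd : 0 < d) (k : ℕ) :
    BjA_c (d + 2) k ≤ 1 / (k.factorial : ℝ) := by
  unfold BjA_c
  have h1 : (1 : ℝ) ≤ ∏ i ∈ Finset.range k, ((d + 2) / 2 + (i : ℝ)) := by
    calc (1 : ℝ) = ∏ _i ∈ Finset.range k, (1 : ℝ) := by simp
      _ ≤ _ := by
        refine Finset.prod_le_prod (fun _ _ => by norm_num) ?_
        intro i _
        have : (0 : ℝ) ≤ i := by positivity
        linarith
  have h2 : (0 : ℝ) < (k.factorial : ℝ) := by positivity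
  have h3 : (1 : ℝ) ≤ 4 ^ k := one_le_pow₀ (by norm_num)
  refine one_div_le_one_div_of_le h2 ?_
  nlinarith [mul_le_mul h3 h1 (by norm_num) (by positivity)]

theorem BjA_c_succ_le (d : ℝ) (hd : 0 < d) (k : ℕ) :
    BjA_c d (k + 1) * (k + 1) ≤ 1 / (k.factorial : ℝ) / (2 * d) := by
  rw [BjA_c_succ d hd k]
  exact div_le_div_of_nonneg_right (BjA_c_le d hd k) (by positivity)

theorem BjA_summable (d : ℝ) (hd : 0 < d) (s : ℝ) :
    Summable fun k : ℕ => BjA_c d k * (-s) ^ k := by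
  rw [← summable_nat_add_iff 1]
  have h1 : Summable fun k : ℕ => |s| / (2 * d) * (|s| ^ k / (k.factorial : ℝ)) :=
    (Real.summable_pow_div_factorial |s|).mul_left _
  refine Summable.of_norm_bounded h1 ?_
  intro k
  rw [Real.norm_eq_abs, abs_mul, abs_pow, abs_neg, abs_of_pos (BjA_c_pos d hd _)]
  have h2 := BjA_c_succ_le d hd k
  have h3 := BjA_c_pos d hd (k + 1)
  have h4 : BjA_c d (k + 1) ≤ 1 / (k.factorial : ℝ) / (2 * d) := by
    have : (0 : ℝ) ≤ k := by positivity
    nlinarith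
  calc BjA_c d (k + 1) * |s| ^ (k + 1) ≤ 1 / (k.factorial : ℝ) / (2 * d) * |s| ^ (k + 1) :=
        mul_le_mul_of_nonneg_right h4 (by positivity)
    _ = |s| / (2 * d) * (|s| ^ k / (k.factorial : ℝ)) := by
        rw [pow_succ]; field_simp

theorem bj_at_zero (d : ℝ) : bj d 0 = 1 := by
  unfold bj
  rw [tsum_eq_single 0]
  · simp
  · intro k hk
    simp [hk]

theorem hasDerivAt_bj (d : ℝ) (hd : 0 < d) (s : ℝ) :
    HasDerivAt (bj d) (-(bj (d + 2) s) / (2 * d)) s := by
  have hfun : bj d = fun z => ∑' k : ℕ, BjA_c d k * (-z) ^ k := by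
    funext z; exact BjA_eq d z
  set R : ℝ := |s| + 1 with hR
  have hR0 : 0 < R := by positivity
  let u : ℕ → ℝ := fun k => Nat.casesOn k 0 fun j => R ^ j / (j.factorial : ℝ) / (2 * d)
  have hu : Summable u := by
    rw [← summable_nat_add_iff 1]
    exact (Real.summable_pow_div_factorial R).div_const _
  let g' : ℕ → ℝ → ℝ := fun k z => BjA_c d k * ((k : ℝ) * (-z) ^ (k - 1) * (-1))
  have key := hasDerivAt_tsum_of_isPreconnected (𝕜 := ℝ) (g := fun (k : ℕ) (z : ℝ) => BjA_c d k * (-z) ^ k)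
    (g' := g') (u := u) (t := Metric.ball (0 : ℝ) R) (y₀ := 0) (y := s) hu Metric.isOpen_ball
    (convex_ball _ _).isPreconnected ?_ ?_ ?_ ?_ ?_
  · have e : -(bj (d + 2) s) / (2 * d) = ∑' n, g' n s := ?_
    · rw [hfun, e]; exact key
    have hsum : Summable fun n => g' n s := by
      refine Summable.of_norm_bounded hu ?_
      intro k
      rcases k with _ | k
      · simp [g', u]
      · simp only [g', u, Nat.add_sub_cancel]
        rw [Real.norm_eq_abs]
        have h6 : |BjA_c d (k + 1) * (((k + 1 : ℕ) : ℝ) * (-s) ^ k * (-1))|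
          = BjA_c d (k + 1) * (k + 1) * |s| ^ k := by
          rw [abs_mul, abs_mul, abs_mul, abs_pow, abs_neg, abs_of_pos (BjA_c_pos d hd _)]
          have : |((k + 1 : ℕ) : ℝ)| = (k : ℝ) + 1 := by
            rw [abs_of_nonneg (by positivity)]; push_cast; ring
          rw [this]
          simp
          ring
        rw [h6]
        have h7 := BjA_c_succ_le d hd k
        have h8 : |s| ^ k ≤ R ^ k := pow_le_pow_left₀ (abs_nonneg _) (by linarith) k
        calc BjA_c d (k + 1) * (k + 1) * |s| ^ k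
            ≤ (1 / (k.factorial : ℝ) / (2 * d)) * R ^ k :=
              mul_le_mul h7 h8 (by positivity) (by positivity)
          _ = _ := by field_simp
    rw [BjA_eq, hsum.tsum_eq_zero_add]
    have hz : g' 0 s = 0 := by simp [g']
    rw [hz, zero_add, neg_div, ← tsum_div_const, ← tsum_neg]
    congr 1
    funext k
    have := BjA_c_succ d hd k
    simp only [g', Nat.add_sub_cancel]
    push_cast
    have h5 : BjA_c d (k + 1) * (((k : ℝ) + 1) * (-s) ^ k * (-1))
      = -(BjA_c d (k + 1) * (k + 1) * (-s) ^ k) := by ring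
    rw [h5, this]
    ring
  · intro k y _
    have h9 : HasDerivAt (fun z : ℝ => -z) (-1) y := (hasDerivAt_id y).neg
    have h10 := (h9.pow k).const_mul (BjA_c d k)
    exact h10
  · intro k y hy
    have hy' : |y| ≤ R := by
      have := Metric.mem_ball.1 hy
      rw [Real.dist_eq, sub_zero] at this
      exact this.le
    rcases k with _ | k
    · simp [g', u]
    · simp only [g', u, Nat.add_sub_cancel]
      rw [Real.norm_eq_abs]
      have h6 : |BjA_c d (k + 1) * (((k + 1 : ℕ) : ℝ) * (-y) ^ k * (-1))|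
        = BjA_c d (k + 1) * (k + 1) * |y| ^ k := by
        rw [abs_mul, abs_mul, abs_mul, abs_pow, abs_neg, abs_of_pos (BjA_c_pos d hd _)]
        have : |((k + 1 : ℕ) : ℝ)| = (k : ℝ) + 1 := by
          rw [abs_of_nonneg (by positivity)]; push_cast; ring
        rw [this]
        simp
        ring
      rw [h6]
      have h7 := BjA_c_succ_le d hd k
      have h8 : |y| ^ k ≤ R ^ k := pow_le_pow_left₀ (abs_nonneg _) hy' k
      calc BjA_c d (k + 1) * (k + 1) * |y| ^ k
          ≤ (1 / (k.factorial : ℝ) / (2 * d)) * R ^ k :=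
            mul_le_mul h7 h8 (by positivity) (by positivity)
        _ = _ := by field_simp
  · simp [hR0]
  · exact BjA_summable d hd 0
  · rw [Metric.mem_ball, Real.dist_eq, sub_zero]; linarith

theorem contDiff_bj (d : ℝ) (hd : 0 < d) (n : ℕ) : ContDiff ℝ n (bj d) := by
  induction n generalizing d with
  | zero =>
    rw [Nat.cast_zero, contDiff_zero]
    exact continuous_iff_continuousAt.2 fun s => (hasDerivAt_bj d hd s).continuousAt
  | succ n ih =>
    have h : ((n + 1 : ℕ) : WithTop ℕ∞) = (n : WithTop ℕ∞) + 1 := by push_cast; rfl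
    rw [h, contDiff_succ_iff_deriv]
    refine ⟨fun s => (hasDerivAt_bj d hd s).differentiableAt, fun h' => ?_, ?_⟩
    · exact absurd h' (by exact_mod_cast WithTop.coe_ne_top)
    · have h2 : deriv (bj d) = fun s => -(bj (d + 2) s) / (2 * d) := by
        funext s; exact (hasDerivAt_bj d hd s).deriv
      rw [h2]
      exact ((ih (d + 2) (by linarith)).neg).div_const _

theorem bj_contig (d : ℝ) (hd : 0 < d) (s : ℝ) :
    bj d s = bj (d + 2) s - s / (d * (d + 2)) * bj (d + 4) s := by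
  have h1 := BjA_summable d hd s
  have h2 := BjA_summable (d + 2) (by linarith) s
  have key : ∀ k : ℕ, BjA_c d (k + 1) - BjA_c (d + 2) (k + 1)
      = BjA_c (d + 4) k / (d * (d + 2)) := by
    intro k
    have hP := BjA_prod_pos (d + 2) (by linarith) k
    have hQ := BjA_prod_pos (d + 4) (by linarith) k
    have e1 := BjA_prod_succ d k
    have e2 := BjA_prod_succ (d + 2) k
    have e3 : ∏ i ∈ Finset.range (k + 1), ((d + 2) / 2 + (i : ℝ))
      = (∏ i ∈ Finset.range k, ((d + 2) / 2 + (i : ℝ))) * ((d + 2) / 2 + k) :=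
      Finset.prod_range_succ _ _
    have e4 : d + 2 + 2 = d + 4 := by ring
    rw [e4] at e2
    unfold BjA_c
    rw [e1, e3]
    set P := ∏ i ∈ Finset.range k, ((d + 2) / 2 + (i : ℝ)) with hPdef
    set Q := ∏ i ∈ Finset.range k, ((d + 4) / 2 + (i : ℝ)) with hQdef
    have hQP : P * ((d + 2) / 2 + k) = Q * ((d + 2) / 2) := by rw [← e3, e2]
    have hk : (0 : ℝ) ≤ k := by positivity
    have hQ' : Q = P * ((d + 2) / 2 + k) / ((d + 2) / 2) := by
      rw [hQP]; field_simp
    rw [hQ', Nat.factorial_succ]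
    have h4 : (0 : ℝ) < (k.factorial : ℝ) := by positivity
    have h5 : (0 : ℝ) < d + 2 + 2 * k := by linarith
    have h6 : (d + 2) / 2 + (k : ℝ) = (d + 2 + 2 * k) / 2 := by ring
    have h7 : (k : ℝ) + 1 ≠ 0 := by positivity
    rw [h6]
    push_cast
    field_simp
    ring
  rw [BjA_eq, BjA_eq, BjA_eq]
  rw [h1.tsum_eq_zero_add, h2.tsum_eq_zero_add]
  have h3 : ∑' k : ℕ, BjA_c d (k + 1) * (-s) ^ (k + 1)
      - ∑' k : ℕ, BjA_c (d + 2) (k + 1) * (-s) ^ (k + 1)
      = -(s / (d * (d + 2)) * ∑' k : ℕ, BjA_c (d + 4) k * (-s) ^ k) := by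
    rw [← Summable.tsum_sub ((summable_nat_add_iff 1).2 h1) ((summable_nat_add_iff 1).2 h2),
      ← tsum_mul_left, ← tsum_neg]
    congr 1
    funext k
    rw [← sub_mul, key k, pow_succ]
    ring
  have h0 : BjA_c d 0 = BjA_c (d + 2) 0 := by simp [BjA_c]
  rw [h0]
  linarith

theorem bj_pos_of_nonpos (d : ℝ) (hd : 0 < d) (s : ℝ) (hs : s ≤ 0) : 0 < bj d s := by
  rw [BjA_eq]
  refine (BjA_summable d hd s).tsum_pos ?_ 0 ?_
  · intro k
    exact mul_nonneg (BjA_c_pos d hd k).le (pow_nonneg (by linarith) k)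
  · simpa using BjA_c_pos d hd 0

end Pool.Agent.H94.ER
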