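import Pool.Agent.H94.ER.BjA

/-!
# BjB: the first zero of `bj d`

Existence of a positive zero (`d ≥ 2`). Suppose `J = bj d > 0` on `[0, S]`, `S = d (d+4)` . For
`φ(s) = 1 - s/S` consider `T(s) = s^(d/2) φ^2 J'/J` (continuous on `[0,S]`, `T(0) = 0`, `T(S) = 0`). Using
`4 s J'' + 2 d J' + J = 0` (from `hasDerivAt_bj` and `bj_contig`), for `0 < s < S`
  `T' = s^(d/2) [2 φ φ' J'/J - φ^2 (J'/J)^2 - φ^2/(4 s)] ≤ s^(d/2) [φ'^2 - φ^2/(4s)]`
(`2 a b - b^2 ≤ a^2`). So `T - P` is antitone on `[0,S]`, where `P` is the explicit primitive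
`s^(d/2+1)/(S^2(d/2+1)) - (1/4)(s^(d/2)/(d/2) - 2 s^(d/2+1)/(S(d/2+1)) + s^(d/2+2)/(S^2(d/2+2)))`
of `s^(d/2)/S^2 - s^(d/2-1)(1-s/S)^2/4`, and `P(S) < 0`: contradiction.
So `J` has a zero in `(0, S]`; the set of positive zeros is nonempty, closed in `(0,∞)` and bounded away
from 0 since `J(0) = 1`: so `bz d` is a zero, positive, and `J > 0` on `(-∞, bz d)` (`bj_pos_of_nonpos`
for `s ≤ 0`, intermediate value theorem on `[0, bz d)`).
-/

set_option autoImplicit false

namespace Pool.Agent.H94.ER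

theorem bjb_cont (d : ℝ) (hd : 0 < d) : Continuous (bj d) :=
  (contDiff_bj d hd 0).continuous

/-- if `J` has no zero on `[0,S]` it is positive there -/
theorem bjb_pos_of_ne (d : ℝ) (hd : 0 < d) (S : ℝ) (h : ∀ s, 0 < s → s ≤ S → bj d s ≠ 0)
    (s : ℝ) (h0 : 0 ≤ s) (hs : s ≤ S) : 0 < bj d s := by
  by_contra hneg
  push Not at hneg
  have hc : ContinuousOn (bj d) (Set.Icc 0 s) := (bjb_cont d hd).continuousOn
  have h1 : (0 : ℝ) ∈ Set.Icc (bj d s) (bj d 0) := by
    rw [bj_at_zero]; exact ⟨hneg, zero_le_one⟩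
  obtain ⟨t, ht, ht0⟩ := intermediate_value_Icc' h0 hc h1
  rcases eq_or_lt_of_le ht.1 with h2 | h2
  · rw [← h2, bj_at_zero] at ht0
    norm_num at ht0
  · exact h t h2 (ht.2.trans hs) ht0

/-- the primitive -/
noncomputable def bjbP (m S s : ℝ) : ℝ :=
  s ^ (m + 1) / (S ^ 2 * (m + 1)) - (1 / 4) * (s ^ m / m - 2 * s ^ (m + 1) / (S * (m + 1))
    + s ^ (m + 2) / (S ^ 2 * (m + 2)))

theorem hasDerivAt_bjbP (m S s : ℝ) (hm : 1 ≤ m) (hS : 0 < S) (hs : 0 < s) :
    HasDerivAt (bjbP m S) (s ^ m / S ^ 2 - s ^ (m - 1) * (1 - s / S) ^ 2 / 4) s := by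
  have h1 : HasDerivAt (fun x : ℝ => x ^ (m + 1)) ((m + 1) * s ^ (m + 1 - 1)) s :=
    Real.hasDerivAt_rpow_const (Or.inl hs.ne')
  have h0 : HasDerivAt (fun x : ℝ => x ^ m) (m * s ^ (m - 1)) s :=
    Real.hasDerivAt_rpow_const (Or.inl hs.ne')
  have h2 : HasDerivAt (fun x : ℝ => x ^ (m + 2)) ((m + 2) * s ^ (m + 2 - 1)) s :=
    Real.hasDerivAt_rpow_const (Or.inl hs.ne')
  have e0 : s ^ m = s ^ (m - 1) * s := by
    rw [← Real.rpow_add_one hs.ne']; congr 1; ring
  have e1 : s ^ (m + 1 - 1) = s ^ (m - 1) * s := by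
    rw [show m + 1 - 1 = m by ring, e0]
  have e2 : s ^ (m + 2 - 1) = s ^ (m - 1) * s ^ 2 := by
    rw [show m + 2 - 1 = m + 1 by ring, Real.rpow_add_one hs.ne', e0]; ring
  have hD := (h1.div_const (S ^ 2 * (m + 1))).sub
    ((((h0.div_const m).sub ((h1.const_mul 2).div_const (S * (m + 1)))).add
      (h2.div_const (S ^ 2 * (m + 2)))).const_mul (1 / 4))
  refine (hD.congr_deriv ?_)
  rw [e1, e2, e0]
  have hm0 : m ≠ 0 := by linarith
  have hm1 : m + 1 ≠ 0 := by linarith
  have hm2 : m + 2 ≠ 0 := by linarith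
  field_simp
  ring

theorem bjbP_continuous (m S : ℝ) (hm : 1 ≤ m) : Continuous (bjbP m S) := by
  have h0 : Continuous (fun x : ℝ => x ^ m) := Real.continuous_rpow_const (by linarith)
  have h1 : Continuous (fun x : ℝ => x ^ (m + 1)) := Real.continuous_rpow_const (by linarith)
  have h2 : Continuous (fun x : ℝ => x ^ (m + 2)) := Real.continuous_rpow_const (by linarith)
  unfold bjbP
  fun_prop

theorem bjbP_zero (m S : ℝ) (hm : 1 ≤ m) : bjbP m S 0 = 0 := by
  unfold bjbP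
  rw [Real.zero_rpow (by linarith), Real.zero_rpow (by linarith), Real.zero_rpow (by linarith)]
  simp

theorem bjbP_S (m : ℝ) (hm : 1 ≤ m) (S : ℝ) (hS : S = 2 * m * (2 * m + 4)) : bjbP m S S < 0 := by
  have hS0 : 0 < S := by rw [hS]; positivity
  unfold bjbP
  rw [Real.rpow_add hS0 m 2, Real.rpow_add_one hS0.ne', Real.rpow_two]
  have hp : 0 < S ^ m := Real.rpow_pos_of_pos hS0 m
  have : S ^ m * S / (S ^ 2 * (m + 1)) - 1 / 4 * (S ^ m / m - 2 * (S ^ m * S) / (S * (m + 1))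
      + S ^ m * S ^ 2 / (S ^ 2 * (m + 2)))
      = S ^ m * (- 1 / (2 * S * (m + 1))) * (S / (m * (m + 2)) - 2) := by
    have hm0 : m ≠ 0 := by linarith
    have hm1 : m + 1 ≠ 0 := by linarith
    have hm2 : m + 2 ≠ 0 := by linarith
    field_simp
    ring
  rw [this]
  have h3 : S / (m * (m + 2)) - 2 = 2 := by
    rw [hS]
    have hm0 : m ≠ 0 := by linarith
    have hm2 : m + 2 ≠ 0 := by linarith
    field_simp
    ring
  rw [h3]
  have h4 : -1 / (2 * S * (m + 1)) < 0 := by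
    apply div_neg_of_neg_of_pos (by norm_num)
    positivity
  nlinarith [mul_neg_of_pos_of_neg hp h4]

/-- second derivative -/
theorem hasDerivAt_bj2 (d : ℝ) (hd : 0 < d) (s : ℝ) :
    HasDerivAt (fun x => -(bj (d + 2) x) / (2 * d)) (bj (d + 4) s / (4 * d * (d + 2))) s := by
  have h := (hasDerivAt_bj (d + 2) (by linarith) s).neg.div_const (2 * d)
  refine h.congr_deriv ?_
  rw [show d + 2 + 2 = d + 4 by ring]
  have : d + 2 ≠ 0 := by linarith
  field_simp
  ring

/-- the differential inequality -/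
theorem bjb_exists (d : ℝ) (hd : 2 ≤ d) : ∃ s : ℝ, 0 < s ∧ s ≤ d * (d + 4) ∧ bj d s = 0 := by
  by_contra hcon
  push Not at hcon
  obtain ⟨m, hm⟩ : ∃ m : ℝ, m = d / 2 := ⟨_, rfl⟩
  have hdm : d = 2 * m := by linarith
  have hm1 : 1 ≤ m := by linarith
  have hd0 : 0 < d := by linarith
  obtain ⟨S, hS⟩ : ∃ S : ℝ, S = 2 * m * (2 * m + 4) := ⟨_, rfl⟩
  have hS' : S = d * (d + 4) := by rw [hS, hdm]
  have hS0 : 0 < S := by rw [hS]; positivity
  have hpos : ∀ s, 0 ≤ s → s ≤ S → 0 < bj d s := fun s h0 hs =>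
    bjb_pos_of_ne d hd0 S (fun t ht hts => hcon t ht (by rw [← hS']; exact hts)) s h0 hs
  set T : ℝ → ℝ := fun s => s ^ m * (1 - s / S) ^ 2 * (-(bj (d + 2) s) / (2 * d) / bj d s) with hT
  have hanti : AntitoneOn (fun s => T s - bjbP m S s) (Set.Icc 0 S) := by
    have hcT : ContinuousOn T (Set.Icc 0 S) := by
      have c0 : Continuous (fun x : ℝ => x ^ m) := Real.continuous_rpow_const (by linarith)
      have c1 := bjb_cont d hd0
      have c2 := bjb_cont (d + 2) (by linarith)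
      rw [hT]
      apply ContinuousOn.mul
      · fun_prop
      · apply ContinuousOn.div
        · fun_prop
        · exact c1.continuousOn
        · intro x hx
          exact (hpos x hx.1 hx.2).ne'
    apply antitoneOn_of_hasDerivWithinAt_nonpos (convex_Icc 0 S)
      (f' := fun s => s ^ m * (2 * (1 - s / S) * (-1 / S) * (-(bj (d + 2) s) / (2 * d) / bj d s)
        - (1 - s / S) ^ 2 * (-(bj (d + 2) s) / (2 * d) / bj d s) ^ 2
        - (1 - s / S) ^ 2 / (4 * s))
        - (s ^ m / S ^ 2 - s ^ (m - 1) * (1 - s / S) ^ 2 / 4))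
    · exact hcT.sub (bjbP_continuous m S hm1).continuousOn
    · intro s hs
      rw [interior_Icc] at hs
      have hs0 : 0 < s := hs.1
      have hJ := hpos s hs.1.le hs.2.le
      apply HasDerivAt.hasDerivWithinAt
      apply HasDerivAt.sub _ (hasDerivAt_bjbP m S s hm1 hS0 hs0)
      have d0 : HasDerivAt (fun x : ℝ => x ^ m) (m * s ^ (m - 1)) s :=
        Real.hasDerivAt_rpow_const (Or.inl hs0.ne')
      have d1 : HasDerivAt (fun x : ℝ => (1 - x / S) ^ 2) (2 * (1 - s / S) * (-1 / S)) s := by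
        have := (((hasDerivAt_id s).div_const S).const_sub 1).pow 2
        refine this.congr_deriv ?_
        simp
        ring
      have d2 := (hasDerivAt_bj2 d hd0 s).div (hasDerivAt_bj d hd0 s) hJ.ne'
      have d3 := (d0.mul d1).mul d2
      refine d3.congr_deriv ?_
      have e0 : s ^ (m - 1) = s ^ m / s := by
        rw [Real.rpow_sub_one hs0.ne']
      have hode : bj (d + 4) s = (bj (d + 2) s - bj d s) * (d * (d + 2)) / s := by
        have := bj_contig d hd0 s
        have hd2 : d + 2 ≠ 0 := by linarith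
        rw [this]
        field_simp
        ring
      rw [hode, e0]
      have hd2 : d + 2 ≠ 0 := by linarith
      have hdne : d ≠ 0 := by linarith
      have hmd : m = d / 2 := hm
      have hJne := hJ.ne'
      simp only [Pi.mul_apply, Pi.div_apply]
      generalize s ^ m = p
      generalize bj d s = J at *
      generalize bj (d + 2) s = K
      rw [hmd]
      field_simp
      ring
    · intro s hs
      rw [interior_Icc] at hs
      have hs0 : 0 < s := hs.1
      have e0 : s ^ (m - 1) = s ^ m / s := by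
        rw [Real.rpow_sub_one hs0.ne']
      have hp : 0 < s ^ m := Real.rpow_pos_of_pos hs0 m
      rw [e0]
      generalize s ^ m = p at *
      generalize -(bj (d + 2) s) / (2 * d) / bj d s = b
      have key : p * (2 * (1 - s / S) * (-1 / S) * b - (1 - s / S) ^ 2 * b ^ 2
          - (1 - s / S) ^ 2 / (4 * s)) - (p / S ^ 2 - p / s * (1 - s / S) ^ 2 / 4)
          = - (p * ((1 - s / S) * b + 1 / S) ^ 2) := by
        field_simp
        ring
      rw [key]
      have : 0 ≤ p * ((1 - s / S) * b + 1 / S) ^ 2 := by positivity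
      linarith
  have h1 := hanti (Set.left_mem_Icc.mpr hS0.le) (Set.right_mem_Icc.mpr hS0.le) hS0.le
  have hT0 : T 0 = 0 := by
    rw [hT]
    simp only
    rw [Real.zero_rpow (by linarith)]
    ring
  have hTS : T S = 0 := by
    rw [hT]
    simp only
    rw [div_self hS0.ne']
    ring
  simp only [hT0, hTS, bjbP_zero m S hm1] at h1
  have := bjbP_S m hm1 S hS
  linarith

theorem bjb_set_nonempty (d : ℝ) (hd : 2 ≤ d) : {s : ℝ | 0 < s ∧ bj d s = 0}.Nonempty := by
  obtain ⟨s, h0, _, h1⟩ := bjb_exists d hd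
  exact ⟨s, h0, h1⟩

theorem bjb_bdd (d : ℝ) : BddBelow {s : ℝ | 0 < s ∧ bj d s = 0} :=
  ⟨0, fun _ hs => hs.1.le⟩

theorem bz_pos (d : ℝ) (hd : 2 ≤ d) : 0 < bz d := by
  have hc := (bjb_cont d (by linarith)).continuousAt (x := 0)
  have h1 : ∀ᶠ s in nhds (0 : ℝ), 0 < bj d s := by
    apply hc.eventually
    rw [bj_at_zero]
    exact lt_mem_nhds zero_lt_one
  obtain ⟨ε, hε, h2⟩ := Metric.eventually_nhds_iff.mp h1
  apply lt_of_lt_of_le hε
  apply le_csInf (bjb_set_nonempty d hd)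
  rintro s ⟨hs0, hs⟩
  by_contra hlt
  push Not at hlt
  have := h2 (y := s) (by rw [Real.dist_eq, sub_zero, abs_of_pos hs0]; exact hlt)
  rw [hs] at this
  exact lt_irrefl _ this

theorem bj_bz (d : ℝ) (hd : 2 ≤ d) : bj d (bz d) = 0 := by
  have hcl := csInf_mem_closure (bjb_set_nonempty d hd) (bjb_bdd d)
  have hsub : {s : ℝ | 0 < s ∧ bj d s = 0} ⊆ {s : ℝ | bj d s = 0} := fun s hs => hs.2
  have hclosed : IsClosed {s : ℝ | bj d s = 0} :=
    isClosed_singleton.preimage (bjb_cont d (by linarith))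
  exact hclosed.closure_subset_iff.mpr hsub hcl

theorem bj_pos (d : ℝ) (hd : 2 ≤ d) (s : ℝ) (hs : s < bz d) : 0 < bj d s := by
  rcases le_or_gt s 0 with h0 | h0
  · exact bj_pos_of_nonpos d (by linarith) s h0
  · apply bjb_pos_of_ne d (by linarith) s _ s h0.le le_rfl
    intro t ht0 hts hz
    have : bz d ≤ t := csInf_le (bjb_bdd d) ⟨ht0, hz⟩
    linarith

end Pool.Agent.H94.ER
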