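import Pool.Agent.H94.ER.BjB

/-!
# BjC: order of the first zeros and signs after the first zero

* `bz_lt`: `(s^(d/2) bj (d+2))' = (d/2) s^(d/2-1) bj d` (from `hasDerivAt_bj (d+2)` and `bj_contig d`), positive
  on `(0, bz d)`; so `s^(d/2) bj (d+2) s > 0` on `(0, bz d]`, i.e. the first zero of `bj (d+2)` is larger.
* `bj_neg1`: on `(0, bz (d+2))` one has `(bj d)' = -bj (d+2)/(2d) < 0`, so `bj d` is strictly decreasing on
  `[0, bz (d+2)]` and `bj d (bz d) = 0`.
* `bj_neg2`: for `bz (d+2) < s ≤ bz (d+4)`: `bj (d+2) s < 0` (`bj_neg1` for `d+2`) and `bj (d+4) s ≥ 0`, so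
  `bj d s = bj (d+2) s - s/(d(d+2)) bj (d+4) s < 0`; for `bz d < s ≤ bz (d+2)` use `bj_neg1`.
-/

set_option autoImplicit false

namespace Pool.Agent.H94.ER

private theorem BjC_pos (d : ℝ) (hd : 2 ≤ d) (s : ℝ) (h0 : 0 < s) (hs : s ≤ bz d) :
    0 < bj (d + 2) s := by
  obtain ⟨m, hm⟩ : ∃ m : ℝ, m = d / 2 := ⟨_, rfl⟩
  have hm1 : 1 ≤ m := by linarith
  have hd0 : 0 < d := by linarith
  have hD : ∀ x : ℝ, 0 < x → HasDerivAt (fun y : ℝ => y ^ m * bj (d + 2) y)
      (m * x ^ (m - 1) * bj d x) x := by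
    intro x hx
    have h1 : HasDerivAt (fun y : ℝ => y ^ m) (m * x ^ (m - 1)) x :=
      Real.hasDerivAt_rpow_const (Or.inl hx.ne')
    have h2 := hasDerivAt_bj (d + 2) (by linarith) x
    refine (h1.mul h2).congr_deriv ?_
    have e0 : x ^ m = x ^ (m - 1) * x := by
      rw [← Real.rpow_add_one hx.ne']; congr 1; ring
    rw [bj_contig d hd0 x, e0, show d + 2 + 2 = d + 4 by ring, show d = 2 * m by linarith]
    have hm0 : m ≠ 0 := by linarith
    have hm2 : 2 * m + 2 ≠ 0 := by linarith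
    field_simp
    ring
  have hc : ContinuousOn (fun y : ℝ => y ^ m * bj (d + 2) y) (Set.Icc 0 (bz d)) := by
    have c1 : Continuous (fun y : ℝ => y ^ m) := Real.continuous_rpow_const (by linarith)
    exact (c1.mul (bjb_cont (d + 2) (by linarith))).continuousOn
  have hmono : StrictMonoOn (fun y : ℝ => y ^ m * bj (d + 2) y) (Set.Icc 0 (bz d)) := by
    refine strictMonoOn_of_deriv_pos (convex_Icc 0 (bz d)) hc fun x hx => ?_
    rw [interior_Icc] at hx
    rw [(hD x hx.1).deriv]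
    exact mul_pos (mul_pos (by linarith) (Real.rpow_pos_of_pos hx.1 _)) (bj_pos d hd x hx.2)
  have h := hmono ⟨le_rfl, (bz_pos d hd).le⟩ ⟨h0.le, hs⟩ h0
  simp only at h
  rw [Real.zero_rpow (by linarith), zero_mul] at h
  exact pos_of_mul_pos_right h (Real.rpow_pos_of_pos h0 m).le

theorem bz_lt (d : ℝ) (hd : 2 ≤ d) : bz d < bz (d + 2) := by
  by_contra hcon
  push Not at hcon
  have h1 := BjC_pos d hd (bz (d + 2)) (bz_pos (d + 2) (by linarith)) hcon
  rw [bj_bz (d + 2) (by linarith)] at h1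
  exact lt_irrefl _ h1

theorem bj_neg1 (d : ℝ) (hd : 2 ≤ d) (s : ℝ) (h1 : bz d < s) (h2 : s ≤ bz (d + 2)) :
    bj d s < 0 := by
  have hd0 : 0 < d := by linarith
  have hanti : StrictAntiOn (bj d) (Set.Icc 0 (bz (d + 2))) := by
    refine strictAntiOn_of_deriv_neg (convex_Icc 0 _) (bjb_cont d hd0).continuousOn
      fun x hx => ?_
    rw [interior_Icc] at hx
    rw [(hasDerivAt_bj d hd0 x).deriv]
    have := bj_pos (d + 2) (by linarith) x hx.2
    exact div_neg_of_neg_of_pos (by linarith) (by linarith)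
  have h := hanti ⟨(bz_pos d hd).le, (bz_lt d hd).le⟩
    ⟨((bz_pos d hd).trans h1).le, h2⟩ h1
  rwa [bj_bz d hd] at h

theorem bj_neg2 (d : ℝ) (hd : 2 ≤ d) (s : ℝ) (h1 : bz d < s) (h2 : s ≤ bz (d + 4)) :
    bj d s < 0 := by
  rcases le_or_gt s (bz (d + 2)) with h | h
  · exact bj_neg1 d hd s h1 h
  · have e4 : d + 4 = d + 2 + 2 := by ring
    have h3 : bj (d + 2) s < 0 :=
      bj_neg1 (d + 2) (by linarith) s h (by rw [← e4]; exact h2)
    have h4 : 0 ≤ bj (d + 4) s := by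
      rcases lt_or_eq_of_le h2 with h5 | h5
      · exact (bj_pos (d + 4) (by linarith) s h5).le
      · rw [h5, bj_bz (d + 4) (by linarith)]
    have hs : 0 < s := (bz_pos d hd).trans h1
    rw [bj_contig d (by linarith) s]
    have h6 : 0 ≤ s / (d * (d + 2)) * bj (d + 4) s := by positivity
    linarith

end Pool.Agent.H94.ER
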