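import Pool.Agent.H94.ER.BaB

/-!
# CeA: the certificate inequality

Let `H ≥ 0` be `C^1`, `p` a vector field, `X = (1/2) ∇H + H p` Lipschitz with compact support, and
`Θ = div X + H |p|^2`. Then for every `u ∈ C^1_c(E N)`
   `- ∫ u^2 Θ ≤ ∫ ∇u · ∇(H u)`.

Proof. `∇u · ∇(H u) = H |∇u|^2 + u ∇u · ∇H` and `H |∇u - p u|^2 ≥ 0` gives
`H |∇u|^2 ≥ 2 H u p·∇u - H |p|^2 u^2`, so almost everywhere
`∇u · ∇(H u) ≥ 2 u ∇u · X - u^2 H |p|^2 = ∇(u^2) · X - u^2 H |p|^2`.
Integrate: `∫ ∇(u^2) · X = - ∫ u^2 div X` (integration by parts for Lipschitz functions, coordinate by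
coordinate: `LipschitzWith.integral_lineDeriv_mul_eq` from Mathlib's Rademacher file; at points
of differentiability, i.e. almost everywhere, `lineDeriv ℝ f x v = fderiv ℝ f x v`,
`LipschitzWith.ae_differentiableAt`). `u^2` is `C^1` with compact support, hence Lipschitz.
Integrability: `∇u · ∇(H u)` is continuous with compact support; `u^2 div X` is bounded with compact
support (`‖fderiv‖ ≤ K`); `u^2 H |p|^2 = u^2 Θ - u^2 div X` almost everywhere, integrable by `hint`.
(Measurability of `u^2 * pd i (X_i)`: `measurable_lineDeriv` for continuous functions or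
`measurable_fderiv_apply_const`.)
-/

set_option autoImplicit false

open MeasureTheory

namespace Pool.Agent.H94.ER

variable {N : ℕ}

theorem CeA_ibp (g : E N → ℝ) (hg : ContDiff ℝ 1 g) (hgc : HasCompactSupport g)
    (f : E N → ℝ) (K : NNReal) (hf : LipschitzWith K f) (i : Fin N) :
    ∫ x, g x * pd i f x = - ∫ x, pd i g x * f x := by
  obtain ⟨C, hC⟩ := hg.lipschitzWith_of_hasCompactSupport hgc one_ne_zero
  have h := hf.integral_lineDeriv_mul_eq (μ := volume) hC hgc
    (EuclideanSpace.single i (1 : ℝ) : E N)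
  have h1 : (fun x => g x * pd i f x) =ᵐ[volume]
      fun x => lineDeriv ℝ f x (EuclideanSpace.single i (1 : ℝ)) * g x := by
    filter_upwards [hf.ae_differentiableAt (μ := volume)] with x hx
    rw [hx.lineDeriv_eq_fderiv, mul_comm]
    rfl
  have h2 : ∀ x, lineDeriv ℝ g x (-(EuclideanSpace.single i (1 : ℝ))) * f x =
      - (pd i g x * f x) := by
    intro x
    rw [((hg.differentiable one_ne_zero) x).lineDeriv_eq_fderiv, map_neg]
    simp [pd]
  rw [integral_congr_ae h1, h, ← integral_neg]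
  exact integral_congr_ae (.of_forall h2)

theorem CeA_integrable (g : E N → ℝ) (hg : Continuous g) (hgc : HasCompactSupport g)
    (f : E N → ℝ) (K : NNReal) (hf : LipschitzWith K f) (i : Fin N) :
    Integrable (fun x => g x * pd i f x) := by
  have hgi : Integrable g := hg.integrable_of_hasCompactSupport hgc
  refine hgi.mul_bdd (c := K) ?_ ?_
  · exact (measurable_fderiv_apply_const ℝ f _).aestronglyMeasurable
  · refine .of_forall fun x => ?_
    have h1 : ‖fderiv ℝ f x‖ ≤ K := norm_fderiv_le_of_lipschitz ℝ hf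
    have h2 := (fderiv ℝ f x).le_opNorm (EuclideanSpace.single i (1 : ℝ) : E N)
    have h3 : ‖(EuclideanSpace.single i (1 : ℝ) : E N)‖ = 1 := by simp
    rw [h3, mul_one] at h2
    exact h2.trans h1

theorem CeA_point (H : E N → ℝ) (hH : ContDiff ℝ 1 H) (hH0 : ∀ x, 0 ≤ H x)
    (X p : E N → E N) (u : E N → ℝ) (hu : ContDiff ℝ 1 u) (x : E N)
    (hp : ∀ i, X x i = (1 / 2) * pd i H x + H x * p x i) :
    (∑ i, pd i (fun y => u y ^ 2) x * X x i) - u x ^ 2 * (H x * ‖p x‖ ^ 2) ≤
      dot u (fun y => H y * u y) x := by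
  have hud : DifferentiableAt ℝ u x := (hu.differentiable one_ne_zero) x
  have hHd : DifferentiableAt ℝ H x := (hH.differentiable one_ne_zero) x
  have h1 : ∀ i, pd i (fun y => H y * u y) x = H x * pd i u x + pd i H x * u x := fun i =>
    pd_mul i H u x hHd hud
  have h2 : ∀ i, pd i (fun y => u y ^ 2) x = 2 * u x * pd i u x := by
    intro i
    have : (fun y => u y ^ 2) = fun y => u y * u y := funext fun y => sq _
    rw [this, pd_mul i u u x hud hud]
    ring
  have h3 : dot u (fun y => H y * u y) x - ((∑ i, pd i (fun y => u y ^ 2) x * X x i)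
      - u x ^ 2 * (H x * ‖p x‖ ^ 2)) = H x * ∑ i, (pd i u x - u x * p x i) ^ 2 := by
    rw [← sum_coord_sq (p x), dot, Finset.mul_sum, Finset.mul_sum, Finset.mul_sum,
      ← Finset.sum_sub_distrib, ← Finset.sum_sub_distrib]
    refine Finset.sum_congr rfl fun i _ => ?_
    rw [h1, h2, hp]
    ring
  have h4 : 0 ≤ H x * ∑ i, (pd i u x - u x * p x i) ^ 2 :=
    mul_nonneg (hH0 x) (Finset.sum_nonneg fun i _ => sq_nonneg _)
  linarith

theorem cert (H : E N → ℝ) (hH : ContDiff ℝ 1 H) (hH0 : ∀ x, 0 ≤ H x)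
    (X : E N → E N) (K : NNReal) (hX : LipschitzWith K X) (hXc : HasCompactSupport X)
    (p : E N → E N) (hp : ∀ᵐ x : E N, ∀ i, X x i = (1 / 2) * pd i H x + H x * p x i)
    (Θ : E N → ℝ)
    (hΘ : ∀ᵐ x : E N, Θ x = (∑ i, pd i (fun y => X y i) x) + H x * ‖p x‖ ^ 2)
    (u : E N → ℝ) (hu : ContDiff ℝ 1 u) (huc : HasCompactSupport u)
    (hint : Integrable (fun x => u x ^ 2 * Θ x)) :
    - ∫ x, u x ^ 2 * Θ x ≤ ∫ x, dot u (fun y => H y * u y) x := by
  have hu2 : ContDiff ℝ 1 (fun x => u x ^ 2) := hu.pow 2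
  have hu2c : HasCompactSupport (fun x => u x ^ 2) :=
    huc.comp_left (g := fun t : ℝ => t ^ 2) (by norm_num)
  have hXl : ∀ i, ∃ K' : NNReal, LipschitzWith K' (fun y => X y i) := fun i =>
    ⟨_, (EuclideanSpace.proj i : E N →L[ℝ] ℝ).lipschitz.comp hX⟩
  have hI1 : ∀ i, Integrable (fun x => u x ^ 2 * pd i (fun y => X y i) x) := fun i => by
    obtain ⟨K', hK'⟩ := hXl i
    exact CeA_integrable _ hu2.continuous hu2c _ K' hK' i
  have hibp : ∀ i, ∫ x, u x ^ 2 * pd i (fun y => X y i) x =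
      - ∫ x, pd i (fun y => u y ^ 2) x * X x i := fun i => by
    obtain ⟨K', hK'⟩ := hXl i
    exact CeA_ibp _ hu2 hu2c _ K' hK' i
  have hI2 : ∀ i, Integrable (fun x => pd i (fun y => u y ^ 2) x * X x i) := fun i => by
    obtain ⟨K', hK'⟩ := hXl i
    exact ((continuous_pd i _ hu2).mul hK'.continuous).integrable_of_hasCompactSupport
      ((hasCompactSupport_pd i _ hu2c).mul_right)
  have hI3 : Integrable (fun x => u x ^ 2 * ∑ i, pd i (fun y => X y i) x) := by
    have := integrable_finsetSum Finset.univ fun i _ => hI1 i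
    refine this.congr (.of_forall fun x => ?_)
    simp only [Finset.mul_sum]
  have hI4 : Integrable (fun x => u x ^ 2 * (H x * ‖p x‖ ^ 2)) := by
    refine (hint.sub hI3).congr ?_
    filter_upwards [hΘ] with x hx
    simp only [Pi.sub_apply, hx]
    ring
  have hI5 : Integrable (fun x => dot u (fun y => H y * u y) x) :=
    (continuous_dot u _ hu (hH.mul hu)).integrable_of_hasCompactSupport
      (hasCompactSupport_dot u _ huc)
  have hI6 : Integrable (fun x => ∑ i, pd i (fun y => u y ^ 2) x * X x i) :=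
    integrable_finsetSum Finset.univ fun i _ => hI2 i
  have hmain : ∫ x, ((∑ i, pd i (fun y => u y ^ 2) x * X x i) - u x ^ 2 * (H x * ‖p x‖ ^ 2)) ≤
      ∫ x, dot u (fun y => H y * u y) x := by
    refine integral_mono_ae (hI6.sub hI4) hI5 ?_
    filter_upwards [hp] with x hx
    exact CeA_point H hH hH0 X p u hu x hx
  have e1 : ∫ x, u x ^ 2 * Θ x = (∫ x, u x ^ 2 * ∑ i, pd i (fun y => X y i) x) +
      ∫ x, u x ^ 2 * (H x * ‖p x‖ ^ 2) := by
    rw [← integral_add hI3 hI4]
    refine integral_congr_ae ?_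
    filter_upwards [hΘ] with x hx
    rw [hx]
    ring
  have e2 : ∫ x, u x ^ 2 * ∑ i, pd i (fun y => X y i) x =
      - ∫ x, ∑ i, pd i (fun y => u y ^ 2) x * X x i := by
    rw [integral_finsetSum Finset.univ fun i _ => hI2 i, ← Finset.sum_neg_distrib]
    rw [← Finset.sum_congr rfl fun i _ => hibp i, ← integral_finsetSum Finset.univ fun i _ => hI1 i]
    refine integral_congr_ae (.of_forall fun x => ?_)
    simp only [Finset.mul_sum]
  rw [integral_sub hI6 hI4] at hmain
  rw [e1, e2]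
  linarith

end Pool.Agent.H94.ER
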