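import Mathlib

/-!
# MP_db9694: Dirichlet eigenvalue ratios. Definitions.

`dirEig Ω k` is the `k`-th Dirichlet eigenvalue of the Laplacian on the open set `Ω`, by the
Courant-Fischer min-max principle: the infimum of the numbers `c` for which there is a
`k`-dimensional space of functions of class `C^1` with compact support in `Ω` on which
`∫ |∇u|^2 ≤ c ∫ u^2`.
-/

set_option autoImplicit false

open MeasureTheory

namespace Pool.Agent.H94.ER

/-- `R^N` with its Euclidean norm. -/
abbrev E (N : ℕ) : Type := EuclideanSpace ℝ (Fin N)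

/-- functions of class `C^1` with compact support in `Ω` -/
def IsTest {N : ℕ} (Ω : Set (E N)) (u : E N → ℝ) : Prop :=
  ContDiff ℝ 1 u ∧ HasCompactSupport u ∧ tsupport u ⊆ Ω

/-- `k`-th Dirichlet eigenvalue of `-Δ` on `Ω` (Courant-Fischer), `k ≥ 1` -/
noncomputable def dirEig {N : ℕ} (Ω : Set (E N)) (k : ℕ) : ℝ :=
  sInf {c : ℝ | ∃ V : Submodule ℝ (E N → ℝ), Module.finrank ℝ V = k ∧
    ∀ u ∈ V, IsTest Ω u ∧ ∫ x, ‖fderiv ℝ u x‖ ^ 2 ≤ c * ∫ x, u x ^ 2}

/-- partial derivative -/
noncomputable def pd {N : ℕ} (i : Fin N) (u : E N → ℝ) (x : E N) : ℝ :=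
  fderiv ℝ u x (EuclideanSpace.single i 1)

/-- `∇u · ∇v` -/
noncomputable def dot {N : ℕ} (u v : E N → ℝ) (x : E N) : ℝ := ∑ i, pd i u x * pd i v x

/-- Dirichlet energy -/
noncomputable def energy {N : ℕ} (u : E N → ℝ) : ℝ := ∫ x, dot u u x

/-- squared `L^2` norm -/
noncomputable def mass {N : ℕ} (u : E N → ℝ) : ℝ := ∫ x, u x ^ 2

/-- the regular radial solution of `f'' + ((d-1)/r) f' + f = 0`, `f(0) = 1`, as a function of
`s = r^2` (a normalised Bessel function of order `d/2 - 1`) -/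
noncomputable def bj (d s : ℝ) : ℝ :=
  ∑' k : ℕ, (-s) ^ k / (4 ^ k * (k.factorial : ℝ) * ∏ i ∈ Finset.range k, (d / 2 + i))

/-- its first positive zero; `bz N` is the first Dirichlet eigenvalue of the unit ball of `R^N` -/
noncomputable def bz (d : ℝ) : ℝ := sInf {s : ℝ | 0 < s ∧ bj d s = 0}

/-- `bj d (bz d * s) / (1 - s)`, with the removable singularity at `s = 1` removed -/
noncomputable def uh (d s : ℝ) : ℝ :=
  if s = 1 then bz d * bj (d + 2) (bz d) / (2 * d) else bj d (bz d * s) / (1 - s)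

/-- profile of degree `k` in the unit ball: ratio of the radial parts of the ground state of
degree `k` and of the ground state, in the variable `s = r^2`, without the factor `r^k` -/
noncomputable def F0 (N k : ℕ) (s : ℝ) : ℝ := uh (N + 2 * k) s / uh N s

/-- profile of degree `k`, extended beyond the unit ball so that `s^k F^2` is constant -/
noncomputable def Fp (N k : ℕ) (s : ℝ) : ℝ :=
  if s ≤ 1 then F0 N k s else F0 N k 1 * s ^ (-(k : ℝ) / 2)

/-- `|f|^2` for the trial map of degree `k` with profile `F` -/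
noncomputable def Pk (k : ℕ) (F : ℝ → ℝ) (s : ℝ) : ℝ := s ^ k * F s ^ 2

/-- `|∇f|^2` for the trial map of degree `k` with profile `F` -/
noncomputable def En (N k : ℕ) (F : ℝ → ℝ) (s : ℝ) : ℝ :=
  (k : ℝ) * (2 * k + N - 2) * s ^ (k - 1) * F s ^ 2 + 4 * k * s ^ k * F s * deriv F s
    + 4 * s ^ (k + 1) * deriv F s ^ 2

/-- trial functions of degree 1 -/
noncomputable def tf {N : ℕ} (F : ℝ → ℝ) (j : Fin N) (x : E N) : ℝ := F (‖x‖ ^ 2) * x j

/-- trial functions of degree 2 -/
noncomputable def tg {N : ℕ} (F : ℝ → ℝ) (a b : Fin N) (x : E N) : ℝ :=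
  F (‖x‖ ^ 2) * (x a * x b - if a = b then ‖x‖ ^ 2 / N else 0)

/-- integral over the unit sphere -/
noncomputable def sph {N : ℕ} (f : E N → ℝ) : ℝ :=
  ∫ ω : Metric.sphere (0 : E N) 1, f ω ∂(volume : Measure (E N)).toSphere

/-- rotational derivative -/
noncomputable def Lr {N : ℕ} (i j : Fin N) (f : E N → ℝ) (x : E N) : ℝ :=
  x i * pd j f x - x j * pd i f x

end Pool.Agent.H94.ER
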