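import Pool.Agent.H94.ER.BjC

/-!
# LoA: one-dimensional inequality (Jacobi's trick)

`Λ = bz (N+4)`, `k ∈ {0,1,2}`, `μ = k (k+N-2)`, `Z(r) = r^k bj (N+2k) (Λ r^2)`: it satisfies
`Z'' + ((N-1)/r) Z' + (Λ - μ/r^2) Z = 0` for `r > 0` (from the ODE `4 s b'' + 2 d b' + b = 0`, `d = N+2k`, of `b = bj d`).
Zeros of `Z` in `(0,1]`: only `r_k = √(bz (N+2k)/Λ)` (`bj_neg2` for `k=0`, `bj_neg1` for `k=1`, `r_2 = 1`).
Let `Φ, D : ℝ → ℝ`, `Φ` differentiable on `(0,∞)` with derivative `Φ'`, all continuous on `(0,∞)`, `Φ, D ≥ 0`, `Φ'^2 ≤ 4 Φ D`,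
`Φ = 0` for `r ≥ 1 - δ`, `Φ, D` bounded by `M` on `(0,1)`, and
 * `k ≥ 1`: `Φ r ≤ M r^2`;  * `k ≤ 1`: `Φ r ≤ M (r - r_k)^2` on `(0,1)`.
Then `∫_0^1 r^(N-1) (D + μ Φ/r^2 - Λ Φ) dr ≥ 0`.
Proof. `T(r) = r^(N-1) Φ Z'/Z` on `(0,1) \ {r_k}`;
`T' = r^(N-1) [Φ' Z'/Z - Φ (Z'/Z)^2 + Φ (μ/r^2 - Λ)]`, so
`r^(N-1) (D + μ Φ/r^2 - Λ Φ) - T' = r^(N-1) [D - Φ' (Z'/Z) + Φ (Z'/Z)^2] ≥ 0` (`Φ'^2 ≤ 4ΦD`). Hence the integral over
`[α,β]` (not containing `r_k`) is `≥ T(β) - T(α)`. `T → 0` at `0` (`Z'/Z = k/r + O(r)`, `Φ ≤ M r^2` if `k ≥ 1`, `N ≥ 2`), `T = 0` near `1`,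
`T → 0` at `r_k` (`Φ ≤ M (r-r_k)^2`, `Z` has a simple zero: `|Z'/Z| ≤ C/|r-r_k|` near `r_k` since
`Z'(r_k) ≠ 0`, as `bj (d+2) (bz d) ≠ 0`). Let `α, β` tend to the ends of the intervals; the integrand is bounded
on `(0,1)`.
-/

set_option autoImplicit false

open MeasureTheory Set Filter Topology

namespace Pool.Agent.H94.ER

theorem LoA_abs (I T : ℝ → ℝ) (ρ δ : ℝ) (hρ0 : 0 < ρ) (hρ1 : ρ ≤ 1) (hδ : 0 < δ)
    (hI : IntegrableOn I (Icc 0 1))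
    (h1 : ∀ a b, 0 < a → a ≤ b → b < ρ → T b - T a ≤ ∫ r in a..b, I r)
    (h2 : ∀ a b, ρ < a → a ≤ b → b < 1 → T b - T a ≤ ∫ r in a..b, I r)
    (t0 : Tendsto T (𝓝[Ioo 0 ρ] 0) (𝓝 0))
    (tl : ρ < 1 → Tendsto T (𝓝[Ioo 0 ρ] ρ) (𝓝 0))
    (tr : ρ < 1 → Tendsto T (𝓝[Ioo ρ 1] ρ) (𝓝 0))
    (hz : ∀ r, 1 - δ ≤ r → T r = 0) : 0 ≤ ∫ r in (0 : ℝ)..1, I r := by
  have hII : IntervalIntegrable I volume 0 1 := by
    rw [intervalIntegrable_iff_integrableOn_Icc_of_le zero_le_one]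
    exact hI
  have hsub : ∀ a b, a ∈ Icc (0 : ℝ) 1 → b ∈ Icc (0 : ℝ) 1 → IntervalIntegrable I volume a b := by
    intro a b ha hb
    refine hII.mono_set ?_
    rw [uIcc_of_le (zero_le_one : (0 : ℝ) ≤ 1)]
    exact uIcc_subset_Icc ha hb
  set J : ℝ → ℝ := fun x => ∫ r in (0 : ℝ)..x, I r with hJ
  have hJc : ContinuousOn J (Icc 0 1) := by
    have := intervalIntegral.continuousOn_primitive_interval (a := (0 : ℝ)) (b := 1) (f := I)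
      (μ := volume) (by rw [uIcc_of_le (zero_le_one : (0 : ℝ) ≤ 1)]; exact hI)
    rwa [uIcc_of_le (zero_le_one : (0 : ℝ) ≤ 1)] at this
  have hJd : ∀ a b, a ∈ Icc (0 : ℝ) 1 → b ∈ Icc (0 : ℝ) 1 → ∫ r in a..b, I r = J b - J a := by
    intro a b ha hb
    simp only [hJ]
    rw [intervalIntegral.integral_interval_sub_left (hsub 0 b ⟨le_refl _, zero_le_one⟩ hb)
      (hsub 0 a ⟨le_refl _, zero_le_one⟩ ha)]
  have hJ0 : J 0 = 0 := by simp [hJ]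
  -- step 1
  have s1 : ∀ b, 0 < b → b < ρ → T b ≤ J b := by
    intro b hb0 hb1
    have : (𝓝[Ioo 0 ρ] (0 : ℝ)).NeBot := left_nhdsWithin_Ioo_neBot hρ0
    have hlim : Tendsto (fun a => T b - T a + J a) (𝓝[Ioo 0 ρ] (0 : ℝ)) (𝓝 (T b - 0 + 0)) := by
      refine (tendsto_const_nhds.sub t0).add ?_
      have := (hJc 0 ⟨le_refl _, zero_le_one⟩).tendsto
      rw [hJ0] at this
      exact this.mono_left (nhdsWithin_mono _ fun x hx => ⟨hx.1.le, hx.2.le.trans hρ1⟩)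
    rw [sub_zero, add_zero] at hlim
    refine le_of_tendsto hlim ?_
    have hmem : Iio b ∈ 𝓝 (0 : ℝ) := Iio_mem_nhds hb0
    filter_upwards [self_mem_nhdsWithin, mem_nhdsWithin_of_mem_nhds hmem] with a ha hab
    have := h1 a b ha.1 (le_of_lt hab) hb1
    rw [hJd a b ⟨ha.1.le, ha.2.le.trans hρ1⟩ ⟨hb0.le, hb1.le.trans hρ1⟩] at this
    linarith
  -- step 2: nonnegativity close to 1
  have s2 : ∃ c < 1, 0 ≤ c ∧ ∀ b, c < b → b < 1 → 0 ≤ J b := by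
    rcases lt_or_eq_of_le hρ1 with hlt | heq
    · have hρm : ρ ∈ Icc (0 : ℝ) 1 := ⟨hρ0.le, hρ1⟩
      have hJρ : 0 ≤ J ρ := by
        have : (𝓝[Ioo 0 ρ] ρ).NeBot := right_nhdsWithin_Ioo_neBot hρ0
        have hlim : Tendsto (fun b => J b - T b) (𝓝[Ioo 0 ρ] ρ) (𝓝 (J ρ - 0)) :=
          (((hJc ρ hρm).tendsto).mono_left
            (nhdsWithin_mono _ fun x hx => ⟨hx.1.le, hx.2.le.trans hρ1⟩)).sub (tl hlt)
        rw [sub_zero] at hlim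
        refine ge_of_tendsto hlim ?_
        filter_upwards [self_mem_nhdsWithin] with b hb
        linarith [s1 b hb.1 hb.2]
      have s3 : ∀ b, ρ < b → b < 1 → T b ≤ J b := by
        intro b hb0 hb1
        have : (𝓝[Ioo ρ 1] ρ).NeBot := left_nhdsWithin_Ioo_neBot hlt
        have hlim : Tendsto (fun a => T b - T a + J a) (𝓝[Ioo ρ 1] ρ) (𝓝 (T b - 0 + J ρ)) :=
          (tendsto_const_nhds.sub (tr hlt)).add (((hJc ρ hρm).tendsto).mono_left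
            (nhdsWithin_mono _ fun x hx => ⟨hρ0.le.trans hx.1.le, hx.2.le⟩))
        have := le_of_tendsto hlim (b := J b) (by
          have hmem : Iio b ∈ 𝓝 ρ := Iio_mem_nhds hb0
          filter_upwards [self_mem_nhdsWithin, mem_nhdsWithin_of_mem_nhds hmem] with a ha hab
          have := h2 a b ha.1 (le_of_lt hab) hb1
          rw [hJd a b ⟨hρ0.le.trans ha.1.le, ha.2.le⟩ ⟨hρ0.le.trans hb0.le, hb1.le⟩] at this
          linarith)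
        linarith
      refine ⟨max ρ (1 - δ), max_lt hlt (by linarith), le_max_of_le_left hρ0.le, fun b hb hb1 => ?_⟩
      have := s3 b ((le_max_left _ _).trans_lt hb) hb1
      rw [hz b ((le_max_right _ _).trans hb.le)] at this
      exact this
    · refine ⟨max 0 (1 - δ), max_lt one_pos (by linarith), le_max_left _ _, fun b hb hb1 => ?_⟩
      have := s1 b ((le_max_left _ _).trans_lt hb) (by rw [heq]; exact hb1)
      rw [hz b ((le_max_right _ _).trans hb.le)] at this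
      exact this
  obtain ⟨c, hc1, hc0, hc⟩ := s2
  have : (𝓝[Ioo c 1] (1 : ℝ)).NeBot := right_nhdsWithin_Ioo_neBot hc1
  have hlim : Tendsto J (𝓝[Ioo c 1] (1 : ℝ)) (𝓝 (J 1)) :=
    ((hJc 1 ⟨zero_le_one, le_refl _⟩).tendsto).mono_left
      (nhdsWithin_mono _ fun x hx => ⟨hc0.trans hx.1.le, hx.2.le⟩)
  refine ge_of_tendsto hlim ?_
  filter_upwards [self_mem_nhdsWithin] with b hb
  exact hc b hb.1 hb.2

/-- the logarithmic derivative -/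
noncomputable def LoA_Lf (d Λ κ : ℝ) (β γ : ℝ → ℝ) (r : ℝ) : ℝ := κ / r - Λ * r * γ r / (d * β r)

theorem LoA_L (d Λ κ : ℝ) (β γ : ℝ → ℝ) (r : ℝ) (hd : d ≠ 0) (hr : r ≠ 0) (hβ0 : β r ≠ 0)
    (hβ : HasDerivAt β (-Λ * r * γ r / d) r) (hγ : HasDerivAt γ (-d * (γ r - β r) / r) r) :
    HasDerivAt (LoA_Lf d Λ κ β γ) (-(LoA_Lf d Λ κ β γ r) ^ 2 - ((d - 2 * κ - 1) / r) *
      LoA_Lf d Λ κ β γ r - Λ + κ * (κ + (d - 2 * κ) - 2) / r ^ 2) r := by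
  have e1 : HasDerivAt (fun r : ℝ => κ / r) (-κ / r ^ 2) r := by
    have := (hasDerivAt_const r κ).div (hasDerivAt_id r) hr
    exact this.congr_deriv (by simp)
  have e2 : HasDerivAt (fun r : ℝ => Λ * r * γ r)
      ((Λ * 1) * γ r + Λ * r * (-d * (γ r - β r) / r)) r :=
    ((hasDerivAt_id r).const_mul Λ).mul hγ
  have e3 : HasDerivAt (fun r : ℝ => d * β r) (d * (-Λ * r * γ r / d)) r := hβ.const_mul d
  have e4 := e2.div e3 (mul_ne_zero hd hβ0)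
  have e5 := e1.sub e4
  refine HasDerivAt.congr_deriv (f := LoA_Lf d Λ κ β γ) e5 ?_
  unfold LoA_Lf
  field_simp
  ring

theorem LoA_T (N : ℕ) (hN : 2 ≤ N) (d Λ κ : ℝ) (β γ Φ Φ' : ℝ → ℝ) (r : ℝ) (hd : d ≠ 0)
    (hdN : d = N + 2 * κ) (hr : r ≠ 0) (hβ0 : β r ≠ 0)
    (hβ : HasDerivAt β (-Λ * r * γ r / d) r) (hγ : HasDerivAt γ (-d * (γ r - β r) / r) r)
    (hΦ : HasDerivAt Φ (Φ' r) r) :
    HasDerivAt (fun r => r ^ (N - 1) * Φ r * LoA_Lf d Λ κ β γ r)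
      (r ^ (N - 1) * (Φ' r * LoA_Lf d Λ κ β γ r - Φ r * LoA_Lf d Λ κ β γ r ^ 2 -
        Φ r * (Λ - κ * (κ + N - 2) / r ^ 2))) r := by
  have e1 := LoA_L d Λ κ β γ r hd hr hβ0 hβ hγ
  have e2 := (((hasDerivAt_pow (N - 1) r).mul hΦ).mul e1)
  refine HasDerivAt.congr_deriv (f := fun r => r ^ (N - 1) * Φ r * LoA_Lf d Λ κ β γ r) e2 ?_
  obtain ⟨n, rfl⟩ : ∃ n, N = n + 2 := ⟨N - 2, by omega⟩
  have h1 : n + 2 - 1 = n + 1 := by omega
  have h2 : n + 1 - 1 = n := by omega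
  simp only [h1, h2, Pi.mul_apply]
  generalize LoA_Lf d Λ κ β γ r = L
  rw [hdN]
  push_cast
  field_simp
  ring

theorem LoA_disc (x y L z : ℝ) (hx : 0 ≤ x) (hz : 0 ≤ z) (h : y ^ 2 ≤ 4 * x * z) :
    0 ≤ z - y * L + x * L ^ 2 := by
  rcases eq_or_lt_of_le hx with h0 | h0
  · have hy : y = 0 := by
      rw [← h0] at h
      have : y ^ 2 ≤ 0 := by linarith
      exact pow_eq_zero_iff (two_ne_zero) |>.1 (le_antisymm this (sq_nonneg y))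
    rw [hy, ← h0]
    simpa using hz
  · have h4 : 0 ≤ 4 * x * (z - y * L + x * L ^ 2) := by nlinarith [sq_nonneg (2 * x * L - y)]
    by_contra hneg
    push Not at hneg
    nlinarith

theorem LoA_step (N : ℕ) (hN : 2 ≤ N) (d Λ κ : ℝ) (β γ Φ Φ' D : ℝ → ℝ) (a b : ℝ) (ha : 0 < a)
    (hab : a ≤ b) (hd : d ≠ 0) (hdN : d = N + 2 * κ) (hβ0 : ∀ r ∈ Icc a b, β r ≠ 0)
    (hβ : ∀ r, 0 < r → HasDerivAt β (-Λ * r * γ r / d) r)
    (hγ : ∀ r, 0 < r → HasDerivAt γ (-d * (γ r - β r) / r) r)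
    (hΦ : ∀ r, 0 < r → HasDerivAt Φ (Φ' r) r) (hΦc : ContinuousOn Φ' (Ioi 0))
    (hD : ContinuousOn D (Ioi 0)) (hΦ0 : ∀ r, 0 < r → 0 ≤ Φ r) (hD0 : ∀ r, 0 < r → 0 ≤ D r)
    (hdisc : ∀ r, 0 < r → Φ' r ^ 2 ≤ 4 * Φ r * D r) :
    (b ^ (N - 1) * Φ b * LoA_Lf d Λ κ β γ b) - (a ^ (N - 1) * Φ a * LoA_Lf d Λ κ β γ a) ≤
      ∫ r in a..b, r ^ (N - 1) * (D r + κ * (κ + N - 2) * Φ r / r ^ 2 - Λ * Φ r) := by
  have hpos : ∀ r ∈ Icc a b, 0 < r := fun r hr => ha.trans_le hr.1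
  have hLc : ContinuousOn (LoA_Lf d Λ κ β γ) (Icc a b) := fun r hr =>
    (LoA_L d Λ κ β γ r hd (hpos r hr).ne' (hβ0 r hr) (hβ r (hpos r hr))
      (hγ r (hpos r hr))).continuousAt.continuousWithinAt
  have hΦc' : ContinuousOn Φ (Icc a b) := fun r hr =>
    (hΦ r (hpos r hr)).continuousAt.continuousWithinAt
  have hΦ'c : ContinuousOn Φ' (Icc a b) := hΦc.mono fun r hr => hpos r hr
  have hDc : ContinuousOn D (Icc a b) := hD.mono fun r hr => hpos r hr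
  have hid : ContinuousOn (fun r : ℝ => r) (Icc a b) := continuousOn_id
  have hinv : ContinuousOn (fun r : ℝ => r ^ 2) (Icc a b) := hid.pow 2
  have hne : ∀ r ∈ Icc a b, r ^ 2 ≠ 0 := fun r hr => pow_ne_zero _ (hpos r hr).ne'
  have hT' : ContinuousOn (fun r => r ^ (N - 1) * (Φ' r * LoA_Lf d Λ κ β γ r -
      Φ r * LoA_Lf d Λ κ β γ r ^ 2 - Φ r * (Λ - κ * (κ + N - 2) / r ^ 2))) (Icc a b) := by
    refine (hid.pow _).mul (((hΦ'c.mul hLc).sub (hΦc'.mul (hLc.pow 2))).sub (hΦc'.mul ?_))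
    exact continuousOn_const.sub (continuousOn_const.div hinv hne)
  have hI : ContinuousOn (fun r => r ^ (N - 1) * (D r + κ * (κ + N - 2) * Φ r / r ^ 2 - Λ * Φ r))
      (Icc a b) := by
    refine (hid.pow _).mul ((hDc.add ?_).sub (continuousOn_const.mul hΦc'))
    exact (continuousOn_const.mul hΦc').div hinv hne
  have hint : ∫ r in a..b, r ^ (N - 1) * (Φ' r * LoA_Lf d Λ κ β γ r -
      Φ r * LoA_Lf d Λ κ β γ r ^ 2 - Φ r * (Λ - κ * (κ + N - 2) / r ^ 2)) =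
      (b ^ (N - 1) * Φ b * LoA_Lf d Λ κ β γ b) - (a ^ (N - 1) * Φ a * LoA_Lf d Λ κ β γ a) := by
    refine intervalIntegral.integral_eq_sub_of_hasDerivAt
      (f := fun r => r ^ (N - 1) * Φ r * LoA_Lf d Λ κ β γ r) (fun r hr => ?_) ?_
    · rw [uIcc_of_le hab] at hr
      exact LoA_T N hN d Λ κ β γ Φ Φ' r hd hdN (hpos r hr).ne' (hβ0 r hr) (hβ r (hpos r hr))
        (hγ r (hpos r hr)) (hΦ r (hpos r hr))
    · exact (hT'.mono (by rw [uIcc_of_le hab])).intervalIntegrable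
  rw [← hint]
  refine intervalIntegral.integral_mono_on hab
    (hT'.mono (by rw [uIcc_of_le hab])).intervalIntegrable
    (hI.mono (by rw [uIcc_of_le hab])).intervalIntegrable fun r hr => ?_
  have hr0 := hpos r hr
  have h1 := LoA_disc (Φ r) (Φ' r) (LoA_Lf d Λ κ β γ r) (D r) (hΦ0 r hr0) (hD0 r hr0)
    (hdisc r hr0)
  have h2 : r ^ (N - 1) * (D r + κ * (κ + N - 2) * Φ r / r ^ 2 - Λ * Φ r) -
      r ^ (N - 1) * (Φ' r * LoA_Lf d Λ κ β γ r -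
      Φ r * LoA_Lf d Λ κ β γ r ^ 2 - Φ r * (Λ - κ * (κ + N - 2) / r ^ 2)) =
      r ^ (N - 1) * (D r - Φ' r * LoA_Lf d Λ κ β γ r + Φ r * LoA_Lf d Λ κ β γ r ^ 2) := by
    ring
  have h3 : 0 ≤ r ^ (N - 1) * (D r - Φ' r * LoA_Lf d Λ κ β γ r + Φ r * LoA_Lf d Λ κ β γ r ^ 2) :=
    mul_nonneg (pow_nonneg hr0.le _) h1
  linarith

theorem LoA_t0 (N : ℕ) (hN : 2 ≤ N) (d Λ κ M ρ : ℝ) (β γ Φ : ℝ → ℝ) (hd : 0 < d) (hΛ : 0 ≤ Λ)
    (hκ : 0 ≤ κ) (hρ : 0 < ρ) (hρ1 : ρ ≤ 1) (hβ0 : β 0 ≠ 0) (hβc : ContinuousAt β 0)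
    (hγc : ContinuousAt γ 0) (hΦ0 : ∀ r, 0 < r → 0 ≤ Φ r)
    (hbd : ∀ r, 0 < r → r < 1 → Φ r ≤ M)
    (h1 : ∀ r, 0 < r → r < 1 → κ * Φ r ≤ κ * (M * r ^ 2)) :
    Tendsto (fun r => r ^ (N - 1) * Φ r * LoA_Lf d Λ κ β γ r) (𝓝[Ioo 0 ρ] 0) (𝓝 0) := by
  have hE : Tendsto (fun r : ℝ => r ^ (N - 1) * (κ * (M * r) + M * (Λ * r * |γ r| / (d * |β r|))))
      (𝓝[Ioo 0 ρ] 0) (𝓝 0) := by
    have hc : ContinuousAt (fun r : ℝ => r ^ (N - 1) * (κ * (M * r) +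
        M * (Λ * r * |γ r| / (d * |β r|)))) 0 := by
      have hi : ContinuousAt (fun r : ℝ => r) 0 := continuousAt_id
      refine (hi.pow _).mul ((continuousAt_const.mul (continuousAt_const.mul hi)).add
        (continuousAt_const.mul ?_))
      exact ((continuousAt_const.mul hi).mul hγc.abs).div (continuousAt_const.mul hβc.abs)
        (mul_ne_zero hd.ne' (abs_ne_zero.2 hβ0))
    have := hc.tendsto
    rw [zero_pow (by omega), zero_mul] at this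
    exact this.mono_left nhdsWithin_le_nhds
  refine squeeze_zero_norm' ?_ hE
  filter_upwards [self_mem_nhdsWithin] with r hr
  have hr0 : 0 < r := hr.1
  have hr1 : r < 1 := hr.2.trans_le hρ1
  have hΦr := hΦ0 r hr0
  rw [Real.norm_eq_abs, abs_mul, abs_mul, abs_of_nonneg (pow_nonneg hr0.le _),
    abs_of_nonneg hΦr, mul_assoc]
  refine mul_le_mul_of_nonneg_left ?_ (pow_nonneg hr0.le _)
  have hL : |LoA_Lf d Λ κ β γ r| ≤ κ / r + Λ * r * |γ r| / (d * |β r|) := by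
    unfold LoA_Lf
    refine (abs_sub _ _).trans (le_of_eq ?_)
    rw [abs_div, abs_div, abs_mul, abs_mul, abs_mul, abs_of_nonneg hκ, abs_of_pos hr0,
      abs_of_nonneg hΛ, abs_of_pos hd]
  have hq : 0 ≤ Λ * r * |γ r| / (d * |β r|) := by positivity
  calc Φ r * |LoA_Lf d Λ κ β γ r| ≤ Φ r * (κ / r + Λ * r * |γ r| / (d * |β r|)) :=
        mul_le_mul_of_nonneg_left hL hΦr
    _ = (κ * Φ r) / r + Φ r * (Λ * r * |γ r| / (d * |β r|)) := by ring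
    _ ≤ κ * (M * r ^ 2) / r + M * (Λ * r * |γ r| / (d * |β r|)) := by
        refine add_le_add ?_ (mul_le_mul_of_nonneg_right (hbd r hr0 hr1) hq)
        exact (div_le_div_iff_of_pos_right hr0).2 (h1 r hr0 hr1)
    _ = κ * (M * r) + M * (Λ * r * |γ r| / (d * |β r|)) := by
        field_simp

theorem LoA_t1 (N : ℕ) (d Λ κ M ρ : ℝ) (β γ Φ : ℝ → ℝ) (β' : ℝ) (hd : 0 < d) (hΛ : 0 ≤ Λ)
    (hκ : 0 ≤ κ) (hρ : 0 < ρ) (hρ1 : ρ < 1) (hβ0 : β ρ = 0) (hβ : HasDerivAt β β' ρ)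
    (hβ' : β' ≠ 0) (hγc : ContinuousAt γ ρ) (hΦ0 : ∀ r, 0 < r → 0 ≤ Φ r)
    (h2 : ∀ r, 0 < r → r < 1 → Φ r ≤ M * (r - ρ) ^ 2) :
    Tendsto (fun r => r ^ (N - 1) * Φ r * LoA_Lf d Λ κ β γ r) (𝓝[≠] ρ) (𝓝 0) := by
  have hsl : Tendsto (fun r => |(r - ρ) / β r|) (𝓝[≠] ρ) (𝓝 |β'⁻¹|) := by
    have h := (hasDerivAt_iff_tendsto_slope.1 hβ).inv₀ hβ'
    refine (h.congr fun r => ?_).abs
    rw [slope_def_field, hβ0, sub_zero, inv_div]
  have hi : Tendsto (fun r : ℝ => r) (𝓝[≠] ρ) (𝓝 ρ) :=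
    (continuousAt_id (x := ρ)).tendsto.mono_left nhdsWithin_le_nhds
  have hγt : Tendsto (fun r : ℝ => |γ r|) (𝓝[≠] ρ) (𝓝 |γ ρ|) :=
    hγc.abs.tendsto.mono_left nhdsWithin_le_nhds
  have ha : Tendsto (fun r : ℝ => |r - ρ|) (𝓝[≠] ρ) (𝓝 |ρ - ρ|) :=
    (hi.sub tendsto_const_nhds).abs
  have hE : Tendsto (fun r : ℝ => r ^ (N - 1) * (M * |r - ρ| * (κ / r * |r - ρ| +
      Λ * r * |γ r| / d * |(r - ρ) / β r|))) (𝓝[≠] ρ)
      (𝓝 (ρ ^ (N - 1) * (M * |ρ - ρ| * (κ / ρ * |ρ - ρ| + Λ * ρ * |γ ρ| / d * |β'⁻¹|)))) := by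
    refine (hi.pow _).mul ((tendsto_const_nhds.mul ha).mul (((tendsto_const_nhds.div hi hρ.ne').mul
      ha).add ((((tendsto_const_nhds.mul hi).mul hγt).div_const d).mul hsl)))
  rw [sub_self, abs_zero, mul_zero, zero_mul, mul_zero] at hE
  refine squeeze_zero_norm' ?_ hE
  have hmem : Ioo 0 1 ∈ 𝓝 ρ := Ioo_mem_nhds hρ hρ1
  filter_upwards [self_mem_nhdsWithin, mem_nhdsWithin_of_mem_nhds hmem] with r hne hr
  have hr0 : 0 < r := hr.1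
  have hr1 : r < 1 := hr.2
  have hΦr := hΦ0 r hr0
  rw [Real.norm_eq_abs, abs_mul, abs_mul, abs_of_nonneg (pow_nonneg hr0.le _),
    abs_of_nonneg hΦr, mul_assoc]
  refine mul_le_mul_of_nonneg_left ?_ (pow_nonneg hr0.le _)
  have hL : |LoA_Lf d Λ κ β γ r| ≤ κ / r + Λ * r * |γ r| / (d * |β r|) := by
    unfold LoA_Lf
    refine (abs_sub _ _).trans (le_of_eq ?_)
    rw [abs_div, abs_div, abs_mul, abs_mul, abs_mul, abs_of_nonneg hκ, abs_of_pos hr0,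
      abs_of_nonneg hΛ, abs_of_pos hd]
  have hq : 0 ≤ κ / r + Λ * r * |γ r| / (d * |β r|) := by positivity
  calc Φ r * |LoA_Lf d Λ κ β γ r| ≤ Φ r * (κ / r + Λ * r * |γ r| / (d * |β r|)) :=
        mul_le_mul_of_nonneg_left hL hΦr
    _ ≤ (M * (r - ρ) ^ 2) * (κ / r + Λ * r * |γ r| / (d * |β r|)) :=
        mul_le_mul_of_nonneg_right (h2 r hr0 hr1) hq
    _ = M * |r - ρ| * (κ / r * |r - ρ| + Λ * r * |γ r| / d * |(r - ρ) / β r|) := by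
        rw [abs_div, ← sq_abs (r - ρ)]
        rw [div_mul_eq_div_div]
        ring

theorem oneD (N k : ℕ) (hN : 2 ≤ N) (hk : k ≤ 2) (Φ Φ' D : ℝ → ℝ) (M δ : ℝ) (hM : 0 ≤ M)
    (hδ : 0 < δ) (hδ1 : δ < 1)
    (hΦ : ∀ r, 0 < r → HasDerivAt Φ (Φ' r) r) (hΦc : ContinuousOn Φ' (Set.Ioi 0))
    (hD : ContinuousOn D (Set.Ioi 0)) (hΦ0 : ∀ r, 0 < r → 0 ≤ Φ r) (hD0 : ∀ r, 0 < r → 0 ≤ D r)
    (hdisc : ∀ r, 0 < r → Φ' r ^ 2 ≤ 4 * Φ r * D r)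
    (hzero : ∀ r, 1 - δ ≤ r → Φ r = 0)
    (hbd : ∀ r, 0 < r → r < 1 → Φ r ≤ M ∧ D r ≤ M)
    (h1 : 1 ≤ k → ∀ r, 0 < r → r < 1 → Φ r ≤ M * r ^ 2)
    (h2 : k ≤ 1 → ∀ r, 0 < r → r < 1 →
      Φ r ≤ M * (r - √(bz (N + 2 * k) / bz (N + 4))) ^ 2) :
    0 ≤ ∫ r in (0 : ℝ)..1, r ^ (N - 1)
      * (D r + (k : ℝ) * (k + N - 2) * Φ r / r ^ 2 - bz (N + 4) * Φ r) := by
  have hN2 : (2 : ℝ) ≤ N := by exact_mod_cast hN
  have hk0 : (0 : ℝ) ≤ k := Nat.cast_nonneg k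
  obtain ⟨d, hdN⟩ : ∃ d : ℝ, d = N + 2 * k := ⟨_, rfl⟩
  obtain ⟨Λ, hΛN⟩ : ∃ Λ : ℝ, Λ = bz (N + 4) := ⟨_, rfl⟩
  have hd2 : 2 ≤ d := by rw [hdN]; linarith
  have hd0 : 0 < d := by linarith
  have hΛ : 0 < Λ := by rw [hΛN]; exact bz_pos _ (by linarith)
  have hbd0 : 0 < bz d := bz_pos d hd2
  have hb1 : bz N < bz (N + 2) := bz_lt N hN2
  have hb2 : bz (N + 2) < bz (N + 4) := by
    have := bz_lt ((N : ℝ) + 2) (by linarith)
    rwa [show (N : ℝ) + 2 + 2 = N + 4 by ring] at this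
  have hlt : k ≤ 1 → bz d < Λ := by
    intro hk1
    rw [hdN, hΛN]
    interval_cases k
    · simpa using hb1.trans hb2
    · simpa using hb2
  have hle : bz d ≤ Λ := by
    by_cases hk1 : k ≤ 1
    · exact (hlt hk1).le
    · have : k = 2 := by omega
      rw [hdN, hΛN, this]
      refine le_of_eq ?_
      congr 1
      push_cast
      ring
  have hneg : k ≤ 1 → ∀ s, bz d < s → s ≤ Λ → bj d s < 0 := by
    intro hk1 s hs1 hs2
    rw [hdN] at hs1 ⊢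
    rw [hΛN] at hs2
    interval_cases k
    · simp only [Nat.cast_zero, mul_zero, add_zero] at hs1 ⊢
      exact bj_neg2 N hN2 s hs1 hs2
    · simp only [Nat.cast_one, mul_one] at hs1 ⊢
      refine bj_neg1 (N + 2) (by linarith) s hs1 ?_
      rwa [show (N : ℝ) + 2 + 2 = N + 4 by ring]
  obtain ⟨ρ, hρN⟩ : ∃ ρ : ℝ, ρ = √(bz (N + 2 * k) / bz (N + 4)) := ⟨_, rfl⟩
  have hρ2 : ρ ^ 2 = bz d / Λ := by
    rw [hρN, hdN, hΛN, Real.sq_sqrt]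
    rw [← hdN, ← hΛN]
    positivity
  have hρ0 : 0 < ρ := by
    rw [hρN, ← hdN, ← hΛN]
    positivity
  have hΛρ : Λ * ρ ^ 2 = bz d := by
    rw [hρ2]; field_simp
  have hρ1 : ρ ≤ 1 := by
    have : ρ ^ 2 ≤ 1 := by rw [hρ2, div_le_one hΛ]; exact hle
    exact (sq_le_one_iff₀ hρ0.le).1 this
  have hρlt : k ≤ 1 → ρ < 1 := by
    intro hk1
    have : ρ ^ 2 < 1 := by rw [hρ2, div_lt_one hΛ]; exact hlt hk1
    exact (sq_lt_one_iff₀ hρ0.le).1 this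
  have hρ1k : ρ < 1 → k ≤ 1 := by
    intro h
    by_contra hk1
    have hk2 : k = 2 := by omega
    have : ρ = 1 := by
      rw [hρN, hk2]
      have e : (N : ℝ) + 2 * ((2 : ℕ) : ℝ) = N + 4 := by push_cast; ring
      rw [e, ← hΛN, div_self hΛ.ne', Real.sqrt_one]
    linarith
  rw [← hρN] at h2
  rw [← hΛN]
  -- the Bessel functions
  obtain ⟨β, hβe⟩ : ∃ β : ℝ → ℝ, β = fun r => bj d (Λ * r ^ 2) := ⟨_, rfl⟩
  obtain ⟨γ, hγe⟩ : ∃ γ : ℝ → ℝ, γ = fun r => bj (d + 2) (Λ * r ^ 2) := ⟨_, rfl⟩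
  have hin : ∀ r : ℝ, HasDerivAt (fun r : ℝ => Λ * r ^ 2) (Λ * (2 * r)) r := by
    intro r
    have := (hasDerivAt_pow 2 r).const_mul Λ
    exact this.congr_deriv (by norm_num)
  have hβ : ∀ r : ℝ, HasDerivAt β (-Λ * r * γ r / d) r := by
    intro r
    have := (hasDerivAt_bj d hd0 (Λ * r ^ 2)).comp r (hin r)
    rw [hβe, hγe]
    exact this.congr_deriv (by field_simp)
  have hγc : Continuous γ := by
    rw [hγe]
    have := (contDiff_bj (d + 2) (by linarith) 0).continuous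
    exact this.comp (by fun_prop)
  have hγ : ∀ r : ℝ, 0 < r → HasDerivAt γ (-d * (γ r - β r) / r) r := by
    intro r hr
    have := (hasDerivAt_bj (d + 2) (by linarith) (Λ * r ^ 2)).comp r (hin r)
    rw [hβe, hγe]
    have hc := bj_contig d hd0 (Λ * r ^ 2)
    refine this.congr_deriv ?_
    rw [show d + 2 + 2 = d + 4 by ring]
    have hc' : bj (d + 2) (Λ * r ^ 2) - bj d (Λ * r ^ 2) =
        Λ * r ^ 2 / (d * (d + 2)) * bj (d + 4) (Λ * r ^ 2) := by linarith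
    show _ = -d * (bj (d + 2) (Λ * r ^ 2) - bj d (Λ * r ^ 2)) / r
    rw [hc']
    have : d + 2 ≠ 0 := by linarith
    field_simp
  have hβpos : ∀ r, 0 ≤ r → r < ρ → 0 < β r := by
    intro r hr0 hr1
    rw [hβe]
    refine bj_pos d hd2 _ ?_
    rw [← hΛρ]
    have : r ^ 2 < ρ ^ 2 := by nlinarith
    exact mul_lt_mul_of_pos_left this hΛ
  have hβneg : k ≤ 1 → ∀ r, ρ < r → r < 1 → β r < 0 := by
    intro hk1 r hr0 hr1
    rw [hβe]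
    refine hneg hk1 _ ?_ ?_
    · rw [← hΛρ]
      have : ρ ^ 2 < r ^ 2 := by nlinarith
      exact mul_lt_mul_of_pos_left this hΛ
    · have : r ^ 2 ≤ 1 := by nlinarith
      nlinarith
  have hstep : ∀ a b, 0 < a → a ≤ b → (∀ r ∈ Icc a b, β r ≠ 0) →
      (b ^ (N - 1) * Φ b * LoA_Lf d Λ k β γ b) - (a ^ (N - 1) * Φ a * LoA_Lf d Λ k β γ a) ≤
      ∫ r in a..b, r ^ (N - 1) * (D r + (k : ℝ) * (k + N - 2) * Φ r / r ^ 2 - Λ * Φ r) :=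
    fun a b ha hab h0 => LoA_step N hN d Λ k β γ Φ Φ' D a b ha hab hd0.ne' hdN h0
      (fun r _ => hβ r) hγ hΦ hΦc hD hΦ0 hD0 hdisc
  have hIint : IntegrableOn (fun r : ℝ => r ^ (N - 1) *
      (D r + (k : ℝ) * (k + N - 2) * Φ r / r ^ 2 - Λ * Φ r)) (Icc 0 1) := by
    rw [integrableOn_Icc_iff_integrableOn_Ioo]
    have hcont : ContinuousOn (fun r : ℝ => r ^ (N - 1) *
        (D r + (k : ℝ) * (k + N - 2) * Φ r / r ^ 2 - Λ * Φ r)) (Ioo 0 1) := by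
      have hΦc' : ContinuousOn Φ (Ioo 0 1) := fun r hr =>
        (hΦ r hr.1).continuousAt.continuousWithinAt
      have hid : ContinuousOn (fun r : ℝ => r) (Ioo 0 1) := continuousOn_id
      refine (hid.pow _).mul (((hD.mono fun r hr => hr.1).add ?_).sub
        (continuousOn_const.mul hΦc'))
      exact (continuousOn_const.mul hΦc').div (hid.pow 2) fun r hr => pow_ne_zero _ hr.1.ne'
    refine IntegrableOn.of_bound (by simp) (hcont.aestronglyMeasurable measurableSet_Ioo)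
      (M + (k : ℝ) * (k + N - 2) * M + Λ * M) ?_
    refine (ae_restrict_iff' measurableSet_Ioo).2 (ae_of_all _ fun r hr => ?_)
    have hr0 : 0 < r := hr.1
    have hr1 : r < 1 := hr.2
    have hΦr := hΦ0 r hr0
    have hDr := hD0 r hr0
    have hb := hbd r hr0 hr1
    have hμ : 0 ≤ (k : ℝ) * (k + N - 2) := mul_nonneg hk0 (by linarith)
    have hfr : (k : ℝ) * (k + N - 2) * Φ r / r ^ 2 ≤ (k : ℝ) * (k + N - 2) * M := by
      by_cases hk1 : 1 ≤ k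
      · rw [div_le_iff₀ (by positivity), mul_assoc, mul_assoc, mul_assoc]
        have := h1 hk1 r hr0 hr1
        refine mul_le_mul_of_nonneg_left ?_ hk0
        exact mul_le_mul_of_nonneg_left this (by linarith)
      · have : k = 0 := by omega
        rw [this]
        simp
    have hfr0 : 0 ≤ (k : ℝ) * (k + N - 2) * Φ r / r ^ 2 := by positivity
    have hpow : |r ^ (N - 1)| ≤ 1 := by
      rw [abs_of_nonneg (pow_nonneg hr0.le _)]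
      exact pow_le_one₀ hr0.le hr1.le
    rw [Real.norm_eq_abs, abs_mul]
    have hin2 : |D r + (k : ℝ) * (k + N - 2) * Φ r / r ^ 2 - Λ * Φ r| ≤
        M + (k : ℝ) * (k + N - 2) * M + Λ * M := by
      have hΛΦ : 0 ≤ Λ * Φ r := mul_nonneg hΛ.le hΦr
      have hΛΦ' : Λ * Φ r ≤ Λ * M := mul_le_mul_of_nonneg_left hb.1 hΛ.le
      have hΛM : 0 ≤ Λ * M := mul_nonneg hΛ.le hM
      have hμM : 0 ≤ (k : ℝ) * (k + N - 2) * M := mul_nonneg hμ hM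
      rw [abs_le]
      constructor
      · linarith
      · linarith [hb.2]
    calc |r ^ (N - 1)| * |D r + (k : ℝ) * (k + N - 2) * Φ r / r ^ 2 - Λ * Φ r|
        ≤ 1 * (M + (k : ℝ) * (k + N - 2) * M + Λ * M) :=
          mul_le_mul hpow hin2 (abs_nonneg _) zero_le_one
      _ = _ := one_mul _
  have hβ0 : β 0 ≠ 0 := (hβpos 0 le_rfl hρ0).ne'
  have hone : ∀ r, 0 < r → r < 1 → (k : ℝ) * Φ r ≤ k * (M * r ^ 2) := by
    intro r hr0 hr1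
    by_cases hk1 : 1 ≤ k
    · exact mul_le_mul_of_nonneg_left (h1 hk1 r hr0 hr1) hk0
    · have : k = 0 := by omega
      rw [this]
      simp
  have hβρ : β ρ = 0 := by
    rw [hβe]
    show bj d (Λ * ρ ^ 2) = 0
    rw [hΛρ]
    exact bj_bz d hd2
  have hβ'ρ : -Λ * ρ * γ ρ / d ≠ 0 := by
    have hγρ : 0 < γ ρ := by
      rw [hγe]
      show 0 < bj (d + 2) (Λ * ρ ^ 2)
      rw [hΛρ]
      exact bj_pos (d + 2) (by linarith) _ (bz_lt d hd2)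
    have : Λ * ρ * γ ρ / d ≠ 0 := by positivity
    intro h0
    apply this
    have e : -Λ * ρ * γ ρ / d = -(Λ * ρ * γ ρ / d) := by ring
    rw [e] at h0
    exact neg_eq_zero.1 h0
  have ht1 : ρ < 1 → Tendsto (fun r => r ^ (N - 1) * Φ r * LoA_Lf d Λ k β γ r) (𝓝[≠] ρ) (𝓝 0) :=
    fun hρ' => LoA_t1 N d Λ k M ρ β γ Φ (-Λ * ρ * γ ρ / d) hd0 hΛ.le hk0 hρ0 hρ' hβρ (hβ ρ) hβ'ρ
      hγc.continuousAt hΦ0 (h2 (hρ1k hρ'))
  refine LoA_abs _ (fun r => r ^ (N - 1) * Φ r * LoA_Lf d Λ k β γ r) ρ δ hρ0 hρ1 hδ hIint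
    (fun a b ha hab hb => ?_) (fun a b ha hab hb => ?_) ?_ (fun h => ?_) (fun h => ?_)
    (fun r hr => ?_)
  · exact hstep a b ha hab fun r hr => (hβpos r (ha.le.trans hr.1) (hr.2.trans_lt hb)).ne'
  · exact hstep a b (hρ0.trans ha) hab fun r hr =>
      (hβneg (hρ1k ((ha.trans_le hab).trans hb)) r (ha.trans_le hr.1) (hr.2.trans_lt hb)).ne
  · exact LoA_t0 N hN d Λ k M ρ β γ Φ hd0 hΛ.le hk0 hρ0 hρ1 hβ0 (hβ 0).continuousAt
      hγc.continuousAt hΦ0 (fun r h0 h1' => (hbd r h0 h1').1) hone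
  · exact (ht1 h).mono_left (nhdsWithin_mono _ fun x hx => hx.2.ne)
  · exact (ht1 h).mono_left (nhdsWithin_mono _ fun x hx => hx.1.ne')
  · simp only [hzero r hr, mul_zero, zero_mul]

end Pool.Agent.H94.ER
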