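import Pool.Agent.H94.ER.SpF
import Pool.Agent.H94.ER.LoA

/-!
# LoB: positivity of `energy u - bz (N+4) mass u` on a space of codimension `N + 1`

`u ∈ C^1_c(B)`, `B` the unit ball, `r_k = √(bz (N+2k)/bz (N+4))`, with
`sph (u(r_0 ·)) = 0` and `sph (u(r_1 ·) x_i) = 0` for all `i`. Then `energy u ≥ bz (N+4) mass u`.

Proof. `σ = sph 1`; for `r > 0`: `f_r x = u (r x)`, `g_r x = ∑ x_i pd i u (r x)` (on the sphere: radial derivative),
`a0 = sph f_r/σ`, `a_i = N sph (f_r x_i)/σ`, `b0 = sph g_r/σ = a0'`, `b_i = N sph (g_r x_i)/σ = a_i'` (differentiation under the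
integral, `∂_r u(r x) = g_r x`). Set
`Φ0 = σ a0^2`, `D0 = σ b0^2`; `Φ1 = (σ/N) ∑ a_i^2`, `D1 = (σ/N) ∑ b_i^2`; `Φ2 = sph f_r^2 - Φ0 - Φ1`, `D2 = sph g_r^2 - D0 - D1`.
`Φ2 = sph (f_r - a0 - ∑ a_i x_i)^2 ≥ 0`, `D2 = sph (g_r - b0 - ∑ b_i x_i)^2 ≥ 0`,
`Φ2' = 2 sph ((f_r - a0 - ∑a_i x_i)(g_r - b0 - ∑ b_i x_i))`, so `Φ2'^2 ≤ 4 Φ2 D2` (`sph_cs`); the same for `Φ1`, `Φ0` (for `Φ1`
Cauchy-Schwarz for sums).
By `lagrange` at the point `r x`, `‖x‖ = 1`: `dot u u (r x) = (g_r x)^2 + (1/(2r^2)) ∑_ij (Lr i j u (r x))^2`, and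
`Lr i j u (r x) = Lr i j f_r x` (`Lr_scale`); with `gap_full` for `f_r`:
`sph (dot u u (r ·)) ≥ D0 + D1 + D2 + (N-1) Φ1/r^2 + 2N Φ2/r^2`, `sph (u(r·)^2) = Φ0 + Φ1 + Φ2`.
Integrate against `r^(N-1)` (`polar`; everything vanishes for `r ≥ 1 - δ`) and apply `oneD` for `k = 0,1,2` (`μ_0 = 0`,
`μ_1 = N-1`, `μ_2 = 2N`). Hypotheses of `oneD`: `Φ0 = Φ1 = Φ2 = 0` for `r ≥ 1-δ` (compact support in the open ball);
bounds from `|f_r|, |g_r| ≤ const`; `Φ1, Φ2 ≤ M r^2` because `f_r(x) - u(0) = O(r)` and constants are orthogonal to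
the `x_i` and are removed in `Φ2` (`Φ2 ≤ sph (f_r - u(0))^2`, `Φ1 ≤ sph (f_r - u 0)^2`); `Φ0 ≤ M (r-r_0)^2`, `Φ1 ≤ M (r-r_1)^2` because
`a0(r_0) = 0`, `a_i(r_1) = 0` and `a0, a_i` are Lipschitz.
-/

set_option autoImplicit false

open MeasureTheory

namespace Pool.Agent.H94.ER

variable {N : ℕ}

theorem LoB_integrable (F : E N → ℝ) (hF : Continuous F) :
    Integrable (fun ω : Metric.sphere (0 : E N) 1 => F ω) (volume : Measure (E N)).toSphere := by
  have h : Continuous (fun ω : Metric.sphere (0 : E N) 1 => F ω) := hF.comp continuous_subtype_val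
  exact h.integrable_of_hasCompactSupport (HasCompactSupport.of_compactSpace _)

/-- differentiation under the integral over the sphere -/
theorem LoB_deriv_sph (F F' : ℝ → E N → ℝ) (hF : ∀ r, Continuous (F r))
    (hF' : Continuous (fun p : ℝ × E N => F' p.1 p.2))
    (hd : ∀ r x, HasDerivAt (fun r => F r x) (F' r x) r) (r : ℝ) :
    HasDerivAt (fun r => sph (F r)) (sph (F' r)) r := by
  obtain ⟨C, hC⟩ : ∃ C, ∀ p ∈ (Metric.closedBall r 1 ×ˢ Metric.sphere (0 : E N) 1),
      ‖F' p.1 p.2‖ ≤ C := by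
    apply IsCompact.exists_bound_of_continuousOn
    · exact (isCompact_closedBall r 1).prod (isCompact_sphere 0 1)
    · exact hF'.continuousOn
  have hF'c : ∀ s, Continuous (F' s) := fun s =>
    hF'.comp (Continuous.prodMk continuous_const continuous_id)
  refine (hasDerivAt_integral_of_dominated_loc_of_deriv_le
    (F := fun r (ω : Metric.sphere (0 : E N) 1) => F r ω)
    (F' := fun r (ω : Metric.sphere (0 : E N) 1) => F' r ω) (x₀ := r) (s := Metric.ball r 1)
    (bound := fun _ => C) (μ := (volume : Measure (E N)).toSphere)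
    (Metric.ball_mem_nhds r one_pos) ?_ ?_ ?_ ?_ ?_ ?_).2
  · exact Filter.Eventually.of_forall (fun s => (LoB_integrable (F s) (hF s)).aestronglyMeasurable)
  · exact LoB_integrable (F r) (hF r)
  · exact (LoB_integrable (F' r) (hF'c r)).aestronglyMeasurable
  · refine Filter.Eventually.of_forall (fun ω s hs => ?_)
    exact hC (s, ω) ⟨Metric.ball_subset_closedBall hs, ω.2⟩
  · exact integrable_const C
  · exact Filter.Eventually.of_forall (fun ω s _ => hd s ω)

theorem LoB_coord_cont (i : Fin N) : Continuous (fun x : E N => x i) := by fun_prop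

theorem LoB_sph_coord (hN : 2 ≤ N) (i : Fin N) : sph (fun x : E N => x i) = 0 :=
  sph_odd (by omega) _ (LoB_coord_cont i) (fun x => by simp)

theorem LoB_add3 (A B C : E N → ℝ) (hA : Continuous A) (hB : Continuous B) (hC : Continuous C)
    (b c : ℝ) : sph (fun x => (A x + b * B x) + c * C x) = sph A + b * sph B + c * sph C := by
  rw [sph_add (fun x => A x + b * B x) (fun x => c * C x) (hA.add (continuous_const.mul hB))
    (continuous_const.mul hC), sph_add A (fun x => b * B x) hA (continuous_const.mul hB),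
    sph_smul, sph_smul]

/-- first three components of `sph (P Q)` -/
theorem LoB_bilin (hN : 2 ≤ N) (p q : E N → ℝ) (hp : Continuous p) (hq : Continuous q)
    (σ p0 q0 : ℝ) (pi qi : Fin N → ℝ) (hσ : σ = sph (fun _ : E N => (1 : ℝ)))
    (hp0 : sph p = σ * p0) (hq0 : sph q = σ * q0)
    (hpi : ∀ i, sph (fun x => p x * x i) = σ / N * pi i)
    (hqi : ∀ i, sph (fun x => q x * x i) = σ / N * qi i) :
    sph (fun x => (p x - p0 - ∑ i, pi i * x i) * (q x - q0 - ∑ i, qi i * x i))
      = sph (fun x => p x * q x) - σ * (p0 * q0) - σ / N * ∑ i, pi i * qi i := by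
  have hN1 : 1 ≤ N := by omega
  have hNr : (N : ℝ) ≠ 0 := by positivity
  have hc1 : ∀ (c : ℝ) (F : E N → ℝ), Continuous F → Continuous (fun x => c * F x) :=
    fun c F hF => continuous_const.mul hF
  have hxi : ∀ i, Continuous (fun x : E N => x i) := fun i => LoB_coord_cont i
  have hsum : ∀ a : Fin N → ℝ, Continuous (fun x : E N => ∑ i, a i * x i) := by
    intro a
    exact continuous_finsetSum _ (fun i _ => hc1 _ _ (hxi i))
  -- orthogonality of Q
  have hQ : Continuous (fun x => q x - q0 - ∑ i, qi i * x i) :=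
    (hq.sub continuous_const).sub (hsum qi)
  have hsumsph : ∀ (a : Fin N → ℝ) (F : E N → ℝ), Continuous F →
      sph (fun x => ∑ i, a i * (F x * x i)) = ∑ i, a i * sph (fun x => F x * x i) := by
    intro a F hF
    rw [sph_sum Finset.univ (fun i x => a i * (F x * x i)) (fun i _ => hc1 _ _ (hF.mul (hxi i)))]
    apply Finset.sum_congr rfl
    intro i _
    exact sph_smul _ _
  have key : ∀ (F : E N → ℝ), Continuous F →
      sph (fun x => F x * (q x - q0 - ∑ i, qi i * x i))
        = sph (fun x => F x * q x) - q0 * sph F - ∑ i, qi i * sph (fun x => F x * x i) := by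
    intro F hF
    have e1 : (fun x => F x * (q x - q0 - ∑ i, qi i * x i))
        = fun x => (F x * q x + (-q0) * F x) + (-1) * ∑ i, qi i * (F x * x i) := by
      funext x
      have : ∑ i, qi i * (F x * x i) = F x * ∑ i, qi i * x i := by
        rw [Finset.mul_sum]
        apply Finset.sum_congr rfl
        intro i _
        ring
      rw [this]
      ring
    rw [e1, LoB_add3 (fun x => F x * q x) F (fun x => ∑ i, qi i * (F x * x i)) (hF.mul hq) hF
      (continuous_finsetSum _ (fun i _ => hc1 _ _ (hF.mul (hxi i)))), hsumsph _ _ hF]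
    ring
  have k1 : sph (fun x => q x - q0 - ∑ i, qi i * x i) = 0 := by
    have := key (fun _ => 1) continuous_const
    simp only [one_mul] at this
    rw [this]
    rw [← hσ]
    have h0 : ∀ i, sph (fun x : E N => x i) = 0 := LoB_sph_coord hN
    simp only [h0, mul_zero, Finset.sum_const_zero]
    change sph q - _ - 0 = 0
    rw [hq0]
    ring
  have k2 : ∀ j, sph (fun x => x j * (q x - q0 - ∑ i, qi i * x i)) = 0 := by
    intro j
    rw [key (fun x => x j) (hxi j)]
    have h0 : sph (fun x : E N => x j) = 0 := LoB_sph_coord hN j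
    have h1 : (fun x : E N => x j * q x) = fun x => q x * x j := by
      funext x
      ring
    rw [h1, hqi, h0]
    have h2 : ∀ i, sph (fun x : E N => x j * x i) = if j = i then σ / N else 0 := by
      intro i
      rw [sph_coord_mul hN1, hσ]
    simp only [h2, mul_ite, mul_zero]
    rw [Finset.sum_ite_eq]
    simp
    ring
  have e2 : (fun x => (p x - p0 - ∑ i, pi i * x i) * (q x - q0 - ∑ i, qi i * x i))
      = fun x => (p x * (q x - q0 - ∑ i, qi i * x i) + (-p0) * (q x - q0 - ∑ i, qi i * x i))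
        + (-1) * ∑ i, pi i * ((q x - q0 - ∑ i, qi i * x i) * x i) := by
    funext x
    have : ∑ i, pi i * ((q x - q0 - ∑ i, qi i * x i) * x i)
        = (∑ i, pi i * x i) * (q x - q0 - ∑ i, qi i * x i) := by
      rw [Finset.sum_mul]
      apply Finset.sum_congr rfl
      intro i _
      ring
    rw [this]
    ring
  rw [e2, LoB_add3 (fun x => p x * (q x - q0 - ∑ i, qi i * x i))
      (fun x => q x - q0 - ∑ i, qi i * x i)
      (fun x => ∑ i, pi i * ((q x - q0 - ∑ i, qi i * x i) * x i)) (hp.mul hQ) hQ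
      (continuous_finsetSum _ (fun i _ => hc1 _ _ (hQ.mul (hxi i)))), hsumsph _ _ hQ, k1]
  have k3 : ∀ j, sph (fun x => (q x - q0 - ∑ i, qi i * x i) * x j) = 0 := by
    intro j
    rw [← k2 j]
    congr 1
    funext x
    ring
  simp only [k3, mul_zero, Finset.sum_const_zero]
  rw [key p hp, hp0]
  simp only [hpi]
  have : ∑ i, qi i * (σ / N * pi i) = σ / N * ∑ i, pi i * qi i := by
    rw [Finset.mul_sum]
    apply Finset.sum_congr rfl
    intro i _
    ring
  rw [this]
  ring

theorem LoB_sph_nonneg (F : E N → ℝ) (h : ∀ x, 0 ≤ F x) : 0 ≤ sph F :=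
  integral_nonneg (fun ω => h ω)

/-- Bessel's inequality on the sphere -/
theorem LoB_bessel (hN : 2 ≤ N) (p : E N → ℝ) (hp : Continuous p)
    (σ p0 : ℝ) (pi : Fin N → ℝ) (hσ : σ = sph (fun _ : E N => (1 : ℝ)))
    (hp0 : sph p = σ * p0)
    (hpi : ∀ i, sph (fun x => p x * x i) = σ / N * pi i) :
    σ * p0 ^ 2 + σ / N * ∑ i, pi i ^ 2 ≤ sph (fun x => p x ^ 2) := by
  have h := LoB_bilin hN p p hp hp σ p0 p0 pi pi hσ hp0 hp0 hpi hpi
  have h2 : 0 ≤ sph (fun x => (p x - p0 - ∑ i, pi i * x i) * (p x - p0 - ∑ i, pi i * x i)) :=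
    LoB_sph_nonneg _ (fun x => mul_self_nonneg _)
  have e1 : (fun x => p x * p x) = fun x => p x ^ 2 := by
    funext x
    ring
  have e2 : ∑ i, pi i * pi i = ∑ i, pi i ^ 2 := by
    apply Finset.sum_congr rfl
    intro i _
    ring
  rw [h, e1, e2] at h2
  nlinarith


theorem LoB_intble (M κ Λ : ℝ) (Φ D : ℝ → ℝ) (hκ : 0 ≤ κ)
    (hΦ : Continuous Φ) (hD : Continuous D) (h0 : ∀ r, 0 ≤ Φ r)
    (h1 : ∀ r, 0 < r → r < 1 → κ * Φ r ≤ M * r ^ 2) :
    IntervalIntegrable (fun r => r ^ (N - 1) * (D r + κ * Φ r / r ^ 2 - Λ * Φ r)) volume 0 1 := by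
  have e : (fun r => r ^ (N - 1) * (D r + κ * Φ r / r ^ 2 - Λ * Φ r))
      = fun r => r ^ (N - 1) * (D r - Λ * Φ r) + r ^ (N - 1) * (κ * Φ r / r ^ 2) := by
    funext r
    ring
  rw [e]
  apply IntervalIntegrable.add
  · apply Continuous.intervalIntegrable
    fun_prop
  · rw [intervalIntegrable_iff_integrableOn_Ioo_of_le zero_le_one]
    apply Measure.integrableOn_of_bounded (M := M)
    · simp
    · apply Measurable.aestronglyMeasurable
      have := hΦ.measurable
      fun_prop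
    · filter_upwards [ae_restrict_mem measurableSet_Ioo] with r hr
      obtain ⟨hr0, hr1⟩ := hr
      have hκΦ : 0 ≤ κ * Φ r := mul_nonneg hκ (h0 r)
      have h3 : κ * Φ r / r ^ 2 ≤ M := by
        rw [div_le_iff₀ (by positivity)]
        exact h1 r hr0 hr1
      have h4 : 0 ≤ κ * Φ r / r ^ 2 := by positivity
      rw [Real.norm_of_nonneg (mul_nonneg (by positivity) h4)]
      calc r ^ (N - 1) * (κ * Φ r / r ^ 2) ≤ 1 * (κ * Φ r / r ^ 2) := by
            apply mul_le_mul_of_nonneg_right _ h4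
            exact pow_le_one₀ hr0.le hr1.le
        _ ≤ M := by linarith

theorem LoB_abs (hN : 2 ≤ N) (σ M δ : ℝ) (hδ : 0 < δ) (hδ1 : δ < 1)
    (a0 b0 S G m En : ℝ → ℝ) (a b : Fin N → ℝ → ℝ) (hσ : 0 < σ)
    (ha0 : ∀ r, HasDerivAt a0 (b0 r) r) (ha : ∀ i r, HasDerivAt (a i) (b i r) r)
    (hS : ∀ r, HasDerivAt S (2 * m r) r)
    (hb0c : Continuous b0) (hbc : ∀ i, Continuous (b i)) (hmc : Continuous m)
    (hGc : Continuous G) (hEc : Continuous En)
    (hcs : ∀ r, (m r - σ * (a0 r * b0 r) - σ / N * ∑ i, a i r * b i r) ^ 2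
      ≤ (S r - σ * a0 r ^ 2 - σ / N * ∑ i, a i r ^ 2)
        * (G r - σ * b0 r ^ 2 - σ / N * ∑ i, b i r ^ 2))
    (hSp : ∀ r, σ * a0 r ^ 2 + σ / N * ∑ i, a i r ^ 2 ≤ S r)
    (hGp : ∀ r, σ * b0 r ^ 2 + σ / N * ∑ i, b i r ^ 2 ≤ G r)
    (hSM : ∀ r, S r ≤ M) (hGM : ∀ r, G r ≤ M)
    (hzS : ∀ r, 1 - δ ≤ r → S r = 0)
    (h0 : ∀ r, σ * a0 r ^ 2 ≤ M * (r - √(bz N / bz (N + 4))) ^ 2)
    (h1 : ∀ r, σ / N * ∑ i, a i r ^ 2 ≤ M * (r - √(bz (N + 2) / bz (N + 4))) ^ 2)
    (h2 : ∀ r, 0 < r → S r - σ * a0 r ^ 2 ≤ M * r ^ 2)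
    (hEn : ∀ r, 0 < r → G r + ((N - 1) * (σ / N * ∑ i, a i r ^ 2)
      + 2 * N * (S r - σ * a0 r ^ 2 - σ / N * ∑ i, a i r ^ 2)) / r ^ 2 ≤ En r) :
    bz (N + 4) * (∫ r in (0 : ℝ)..1, r ^ (N - 1) * S r)
      ≤ ∫ r in (0 : ℝ)..1, r ^ (N - 1) * En r := by
  have hNr : (0 : ℝ) < N := by
    have : 0 < N := by omega
    exact_mod_cast this
  have hN2 : (2 : ℝ) ≤ N := by exact_mod_cast hN
  have hM : 0 ≤ M := by
    have h3 := hSp 1
    have h4 := hSM 1
    have h5 : 0 ≤ σ * a0 1 ^ 2 := by positivity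
    have h6 : 0 ≤ σ / N * ∑ i, a i 1 ^ 2 :=
      mul_nonneg (by positivity) (Finset.sum_nonneg (fun i _ => sq_nonneg _))
    linarith
  have hac : ∀ i, Continuous (a i) := fun i =>
    continuous_iff_continuousAt.2 (fun r => (ha i r).continuousAt)
  have ha0c : Continuous a0 := continuous_iff_continuousAt.2 (fun r => (ha0 r).continuousAt)
  have hSc : Continuous S := continuous_iff_continuousAt.2 (fun r => (hS r).continuousAt)
  have hcsq : ∀ (c : Fin N → ℝ → ℝ), (∀ i, Continuous (c i)) →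
      Continuous (fun r => ∑ i, c i r ^ 2) := fun c hc =>
    continuous_finsetSum _ (fun i _ => (hc i).pow 2)
  obtain ⟨Φ0, hΦ0⟩ : ∃ Φ0 : ℝ → ℝ, Φ0 = fun r => σ * a0 r ^ 2 := ⟨_, rfl⟩
  obtain ⟨Φ1, hΦ1⟩ : ∃ Φ1 : ℝ → ℝ, Φ1 = fun r => σ / N * ∑ i, a i r ^ 2 := ⟨_, rfl⟩
  obtain ⟨Φ2, hΦ2⟩ : ∃ Φ2 : ℝ → ℝ,
    Φ2 = fun r => S r - σ * a0 r ^ 2 - σ / N * ∑ i, a i r ^ 2 := ⟨_, rfl⟩
  obtain ⟨D0, hD0⟩ : ∃ D0 : ℝ → ℝ, D0 = fun r => σ * b0 r ^ 2 := ⟨_, rfl⟩
  obtain ⟨D1, hD1⟩ : ∃ D1 : ℝ → ℝ, D1 = fun r => σ / N * ∑ i, b i r ^ 2 := ⟨_, rfl⟩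
  obtain ⟨D2, hD2⟩ : ∃ D2 : ℝ → ℝ,
    D2 = fun r => G r - σ * b0 r ^ 2 - σ / N * ∑ i, b i r ^ 2 := ⟨_, rfl⟩
  have pΦ0 : ∀ r, 0 ≤ Φ0 r := fun r => by rw [hΦ0]; positivity
  have pD0 : ∀ r, 0 ≤ D0 r := fun r => by rw [hD0]; positivity
  have pΦ1 : ∀ r, 0 ≤ Φ1 r := fun r => by
    rw [hΦ1]
    exact mul_nonneg (by positivity) (Finset.sum_nonneg (fun i _ => sq_nonneg _))
  have pD1 : ∀ r, 0 ≤ D1 r := fun r => by
    rw [hD1]
    exact mul_nonneg (by positivity) (Finset.sum_nonneg (fun i _ => sq_nonneg _))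
  have pΦ2 : ∀ r, 0 ≤ Φ2 r := fun r => by
    rw [hΦ2]
    have := hSp r
    simp only
    linarith
  have pD2 : ∀ r, 0 ≤ D2 r := fun r => by
    rw [hD2]
    have := hGp r
    simp only
    linarith
  have sΦ : ∀ r, Φ0 r + Φ1 r + Φ2 r = S r := fun r => by
    rw [hΦ0, hΦ1, hΦ2]
    ring
  have sD : ∀ r, D0 r + D1 r + D2 r = G r := fun r => by
    rw [hD0, hD1, hD2]
    ring
  have cΦ0 : Continuous Φ0 := by rw [hΦ0]; fun_prop
  have cD0 : Continuous D0 := by rw [hD0]; fun_prop
  have cΦ1 : Continuous Φ1 := by rw [hΦ1]; exact continuous_const.mul (hcsq a hac)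
  have cD1 : Continuous D1 := by rw [hD1]; exact continuous_const.mul (hcsq b hbc)
  have cΦ2 : Continuous Φ2 := by
    rw [hΦ2]
    exact (hSc.sub (continuous_const.mul (ha0c.pow 2))).sub (continuous_const.mul (hcsq a hac))
  have cD2 : Continuous D2 := by
    rw [hD2]
    exact (hGc.sub (continuous_const.mul (hb0c.pow 2))).sub (continuous_const.mul (hcsq b hbc))
  have cab : Continuous (fun r => ∑ i, a i r * b i r) :=
    continuous_finsetSum _ (fun i _ => (hac i).mul (hbc i))
  have dΦ0 : ∀ r, HasDerivAt Φ0 (2 * (σ * (a0 r * b0 r))) r := fun r => by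
    rw [hΦ0]
    have := ((ha0 r).pow 2).const_mul σ
    refine this.congr_deriv ?_
    simp
    ring
  have dΦ1 : ∀ r, HasDerivAt Φ1 (2 * (σ / N * ∑ i, a i r * b i r)) r := fun r => by
    rw [hΦ1]
    have h3 : HasDerivAt (fun r => ∑ i, a i r ^ 2) (∑ i, 2 * (a i r * b i r)) r := by
      apply HasDerivAt.fun_sum
      intro i _
      refine ((ha i r).pow 2).congr_deriv ?_
      simp
      ring
    refine (h3.const_mul (σ / N)).congr_deriv ?_
    rw [← Finset.mul_sum]
    ring
  have dΦ2 : ∀ r, HasDerivAt Φ2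
      (2 * (m r - σ * (a0 r * b0 r) - σ / N * ∑ i, a i r * b i r)) r := fun r => by
    have h3 := ((hS r).sub (dΦ0 r)).sub (dΦ1 r)
    have e : Φ2 = S - Φ0 - Φ1 := by
      rw [hΦ2, hΦ0, hΦ1]
      rfl
    rw [e]
    refine h3.congr_deriv ?_
    ring
  have zΦ : ∀ r, 1 - δ ≤ r → Φ0 r = 0 ∧ Φ1 r = 0 ∧ Φ2 r = 0 := fun r hr => by
    have h3 := sΦ r
    rw [hzS r hr] at h3
    have h4 := pΦ0 r
    have h5 := pΦ1 r
    have h6 := pΦ2 r
    exact ⟨by linarith, by linarith, by linarith⟩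
  have bΦ : ∀ r, Φ0 r ≤ M ∧ Φ1 r ≤ M ∧ Φ2 r ≤ M := fun r => by
    have h3 := sΦ r
    have h4 := pΦ0 r
    have h5 := pΦ1 r
    have h6 := pΦ2 r
    have h7 := hSM r
    exact ⟨by linarith, by linarith, by linarith⟩
  have bD : ∀ r, D0 r ≤ M ∧ D1 r ≤ M ∧ D2 r ≤ M := fun r => by
    have h3 := sD r
    have h4 := pD0 r
    have h5 := pD1 r
    have h6 := pD2 r
    have h7 := hGM r
    exact ⟨by linarith, by linarith, by linarith⟩
  have q1 : ∀ r, 0 < r → Φ1 r ≤ M * r ^ 2 := fun r hr => by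
    have h3 := h2 r hr
    have h4 := pΦ2 r
    have h5 := sΦ r
    have h6 : Φ0 r = σ * a0 r ^ 2 := by rw [hΦ0]
    linarith
  have q2 : ∀ r, 0 < r → Φ2 r ≤ M * r ^ 2 := fun r hr => by
    have h3 := h2 r hr
    have h4 := pΦ1 r
    have h5 := sΦ r
    have h6 : Φ0 r = σ * a0 r ^ 2 := by rw [hΦ0]
    linarith
  have I0 := oneD N 0 hN (by norm_num) Φ0 (fun r => 2 * (σ * (a0 r * b0 r))) D0 M δ hM hδ hδ1
    (fun r _ => dΦ0 r) (by fun_prop) cD0.continuousOn (fun r _ => pΦ0 r) (fun r _ => pD0 r)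
    (fun r _ => by
      rw [hΦ0, hD0]
      simp only
      nlinarith)
    (fun r hr => (zΦ r hr).1) (fun r _ _ => ⟨(bΦ r).1, (bD r).1⟩)
    (fun h => by omega)
    (fun _ r _ _ => by
      have := h0 r
      rw [hΦ0]
      simpa using this)
  have I1 := oneD N 1 hN (by norm_num) Φ1 (fun r => 2 * (σ / N * ∑ i, a i r * b i r)) D1 M δ hM
    hδ hδ1
    (fun r _ => dΦ1 r) (continuous_const.mul (continuous_const.mul cab)).continuousOn
    cD1.continuousOn (fun r _ => pΦ1 r) (fun r _ => pD1 r)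
    (fun r _ => by
      rw [hΦ1, hD1]
      have h3 := Finset.sum_mul_sq_le_sq_mul_sq Finset.univ (fun i => a i r) (fun i => b i r)
      have h4 : (0 : ℝ) ≤ (σ / N) ^ 2 := by positivity
      have h5 := mul_le_mul_of_nonneg_left h3 h4
      simp only at h5 ⊢
      nlinarith)
    (fun r hr => (zΦ r hr).2.1) (fun r _ _ => ⟨(bΦ r).2.1, (bD r).2.1⟩)
    (fun _ r hr _ => q1 r hr)
    (fun _ r _ _ => by
      have := h1 r
      rw [hΦ1]
      simpa using this)
  have I2 := oneD N 2 hN (by norm_num) Φ2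
    (fun r => 2 * (m r - σ * (a0 r * b0 r) - σ / N * ∑ i, a i r * b i r)) D2 M δ hM
    hδ hδ1
    (fun r _ => dΦ2 r)
    (continuous_const.mul ((hmc.sub (continuous_const.mul (ha0c.mul hb0c))).sub
      (continuous_const.mul cab))).continuousOn
    cD2.continuousOn (fun r _ => pΦ2 r) (fun r _ => pD2 r)
    (fun r _ => by
      rw [hΦ2, hD2]
      have h3 := hcs r
      simp only at h3 ⊢
      nlinarith)
    (fun r hr => (zΦ r hr).2.2) (fun r _ _ => ⟨(bΦ r).2.2, (bD r).2.2⟩)
    (fun _ r hr _ => q2 r hr)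
    (fun h => by omega)
  have J0 := LoB_intble (N := N) 0 (((0 : ℕ) : ℝ) * (((0 : ℕ) : ℝ) + N - 2)) (bz (N + 4)) Φ0 D0
    (by simp) cΦ0 cD0 pΦ0 (fun r _ _ => by simp)
  have J1 := LoB_intble (N := N) ((((1 : ℕ) : ℝ) * (((1 : ℕ) : ℝ) + N - 2)) * M)
    (((1 : ℕ) : ℝ) * (((1 : ℕ) : ℝ) + N - 2)) (bz (N + 4)) Φ1 D1
    (by push_cast; linarith) cΦ1 cD1 pΦ1 (fun r hr _ => by
      rw [mul_assoc _ M]
      exact mul_le_mul_of_nonneg_left (q1 r hr) (by push_cast; linarith))
  have J2 := LoB_intble (N := N) ((((2 : ℕ) : ℝ) * (((2 : ℕ) : ℝ) + N - 2)) * M)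
    (((2 : ℕ) : ℝ) * (((2 : ℕ) : ℝ) + N - 2)) (bz (N + 4)) Φ2 D2
    (by push_cast; linarith) cΦ2 cD2 pΦ2 (fun r hr _ => by
      rw [mul_assoc _ M]
      exact mul_le_mul_of_nonneg_left (q2 r hr) (by push_cast; linarith))
  have hI := intervalIntegral.integral_add (J0.add J1) J2
  have hI' := intervalIntegral.integral_add J0 J1
  have hJ := (J0.add J1).add J2
  have hSi : IntervalIntegrable (fun r => r ^ (N - 1) * S r) volume 0 1 := by
    apply Continuous.intervalIntegrable
    fun_prop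
  have hEi : IntervalIntegrable (fun r => r ^ (N - 1) * En r) volume 0 1 := by
    apply Continuous.intervalIntegrable
    fun_prop
  have hdiff : (∫ r in (0 : ℝ)..1, (r ^ (N - 1) * En r - bz (N + 4) * (r ^ (N - 1) * S r)))
      = (∫ r in (0 : ℝ)..1, r ^ (N - 1) * En r)
        - bz (N + 4) * ∫ r in (0 : ℝ)..1, r ^ (N - 1) * S r := by
    rw [intervalIntegral.integral_sub hEi (hSi.const_mul _), intervalIntegral.integral_const_mul]
  have hmono := intervalIntegral.integral_mono_on_of_le_Ioo zero_le_one hJ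
    (hEi.sub (hSi.const_mul (bz (N + 4)))) (fun r hr => ?_)
  · linarith
  · obtain ⟨hr0, hr1⟩ := hr
    have h3 := hEn r hr0
    have h4 : 0 ≤ r ^ (N - 1) := by positivity
    have h5 := mul_le_mul_of_nonneg_left h3 h4
    have e1 : Φ1 r = σ / N * ∑ i, a i r ^ 2 := by rw [hΦ1]
    have e2 : Φ2 r = S r - σ * a0 r ^ 2 - σ / N * ∑ i, a i r ^ 2 := by rw [hΦ2]
    rw [← e2, ← e1] at h5
    have e3 := sΦ r
    have e4 := sD r
    have hr2 : r ^ 2 ≠ 0 := by positivity
    have e5 : r ^ (N - 1) * (G r + ((N - 1) * Φ1 r + 2 * N * Φ2 r) / r ^ 2)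
        = r ^ (N - 1) * (D0 r + ((0 : ℕ) : ℝ) * (((0 : ℕ) : ℝ) + N - 2) * Φ0 r / r ^ 2)
          + r ^ (N - 1) * (D1 r + ((1 : ℕ) : ℝ) * (((1 : ℕ) : ℝ) + N - 2) * Φ1 r / r ^ 2)
          + r ^ (N - 1) * (D2 r + ((2 : ℕ) : ℝ) * (((2 : ℕ) : ℝ) + N - 2) * Φ2 r / r ^ 2) := by
      rw [← e4]
      push_cast
      ring
    rw [e5] at h5
    rw [← e3]
    nlinarith


theorem LoB_sph_sub (F G : E N → ℝ) (hF : Continuous F) (hG : Continuous G) :
    sph (fun x => F x - G x) = sph F - sph G := by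
  have e : (fun x => F x - G x) = fun x => F x + (-1) * G x := by
    funext x
    ring
  rw [e, sph_add F (fun x => (-1) * G x) hF (continuous_const.mul hG), sph_smul]
  ring

theorem LoB_sph_le (F : E N → ℝ) (hF : Continuous F) (C : ℝ) (h : ∀ x, ‖x‖ = 1 → F x ≤ C) :
    sph F ≤ C * sph (fun _ : E N => (1 : ℝ)) := by
  rw [← sph_smul]
  exact sph_mono F _ hF continuous_const (fun x hx => by
    have := h x hx
    linarith)

theorem LoB_margin (u : E N → ℝ) (h2 : HasCompactSupport u)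
    (h3 : tsupport u ⊆ Metric.ball (0 : E N) 1) :
    ∃ δ : ℝ, 0 < δ ∧ δ < 1 ∧ ∀ y : E N, 1 - δ ≤ ‖y‖ → y ∉ tsupport u := by
  rcases (tsupport u).eq_empty_or_nonempty with he | hne
  · exact ⟨1 / 2, by norm_num, by norm_num, fun y _ => by simp [he]⟩
  · obtain ⟨z, hz, hmax⟩ := IsCompact.exists_isMaxOn h2.isCompact hne continuous_norm.continuousOn
    have hz1 : ‖z‖ < 1 := by simpa using h3 hz
    have hz0 : 0 ≤ ‖z‖ := norm_nonneg z
    refine ⟨(1 - ‖z‖) / 2, by linarith, by linarith, fun y hy hyt => ?_⟩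
    have := hmax hyt
    simp only [Set.mem_ofPred_eq] at this
    linarith

theorem LoB_tail (h : ℝ → ℝ) (hz : ∀ r, 1 ≤ r → h r = 0) :
    ∫ r in Set.Ioi (0 : ℝ), h r = ∫ r in (0 : ℝ)..1, h r := by
  rw [intervalIntegral.integral_of_le zero_le_one]
  apply setIntegral_eq_of_subset_of_forall_sdiff_eq_zero measurableSet_Ioi Set.Ioc_subset_Ioi_self
  intro r hr
  apply hz
  by_contra hc
  exact hr.2 ⟨hr.1, by linarith⟩

theorem codim_bound (hN : 2 ≤ N) (u : E N → ℝ) (hu : IsTest (Metric.ball (0 : E N) 1) u)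
    (h0 : sph (fun x => u (√(bz N / bz (N + 4)) • x)) = 0)
    (h1 : ∀ i, sph (fun x => u (√(bz (N + 2) / bz (N + 4)) • x) * x i) = 0) :
    bz (N + 4) * mass u ≤ energy u := by
  obtain ⟨hu1, hu2, hu3⟩ := hu
  have hN1 : 1 ≤ N := by omega
  have hNpos : (0 : ℝ) < N := by
    have : 0 < N := by omega
    exact_mod_cast this
  have huc : Continuous u := hu1.continuous
  have hud : Differentiable ℝ u := hu1.differentiable one_ne_zero
  obtain ⟨δ, hδ, hδ1, hzu⟩ := LoB_margin u hu2 hu3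
  obtain ⟨A, hA⟩ := huc.bounded_above_of_compact_support hu2
  obtain ⟨B, hB⟩ := (hu1.continuous_fderiv one_ne_zero).bounded_above_of_compact_support
    (hu2.fderiv (𝕜 := ℝ))
  have hB0 : 0 ≤ B := (norm_nonneg _).trans (hB 0)
  have hlip : ∀ x y, |u x - u y| ≤ B * ‖x - y‖ := by
    intro x y
    have := Convex.norm_image_sub_le_of_norm_fderiv_le (𝕜 := ℝ) (f := u) (s := Set.univ)
      (C := B) (fun z _ => hud z) (fun z _ => hB z) convex_univ (Set.mem_univ y) (Set.mem_univ x)
    simpa [Real.norm_eq_abs] using this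
  obtain ⟨f, hf⟩ : ∃ f : ℝ → E N → ℝ, f = fun r x => u (r • x) := ⟨_, rfl⟩
  obtain ⟨g, hg⟩ : ∃ g : ℝ → E N → ℝ, g = fun r x => ∑ i, x i * pd i u (r • x) := ⟨_, rfl⟩
  have hfc : Continuous (fun p : ℝ × E N => f p.1 p.2) := by
    rw [hf]
    exact huc.comp (continuous_fst.smul continuous_snd)
  have hgc : Continuous (fun p : ℝ × E N => g p.1 p.2) := by
    rw [hg]
    apply continuous_finsetSum
    intro i _
    exact ((LoB_coord_cont i).comp continuous_snd).mul
      ((continuous_pd i u hu1).comp (continuous_fst.smul continuous_snd))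
  have hfr : ∀ r, Continuous (f r) := fun r =>
    hfc.comp (Continuous.prodMk continuous_const continuous_id)
  have hgr : ∀ r, Continuous (g r) := fun r =>
    hgc.comp (Continuous.prodMk continuous_const continuous_id)
  have hgf : ∀ r x, g r x = fderiv ℝ u (r • x) x := fun r x => by
    rw [hg, fderiv_eq_sum]
  have hfd : ∀ r x, HasDerivAt (fun r => f r x) (g r x) r := by
    intro r x
    rw [hgf, hf]
    have h3 : HasDerivAt (fun r : ℝ => r • x) x r := by
      simpa using (hasDerivAt_id r).smul_const x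
    exact (hud (r • x)).hasFDerivAt.comp_hasDerivAt r h3
  obtain ⟨σ, hσ⟩ : ∃ σ : ℝ, σ = sph (fun _ : E N => (1 : ℝ)) := ⟨_, rfl⟩
  have hσ0 : 0 < σ := by
    rw [hσ]
    exact sph_one_pos hN1
  have hxi : ∀ i, Continuous (fun x : E N => x i) := fun i => LoB_coord_cont i
  obtain ⟨a0, ha0⟩ : ∃ a0 : ℝ → ℝ, a0 = fun r => sph (f r) / σ := ⟨_, rfl⟩
  obtain ⟨b0, hb0⟩ : ∃ b0 : ℝ → ℝ, b0 = fun r => sph (g r) / σ := ⟨_, rfl⟩
  obtain ⟨a, ha⟩ : ∃ a : Fin N → ℝ → ℝ, a = fun i r => N * sph (fun x => f r x * x i) / σ :=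
    ⟨_, rfl⟩
  obtain ⟨b, hb⟩ : ∃ b : Fin N → ℝ → ℝ, b = fun i r => N * sph (fun x => g r x * x i) / σ :=
    ⟨_, rfl⟩
  have sa0 : ∀ r, sph (f r) = σ * a0 r := fun r => by
    rw [ha0]
    field_simp
  have sb0 : ∀ r, sph (g r) = σ * b0 r := fun r => by
    rw [hb0]
    field_simp
  have sa : ∀ r i, sph (fun x => f r x * x i) = σ / N * a i r := fun r i => by
    rw [ha]
    field_simp
  have sb : ∀ r i, sph (fun x => g r x * x i) = σ / N * b i r := fun r i => by
    rw [hb]
    field_simp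
  obtain ⟨S, hS⟩ : ∃ S : ℝ → ℝ, S = fun r => sph (fun x => f r x ^ 2) := ⟨_, rfl⟩
  obtain ⟨G, hG⟩ : ∃ G : ℝ → ℝ, G = fun r => sph (fun x => g r x ^ 2) := ⟨_, rfl⟩
  obtain ⟨m, hm⟩ : ∃ m : ℝ → ℝ, m = fun r => sph (fun x => f r x * g r x) := ⟨_, rfl⟩
  obtain ⟨En, hEn⟩ : ∃ En : ℝ → ℝ, En = fun r => sph (fun x => dot u u (r • x)) := ⟨_, rfl⟩
  -- square of the difference on the sphere
  have hdiff : ∀ r s, sph (fun x => (f r x - f s x) ^ 2) ≤ B ^ 2 * σ * (r - s) ^ 2 := by
    intro r s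
    have h3 : sph (fun x => (f r x - f s x) ^ 2) ≤ (B ^ 2 * (r - s) ^ 2) * σ := by
      rw [hσ]
      apply LoB_sph_le (fun x => (f r x - f s x) ^ 2) (((hfr r).sub (hfr s)).pow 2)
      intro x hx
      have h4 := hlip (r • x) (s • x)
      rw [← sub_smul, norm_smul, hx, mul_one, Real.norm_eq_abs] at h4
      have h5 : f r x - f s x = u (r • x) - u (s • x) := by rw [hf]
      rw [h5, ← sq_abs, ← sq_abs (r - s), ← mul_pow]
      exact pow_le_pow_left₀ (abs_nonneg _) h4 2
    linarith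
  have hM2 : B ^ 2 * σ ≤ (A ^ 2 + B ^ 2) * σ :=
    mul_le_mul_of_nonneg_right (by nlinarith [sq_nonneg A]) hσ0.le
  have hσN : 0 < σ / N := by positivity
  have sPP : ∀ r, sph (fun x => (f r x - a0 r - ∑ i, a i r * x i) ^ 2)
      = S r - σ * a0 r ^ 2 - σ / N * ∑ i, a i r ^ 2 := by
    intro r
    have h3 := LoB_bilin hN (f r) (f r) (hfr r) (hfr r) σ (a0 r) (a0 r) (fun i => a i r)
      (fun i => a i r) hσ (sa0 r) (sa0 r) (sa r) (sa r)
    rw [hS]
    simp only [← sq] at h3
    exact h3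
  have sQQ : ∀ r, sph (fun x => (g r x - b0 r - ∑ i, b i r * x i) ^ 2)
      = G r - σ * b0 r ^ 2 - σ / N * ∑ i, b i r ^ 2 := by
    intro r
    have h3 := LoB_bilin hN (g r) (g r) (hgr r) (hgr r) σ (b0 r) (b0 r) (fun i => b i r)
      (fun i => b i r) hσ (sb0 r) (sb0 r) (sb r) (sb r)
    rw [hG]
    simp only [← sq] at h3
    exact h3
  have hlinc : ∀ c : Fin N → ℝ, Continuous (fun x : E N => ∑ i, c i * x i) := fun c =>
    continuous_finsetSum _ (fun i _ => continuous_const.mul (hxi i))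
  have hEc : Continuous En := by
    rw [hEn]
    apply sph_continuous (fun r x => dot u u (r • x))
    exact (continuous_dot u u hu1 hu1).comp (continuous_fst.smul continuous_snd)
  have hmain := LoB_abs hN σ ((A ^ 2 + B ^ 2) * σ) δ hδ hδ1 a0 b0 S G m En a b hσ0
    (by
      intro r
      rw [ha0, hb0]
      exact (LoB_deriv_sph f g hfr hgc hfd r).div_const σ)
    (by
      intro i r
      rw [ha, hb]
      have h3 := LoB_deriv_sph (fun r x => f r x * x i) (fun r x => g r x * x i)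
        (fun r => (hfr r).mul (hxi i)) (hgc.mul ((hxi i).comp continuous_snd))
        (fun r x => (hfd r x).mul_const (x i)) r
      exact (h3.const_mul (N : ℝ)).div_const σ)
    (by
      intro r
      rw [hS, hm]
      have h3 := LoB_deriv_sph (fun r x => f r x ^ 2) (fun r x => 2 * (f r x * g r x))
        (fun r => (hfr r).pow 2) (continuous_const.mul (hfc.mul hgc))
        (fun r x => ((hfd r x).pow 2).congr_deriv (by simp; ring)) r
      rw [sph_smul] at h3
      exact h3)
    (by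
      rw [hb0]
      exact (sph_continuous g hgc).div_const σ)
    (by
      intro i
      rw [hb]
      exact (continuous_const.mul (sph_continuous (fun r x => g r x * x i)
        (hgc.mul ((hxi i).comp continuous_snd)))).div_const σ)
    (by
      rw [hm]
      exact sph_continuous (fun r x => f r x * g r x) (hfc.mul hgc))
    (by
      rw [hG]
      exact sph_continuous (fun r x => g r x ^ 2) (hgc.pow 2))
    hEc
    (by
      intro r
      rw [← sPP, ← sQQ]
      have h3 := LoB_bilin hN (f r) (g r) (hfr r) (hgr r) σ (a0 r) (b0 r) (fun i => a i r)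
        (fun i => b i r) hσ (sa0 r) (sb0 r) (sa r) (sb r)
      have h4 : m r = sph (fun x => f r x * g r x) := by rw [hm]
      rw [h4, ← h3]
      exact sph_cs _ _ (((hfr r).sub continuous_const).sub (hlinc _))
        (((hgr r).sub continuous_const).sub (hlinc _)))
    (by
      intro r
      have h3 : 0 ≤ sph (fun x => (f r x - a0 r - ∑ i, a i r * x i) ^ 2) :=
        LoB_sph_nonneg _ (fun x => sq_nonneg _)
      rw [sPP] at h3
      linarith)
    (by
      intro r
      have h3 : 0 ≤ sph (fun x => (g r x - b0 r - ∑ i, b i r * x i) ^ 2) :=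
        LoB_sph_nonneg _ (fun x => sq_nonneg _)
      rw [sQQ] at h3
      linarith)
    (by
      intro r
      rw [hS, hσ]
      apply LoB_sph_le (fun x => f r x ^ 2) ((hfr r).pow 2)
      intro x _
      have h3 : |f r x| ≤ A := by
        rw [hf]
        exact hA _
      have h4 : |f r x| ^ 2 ≤ A ^ 2 := pow_le_pow_left₀ (abs_nonneg _) h3 2
      rw [sq_abs] at h4
      nlinarith [sq_nonneg B])
    (by
      intro r
      rw [hG, hσ]
      apply LoB_sph_le (fun x => g r x ^ 2) ((hgr r).pow 2)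
      intro x hx
      have h3 : |g r x| ≤ B := by
        rw [hgf]
        have h4 := (fderiv ℝ u (r • x)).le_opNorm x
        rw [hx, mul_one, Real.norm_eq_abs] at h4
        exact h4.trans (hB _)
      have h4 : |g r x| ^ 2 ≤ B ^ 2 := pow_le_pow_left₀ (abs_nonneg _) h3 2
      rw [sq_abs] at h4
      nlinarith [sq_nonneg A])
    (by
      intro r hr
      rw [hS]
      have h3 : sph (fun x => f r x ^ 2) = sph (fun _ : E N => (0 : ℝ)) := by
        apply sph_congr
        intro x hx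
        have h4 : f r x = 0 := by
          rw [hf]
          apply image_eq_zero_of_notMem_tsupport
          apply hzu
          rw [norm_smul, hx, mul_one, Real.norm_eq_abs]
          exact hr.trans (le_abs_self r)
        rw [h4]
        norm_num
      simp only
      rw [h3]
      simp [sph])
    (by
      intro r
      have h3 := LoB_bessel hN (fun x => f r x - f (√(bz N / bz (N + 4))) x)
        ((hfr r).sub (hfr _)) σ (a0 r)
        (fun i => a i r - a i (√(bz N / bz (N + 4)))) hσ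
        (by
          rw [LoB_sph_sub _ _ (hfr r) (hfr _), sa0]
          have h4 : sph (f (√(bz N / bz (N + 4)))) = 0 := by
            rw [hf]
            exact h0
          rw [h4, sub_zero])
        (by
          intro i
          have h4 : (fun x => (f r x - f (√(bz N / bz (N + 4))) x) * x i)
              = fun x => f r x * x i - f (√(bz N / bz (N + 4))) x * x i := by
            funext x
            ring
          rw [h4, LoB_sph_sub (fun x => f r x * x i)
            (fun x => f (√(bz N / bz (N + 4))) x * x i) ((hfr r).mul (hxi i))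
            ((hfr _).mul (hxi i)), sa, sa]
          ring)
      have h4 := hdiff r (√(bz N / bz (N + 4)))
      have h5 : 0 ≤ σ / N * ∑ i, (a i r - a i (√(bz N / bz (N + 4)))) ^ 2 :=
        mul_nonneg hσN.le (Finset.sum_nonneg (fun i _ => sq_nonneg _))
      have h6 := mul_le_mul_of_nonneg_right hM2 (sq_nonneg (r - √(bz N / bz (N + 4))))
      linarith)
    (by
      intro r
      have h3 := LoB_bessel hN (fun x => f r x - f (√(bz (N + 2) / bz (N + 4))) x)
        ((hfr r).sub (hfr _)) σ (a0 r - a0 (√(bz (N + 2) / bz (N + 4))))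
        (fun i => a i r) hσ
        (by
          rw [LoB_sph_sub _ _ (hfr r) (hfr _), sa0, sa0]
          ring)
        (by
          intro i
          have h4 : (fun x => (f r x - f (√(bz (N + 2) / bz (N + 4))) x) * x i)
              = fun x => f r x * x i - f (√(bz (N + 2) / bz (N + 4))) x * x i := by
            funext x
            ring
          rw [h4, LoB_sph_sub (fun x => f r x * x i)
            (fun x => f (√(bz (N + 2) / bz (N + 4))) x * x i) ((hfr r).mul (hxi i))
            ((hfr _).mul (hxi i)), sa]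
          have h5 : sph (fun x => f (√(bz (N + 2) / bz (N + 4))) x * x i) = 0 := by
            rw [hf]
            exact h1 i
          rw [h5, sub_zero])
      have h4 := hdiff r (√(bz (N + 2) / bz (N + 4)))
      have h5 : 0 ≤ σ * (a0 r - a0 (√(bz (N + 2) / bz (N + 4)))) ^ 2 := by positivity
      have h6 := mul_le_mul_of_nonneg_right hM2 (sq_nonneg (r - √(bz (N + 2) / bz (N + 4))))
      linarith)
    (by
      intro r hr
      have h3 := hdiff r 0
      have h4 : ∀ x, f 0 x = u 0 := fun x => by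
        rw [hf]
        simp
      simp only [h4, sub_zero] at h3
      have h5 : (fun x => (f r x - u 0) ^ 2)
          = fun x => (f r x ^ 2 + (-(2 * u 0)) * f r x) + (u 0 ^ 2) * 1 := by
        funext x
        ring
      rw [h5, LoB_add3 (fun x => f r x ^ 2) (f r) (fun _ => 1) ((hfr r).pow 2) (hfr r)
        continuous_const, sa0, ← hσ] at h3
      have h6 : S r = sph (fun x => f r x ^ 2) := by rw [hS]
      rw [← h6] at h3
      have h7 : 0 ≤ σ * (a0 r - u 0) ^ 2 := by positivity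
      have h8 := mul_le_mul_of_nonneg_right hM2 (sq_nonneg r)
      nlinarith)
    (by
      intro r hr
      have hfr1 : ContDiff ℝ 1 (f r) := by
        rw [hf]
        exact hu1.comp (contDiff_const_smul r)
      have hgap := gap_full hN (f r) hfr1 σ (a0 r) (fun i => a i r) hσ (by rw [ha0])
        (fun i => by rw [ha])
      have hLc : ∀ i j, Continuous (fun x => Lr i j (f r) x ^ 2) := fun i j =>
        (continuous_Lr i j (f r) hfr1).pow 2
      have h3 : En r = G r + 1 / r ^ 2 * (1 / 2 * ∑ i, ∑ j, sph (fun x => Lr i j (f r) x ^ 2)) := by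
        rw [hEn, hG]
        simp only
        have h4 : sph (fun x => dot u u (r • x)) = sph (fun x => g r x ^ 2
            + 1 / r ^ 2 * (1 / 2 * ∑ i, ∑ j, Lr i j (f r) x ^ 2)) := by
          apply sph_congr
          intro x hx
          have h5 := lagrange u (r • x)
          rw [norm_smul, hx, mul_one, Real.norm_eq_abs, sq_abs] at h5
          have h6 : ∑ i, (r • x) i * pd i u (r • x) = r * g r x := by
            rw [hg]
            simp only
            rw [Finset.mul_sum]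
            apply Finset.sum_congr rfl
            intro i _
            simp
            ring
          have h7 : ∀ i j, Lr i j (f r) x = Lr i j u (r • x) := fun i j => by
            rw [hf]
            exact Lr_scale i j u hu1 r x
          simp only [h7]
          rw [h6] at h5
          have hr2 : r ^ 2 ≠ 0 := by positivity
          field_simp
          linarith
        have hsumc : Continuous (fun x => ∑ i, ∑ j, Lr i j (f r) x ^ 2) :=
          continuous_finsetSum _ (fun i _ => continuous_finsetSum _ (fun j _ => hLc i j))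
        rw [h4, sph_add (fun x => g r x ^ 2)
          (fun x => 1 / r ^ 2 * (1 / 2 * ∑ i, ∑ j, Lr i j (f r) x ^ 2)) ((hgr r).pow 2)
          (continuous_const.mul (continuous_const.mul hsumc)), sph_smul, sph_smul,
          sph_sum Finset.univ (fun i x => ∑ j, Lr i j (f r) x ^ 2)
            (fun i _ => continuous_finsetSum _ (fun j _ => hLc i j))]
        congr 3
        apply Finset.sum_congr rfl
        intro i _
        exact sph_sum Finset.univ (fun j x => Lr i j (f r) x ^ 2) (fun j _ => hLc i j)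
      rw [h3]
      have h8 : S r = sph (fun x => f r x ^ 2) := by rw [hS]
      rw [← h8] at hgap
      have hr2 : 0 < 1 / r ^ 2 := by positivity
      have h9 := mul_le_mul_of_nonneg_left hgap hr2.le
      rw [div_eq_mul_one_div, mul_comm _ (1 / r ^ 2)]
      have h10 : ((N : ℝ) - 1) * (σ / N * ∑ i, a i r ^ 2) = (N - 1) * (σ / N) * ∑ i, a i r ^ 2 := by
        ring
      rw [h10]
      linarith)
  have e1 : mass u = ∫ r in (0 : ℝ)..1, r ^ (N - 1) * S r := by
    rw [mass, polar hN1 (fun x => u x ^ 2) (huc.pow 2)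
      (hu2.comp_left (g := fun t : ℝ => t ^ 2) (by norm_num))]
    rw [← LoB_tail]
    · rw [hS, hf]
    · intro r hr
      rw [hS]
      have h3 : sph (fun x => f r x ^ 2) = sph (fun _ : E N => (0 : ℝ)) := by
        apply sph_congr
        intro x hx
        have h4 : f r x = 0 := by
          rw [hf]
          apply image_eq_zero_of_notMem_tsupport
          apply hzu
          rw [norm_smul, hx, mul_one, Real.norm_eq_abs]
          have := le_abs_self r
          linarith
        rw [h4]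
        norm_num
      simp only
      rw [h3]
      simp [sph]
  have e2 : energy u = ∫ r in (0 : ℝ)..1, r ^ (N - 1) * En r := by
    rw [energy, polar hN1 (fun x => dot u u x) (continuous_dot u u hu1 hu1)
      (hasCompactSupport_dot u u hu2)]
    rw [← LoB_tail]
    · rw [hEn]
    · intro r hr
      rw [hEn]
      have h3 : sph (fun x => dot u u (r • x)) = sph (fun _ : E N => (0 : ℝ)) := by
        apply sph_congr
        intro x hx
        have h5 : fderiv ℝ u (r • x) = 0 := by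
          apply fderiv_of_notMem_tsupport
          apply hzu
          rw [norm_smul, hx, mul_one, Real.norm_eq_abs]
          have := le_abs_self r
          linarith
        simp [dot, pd, h5]
      simp only
      rw [h3]
      simp [sph]
  rw [e1, e2]
  exact hmain

end Pool.Agent.H94.ER
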