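import Pool.Agent.H94.ER.LoB
import Pool.Agent.H94.ER.BaC

/-!
# LoC: `bz (N+4) ≤ dirEig B (N+2)` for the unit ball `B`

Every element `c` of the defining set of `dirEig B (N+2)` is `≥ bz (N+4)`: `V` has dimension `N+2`, and the
`N+1` linear functionals `u ↦ sph (u(r_0 ·))`, `u ↦ sph (u(r_1 ·) x_i)` (linear on `V`: all elements are continuous) have a
common zero `u ≠ 0` in `V` (`LinearMap.exists_ne_zero_of_...`/rank-nullity: a linear map from a space of
dimension `N+2` to `Fin (N+1) → ℝ` is not injective, `LinearMap.finrank_le_finrank_of_injective`). By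
`codim_bound`, `bz (N+4) mass u ≤ energy u ≤ c mass u`, `mass u > 0`. The set is nonempty by `exists_space`, so
`le_csInf` applies.
-/

set_option autoImplicit false

open MeasureTheory

namespace Pool.Agent.H94.ER

variable {N : ℕ}

theorem le_ball_eig (hN : 2 ≤ N) : bz (N + 4) ≤ dirEig (Metric.ball (0 : E N) 1) (N + 2) := by
  have hN1 : 1 ≤ N := by omega
  have hne : (Metric.ball (0 : E N) 1).Nonempty := ⟨0, by simp⟩
  refine le_csInf ?_ ?_
  · obtain ⟨c, V, hV, h⟩ := exists_space (Metric.ball (0 : E N) 1) hN1 Metric.isOpen_ball hne (N + 2)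
    refine ⟨c, V, hV, fun u hu => ⟨(h u hu).1, ?_⟩⟩
    have h2 := (h u hu).2
    rw [energy_eq] at h2
    exact h2
  · rintro c ⟨V, hV, h⟩
    set r0 : ℝ := √(bz N / bz (N + 4)) with hr0
    set r1 : ℝ := √(bz (N + 2) / bz (N + 4)) with hr1
    have hcont : ∀ u : V, Continuous (u : E N → ℝ) := fun u => (h u u.2).1.1.continuous
    have hc0 : ∀ (u : V) (r : ℝ), Continuous (fun x : E N => (u : E N → ℝ) (r • x)) := fun u r =>
      (hcont u).comp (continuous_const_smul r)
    have hci : ∀ (u : V) (r : ℝ) (i : Fin N),
        Continuous (fun x : E N => (u : E N → ℝ) (r • x) * x i) := fun u r i =>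
      (hc0 u r).mul (by fun_prop)
    let T : V →ₗ[ℝ] (ℝ × (Fin N → ℝ)) :=
      { toFun := fun u => (sph (fun x => (u : E N → ℝ) (r0 • x)),
          fun i => sph (fun x => (u : E N → ℝ) (r1 • x) * x i))
        map_add' := by
          intro u v
          refine Prod.ext ?_ ?_
          · exact sph_add _ _ (hc0 u r0) (hc0 v r0)
          · funext i
            change sph (fun x => ((u : E N → ℝ) (r1 • x) + (v : E N → ℝ) (r1 • x)) * x i) =
              sph (fun x => (u : E N → ℝ) (r1 • x) * x i) +
                sph (fun x => (v : E N → ℝ) (r1 • x) * x i)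
            rw [← sph_add _ _ (hci u r1 i) (hci v r1 i)]
            exact sph_congr _ _ fun x _ => by ring
        map_smul' := by
          intro a u
          refine Prod.ext ?_ ?_
          · exact sph_smul a (fun x => (u : E N → ℝ) (r0 • x))
          · funext i
            change sph (fun x => (a * (u : E N → ℝ) (r1 • x)) * x i) =
              a * sph (fun x => (u : E N → ℝ) (r1 • x) * x i)
            rw [← sph_smul]
            exact sph_congr _ _ fun x _ => by ring }
    have hfin : FiniteDimensional ℝ V := FiniteDimensional.of_finrank_pos (by rw [hV]; omega)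
    have hlt : Module.finrank ℝ (ℝ × (Fin N → ℝ)) < Module.finrank ℝ V := by
      rw [hV, Module.finrank_prod]
      simp
      omega
    have hker : LinearMap.ker T ≠ ⊥ := LinearMap.ker_ne_bot_of_finrank_lt hlt
    obtain ⟨u, huk, hu0⟩ := Submodule.exists_mem_ne_zero_of_ne_bot hker
    have hT : T u = 0 := huk
    have h0 : sph (fun x => (u : E N → ℝ) (r0 • x)) = 0 := congrArg Prod.fst hT
    have h1 : ∀ i, sph (fun x => (u : E N → ℝ) (r1 • x) * x i) = 0 := fun i =>
      congrFun (congrArg Prod.snd hT) i
    have hb := codim_bound hN (u : E N → ℝ) (h u u.2).1 h0 h1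
    have he : energy (u : E N → ℝ) ≤ c * mass (u : E N → ℝ) := by
      rw [energy_eq]
      exact (h u u.2).2
    have hm : 0 < mass (u : E N → ℝ) :=
      mass_pos _ (h u u.2).1.1 (h u u.2).1.2.1 (fun hz => hu0 (Subtype.ext hz))
    exact le_of_mul_le_mul_right (hb.trans he) hm

end Pool.Agent.H94.ER
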