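import Pool.Agent.H94.ER.PrB

/-!
# PrC: the profile `F0 N k = uh (N+2k) / uh N` near `(-∞, 1]`

Notation: `d = N + 2k`, `U s = bj N (bz N * s)`, `W s = bj d (bz d * s)`, `γ = bz d - bz N`, `F = F0 N k`.
* smooth and positive near every `s ≤ 1` (quotient of smooth functions, denominator `> 0`).
* `W = F U` near every `s ≤ 1` (from `uh_mul`).
* `4 s U'' + 2 N U' + bz N U = 0`, `4 s W'' + 2 d W' + bz d W = 0` (from `hasDerivAt_bj` twice and `bj_contig`;
  the factor from `s ↦ bz d * s` works out: `U' s = - bz N bj (N+2) (bz N s)/(2N)`).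
* insert `W = F U`, `W' = F'U+FU'`, `W'' = F''U+2F'U'+FU''`:
  `U (4 s F'' + 2 d F' + γ F) + U' (8 s F' + 4 k F) = 0` (`profile_ode`), for all `s ≤ 1`
  (the identity `W = F U` holds in a neighbourhood of `s`).
* at `s = 1`: `U 1 = 0`, `U' 1 ≠ 0`: `8 F' + 4 k F = 0`, `F' 1 = - (k/2) F 1` (`F0_deriv_one`).
Here `U' = uder N`, below.
-/

set_option autoImplicit false

namespace Pool.Agent.H94.ER

/-- derivative of `s ↦ bj N (bz N * s)` -/
noncomputable def uder (N : ℕ) (s : ℝ) : ℝ := -(bz N * bj (N + 2) (bz N * s)) / (2 * N)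

/-- derivative of `s ↦ bj d (bz d * s)` -/
noncomputable def PrC_der (d : ℝ) (s : ℝ) : ℝ := -(bz d * bj (d + 2) (bz d * s)) / (2 * d)

theorem PrC_hasDerivAt (d : ℝ) (hd : 2 ≤ d) (s : ℝ) :
    HasDerivAt (fun t => bj d (bz d * t)) (PrC_der d s) s := by
  have hd0 : (0 : ℝ) < d := by linarith
  have h1 := hasDerivAt_bj d hd0 (bz d * s)
  have h2 : HasDerivAt (fun t : ℝ => bz d * t) (bz d) s := by
    simpa using (hasDerivAt_id s).const_mul (bz d)
  have h3 := HasDerivAt.comp s h1 h2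
  refine h3.congr_deriv ?_
  unfold PrC_der
  ring

theorem PrC_hasDerivAt2 (d : ℝ) (hd : 2 ≤ d) (s : ℝ) :
    ∃ u2 : ℝ, HasDerivAt (PrC_der d) u2 s ∧
      4 * s * u2 + 2 * d * PrC_der d s + bz d * bj d (bz d * s) = 0 := by
  have hd0 : (0 : ℝ) < d := by linarith
  have h1 := hasDerivAt_bj (d + 2) (by linarith) (bz d * s)
  have h2 : HasDerivAt (fun t : ℝ => bz d * t) (bz d) s := by
    simpa using (hasDerivAt_id s).const_mul (bz d)
  have h3 := HasDerivAt.comp s h1 h2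
  have h4 : HasDerivAt (fun t => -(bz d * (bj (d + 2) ∘ fun t : ℝ => bz d * t) t) / (2 * d))
      (-(bz d * (-(bj (d + 2 + 2) (bz d * s)) / (2 * (d + 2)) * bz d)) / (2 * d)) s :=
    ((h3.const_mul (bz d)).neg).div_const (2 * d)
  refine ⟨-(bz d * (-(bj (d + 2 + 2) (bz d * s)) / (2 * (d + 2)) * bz d)) / (2 * d), h4, ?_⟩
  have h5 := bj_contig d hd0 (bz d * s)
  rw [h5]
  have e1 : d + 2 + 2 = d + 4 := by ring
  rw [e1]
  unfold PrC_der
  have hd2 : d + 2 ≠ 0 := by linarith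
  field_simp
  ring

theorem PrC_two_le (N : ℕ) (hN : 2 ≤ N) : (2 : ℝ) ≤ N := by exact_mod_cast hN

theorem PrC_two_le' (N k : ℕ) (hN : 2 ≤ N) : (2 : ℝ) ≤ N + 2 * k := by
  have h1 := PrC_two_le N hN
  have h2 : (0 : ℝ) ≤ k := Nat.cast_nonneg k
  linarith

theorem hasDerivAt_U (N : ℕ) (hN : 2 ≤ N) (s : ℝ) :
    HasDerivAt (fun t => bj N (bz N * t)) (uder N s) s := by
  exact PrC_hasDerivAt N (PrC_two_le N hN) s

theorem hasDerivAt_uder (N : ℕ) (hN : 2 ≤ N) (s : ℝ) :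
    ∃ u2 : ℝ, HasDerivAt (uder N) u2 s ∧ 4 * s * u2 + 2 * N * uder N s + bz N * bj N (bz N * s) = 0 := by
  exact PrC_hasDerivAt2 N (PrC_two_le N hN) s

theorem uder_one_neg (N : ℕ) (hN : 2 ≤ N) : uder N 1 < 0 := by
  have h2 := PrC_two_le N hN
  have h1 := bz_pos N h2
  have h3 : 0 < bj (N + 2) (bz N * 1) := by
    rw [mul_one]
    exact bj_pos (N + 2) (by linarith) _ (bz_lt N h2)
  unfold uder
  have h4 : 0 < bz (N : ℝ) * bj (N + 2) (bz N * 1) := mul_pos h1 h3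
  have h5 : (0 : ℝ) < 2 * N := by linarith
  rw [neg_div]
  have := div_pos h4 h5
  linarith

theorem F0_smooth (N k : ℕ) (hN : 2 ≤ N) (s : ℝ) (hs : s ≤ 1) (n : ℕ) :
    ContDiffAt ℝ n (F0 N k) s := by
  have h1 : ContDiffAt ℝ n (uh (N + 2 * k)) s :=
    (contDiff_uh (N + 2 * k) (PrC_two_le' N k hN) n).contDiffAt
  have h2 : ContDiffAt ℝ n (uh N) s := (contDiff_uh N (PrC_two_le N hN) n).contDiffAt
  exact h1.div h2 (uh_pos N (PrC_two_le N hN) s hs).ne'

theorem F0_pos (N k : ℕ) (hN : 2 ≤ N) (s : ℝ) (hs : s ≤ 1) : 0 < F0 N k s := by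
  exact div_pos (uh_pos _ (PrC_two_le' N k hN) s hs) (uh_pos N (PrC_two_le N hN) s hs)

theorem PrC_contDiffAt_deriv {f : ℝ → ℝ} {s : ℝ} (h : ContDiffAt ℝ (2 : ℕ) f s) :
    ContDiffAt ℝ ((1 : ℕ) : WithTop ℕ∞) (deriv f) s := by
  have h1 : ContDiffAt ℝ ((1 : ℕ) : WithTop ℕ∞) (fderiv ℝ f) s :=
    h.fderiv_right (by norm_num)
  have h2 : deriv f = fun x => fderiv ℝ f x 1 := by
    funext x
    rw [fderiv_apply_one_eq_deriv]
  rw [h2]
  exact h1.clm_apply contDiffAt_const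

theorem profile_ode (N k : ℕ) (hN : 2 ≤ N) (s : ℝ) (hs : s ≤ 1) :
    bj N (bz N * s) * (4 * s * deriv (deriv (F0 N k)) s + 2 * (N + 2 * k) * deriv (F0 N k) s
        + (bz (N + 2 * k) - bz N) * F0 N k s)
      + uder N s * (8 * s * deriv (F0 N k) s + 4 * k * F0 N k s) = 0 := by
  have h2 := PrC_two_le N hN
  have h2' := PrC_two_le' N k hN
  have hcont : Continuous (uh N) := (contDiff_uh N h2 0).continuous
  have hne : ∀ᶠ t in nhds s, uh N t ≠ 0 :=
    hcont.continuousAt.eventually_ne (uh_pos N h2 s hs).ne'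
  have hev : ∀ᶠ t in nhds s, bj (N + 2 * k) (bz (N + 2 * k) * t) = F0 N k t * bj N (bz N * t) := by
    filter_upwards [hne] with t ht
    rw [uh_mul _ h2' t, uh_mul _ h2 t]
    unfold F0
    field_simp
  have hsm : ContDiffAt ℝ (2 : ℕ) (F0 N k) s := F0_smooth N k hN s hs 2
  have hdiff : ∀ᶠ t in nhds s, DifferentiableAt ℝ (F0 N k) t := by
    have := (hsm.eventually (by simp))
    filter_upwards [this] with t ht
    exact ht.differentiableAt (by norm_num)
  have hdd : DifferentiableAt ℝ (deriv (F0 N k)) s := by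
    have h3 : ContDiffAt ℝ ((1 : ℕ) : WithTop ℕ∞) (deriv (F0 N k)) s :=
      PrC_contDiffAt_deriv hsm
    exact h3.differentiableAt (by norm_num)
  have hW : ∀ᶠ t in nhds s, PrC_der (N + 2 * k) t
      = deriv (F0 N k) t * bj N (bz N * t) + F0 N k t * uder N t := by
    filter_upwards [hev.eventually_nhds, hdiff] with t ht1 ht2
    have e1 := PrC_hasDerivAt (N + 2 * k) h2' t
    have e2 : HasDerivAt (fun t => F0 N k t * bj N (bz N * t))
        (deriv (F0 N k) t * bj N (bz N * t) + F0 N k t * uder N t) t :=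
      ht2.hasDerivAt.mul (hasDerivAt_U N hN t)
    exact e1.unique (e2.congr_of_eventuallyEq ht1)
  obtain ⟨w2, hw2, ew2⟩ := PrC_hasDerivAt2 (N + 2 * k) h2' s
  obtain ⟨u2, hu2, eu2⟩ := hasDerivAt_uder N hN s
  have e3 : HasDerivAt (fun t => deriv (F0 N k) t * bj N (bz N * t) + F0 N k t * uder N t)
      ((deriv (deriv (F0 N k)) s * bj N (bz N * s) + deriv (F0 N k) s * uder N s)
        + (deriv (F0 N k) s * uder N s + F0 N k s * u2)) s :=
    (hdd.hasDerivAt.mul (hasDerivAt_U N hN s)).add (hdiff.self_of_nhds.hasDerivAt.mul hu2)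
  have e4 := hw2.unique (e3.congr_of_eventuallyEq hW)
  have e5 := hW.self_of_nhds
  have e6 := hev.self_of_nhds
  rw [e4, e5, e6] at ew2
  linear_combination ew2 - F0 N k s * eu2

theorem F0_deriv_one (N k : ℕ) (hN : 2 ≤ N) :
    deriv (F0 N k) 1 = -((k : ℝ) / 2) * F0 N k 1 := by
  have h1 := profile_ode N k hN 1 le_rfl
  rw [mul_one (bz (N : ℝ)), bj_bz N (PrC_two_le N hN), zero_mul, zero_add] at h1
  have h2 := (uder_one_neg N hN).ne
  have h3 := (mul_eq_zero.mp h1).resolve_left h2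
  linarith

end Pool.Agent.H94.ER
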