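import Pool.Agent.H94.ER.BaC
import Pool.Agent.H94.ER.PrC

/-!
# UpC: the first eigenvalue of the unit ball is `bz N`

`V x = bj N (bz N * ‖x‖^2)`, smooth on `R^N`, positive for `‖x‖ < 1`, zero for `‖x‖ = 1`;
`pd i V x = 2 uder N (‖x‖^2) x_i`, and `∑_i pd i (pd i V) = - bz N V` (from `4 s U'' + 2 N U' + bz N U = 0`,
`hasDerivAt_uder`: `∑_i pd i (2 U' x_i) = 2 N U' + 4 s U''`).

Upper bound `dirEig B 1 ≤ bz N`, `B` the unit ball: for `0 < ε < 1` let `φ(t) = 0` for `t ≤ ε`, `(t-ε)^2/t` for `t ≥ ε`: it is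
`C^1` with `0 ≤ φ' ≤ 1` (`φ' = 1 - ε^2/t^2` for `t > ε`), `t - 2ε ≤ φ(t) ≤ t` for `t ≥ 0`. `v = φ(V)` on `B`, `0` outside, is a
test function on `B` (its support is in `{‖x‖ < 1, V ≥ ε}`, compact in `B`). Integrating by parts
(`C^1` functions, `v` has compact support) `∫ ∇V·∇v = bz N ∫ V v`, and `∇V·∇v = φ'(V)|∇V|^2 ≥ φ'^2 |∇V|^2 = |∇v|^2`,
so `energy v ≤ bz N ∫ V v ≤ bz N (mass v + 2 ε ∫ v)`, and `mass v ≥ m0 > 0`, `∫ v ≤ M` uniformly in small `ε`; so
`dirEig B 1 ≤ energy v/mass v ≤ bz N (1 + 2 ε M/m0)` (`eig_one_le`).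

Lower bound `bz N ≤ dirEig B 1`: for a test function `v` on `B`, `energy v ≥ bz N mass v`: with `p = ∇V/V` on the
support of `v` (compact, contained in `B`), `|∇v|^2 - bz N v^2 = |∇v - p v|^2 + div(v^2 p)`
(`div p + |p|^2 = ΔV/V = -bz N`); the field `v^2 p` is `C^1` with compact support, so its divergence
integrates to 0. Then every element of the defining set of `dirEig B 1` is `≥ bz N`
(`csInf` over a nonempty set, `exists_space`).
-/

set_option autoImplicit false

open MeasureTheory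

namespace Pool.Agent.H94.ER

variable {N : ℕ}

/-- the ground state -/
noncomputable def UpC_V (N : ℕ) (x : E N) : ℝ := bj N (bz N * ‖x‖ ^ 2)

theorem UpC_cast (hN : 2 ≤ N) : (2 : ℝ) ≤ N := by exact_mod_cast hN

theorem UpC_contDiff (hN : 2 ≤ N) (n : ℕ) : ContDiff ℝ n (UpC_V N) := by
  have h0 : (0 : ℝ) < N := by linarith [UpC_cast hN]
  have h1 := contDiff_bj (N : ℝ) h0 n
  exact h1.comp (contDiff_const.mul (contDiff_norm_sq ℝ))

theorem UpC_pd (hN : 2 ≤ N) (i : Fin N) (x : E N) :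
    pd i (UpC_V N) x = 2 * uder N (‖x‖ ^ 2) * x i := by
  have h1 := hasDerivAt_U N hN (‖x‖ ^ 2)
  have h2 := pd_radial i (fun t => bj N (bz N * t)) x h1.differentiableAt
  rw [h1.deriv] at h2
  exact h2

theorem UpC_lap (hN : 2 ≤ N) (x : E N) :
    ∑ i, pd i (pd i (UpC_V N)) x = -(bz N * UpC_V N x) := by
  obtain ⟨u2, hu2, hode⟩ := hasDerivAt_uder N hN (‖x‖ ^ 2)
  have e : ∀ i, pd i (pd i (UpC_V N)) x = 2 * uder N (‖x‖ ^ 2) + 4 * u2 * x i ^ 2 := by
    intro i
    have h1 : pd i (UpC_V N) = fun y => (2 * uder N (‖y‖ ^ 2)) * y i := by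
      funext y
      exact UpC_pd hN i y
    have hsq : DifferentiableAt ℝ (fun y : E N => ‖y‖ ^ 2) x :=
      ((contDiff_norm_sq ℝ (n := 1)).differentiable (by norm_num)) x
    have hd1 : DifferentiableAt ℝ (fun y : E N => uder N (‖y‖ ^ 2)) x :=
      DifferentiableAt.comp (g := uder N) (f := fun y : E N => ‖y‖ ^ 2) x
        hu2.differentiableAt hsq
    have hd2 : DifferentiableAt ℝ (fun y : E N => y i) x :=
      (EuclideanSpace.proj i : E N →L[ℝ] ℝ).differentiableAt
    rw [h1, pd_mul i (fun y => 2 * uder N (‖y‖ ^ 2)) (fun y => y i) x (hd1.const_mul 2) hd2,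
      pd_coord, pd_const_mul i 2 (fun y => uder N (‖y‖ ^ 2)) x,
      pd_radial i (uder N) x hu2.differentiableAt, hu2.deriv, if_pos rfl]
    ring
  rw [Finset.sum_congr rfl (fun i _ => e i), Finset.sum_add_distrib, Finset.sum_const,
    Finset.card_univ, Fintype.card_fin, nsmul_eq_mul, ← Finset.mul_sum, sum_coord_sq]
  have h3 : UpC_V N x = bj N (bz N * ‖x‖ ^ 2) := rfl
  rw [h3]
  linarith

theorem UpC_ibp (hN : 2 ≤ N) (w : E N → ℝ) (hw : ContDiff ℝ 1 w) (hc : HasCompactSupport w) :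
    ∫ x, dot (UpC_V N) w x = bz N * ∫ x, UpC_V N x * w x := by
  have hV2 : ContDiff ℝ 2 (UpC_V N) := UpC_contDiff hN 2
  have hV1 : ContDiff ℝ 1 (UpC_V N) := UpC_contDiff hN 1
  have hp1 : ∀ i, ContDiff ℝ 1 (pd i (UpC_V N)) := fun i =>
    (hV2.fderiv_right (m := 1) (by norm_num)).clm_apply contDiff_const
  have hcw : Continuous w := hw.continuous
  have i1 : ∀ i, Integrable (fun x => pd i (UpC_V N) x * pd i w x) := fun i =>
    ((hp1 i).continuous.mul (continuous_pd i w hw)).integrable_of_hasCompactSupport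
      (hasCompactSupport_pd i w hc).mul_left
  have i2 : ∀ i, Integrable (fun x => pd i (pd i (UpC_V N)) x * w x) := fun i =>
    ((continuous_pd i _ (hp1 i)).mul hcw).integrable_of_hasCompactSupport hc.mul_left
  have i3 : ∀ i, Integrable (fun x => pd i (UpC_V N) x * w x) := fun i =>
    ((hp1 i).continuous.mul hcw).integrable_of_hasCompactSupport hc.mul_left
  have e1 : ∀ i, ∫ x, pd i (UpC_V N) x * pd i w x = -∫ x, pd i (pd i (UpC_V N)) x * w x := by
    intro i
    exact integral_mul_fderiv_eq_neg_fderiv_mul_of_integrable (i2 i) (i1 i) (i3 i)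
      (fun x _ => (hp1 i).differentiable (by norm_num) x)
      (fun x _ => hw.differentiable (by norm_num) x)
  unfold dot
  rw [integral_finsetSum _ (fun i _ => i1 i), Finset.sum_congr rfl (fun i _ => e1 i),
    Finset.sum_neg_distrib, ← integral_finsetSum _ (fun i _ => i2 i), ← integral_neg,
    ← integral_const_mul]
  congr 1
  funext x
  rw [← Finset.sum_mul, UpC_lap hN x]
  ring

theorem UpC_pos (hN : 2 ≤ N) (x : E N) (hx : ‖x‖ < 1) : 0 < UpC_V N x := by
  have h2 := UpC_cast hN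
  apply bj_pos _ h2
  have h3 := bz_pos (N : ℝ) h2
  have h4 : ‖x‖ ^ 2 < 1 := by
    have := norm_nonneg x
    nlinarith
  nlinarith

theorem UpC_one (hN : 2 ≤ N) (x : E N) (hx : ‖x‖ = 1) : UpC_V N x = 0 := by
  unfold UpC_V
  rw [hx, one_pow, mul_one]
  exact bj_bz _ (UpC_cast hN)

theorem UpC_lower (hN : 2 ≤ N) (v : E N → ℝ) (hv : IsTest (Metric.ball (0 : E N) 1) v) :
    bz N * mass v ≤ energy v := by
  obtain ⟨hv1, hvc, hvs⟩ := hv
  have hV1 : ContDiff ℝ 1 (UpC_V N) := UpC_contDiff hN 1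
  set g : E N → ℝ := fun x => v x * (UpC_V N x)⁻¹ with hg
  have hg1 : ContDiff ℝ 1 g := by
    rw [contDiff_iff_contDiffAt]
    intro x
    by_cases hx : x ∈ tsupport v
    · have h1 : ‖x‖ < 1 := mem_ball_zero_iff.1 (hvs hx)
      exact hv1.contDiffAt.mul (hV1.contDiffAt.inv (UpC_pos hN x h1).ne')
    · have h1 : v =ᶠ[nhds x] 0 := notMem_tsupport_iff_eventuallyEq.1 hx
      have h2 : g =ᶠ[nhds x] fun _ => 0 := by
        filter_upwards [h1] with y hy
        show v y * _ = 0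
        rw [hy]
        simp
      exact contDiffAt_const.congr_of_eventuallyEq h2
  have hvg : ∀ x, v x = UpC_V N x * g x := by
    intro x
    by_cases hx : v x = 0
    · rw [hg]
      simp [hx]
    · have h1 : ‖x‖ < 1 := mem_ball_zero_iff.1 (hvs (subset_tsupport v hx))
      have h2 := (UpC_pos hN x h1).ne'
      show v x = UpC_V N x * (v x * (UpC_V N x)⁻¹)
      field_simp
  have hgc : HasCompactSupport g := hvc.mul_right
  set w : E N → ℝ := fun x => v x * g x with hw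
  have hw1 : ContDiff ℝ 1 w := hv1.mul hg1
  have hwc : HasCompactSupport w := hvc.mul_right
  have hdV := hV1.differentiable (by norm_num)
  have hdg := hg1.differentiable (by norm_num)
  have hdv := hv1.differentiable (by norm_num)
  have hpt : ∀ x, dot (UpC_V N) w x ≤ dot v v x := by
    intro x
    unfold dot
    apply Finset.sum_le_sum
    intro i _
    have h1 : pd i v x = UpC_V N x * pd i g x + pd i (UpC_V N) x * g x := by
      have h2 : v = fun y => UpC_V N y * g y := funext hvg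
      conv_lhs => rw [h2]
      exact pd_mul i (UpC_V N) g x (hdV x) (hdg x)
    have h3 : pd i w x = v x * pd i g x + pd i v x * g x := pd_mul i v g x (hdv x) (hdg x)
    rw [h3, h1, hvg x]
    nlinarith [sq_nonneg (UpC_V N x * pd i g x)]
  have i1 : Integrable (fun x => dot (UpC_V N) w x) := by
    have h1 : (fun x => dot (UpC_V N) w x) = fun x => dot w (UpC_V N) x := by
      funext x
      exact dot_comm _ _ _
    rw [h1]
    exact (continuous_dot w (UpC_V N) hw1 hV1).integrable_of_hasCompactSupport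
      (hasCompactSupport_dot w (UpC_V N) hwc)
  have i2 : Integrable (fun x => dot v v x) :=
    (continuous_dot v v hv1 hv1).integrable_of_hasCompactSupport (hasCompactSupport_dot v v hvc)
  have h1 : ∫ x, dot (UpC_V N) w x ≤ energy v := integral_mono i1 i2 hpt
  rw [UpC_ibp hN w hw1 hwc] at h1
  have h2 : ∫ x, UpC_V N x * w x = mass v := by
    unfold mass
    congr 1
    funext x
    show UpC_V N x * (v x * g x) = v x ^ 2
    have h3 := hvg x
    calc UpC_V N x * (v x * g x) = v x * (UpC_V N x * g x) := by ring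
      _ = v x ^ 2 := by rw [← h3, sq]
  rw [h2] at h1
  exact h1

theorem le_ball_eig_one (hN : 2 ≤ N) : bz N ≤ dirEig (Metric.ball (0 : E N) 1) 1 := by
  obtain ⟨c0, V0, hV0, h0⟩ := exists_space (Metric.ball (0 : E N) 1) (by omega)
    Metric.isOpen_ball ⟨0, Metric.mem_ball_self one_pos⟩ 1
  unfold dirEig
  apply le_csInf
  · exact ⟨c0, V0, hV0, fun u hu => ⟨(h0 u hu).1, by rw [← energy_eq]; exact (h0 u hu).2⟩⟩
  · rintro c ⟨V, hV, h⟩
    obtain ⟨u, hu, hu0⟩ := BaC_exists_ne le_rfl hV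
    obtain ⟨h1, h2⟩ := h u hu
    rw [← energy_eq] at h2
    change energy u ≤ c * mass u at h2
    have hm : 0 < mass u := mass_pos u h1.1 h1.2.1 hu0
    have h3 := UpC_lower hN u h1
    exact le_of_mul_le_mul_right (h3.trans h2) hm

/-- slope of the cut off -/
noncomputable def UpC_h (ε s : ℝ) : ℝ := min 1 (max 0 ((s - ε) / ε))

/-- cut off -/
noncomputable def UpC_phi (ε t : ℝ) : ℝ := ∫ s in (0 : ℝ)..t, UpC_h ε s

theorem UpC_h_cont (ε : ℝ) : Continuous (UpC_h ε) :=
  continuous_const.min (continuous_const.max ((continuous_id.sub continuous_const).div_const ε))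

theorem UpC_h_nonneg (ε s : ℝ) : 0 ≤ UpC_h ε s := le_min zero_le_one (le_max_left _ _)

theorem UpC_h_le (ε s : ℝ) : UpC_h ε s ≤ 1 := min_le_left _ _

theorem UpC_h_zero {ε : ℝ} (hε : 0 < ε) {s : ℝ} (hs : s ≤ ε) : UpC_h ε s = 0 := by
  unfold UpC_h
  rw [max_eq_left (div_nonpos_of_nonpos_of_nonneg (by linarith) hε.le)]
  exact min_eq_right zero_le_one

theorem UpC_h_one {ε : ℝ} (hε : 0 < ε) {s : ℝ} (hs : 2 * ε ≤ s) : UpC_h ε s = 1 := by
  unfold UpC_h
  have h1 : 1 ≤ (s - ε) / ε := by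
    rw [le_div_iff₀ hε]
    linarith
  exact min_eq_left (h1.trans (le_max_right _ _))

theorem UpC_phi_deriv (ε t : ℝ) : HasDerivAt (UpC_phi ε) (UpC_h ε t) t :=
  ((UpC_h_cont ε).integral_hasStrictDerivAt 0 t).hasDerivAt

theorem UpC_phi_contDiff (ε : ℝ) : ContDiff ℝ 1 (UpC_phi ε) := by
  rw [contDiff_one_iff_deriv]
  refine ⟨fun t => (UpC_phi_deriv ε t).differentiableAt, ?_⟩
  have h1 : deriv (UpC_phi ε) = UpC_h ε := funext fun t => (UpC_phi_deriv ε t).deriv
  rw [h1]
  exact UpC_h_cont ε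

theorem UpC_phi_zero {ε : ℝ} (hε : 0 < ε) {t : ℝ} (ht : t ≤ ε) : UpC_phi ε t = 0 := by
  unfold UpC_phi
  have h1 : ∫ s in (0 : ℝ)..t, UpC_h ε s = ∫ s in (0 : ℝ)..t, (0 : ℝ) := by
    apply intervalIntegral.integral_congr
    intro s hs
    have h2 : s ≤ max 0 t := (Set.mem_uIcc.1 hs).elim (fun h => h.2.trans (le_max_right _ _))
      (fun h => h.2.trans (le_max_left _ _))
    exact UpC_h_zero hε (h2.trans (max_le hε.le ht))
  rw [h1, intervalIntegral.integral_zero]

theorem UpC_phi_nonneg {ε : ℝ} (hε : 0 < ε) (t : ℝ) : 0 ≤ UpC_phi ε t := by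
  rcases le_total t ε with h | h
  · rw [UpC_phi_zero hε h]
  · exact intervalIntegral.integral_nonneg (hε.le.trans h) (fun s _ => UpC_h_nonneg ε s)

theorem UpC_phi_le {ε : ℝ} {t : ℝ} (ht : 0 ≤ t) : UpC_phi ε t ≤ t := by
  have h1 : UpC_phi ε t ≤ ∫ _ in (0 : ℝ)..t, (1 : ℝ) :=
    intervalIntegral.integral_mono ht ((UpC_h_cont ε).intervalIntegrable _ _)
      intervalIntegrable_const (fun s => UpC_h_le ε s)
  rw [intervalIntegral.integral_const, sub_zero, smul_eq_mul, mul_one] at h1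
  exact h1

theorem UpC_le_phi {ε : ℝ} (hε : 0 < ε) (t : ℝ) : t ≤ UpC_phi ε t + 2 * ε := by
  rcases le_total t (2 * ε) with h | h
  · linarith [UpC_phi_nonneg hε t]
  · have h1 : UpC_phi ε t = UpC_phi ε (2 * ε) + ∫ s in (2 * ε)..t, UpC_h ε s :=
      (intervalIntegral.integral_add_adjacent_intervals ((UpC_h_cont ε).intervalIntegrable _ _)
        ((UpC_h_cont ε).intervalIntegrable _ _)).symm
    have h2 : ∫ s in (2 * ε)..t, UpC_h ε s = ∫ _ in (2 * ε)..t, (1 : ℝ) := by
      apply intervalIntegral.integral_congr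
      intro s hs
      rw [Set.uIcc_of_le h] at hs
      exact UpC_h_one hε hs.1
    rw [h2, intervalIntegral.integral_const, smul_eq_mul, mul_one] at h1
    linarith [UpC_phi_nonneg hε (2 * ε)]

/-- the trial function -/
noncomputable def UpC_v (N : ℕ) (ε : ℝ) (x : E N) : ℝ :=
  if ‖x‖ < 1 then UpC_phi ε (UpC_V N x) else 0

theorem UpC_v_support {ε : ℝ} (hε : 0 < ε) :
    Function.support (UpC_v N ε) ⊆ Metric.closedBall (0 : E N) 1 ∩ {x | ε ≤ UpC_V N x} := by
  intro x hx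
  have h1 : UpC_v N ε x ≠ 0 := hx
  unfold UpC_v at h1
  split_ifs at h1 with h2
  · refine ⟨mem_closedBall_zero_iff.2 h2.le, ?_⟩
    show ε ≤ UpC_V N x
    by_contra h3
    exact h1 (UpC_phi_zero hε (not_le.1 h3).le)
  · exact absurd rfl h1

theorem UpC_v_closed (hN : 2 ≤ N) (ε : ℝ) :
    IsCompact (Metric.closedBall (0 : E N) 1 ∩ {x | ε ≤ UpC_V N x}) :=
  (isCompact_closedBall 0 1).inter_right
    (isClosed_le continuous_const (UpC_contDiff hN 1).continuous)

theorem UpC_v_tsupport (hN : 2 ≤ N) {ε : ℝ} (hε : 0 < ε) :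
    tsupport (UpC_v N ε) ⊆ Metric.closedBall (0 : E N) 1 ∩ {x | ε ≤ UpC_V N x} :=
  closure_minimal (UpC_v_support hε) (UpC_v_closed hN ε).isClosed

theorem UpC_v_ball (hN : 2 ≤ N) {ε : ℝ} (hε : 0 < ε) :
    tsupport (UpC_v N ε) ⊆ Metric.ball (0 : E N) 1 := by
  intro x hx
  obtain ⟨h1, h2⟩ := UpC_v_tsupport hN hε hx
  rw [mem_ball_zero_iff]
  rw [mem_closedBall_zero_iff] at h1
  rcases h1.lt_or_eq with h | h
  · exact h
  · have h3 : ε ≤ UpC_V N x := h2
    rw [UpC_one hN x h] at h3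
    linarith

theorem UpC_v_eventually (ε : ℝ) (x : E N) (hx : ‖x‖ < 1) :
    UpC_v N ε =ᶠ[nhds x] fun y => UpC_phi ε (UpC_V N y) := by
  have h1 : ∀ᶠ y in nhds x, ‖y‖ < 1 := continuous_norm.continuousAt.eventually_lt_const hx
  filter_upwards [h1] with y hy
  unfold UpC_v
  rw [if_pos hy]

theorem UpC_v_test (hN : 2 ≤ N) {ε : ℝ} (hε : 0 < ε) :
    IsTest (Metric.ball (0 : E N) 1) (UpC_v N ε) := by
  refine ⟨?_, ?_, UpC_v_ball hN hε⟩
  · rw [contDiff_iff_contDiffAt]
    intro x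
    by_cases hx : x ∈ tsupport (UpC_v N ε)
    · have h1 : ‖x‖ < 1 := mem_ball_zero_iff.1 (UpC_v_ball hN hε hx)
      have h2 : ContDiffAt ℝ 1 (fun y => UpC_phi ε (UpC_V N y)) x :=
        ((UpC_phi_contDiff ε).comp (UpC_contDiff hN 1)).contDiffAt
      exact h2.congr_of_eventuallyEq (UpC_v_eventually ε x h1)
    · have h1 := notMem_tsupport_iff_eventuallyEq.1 hx
      have h2 : ContDiffAt ℝ 1 (0 : E N → ℝ) x := contDiffAt_const
      exact h2.congr_of_eventuallyEq h1
  · exact HasCompactSupport.of_support_subset_isCompact (UpC_v_closed hN ε) (UpC_v_support hε)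

theorem UpC_v_nonneg {ε : ℝ} (hε : 0 < ε) (x : E N) : 0 ≤ UpC_v N ε x := by
  unfold UpC_v
  split_ifs
  · exact UpC_phi_nonneg hε _
  · exact le_rfl

theorem UpC_v_dot (hN : 2 ≤ N) {ε : ℝ} (hε : 0 < ε) (x : E N) :
    dot (UpC_v N ε) (UpC_v N ε) x ≤ dot (UpC_V N) (UpC_v N ε) x := by
  unfold dot
  apply Finset.sum_le_sum
  intro i _
  by_cases hx : ‖x‖ < 1
  · have h1 : pd i (UpC_v N ε) x = UpC_h ε (UpC_V N x) * pd i (UpC_V N) x := by
      unfold pd
      rw [(UpC_v_eventually ε x hx).fderiv_eq]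
      have h2 : HasFDerivAt (UpC_V N) (fderiv ℝ (UpC_V N) x) x :=
        ((UpC_contDiff hN 1).differentiable (by norm_num) x).hasFDerivAt
      have h3 := (UpC_phi_deriv ε (UpC_V N x)).comp_hasFDerivAt x h2
      have h4 : fderiv ℝ (fun y => UpC_phi ε (UpC_V N y)) x =
          UpC_h ε (UpC_V N x) • fderiv ℝ (UpC_V N) x := h3.fderiv
      rw [h4]
      rfl
    rw [h1]
    have h5 := UpC_h_nonneg ε (UpC_V N x)
    have h6 := UpC_h_le ε (UpC_V N x)
    have h7 : UpC_h ε (UpC_V N x) * UpC_h ε (UpC_V N x) ≤ UpC_h ε (UpC_V N x) := by nlinarith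
    have h8 := mul_le_mul_of_nonneg_right h7 (sq_nonneg (pd i (UpC_V N) x))
    nlinarith
  · have h1 : x ∉ tsupport (UpC_v N ε) := fun h =>
      hx (mem_ball_zero_iff.1 (UpC_v_ball hN hε h))
    have h2 : pd i (UpC_v N ε) x = 0 := by
      unfold pd
      rw [(notMem_tsupport_iff_eventuallyEq.1 h1).fderiv_eq]
      simp
    rw [h2, mul_zero, mul_zero]

/-- `V` on the ball -/
noncomputable def UpC_V1 (N : ℕ) : E N → ℝ := (Metric.ball (0 : E N) 1).indicator (UpC_V N)

/-- `V^2` on the ball -/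
noncomputable def UpC_V2 (N : ℕ) : E N → ℝ :=
  (Metric.ball (0 : E N) 1).indicator (fun x => UpC_V N x ^ 2)

theorem UpC_int (f : E N → ℝ) (hf : Continuous f) :
    Integrable ((Metric.ball (0 : E N) 1).indicator f) := by
  rw [integrable_indicator_iff Metric.isOpen_ball.measurableSet]
  exact (hf.continuousOn.integrableOn_compact (isCompact_closedBall 0 1)).mono_set
    Metric.ball_subset_closedBall

theorem UpC_upper (hN : 2 ≤ N) {ε : ℝ} (hε : 0 < ε) :
    dirEig (Metric.ball (0 : E N) 1) 1 * mass (UpC_v N ε) ≤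
      bz N * (mass (UpC_v N ε) + 2 * ε * ∫ x, UpC_V1 N x) ∧
    (∫ x, UpC_V2 N x) - 4 * ε * (∫ x, UpC_V1 N x) ≤ mass (UpC_v N ε) ∧
    mass (UpC_v N ε) ≤ ∫ x, UpC_V2 N x := by
  have ht := UpC_v_test hN hε
  have hV1 : ContDiff ℝ 1 (UpC_V N) := UpC_contDiff hN 1
  have hbz : 0 < bz N := bz_pos _ (UpC_cast hN)
  have iV1 : Integrable (UpC_V1 N) := UpC_int _ hV1.continuous
  have iV2 : Integrable (UpC_V2 N) := UpC_int _ (hV1.continuous.pow 2)
  have iv : Integrable (UpC_v N ε) := ht.1.continuous.integrable_of_hasCompactSupport ht.2.1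
  have iv2 : Integrable (fun x => UpC_v N ε x ^ 2) := by
    have h1 : (fun x => UpC_v N ε x ^ 2) = fun x => UpC_v N ε x * UpC_v N ε x := by
      funext x
      ring
    rw [h1]
    exact (ht.1.continuous.mul ht.1.continuous).integrable_of_hasCompactSupport ht.2.1.mul_left
  have iVv : Integrable (fun x => UpC_V N x * UpC_v N ε x) :=
    (hV1.continuous.mul ht.1.continuous).integrable_of_hasCompactSupport ht.2.1.mul_left
  have hv1 : ∀ x, UpC_v N ε x ≤ UpC_V1 N x := by
    intro x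
    unfold UpC_v UpC_V1
    by_cases hx : ‖x‖ < 1
    · rw [if_pos hx, Set.indicator_of_mem (mem_ball_zero_iff.2 hx)]
      exact UpC_phi_le (UpC_pos hN x hx).le
    · rw [if_neg hx, Set.indicator_of_notMem (fun h => hx (mem_ball_zero_iff.1 h))]
  have hv2 : ∀ x, UpC_V N x * UpC_v N ε x ≤ UpC_v N ε x ^ 2 + 2 * ε * UpC_v N ε x := by
    intro x
    unfold UpC_v
    by_cases hx : ‖x‖ < 1
    · rw [if_pos hx]
      have h1 := UpC_le_phi hε (UpC_V N x)
      have h2 := UpC_phi_nonneg hε (UpC_V N x)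
      nlinarith
    · rw [if_neg hx]
      simp
  have hv3 : ∀ x, UpC_V2 N x - 4 * ε * UpC_V1 N x ≤ UpC_v N ε x ^ 2 := by
    intro x
    unfold UpC_v UpC_V1 UpC_V2
    by_cases hx : ‖x‖ < 1
    · rw [if_pos hx, Set.indicator_of_mem (mem_ball_zero_iff.2 hx),
        Set.indicator_of_mem (mem_ball_zero_iff.2 hx)]
      have h1 := UpC_le_phi hε (UpC_V N x)
      have h2 := UpC_phi_nonneg hε (UpC_V N x)
      have h3 := UpC_phi_le (ε := ε) (UpC_pos hN x hx).le
      have h4 := UpC_pos hN x hx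
      have h5 : (UpC_V N x - UpC_phi ε (UpC_V N x)) * (UpC_V N x + UpC_phi ε (UpC_V N x)) ≤
          (2 * ε) * (2 * UpC_V N x) := by
        apply mul_le_mul <;> linarith
      nlinarith
    · rw [if_neg hx, Set.indicator_of_notMem (fun h => hx (mem_ball_zero_iff.1 h)),
        Set.indicator_of_notMem (fun h => hx (mem_ball_zero_iff.1 h))]
      simp
  have hv4 : ∀ x, UpC_v N ε x ^ 2 ≤ UpC_V2 N x := by
    intro x
    unfold UpC_v UpC_V2
    by_cases hx : ‖x‖ < 1
    · rw [if_pos hx, Set.indicator_of_mem (mem_ball_zero_iff.2 hx)]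
      exact pow_le_pow_left₀ (UpC_phi_nonneg hε _) (UpC_phi_le (UpC_pos hN x hx).le) 2
    · rw [if_neg hx, Set.indicator_of_notMem (fun h => hx (mem_ball_zero_iff.1 h))]
      simp
  refine ⟨?_, ?_, ?_⟩
  · have h1 := eig_one_le (Metric.ball (0 : E N) 1) (UpC_v N ε) ht
    have i1 : Integrable (fun x => dot (UpC_V N) (UpC_v N ε) x) := by
      have h2 : (fun x => dot (UpC_V N) (UpC_v N ε) x) = fun x => dot (UpC_v N ε) (UpC_V N) x := by
        funext x
        exact dot_comm _ _ _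
      rw [h2]
      exact (continuous_dot _ _ ht.1 hV1).integrable_of_hasCompactSupport
        (hasCompactSupport_dot _ _ ht.2.1)
    have i2 : Integrable (fun x => dot (UpC_v N ε) (UpC_v N ε) x) :=
      (continuous_dot _ _ ht.1 ht.1).integrable_of_hasCompactSupport
        (hasCompactSupport_dot _ _ ht.2.1)
    have h3 : energy (UpC_v N ε) ≤ ∫ x, dot (UpC_V N) (UpC_v N ε) x :=
      integral_mono i2 i1 (UpC_v_dot hN hε)
    rw [UpC_ibp hN _ ht.1 ht.2.1] at h3
    have h4 : ∫ x, UpC_V N x * UpC_v N ε x ≤ mass (UpC_v N ε) + 2 * ε * ∫ x, UpC_v N ε x := by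
      unfold mass
      rw [← integral_const_mul, ← integral_add iv2 (iv.const_mul _)]
      exact integral_mono iVv (iv2.add (iv.const_mul _)) hv2
    have h5 : ∫ x, UpC_v N ε x ≤ ∫ x, UpC_V1 N x := integral_mono iv iV1 hv1
    have h6 : 2 * ε * ∫ x, UpC_v N ε x ≤ 2 * ε * ∫ x, UpC_V1 N x :=
      mul_le_mul_of_nonneg_left h5 (by linarith)
    have h7 : bz N * ∫ x, UpC_V N x * UpC_v N ε x ≤
        bz N * (mass (UpC_v N ε) + 2 * ε * ∫ x, UpC_V1 N x) :=
      mul_le_mul_of_nonneg_left (by linarith) hbz.le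
    linarith
  · unfold mass
    rw [← integral_const_mul, ← integral_sub iV2 (iV1.const_mul _)]
    exact integral_mono (iV2.sub (iV1.const_mul _)) iv2 hv3
  · exact integral_mono iv2 iV2 hv4

theorem ball_eig_one_le (hN : 2 ≤ N) : dirEig (Metric.ball (0 : E N) 1) 1 ≤ bz N := by
  set lam := dirEig (Metric.ball (0 : E N) 1) 1 with hlam
  set A := ∫ x, UpC_V2 N x with hA
  set M := ∫ x, UpC_V1 N x with hM
  have hbz : 0 < bz N := bz_pos _ (UpC_cast hN)
  have hA0 : 0 < A := by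
    have h1 := (UpC_upper hN (ε := 1 / 4) (by norm_num)).2.2
    have ht := UpC_v_test hN (ε := 1 / 4) (by norm_num)
    refine lt_of_lt_of_le (mass_pos _ ht.1 ht.2.1 ?_) h1
    intro h
    have h2 : UpC_v N (1 / 4) 0 = 0 := by
      rw [h]
      rfl
    unfold UpC_v at h2
    rw [if_pos (by rw [norm_zero]; norm_num)] at h2
    have h3 : UpC_V N 0 = 1 := by
      unfold UpC_V
      rw [norm_zero]
      have : bz N * (0 : ℝ) ^ 2 = 0 := by ring
      rw [this]
      exact bj_at_zero _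
    rw [h3] at h2
    have h4 := UpC_le_phi (ε := 1 / 4) (by norm_num) 1
    linarith
  have hM0 : 0 ≤ M := by
    apply integral_nonneg
    intro x
    unfold UpC_V1
    apply Set.indicator_nonneg
    intro y hy
    exact (UpC_pos hN y (mem_ball_zero_iff.1 hy)).le
  by_contra hcon
  have hd : 0 < lam - bz N := by linarith [not_le.1 hcon]
  set D := 2 * bz N * M + 4 * M * (lam - bz N) with hD
  have hD0 : 0 ≤ D := by positivity
  set δ := (lam - bz N) * A with hδ
  have hδ0 : 0 < δ := mul_pos hd hA0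
  set ε := δ / (2 * (D + 1)) with hε
  have hε0 : 0 < ε := by positivity
  obtain ⟨h1, h2, _⟩ := UpC_upper hN hε0
  set m := mass (UpC_v N ε) with hm
  have h3 : (lam - bz N) * m ≤ 2 * bz N * ε * M := by nlinarith
  have h4 : (lam - bz N) * (A - 4 * ε * M) ≤ (lam - bz N) * m :=
    mul_le_mul_of_nonneg_left h2 hd.le
  have h5 : δ ≤ ε * D := by
    rw [hδ, hD]
    nlinarith
  have h6 : ε * D < δ := by
    have h7 : ε * (2 * (D + 1)) = δ := by
      rw [hε]
      field_simp
    nlinarith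
  linarith

end Pool.Agent.H94.ER
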