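import Pool.Agent.H94.ER.UpB
import Pool.Agent.H94.ER.UpC
import Pool.Agent.H94.ER.LoC

/-!
# Main: the ball maximises `λ_{N+2}/λ_1` among open sets with an irreducible symmetry containing `-1`
-/

set_option autoImplicit false

open MeasureTheory

namespace Pool.Agent.H94.ER

theorem main (N : ℕ) (hN : 2 ≤ N) (Ω : Set (E N)) (hΩ : IsOpen Ω) (hne : Ω.Nonempty)
    (G : Subgroup (E N ≃ₗᵢ[ℝ] E N)) [Finite G] (hG : ∀ g ∈ G, g '' Ω = Ω)
    (hneg : LinearIsometryEquiv.neg ℝ ∈ G)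
    (hirr : ∀ V : Submodule ℝ (E N), (∀ g ∈ G, ∀ v ∈ V, g v ∈ V) → V = ⊥ ∨ V = ⊤) :
    0 < dirEig (Metric.ball (0 : E N) 1) 1 ∧
    dirEig Ω (N + 2) * dirEig (Metric.ball (0 : E N) 1) 1
      ≤ dirEig (Metric.ball (0 : E N) 1) (N + 2) * dirEig Ω 1 := by
  have hb := bz_pos (N : ℝ) (by exact_mod_cast hN)
  have h1 := ball_eig_one_le hN
  have h2 := le_ball_eig_one hN
  have h3 := le_ball_eig hN
  have h4 := upper hN Ω hΩ hne G hG hneg hirr
  have h5 := dirEig_nonneg Ω 1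
  have h6 := dirEig_nonneg Ω (N + 2)
  refine ⟨lt_of_lt_of_le hb h2, ?_⟩
  calc dirEig Ω (N + 2) * dirEig (Metric.ball (0 : E N) 1) 1
      ≤ dirEig Ω (N + 2) * bz N := by gcongr
    _ ≤ bz (N + 4) * dirEig Ω 1 := h4
    _ ≤ dirEig (Metric.ball (0 : E N) 1) (N + 2) * dirEig Ω 1 := by gcongr

end Pool.Agent.H94.ER
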