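import Mathlib

/-!
# PrA: Hadamard's lemma

`f ∈ C^(n+1)(ℝ)`, `f 1 = 0`: there is `g ∈ C^n(ℝ)` with `f s = (1 - s) g s`.
`g s = - ∫_0^1 f' (1 + t (s - 1)) dt`. `C^n` by differentiation under the integral sign, e.g. induction on
`n`: `g` is continuous (`intervalIntegral.continuous_parametric_intervalIntegral_of_continuous`), and its
derivative is `- ∫_0^1 t f'' (1 + t (s-1)) dt`
(`intervalIntegral.hasDerivAt_integral_of_dominated_loc_of_deriv_le`). For the induction prove more
generally that `s ↦ ∫_0^1 t^m h (1 + t (s-1)) dt` is `C^n` if `h` is `C^n`. (Mathlib may also have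
`contDiff_parametric_intervalIntegral`-like lemmas.)
-/

set_option autoImplicit false

namespace Pool.Agent.H94.ER

open MeasureTheory in
theorem PrA_hasDeriv (m : ℕ) (h : ℝ → ℝ) (hh : ContDiff ℝ 1 h) (s : ℝ) :
    HasDerivAt (fun s => ∫ t in (0 : ℝ)..1, t ^ m * h (1 + t * (s - 1)))
      (∫ t in (0 : ℝ)..1, t ^ (m + 1) * deriv h (1 + t * (s - 1))) s := by
  have hc : Continuous h := hh.continuous
  have hd : Continuous (deriv h) := hh.continuous_deriv le_rfl
  have hdi : Differentiable ℝ h := hh.differentiable one_ne_zero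
  obtain ⟨C, hC⟩ := (isCompact_Icc (a := -(|s| + 3)) (b := |s| + 3)).exists_bound_of_continuousOn
    hd.continuousOn
  refine (intervalIntegral.hasDerivAt_integral_of_dominated_loc_of_deriv_le
    (F := fun s t => t ^ m * h (1 + t * (s - 1)))
    (F' := fun s t => t ^ (m + 1) * deriv h (1 + t * (s - 1)))
    (bound := fun _ => C) (s := Metric.ball s 1) (Metric.ball_mem_nhds s one_pos)
    ?_ ?_ ?_ ?_ ?_ ?_).2
  · refine Filter.Eventually.of_forall fun x => ?_
    exact Continuous.aestronglyMeasurable (by fun_prop)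
  · exact Continuous.intervalIntegrable (by fun_prop) _ _
  · exact Continuous.aestronglyMeasurable (by fun_prop)
  · refine Filter.Eventually.of_forall fun t ht x hx => ?_
    rw [Set.uIoc_of_le zero_le_one] at ht
    have hx' : |x - s| < 1 := by simpa [Real.dist_eq] using hx
    have h0 : |t| ≤ 1 := by rw [abs_of_pos ht.1]; exact ht.2
    have h1 : ‖t ^ (m + 1)‖ ≤ 1 := by
      rw [norm_pow, Real.norm_eq_abs]
      exact pow_le_one₀ (abs_nonneg t) h0
    have h2 : |x - 1| ≤ |s| + 2 := by
      have e : x - 1 = (x - s) + s - 1 := by ring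
      calc |x - 1| = |(x - s) + s - 1| := by rw [← e]
        _ ≤ |(x - s) + s| + |(1 : ℝ)| := abs_sub _ _
        _ ≤ |x - s| + |s| + |(1 : ℝ)| := by gcongr; exact abs_add_le _ _
        _ ≤ |s| + 2 := by rw [abs_one]; linarith
    have h3 : |t * (x - 1)| ≤ |s| + 2 := by
      rw [abs_mul]
      calc |t| * |x - 1| ≤ 1 * (|s| + 2) :=
            mul_le_mul h0 h2 (abs_nonneg _) zero_le_one
        _ = |s| + 2 := one_mul _
    have h4 : (1 + t * (x - 1)) ∈ Set.Icc (-(|s| + 3)) (|s| + 3) := by
      have := abs_le.1 h3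
      constructor <;> linarith [this.1, this.2]
    rw [norm_mul]
    calc ‖t ^ (m + 1)‖ * ‖deriv h (1 + t * (x - 1))‖ ≤ 1 * C :=
          mul_le_mul h1 (hC _ h4) (norm_nonneg _) zero_le_one
      _ = C := one_mul C
  · exact Continuous.intervalIntegrable continuous_const _ _
  · refine Filter.Eventually.of_forall fun t _ x _ => ?_
    have h1 : HasDerivAt (fun x : ℝ => 1 + t * (x - 1)) t x := by
      have := (((hasDerivAt_id x).sub_const 1).const_mul t).const_add 1
      simpa using this
    have h2 := ((hdi (1 + t * (x - 1))).hasDerivAt.comp x h1).const_mul (t ^ m)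
    have e : t ^ (m + 1) * deriv h (1 + t * (x - 1)) =
        t ^ m * (deriv h (1 + t * (x - 1)) * t) := by ring
    show HasDerivAt (fun x => t ^ m * h (1 + t * (x - 1)))
      (t ^ (m + 1) * deriv h (1 + t * (x - 1))) x
    rw [e]
    exact h2

open intervalIntegral in
theorem PrA_contDiff (n : ℕ) : ∀ (m : ℕ) (h : ℝ → ℝ), ContDiff ℝ n h →
    ContDiff ℝ n (fun s => ∫ t in (0 : ℝ)..1, t ^ m * h (1 + t * (s - 1))) := by
  induction n with
  | zero =>
    intro m h hh
    have hc : Continuous h := hh.continuous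
    have : Continuous (fun s => ∫ t in (0 : ℝ)..1, t ^ m * h (1 + t * (s - 1))) := by
      refine continuous_parametric_intervalIntegral_of_continuous'
        (f := fun s t => t ^ m * h (1 + t * (s - 1))) ?_ 0 1
      unfold Function.uncurry
      fun_prop
    exact contDiff_zero.2 this
  | succ n ih =>
    intro m h hh
    have h1 : ContDiff ℝ 1 h := hh.of_le (by exact_mod_cast Nat.le_add_left 1 n)
    have h2 : ContDiff ℝ n (deriv h) := by
      have := (contDiff_succ_iff_deriv (n := (n : WithTop ℕ∞))).1 (by exact_mod_cast hh)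
      exact this.2.2
    have hder := PrA_hasDeriv m h h1
    have h3 : ContDiff ℝ ((n : WithTop ℕ∞) + 1)
        (fun s => ∫ t in (0 : ℝ)..1, t ^ m * h (1 + t * (s - 1))) := by
      refine contDiff_succ_iff_deriv.2 ⟨fun s => (hder s).differentiableAt, ?_, ?_⟩
      · intro hω
        exact absurd hω (by simp)
      · have : deriv (fun s => ∫ t in (0 : ℝ)..1, t ^ m * h (1 + t * (s - 1))) =
            fun s => ∫ t in (0 : ℝ)..1, t ^ (m + 1) * deriv h (1 + t * (s - 1)) :=
          funext fun s => (hder s).deriv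
        rw [this]
        exact ih (m + 1) (deriv h) h2
    exact_mod_cast h3

theorem hadamard (n : ℕ) (f : ℝ → ℝ) (hf : ContDiff ℝ (n + 1) f) (h1 : f 1 = 0) :
    ∃ g : ℝ → ℝ, ContDiff ℝ n g ∧ ∀ s, f s = (1 - s) * g s := by
  have hd := (contDiff_succ_iff_deriv (n := (n : WithTop ℕ∞))).1 hf
  have hc : Continuous (deriv f) := hd.2.2.continuous
  refine ⟨fun s => -∫ t in (0 : ℝ)..1, t ^ 0 * deriv f (1 + t * (s - 1)),
    (PrA_contDiff n 0 (deriv f) hd.2.2).neg, fun s => ?_⟩
  have h2 : ∫ t in (0 : ℝ)..1, (s - 1) * deriv f (1 + t * (s - 1)) =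
      f (1 + 1 * (s - 1)) - f (1 + 0 * (s - 1)) := by
    refine intervalIntegral.integral_eq_sub_of_hasDerivAt
      (f := fun t => f (1 + t * (s - 1))) (fun t _ => ?_) ?_
    · have h3 : HasDerivAt (fun t : ℝ => 1 + t * (s - 1)) (s - 1) t := by
        have := ((hasDerivAt_id t).mul_const (s - 1)).const_add 1
        simpa using this
      have h4 := (hd.1 (1 + t * (s - 1))).hasDerivAt.comp t h3
      rw [mul_comm]
      exact h4
    · exact Continuous.intervalIntegrable (by fun_prop) _ _
  rw [intervalIntegral.integral_const_mul] at h2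
  have h5 : f (1 + 1 * (s - 1)) = f s := by congr 1; ring
  have h6 : f (1 + 0 * (s - 1)) = 0 := by rw [zero_mul, add_zero, h1]
  rw [h5, h6] at h2
  simp only [pow_zero, one_mul]
  linarith

end Pool.Agent.H94.ER
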