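import Pool.Agent.H94.ER.BjC
import Pool.Agent.H94.ER.PrA

/-!
# PrB: `uh d s = bj d (bz d * s) / (1 - s)`
-/

set_option autoImplicit false

namespace Pool.Agent.H94.ER

theorem PrB_uh_eq (d : ℝ) (hd : 2 ≤ d) (n : ℕ) :
    ∃ g : ℝ → ℝ, ContDiff ℝ n g ∧ (∀ s, bj d (bz d * s) = (1 - s) * g s) ∧ uh d = g := by
  have hd0 : 0 < d := by linarith
  have hf : ContDiff ℝ (((n + 1 : ℕ) : WithTop ℕ∞) + 1) (fun s => bj d (bz d * s)) := by
    have h := (contDiff_bj d hd0 (n + 1 + 1)).comp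
      (contDiff_const.mul contDiff_id : ContDiff ℝ ((n + 1 + 1 : ℕ) : WithTop ℕ∞)
        (fun s : ℝ => bz d * s))
    exact_mod_cast h
  obtain ⟨g, hg, hfg⟩ := hadamard (n + 1) (fun s => bj d (bz d * s)) hf
    (by simp [bj_bz d hd])
  refine ⟨g, hg.of_le (by norm_cast; exact Nat.le_succ n), hfg, ?_⟩
  funext s
  unfold uh
  split_ifs with h
  · rw [h]
    have h1 : HasDerivAt (fun s => bj d (bz d * s)) (-(bj (d + 2) (bz d)) / (2 * d) * (bz d * 1)) 1 := by
      have h2 := hasDerivAt_bj d hd0 (bz d * 1)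
      have h3 : HasDerivAt (fun s : ℝ => bz d * s) (bz d * 1) 1 :=
        (hasDerivAt_id (1 : ℝ)).const_mul (bz d)
      have h4 := HasDerivAt.comp (1 : ℝ) h2 h3
      rw [mul_one] at h4 ⊢
      exact h4
    have h2 : HasDerivAt (fun s => (1 - s) * g s) ((0 - 1) * g 1 + (1 - 1) * deriv g 1) 1 := by
      have hgd : HasDerivAt g (deriv g 1) 1 :=
        ((hg.differentiable (by norm_cast)) 1).hasDerivAt
      exact ((hasDerivAt_const (1 : ℝ) (1 : ℝ)).sub (hasDerivAt_id (1 : ℝ))).mul hgd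
    have h3 : (fun s => bj d (bz d * s)) = fun s => (1 - s) * g s := funext hfg
    rw [h3] at h1
    have := h1.unique h2
    have h4 : bz d * bj (d + 2) (bz d) / (2 * d) = -(-(bj (d + 2) (bz d)) / (2 * d) * (bz d * 1)) := by
      ring
    rw [h4, this]
    ring
  · have : 1 - s ≠ 0 := fun hh => h (by linarith)
    rw [hfg s]
    field_simp

theorem contDiff_uh (d : ℝ) (hd : 2 ≤ d) (n : ℕ) : ContDiff ℝ n (uh d) := by
  obtain ⟨g, hg, _, h⟩ := PrB_uh_eq d hd n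
  rw [h]; exact hg

theorem uh_mul (d : ℝ) (hd : 2 ≤ d) (s : ℝ) : bj d (bz d * s) = (1 - s) * uh d s := by
  obtain ⟨g, _, hg, h⟩ := PrB_uh_eq d hd 0
  rw [h]; exact hg s

theorem uh_pos (d : ℝ) (hd : 2 ≤ d) (s : ℝ) (hs : s ≤ 1) : 0 < uh d s := by
  have hb := bz_pos d hd
  unfold uh
  split_ifs with h
  · have h1 := bj_pos (d + 2) (by linarith) (bz d) (bz_lt d hd)
    have : 0 < 2 * d := by linarith
    positivity
  · have hs' : s < 1 := lt_of_le_of_ne hs h
    exact div_pos (bj_pos d hd _ (by nlinarith)) (by linarith)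

end Pool.Agent.H94.ER
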