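import Pool.Agent.H94.ER.PrC

/-!
# PrD: monotonicity of the profile and `γ > k (N + k - 2)`

`M(s) = s^a U^2 G`, `a = (N+k-2)/2`, satisfies `M' = s^a U^2 F (μ/s - γ)/2`.
-/

set_option autoImplicit false

namespace Pool.Agent.H94.ER

theorem PrD_hasDerivAt_F0 (N k : ℕ) (hN : 2 ≤ N) (s : ℝ) (hs : s ≤ 1) :
    HasDerivAt (F0 N k) (deriv (F0 N k) s) s :=
  ((F0_smooth N k hN s hs 1).differentiableAt (by norm_num)).hasDerivAt

theorem PrD_hasDerivAt_dF0 (N k : ℕ) (hN : 2 ≤ N) (s : ℝ) (hs : s ≤ 1) :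
    HasDerivAt (deriv (F0 N k)) (deriv (deriv (F0 N k)) s) s := by
  have h := (F0_smooth N k hN s hs 2).fderiv_right (m := 1) (by norm_num)
  have h2 : DifferentiableAt ℝ (fun x => fderiv ℝ (F0 N k) x 1) s :=
    (h.differentiableAt (by norm_num)).clm_apply (differentiableAt_const _)
  have h3 : DifferentiableAt ℝ (deriv (F0 N k)) s := by
    have : deriv (F0 N k) = fun x => fderiv ℝ (F0 N k) x 1 := by
      funext x; exact (fderiv_apply_one_eq_deriv).symm
    rw [this]; exact h2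
  exact h3.hasDerivAt

/-- the function `M` -/
noncomputable def PrD_M (N k : ℕ) (s : ℝ) : ℝ :=
  s ^ (((N : ℝ) + k - 2) / 2) * bj N (bz N * s) ^ 2 *
    (k * F0 N k s + 2 * s * deriv (F0 N k) s)

theorem PrD_hasDerivAt_M (N k : ℕ) (hN : 2 ≤ N) (s : ℝ) (h0 : 0 < s) (h1 : s < 1) :
    HasDerivAt (PrD_M N k) (s ^ (((N : ℝ) + k - 2) / 2) * bj N (bz N * s) ^ 2 * F0 N k s *
      ((k : ℝ) * (N + k - 2) / s - (bz (N + 2 * k) - bz N)) / 2) s := by
  have hF := PrD_hasDerivAt_F0 N k hN s h1.le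
  have hdF := PrD_hasDerivAt_dF0 N k hN s h1.le
  have hU := hasDerivAt_U N hN s
  have hp : HasDerivAt (fun t : ℝ => t ^ (((N : ℝ) + k - 2) / 2))
      ((((N : ℝ) + k - 2) / 2) * s ^ (((N : ℝ) + k - 2) / 2 - 1)) s :=
    Real.hasDerivAt_rpow_const (Or.inl h0.ne')
  have hG : HasDerivAt (fun t => (k : ℝ) * F0 N k t + 2 * t * deriv (F0 N k) t)
      ((k : ℝ) * deriv (F0 N k) s + (2 * 1 * deriv (F0 N k) s + 2 * s * deriv (deriv (F0 N k)) s)) s :=
    (hF.const_mul _).add (((hasDerivAt_id s).const_mul 2).mul hdF)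
  have hM := (hp.mul (hU.pow 2)).mul hG
  refine hM.congr_deriv ?_
  have ode := profile_ode N k hN s h1.le
  have hpow : s ^ (((N : ℝ) + k - 2) / 2 - 1) = s ^ (((N : ℝ) + k - 2) / 2) / s := by
    rw [Real.rpow_sub h0, Real.rpow_one]
  rw [hpow]
  set P := s ^ (((N : ℝ) + k - 2) / 2)
  set U := bj N (bz N * s)
  set U' := uder N s
  set F := F0 N k s
  set F' := deriv (F0 N k) s
  set F'' := deriv (deriv (F0 N k)) s
  have hs : s ≠ 0 := h0.ne'
  set γd := bz ((N : ℝ) + 2 * k)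
  have hsq : ((fun t => bj N (bz N * t)) ^ 2) s = U ^ 2 := rfl
  simp only [Nat.cast_ofNat, Nat.reduceSub, pow_one, Pi.mul_apply, hsq]
  field_simp
  have e : U ^ 2 * (4 * s * F'') = - U ^ 2 * (2 * (N + 2 * k) * F' + (γd - bz N) * F)
      - U * (U' * (8 * s * F' + 4 * k * F)) := by
    linear_combination U * ode
  linear_combination (P * s) * e
  
theorem PrD_cont_M (N k : ℕ) (hN : 2 ≤ N) (hk : 1 ≤ k) :
    ContinuousOn (PrD_M N k) (Set.Icc 0 1) := by
  have hN' : (2 : ℝ) ≤ N := by exact_mod_cast hN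
  have hk' : (1 : ℝ) ≤ k := by exact_mod_cast hk
  have ha : 0 ≤ ((N : ℝ) + k - 2) / 2 := by linarith
  intro s hs
  refine ContinuousAt.continuousWithinAt ?_
  unfold PrD_M
  refine ContinuousAt.mul (ContinuousAt.mul ?_ ?_) ?_
  · exact Real.continuousAt_rpow_const s _ (Or.inr ha)
  · exact (hasDerivAt_U N hN s).continuousAt.pow 2
  · exact ((PrD_hasDerivAt_F0 N k hN s hs.2).continuousAt.const_mul _).add
      ((continuousAt_id.const_mul 2).mul (PrD_hasDerivAt_dF0 N k hN s hs.2).continuousAt)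

theorem PrD_U_pos (N : ℕ) (hN : 2 ≤ N) (s : ℝ) (h1 : s < 1) : 0 < bj N (bz N * s) := by
  have hN' : (2 : ℝ) ≤ N := by exact_mod_cast hN
  have hb := bz_pos N hN'
  exact bj_pos N hN' _ (by nlinarith)

theorem PrD_M_zero (N k : ℕ) (hN : 2 ≤ N) (hk : 1 ≤ k) : PrD_M N k 0 = 0 := by
  have hN' : (2 : ℝ) ≤ N := by exact_mod_cast hN
  have hk' : (1 : ℝ) ≤ k := by exact_mod_cast hk
  unfold PrD_M
  rw [Real.zero_rpow (by linarith)]
  ring

theorem PrD_M_one (N k : ℕ) (hN : 2 ≤ N) : PrD_M N k 1 = 0 := by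
  have hN' : (2 : ℝ) ≤ N := by exact_mod_cast hN
  unfold PrD_M
  rw [mul_one, bj_bz N hN']
  ring

theorem gamma_gt (N k : ℕ) (hN : 2 ≤ N) (hk : 1 ≤ k) :
    (k : ℝ) * (N + k - 2) < bz (N + 2 * k) - bz N := by
  by_contra hcon
  push Not at hcon
  have hN' : (2 : ℝ) ≤ N := by exact_mod_cast hN
  have hk' : (1 : ℝ) ≤ k := by exact_mod_cast hk
  have hmu : 0 < (k : ℝ) * (N + k - 2) := by
    apply mul_pos <;> linarith
  have hmono : StrictMonoOn (PrD_M N k) (Set.Icc 0 1) := by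
    refine strictMonoOn_of_deriv_pos (convex_Icc 0 1) (PrD_cont_M N k hN hk) ?_
    intro s hs
    rw [interior_Icc] at hs
    rw [(PrD_hasDerivAt_M N k hN s hs.1 hs.2).deriv]
    have h1 := PrD_U_pos N hN s hs.2
    have h2 := F0_pos N k hN s hs.2.le
    have h3 : 0 < s ^ (((N : ℝ) + k - 2) / 2) := Real.rpow_pos_of_pos hs.1 _
    have h4 : (k : ℝ) * (N + k - 2) < (k : ℝ) * (N + k - 2) / s := by
      rw [lt_div_iff₀ hs.1]
      nlinarith [hs.2]
    have h5 : 0 < (k : ℝ) * (N + k - 2) / s - (bz (N + 2 * k) - bz N) := by linarith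
    positivity
  have := hmono (Set.left_mem_Icc.2 zero_le_one) (Set.right_mem_Icc.2 zero_le_one) zero_lt_one
  rw [PrD_M_zero N k hN hk, PrD_M_one N k hN] at this
  exact lt_irrefl _ this

theorem PrD_M_nonneg (N k : ℕ) (hN : 2 ≤ N) (hk : 1 ≤ k) (s : ℝ) (h0 : 0 ≤ s) (h1 : s ≤ 1) :
    0 ≤ PrD_M N k s := by
  have hN' : (2 : ℝ) ≤ N := by exact_mod_cast hN
  have hk' : (1 : ℝ) ≤ k := by exact_mod_cast hk
  have hmu : 0 < (k : ℝ) * (N + k - 2) := by
    apply mul_pos <;> linarith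
  have hg := gamma_gt N k hN hk
  set γ := bz ((N : ℝ) + 2 * k) - bz N with hγ
  set μ := (k : ℝ) * (N + k - 2) with hμ
  have hγ0 : 0 < γ := hmu.trans hg
  have hs0 : 0 < μ / γ := div_pos hmu hγ0
  have hs1 : μ / γ < 1 := (div_lt_one hγ0).2 hg
  have hcont := PrD_cont_M N k hN hk
  have hsign : ∀ t, 0 < t → t < 1 → 0 < t ^ (((N : ℝ) + k - 2) / 2) * bj N (bz N * t) ^ 2
      * F0 N k t := by
    intro t ht0 ht1
    have h1 := PrD_U_pos N hN t ht1
    have h2 := F0_pos N k hN t ht1.le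
    have h3 : 0 < t ^ (((N : ℝ) + k - 2) / 2) := Real.rpow_pos_of_pos ht0 _
    positivity
  rcases le_total s (μ / γ) with hs | hs
  · have hmono : MonotoneOn (PrD_M N k) (Set.Icc 0 (μ / γ)) := by
      refine monotoneOn_of_deriv_nonneg (convex_Icc _ _)
        (hcont.mono (Set.Icc_subset_Icc_right hs1.le)) ?_ ?_
      · intro t ht
        rw [interior_Icc] at ht
        exact (PrD_hasDerivAt_M N k hN t ht.1 (ht.2.trans hs1)).differentiableAt.differentiableWithinAt
      · intro t ht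
        rw [interior_Icc] at ht
        rw [(PrD_hasDerivAt_M N k hN t ht.1 (ht.2.trans hs1)).deriv]
        have h5 : 0 ≤ μ / t - γ := by
          rw [sub_nonneg, le_div_iff₀ ht.1]
          have := ht.2.le
          rw [le_div_iff₀ hγ0] at this
          linarith
        have := hsign t ht.1 (ht.2.trans hs1)
        exact div_nonneg (mul_nonneg this.le h5) (by norm_num)
    have := hmono (Set.left_mem_Icc.2 hs0.le) ⟨h0, hs⟩ h0
    rwa [PrD_M_zero N k hN hk] at this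
  · have hanti : AntitoneOn (PrD_M N k) (Set.Icc (μ / γ) 1) := by
      refine antitoneOn_of_deriv_nonpos (convex_Icc _ _)
        (hcont.mono (Set.Icc_subset_Icc_left hs0.le)) ?_ ?_
      · intro t ht
        rw [interior_Icc] at ht
        exact (PrD_hasDerivAt_M N k hN t (hs0.trans ht.1) ht.2).differentiableAt.differentiableWithinAt
      · intro t ht
        rw [interior_Icc] at ht
        rw [(PrD_hasDerivAt_M N k hN t (hs0.trans ht.1) ht.2).deriv]
        have h5 : μ / t - γ ≤ 0 := by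
          rw [sub_nonpos, div_le_iff₀ (hs0.trans ht.1)]
          have := ht.1.le
          rw [div_le_iff₀ hγ0] at this
          linarith
        have := hsign t (hs0.trans ht.1) ht.2
        exact div_nonpos_of_nonpos_of_nonneg (mul_nonpos_of_nonneg_of_nonpos this.le h5) (by norm_num)
    have := hanti ⟨hs, h1⟩ (Set.right_mem_Icc.2 hs1.le) h1
    rwa [PrD_M_one N k hN] at this

theorem G_nonneg (N k : ℕ) (hN : 2 ≤ N) (hk : 1 ≤ k) (s : ℝ) (h0 : 0 ≤ s) (h1 : s ≤ 1) :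
    0 ≤ k * F0 N k s + 2 * s * deriv (F0 N k) s := by
  rcases h0.eq_or_lt with h | h
  · rw [← h]
    have := F0_pos N k hN 0 zero_le_one
    have hk' : (0 : ℝ) ≤ k := by positivity
    simp only [mul_zero, zero_mul, add_zero]
    positivity
  rcases h1.eq_or_lt with h' | h'
  · rw [h', F0_deriv_one N k hN]
    apply le_of_eq
    ring
  have hM := PrD_M_nonneg N k hN hk s h0 h1
  unfold PrD_M at hM
  have h1 := PrD_U_pos N hN s h'
  have h3 : 0 < s ^ (((N : ℝ) + k - 2) / 2) := Real.rpow_pos_of_pos h _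
  have h4 : 0 < s ^ (((N : ℝ) + k - 2) / 2) * bj N (bz N * s) ^ 2 := by positivity
  exact nonneg_of_mul_nonneg_right hM h4

end Pool.Agent.H94.ER
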