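import Pool.Agent.H94.ER.PrE

/-!
# PrF: the radial certificate

`ρ = Fp N k 1`, `Hk = ρ^2 - Pk k (Fp N k)`, `U s = bj N (bz N * s)`, `U' = uder N`. For `s < 1` put
  `ξ = Hk' + 2 Hk U'/U`.
(1) `ξ` extends to a `C^1` function near `(-∞,1]` with `ξ 1 = 0`: with `d = N+2k`, near `(-∞, 1]`
 `ρ^2 - s^k (F0 s)^2 = n(s) / (uh N s)^2`, `n(s) = ρ^2 (uh N s)^2 - s^k (uh d s)^2`, a smooth function on `ℝ` with
 `n 1 = 0` (`ρ = uh d 1 / uh N 1`); `hadamard`: `n = (1-s) m(s)`, `m ∈ C^2`. As `U = (1-s) uh N s`,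
 `Hk U'/U = m U' / (uh N)^3`, of class `C^1` near `(-∞,1]`. Define `ξ s = deriv h s + 2 m U'/(uh N)^3` with
 `h s = n(s)/(uh N s)^2`. `deriv h 1 = 0` because `(s^k F0^2)' = s^(k-1) F0 (k F0 + 2 s F0')` vanishes at `1`
 (`F0_deriv_one`); so `m 1 = 0` (`deriv h 1 = - m 1/(uh N 1)^2`) and `ξ 1 = 0`.
(2) identity, for `0 < s < 1`:
 `N ξ + 2 s ξ' + 4 s Hk (U'/U)^2 + bz N * Hk = γ Pk - En`, `γ = bz d - bz N`.
 Proof: `ξ' = Hk'' + 2 Hk' U'/U + 2 Hk (U''/U - (U'/U)^2)`, and `4 s U'' + 2 N U' + bz N U = 0`, so the left side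
 is `N Hk' + 2 s Hk'' + 4 s Hk' U'/U = -(N P' + 2 s P'' + 4 s P' U'/U)` with `P = s^k F^2`,
 `P' = k s^(k-1) F^2 + 2 s^k F F'`, `P'' = k(k-1) s^(k-2) F^2 + 4k s^(k-1) F F' + 2 s^k (F'^2 + F F'')`
 (multiply by `s` to avoid the exponent `k-2`), and
 `4 s F'' = -2 d F' - γ F - (U'/U)(8 s F' + 4 k F)` (`profile_ode`): the sum is
 `N P' + 2 s P'' + 4 s P' U'/U = s^(k-1) (k(N+2k-2) F^2 + 4 k s F F' + 4 s^2 F'^2) - γ P`.
-/

set_option autoImplicit false

namespace Pool.Agent.H94.ER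

/-- the weight `H` of degree `k`, as a function of `s = r^2` -/
noncomputable def Hk (N k : ℕ) (s : ℝ) : ℝ := Fp N k 1 ^ 2 - Pk k (Fp N k) s

theorem PrF_deriv {f : ℝ → ℝ} {s : ℝ} {n : ℕ} (h : ContDiffAt ℝ (n + 1) f s) :
    ContDiffAt ℝ n (deriv f) s := by
  have h1 : ContDiffAt ℝ n (fderiv ℝ f) s := h.fderiv_right le_rfl
  have h2 : deriv f = fun x => fderiv ℝ f x 1 := rfl
  rw [h2]; exact h1.clm_apply contDiffAt_const

theorem PrF_Fp_le (N k : ℕ) (t : ℝ) (ht : t ≤ 1) : Fp N k t = F0 N k t := by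
  unfold Fp; rw [if_pos ht]

theorem PrF_hN (N : ℕ) (hN : 2 ≤ N) : (2 : ℝ) ≤ (N : ℝ) := by exact_mod_cast hN

theorem PrF_hd (N k : ℕ) (hN : 2 ≤ N) : (2 : ℝ) ≤ (N : ℝ) + 2 * (k : ℝ) := by
  have h1 := PrF_hN N hN
  have h2 : (0 : ℝ) ≤ (k : ℝ) := Nat.cast_nonneg k
  linarith

theorem PrF_uder (N : ℕ) (hN : 2 ≤ N) :
    uder N = fun s => -uh N s + (1 - s) * deriv (uh N) s := by
  funext s
  have h1 := hasDerivAt_U N hN s
  have h2 : (fun t => bj N (bz N * t)) = fun t => (1 - t) * uh N t := by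
    funext t; exact uh_mul N (PrF_hN N hN) t
  rw [h2] at h1
  have h3 : HasDerivAt (uh N) (deriv (uh N) s) s :=
    ((contDiff_uh N (PrF_hN N hN) 1).differentiable (by norm_num) s).hasDerivAt
  have h4 : HasDerivAt (fun t : ℝ => 1 - t) (-1) s := (hasDerivAt_id' s).const_sub 1
  have h5 := h4.mul h3
  have h6 := h1.unique h5
  rw [h6]; ring

theorem PrF_uder_smooth (N : ℕ) (hN : 2 ≤ N) (s : ℝ) : ContDiffAt ℝ (1 : ℕ) (uder N) s := by
  rw [PrF_uder N hN]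
  have h1 : ContDiffAt ℝ (1 : ℕ) (uh N) s := (contDiff_uh N (PrF_hN N hN) 1).contDiffAt
  have h2 : ContDiffAt ℝ (1 : ℕ) (deriv (uh N)) s :=
    PrF_deriv ((contDiff_uh N (PrF_hN N hN) 2).contDiffAt.of_le (by norm_num))
  exact h1.neg.add ((contDiffAt_const.sub contDiffAt_id).mul h2)

theorem exists_xi (N k : ℕ) (hN : 2 ≤ N) (hk : 1 ≤ k) :
    ∃ ξ : ℝ → ℝ, (∀ s, s ≤ 1 → ContDiffAt ℝ 1 ξ s) ∧ ξ 1 = 0 ∧
      ∀ s, s < 1 → ξ s = deriv (Hk N k) s + 2 * Hk N k s * (uder N s / bj N (bz N * s)) := by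
  have hN2 := PrF_hN N hN
  have hd2 := PrF_hd N k hN
  set ρ := Fp N k 1 with hρ
  have hρ1 : ρ = uh (N + 2 * k) 1 / uh N 1 := PrF_Fp_le N k 1 le_rfl
  have hu1 : uh N 1 ≠ 0 := (uh_pos N hN2 1 le_rfl).ne'
  set nf : ℝ → ℝ := fun s => ρ ^ 2 * uh N s ^ 2 - s ^ k * uh (N + 2 * k) s ^ 2 with hnf
  have hnc : ContDiff ℝ ((2 : ℕ) + 1) nf := by
    have h1 : ContDiff ℝ ((2 : ℕ) + 1) (uh (N : ℝ)) := (contDiff_uh N hN2 3).of_le (by norm_num)
    have h2 : ContDiff ℝ ((2 : ℕ) + 1) (uh ((N : ℝ) + 2 * k)) :=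
      (contDiff_uh _ hd2 3).of_le (by norm_num)
    exact (contDiff_const.mul (h1.pow 2)).sub ((contDiff_id.pow k).mul (h2.pow 2))
  have hn1 : nf 1 = 0 := by
    simp only [hnf, hρ1]; field_simp; ring
  obtain ⟨m, hm, hmn⟩ := hadamard 2 nf hnc hn1
  set h : ℝ → ℝ := fun s => nf s / uh N s ^ 2 with hh
  have hhc : ∀ s, s ≤ 1 → ContDiffAt ℝ ((1 : ℕ) + 1) h s := by
    intro s hs
    have h1 : ContDiffAt ℝ ((1 : ℕ) + 1) nf s := (hnc.of_le (by norm_num)).contDiffAt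
    have h2 : ContDiffAt ℝ ((1 : ℕ) + 1) (fun t => uh (N : ℝ) t ^ 2) s :=
      (((contDiff_uh N hN2 2).of_le (by norm_num)).pow 2).contDiffAt
    exact h1.div h2 (pow_ne_zero 2 (uh_pos N hN2 s hs).ne')
  have hF : ∀ t, uh N t ≠ 0 → h t = ρ ^ 2 - t ^ k * F0 N k t ^ 2 := by
    intro t ht
    simp only [hh, hnf, F0]; field_simp
  have hHk : ∀ t, t < 1 → Hk N k t = h t := by
    intro t ht
    rw [hF t (uh_pos N hN2 t ht.le).ne']
    unfold Hk Pk
    rw [PrF_Fp_le N k t ht.le]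
  have hd1 : deriv h 1 = 0 := by
    have hev : h =ᶠ[nhds 1] fun t => ρ ^ 2 - t ^ k * F0 N k t ^ 2 := by
      have hc : ContinuousAt (uh (N : ℝ)) 1 := (contDiff_uh N hN2 0).continuous.continuousAt
      filter_upwards [hc.eventually_ne hu1] with t ht
      exact hF t ht
    rw [hev.deriv_eq]
    have e1 : HasDerivAt (F0 N k) (deriv (F0 N k) 1) 1 :=
      ((F0_smooth N k hN 1 le_rfl 1).differentiableAt (by norm_num)).hasDerivAt
    have e2 := ((hasDerivAt_pow k (1 : ℝ)).mul (e1.pow 2)).const_sub (ρ ^ 2)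
    refine e2.deriv.trans ?_
    rw [F0_deriv_one N k hN]
    simp only [one_pow, Pi.pow_apply]
    push_cast
    ring
  have hm1 : m 1 = 0 := by
    have e0 : HasDerivAt nf (-m 1) 1 := by
      have e1 : HasDerivAt m (deriv m 1) 1 :=
        (hm.differentiable (by norm_num) 1).hasDerivAt
      have e2 : HasDerivAt (fun t : ℝ => 1 - t) (-1) 1 := (hasDerivAt_id' 1).const_sub 1
      have e3 := e2.mul e1
      have e4 : nf = fun t => (1 - t) * m t := funext hmn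
      rw [e4]
      exact e3.congr_deriv (by ring)
    have e5 : HasDerivAt (uh (N : ℝ)) (deriv (uh N) 1) 1 :=
      ((contDiff_uh N hN2 1).differentiable (by norm_num) 1).hasDerivAt
    have e6 := e0.div (e5.pow 2) (pow_ne_zero 2 hu1)
    have e7 := e6.deriv
    have e8 : deriv h 1 = deriv (nf / uh (N : ℝ) ^ 2) 1 := rfl
    rw [← e8, hd1, hn1] at e7
    simp only [zero_mul, sub_zero, Pi.pow_apply] at e7
    have e9 : uh (N : ℝ) 1 ^ 2 ≠ 0 := pow_ne_zero 2 hu1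
    have e10 := e7.symm
    rw [div_eq_zero_iff] at e10
    rcases e10 with e | e
    · rcases mul_eq_zero.1 e with e' | e'
      · linarith
      · exact absurd e' e9
    · exact absurd e (pow_ne_zero 2 e9)
  refine ⟨fun s => deriv h s + 2 * m s * uder N s / uh N s ^ 3, ?_, ?_, ?_⟩
  · intro s hs
    have h1 : ContDiffAt ℝ (1 : ℕ) (deriv h) s := PrF_deriv (hhc s hs)
    have h2 : ContDiffAt ℝ (1 : ℕ) m s := (hm.of_le (by norm_num)).contDiffAt
    have h3 := PrF_uder_smooth N hN s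
    have h4 : ContDiffAt ℝ (1 : ℕ) (fun t => uh (N : ℝ) t ^ 3) s :=
      ((contDiff_uh N hN2 1).pow 3).contDiffAt
    have h5 := h1.add (((contDiffAt_const (c := (2 : ℝ))).mul h2).mul h3 |>.div h4
      (pow_ne_zero 3 (uh_pos N hN2 s hs).ne'))
    exact_mod_cast h5
  · show deriv h 1 + 2 * m 1 * uder N 1 / uh N 1 ^ 3 = 0
    rw [hd1, hm1]; ring
  · intro s hs
    have hev : Hk N k =ᶠ[nhds s] h := by
      filter_upwards [Iio_mem_nhds hs] with t ht
      exact hHk t ht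
    rw [hev.deriv_eq, hHk s hs, uh_mul N hN2 s]
    have hu : uh (N : ℝ) s ≠ 0 := (uh_pos N hN2 s hs.le).ne'
    have h1s : (1 - s) ≠ 0 := by linarith
    have : h s = (1 - s) * m s / uh N s ^ 2 := by simp only [hh, hmn]
    rw [this]
    field_simp

theorem xi_identity (N k : ℕ) (hN : 2 ≤ N) (hk : 1 ≤ k) (ξ : ℝ → ℝ)
    (hξ : ∀ s, s < 1 → ξ s = deriv (Hk N k) s + 2 * Hk N k s * (uder N s / bj N (bz N * s)))
    (s : ℝ) (h0 : 0 < s) (h1 : s < 1) :
    ∃ x2 : ℝ, HasDerivAt ξ x2 s ∧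
      N * ξ s + 2 * s * x2 + 4 * s * Hk N k s * (uder N s / bj N (bz N * s)) ^ 2
        + bz N * Hk N k s
      = (bz (N + 2 * k) - bz N) * Pk k (Fp N k) s - En N k (Fp N k) s := by
  have hN2 := PrF_hN N hN
  set F := F0 N k with hFdef
  have hU0 : bj N (bz N * s) ≠ 0 := by
    rw [uh_mul N hN2 s]
    exact mul_ne_zero (by linarith) (uh_pos N hN2 s h1.le).ne'
  have hFd : ∀ t, t < 1 → HasDerivAt F (deriv F t) t := fun t ht =>
    ((F0_smooth N k hN t ht.le 1).differentiableAt (by norm_num)).hasDerivAt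
  have hFdd : HasDerivAt (deriv F) (deriv (deriv F) s) s := by
    have : ContDiffAt ℝ (1 : ℕ) (deriv F) s :=
      PrF_deriv ((F0_smooth N k hN s h1.le 2).of_le (by norm_num))
    exact (this.differentiableAt (by norm_num)).hasDerivAt
  have hHk : ∀ t, t < 1 → Hk N k t = Fp N k 1 ^ 2 - t ^ k * F t ^ 2 := by
    intro t ht
    unfold Hk Pk
    rw [PrF_Fp_le N k t ht.le]
  have hkk : ∀ t : ℝ, 0 < t → (k : ℝ) * t ^ (k - 1) = k * t ^ k / t := by
    intro t ht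
    obtain ⟨j, rfl⟩ : ∃ j, k = j + 1 := ⟨k - 1, by omega⟩
    rw [Nat.add_sub_cancel, pow_succ]; field_simp
  have hHd : ∀ t, 0 < t → t < 1 → HasDerivAt (Hk N k)
      (-(t ^ k * (k * F t ^ 2 / t + 2 * F t * deriv F t))) t := by
    intro t ht0 ht1
    have hev : Hk N k =ᶠ[nhds t] fun t => Fp N k 1 ^ 2 - t ^ k * F t ^ 2 := by
      filter_upwards [Iio_mem_nhds ht1] with r hr
      exact hHk r hr
    have e2 := ((hasDerivAt_pow k t).mul ((hFd t ht1).pow 2)).const_sub (Fp N k 1 ^ 2)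
    refine (HasDerivAt.congr_of_eventuallyEq e2 hev).congr_deriv ?_
    rw [hkk t ht0]
    simp only [Pi.pow_apply]
    push_cast
    field_simp
  have hξe : ξ =ᶠ[nhds s] fun t => -(t ^ k * (k * F t ^ 2 / t + 2 * F t * deriv F t)) +
      2 * Hk N k t * (uder N t / bj N (bz N * t)) := by
    filter_upwards [Iio_mem_nhds h1, Ioi_mem_nhds h0] with t ht1 ht0
    rw [hξ t ht1, (hHd t ht0 ht1).deriv]
  obtain ⟨u2, hu2, hode⟩ := hasDerivAt_uder N hN s
  have hU := hasDerivAt_U N hN s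
  have hprof := profile_ode N k hN s h1.le
  have hs0 : s ≠ 0 := h0.ne'
  have hinv : HasDerivAt (fun t : ℝ => (k : ℝ) * F t ^ 2 / t)
      ((k * (2 * F s * deriv F s) * s - k * F s ^ 2) / s ^ 2) s := by
    have e1 := (((hFd s h1).pow 2).const_mul (k : ℝ)).div (hasDerivAt_id s) hs0
    refine e1.congr_deriv ?_
    simp only [id, Pi.pow_apply]
    push_cast
    ring
  have hFF : HasDerivAt (fun t : ℝ => 2 * F t * deriv F t)
      (2 * deriv F s * deriv F s + 2 * F s * deriv (deriv F) s) s :=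
    ((hFd s h1).const_mul 2).mul hFdd
  have hA : HasDerivAt (fun t : ℝ => -(t ^ k * (k * F t ^ 2 / t + 2 * F t * deriv F t)))
      (-((k * s ^ k / s) * (k * F s ^ 2 / s + 2 * F s * deriv F s) + s ^ k *
        ((k * (2 * F s * deriv F s) * s - k * F s ^ 2) / s ^ 2 +
          (2 * deriv F s * deriv F s + 2 * F s * deriv (deriv F) s)))) s := by
    have e1 := ((hasDerivAt_pow k s).mul (hinv.add hFF)).neg
    rw [hkk s h0] at e1
    exact e1
  have hB : HasDerivAt (fun t : ℝ => 2 * Hk N k t * (uder N t / bj N (bz N * t)))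
      (2 * (-(s ^ k * (k * F s ^ 2 / s + 2 * F s * deriv F s))) * (uder N s / bj N (bz N * s)) +
        2 * Hk N k s * ((u2 * bj N (bz N * s) - uder N s * uder N s) / bj N (bz N * s) ^ 2)) s :=
    ((hHd s h0 h1).const_mul 2).mul (hu2.div hU hU0)
  refine ⟨_, HasDerivAt.congr_of_eventuallyEq (hA.add hB) hξe, ?_⟩
  rw [hξ s h1, (hHd s h0 h1).deriv]
  have hPk : Pk k (Fp N k) s = s ^ k * F s ^ 2 := by
    unfold Pk; rw [PrF_Fp_le N k s h1.le]
  have hEn : En N k (Fp N k) s = (k * s ^ k / s) * (2 * k + N - 2) * F s ^ 2 +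
      4 * k * s ^ k * F s * deriv F s + 4 * (s ^ k * s) * deriv F s ^ 2 := by
    unfold En
    rw [PrF_Fp_le N k s h1.le, deriv_Fp N k hN s h1.le, pow_succ, ← hkk s h0]
    ring
  rw [hPk, hEn]
  set U := bj N (bz N * s)
  set V := uder N s
  set H := Hk N k s
  set F1 := deriv F s
  set F2 := deriv (deriv F) s
  set S := s ^ k
  set f := F s
  obtain ⟨v, hv⟩ : ∃ v, V = v * U := ⟨V / U, by field_simp⟩
  obtain ⟨w, hw⟩ : ∃ w, u2 = w * U := ⟨u2 / U, by field_simp⟩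
  have hr1 : 4 * s * w + 2 * N * v + bz N = 0 := by
    have : U * (4 * s * w + 2 * N * v + bz N) = 0 := by rw [hv, hw] at hode; linarith
    exact (mul_eq_zero.1 this).resolve_left hU0
  have hr2 : 4 * s * F2 + 2 * (N + 2 * k) * F1 + (bz (N + 2 * k) - bz N) * f +
      v * (8 * s * F1 + 4 * k * f) = 0 := by
    have : U * (4 * s * F2 + 2 * (N + 2 * k) * F1 + (bz (N + 2 * k) - bz N) * f +
      v * (8 * s * F1 + 4 * k * f)) = 0 := by rw [hv] at hprof; linarith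
    exact (mul_eq_zero.1 this).resolve_left hU0
  have e1 : V / U = v := by rw [hv]; field_simp
  have e2 : (u2 * U - V * V) / U ^ 2 = w - v ^ 2 := by rw [hv, hw]; field_simp
  rw [e1, e2]
  generalize bz ((N : ℝ) + 2 * (k : ℝ)) = B at hr2 ⊢
  field_simp
  linear_combination (s * H) * hr1 - (s * S * f) * hr2

end Pool.Agent.H94.ER
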