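import Pool.Agent.H94.ER.PrF
import Pool.Agent.H94.ER.CeA

/-!
# PrG: a field that is `C^1` on the closed unit ball and vanishes on the sphere is Lipschitz

`X x = ξ(‖x‖^2) x` for `‖x‖ < 1` and `0` otherwise, where `ξ` is `C^1` near `(-∞,1]` and `ξ 1 = 0`.
* Lipschitz: `Y x = ξ(‖x‖^2) • x` is `C^1` at every point of the closed unit ball, so its
  derivative is bounded there by some `K` (compactness) and it is `K`-Lipschitz on the closed ball
  (convex, `Convex.lipschitzOnWith_of_nnnorm_hasFDerivWithin_le`...). `X = Y` on the closed ball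
  (`ξ 1 = 0`), `X = 0` outside. For `x` inside and `y` outside take the point `z` of the segment on the
  sphere: `‖X x - X y‖ = ‖Y x - Y z‖ ≤ K ‖x - z‖ ≤ K ‖x - y‖`.
* support: contained in the closed unit ball.
* divergence at `0 < ‖x‖ < 1`: `pd i (fun y => X y i) x = ξ(s) + 2 ξ'(s) x_i^2`, so the sum is
  `N ξ(s) + 2 s ξ'(s)`, `s = ‖x‖^2`; for `‖x‖ > 1` it is `0`. The unit sphere and the origin are null sets
  (`Measure.addHaar_sphere`).
-/

set_option autoImplicit false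

open MeasureTheory

namespace Pool.Agent.H94.ER

variable {N : ℕ}

/-- the radial field -/
noncomputable def Xf (ξ : ℝ → ℝ) (x : E N) : E N := if ‖x‖ < 1 then ξ (‖x‖ ^ 2) • x else 0

theorem PrG_contDiffAt (ξ : ℝ → ℝ) (hξ : ∀ s, s ≤ 1 → ContDiffAt ℝ 1 ξ s) (x : E N)
    (hx : ‖x‖ ≤ 1) : ContDiffAt ℝ 1 (fun y : E N => ξ (‖y‖ ^ 2) • y) x := by
  have h1 : ‖x‖ ^ 2 ≤ 1 := pow_le_one₀ (norm_nonneg _) hx
  have h2 : ContDiffAt ℝ 1 (fun y : E N => ‖y‖ ^ 2) x := (contDiff_norm_sq ℝ).contDiffAt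
  have h3 : ContDiffAt ℝ 1 (fun y : E N => ξ (‖y‖ ^ 2)) x :=
    ContDiffAt.comp x (hξ _ h1) h2
  exact h3.smul contDiffAt_id

theorem PrG_in (ξ : ℝ → ℝ) (h1 : ξ 1 = 0) (x : E N) (hx : ‖x‖ ≤ 1) :
    Xf ξ x = ξ (‖x‖ ^ 2) • x := by
  unfold Xf
  rcases hx.lt_or_eq with h | h
  · rw [if_pos h]
  · rw [if_neg (by rw [h]; exact lt_irrefl 1), h, one_pow, h1, zero_smul]

theorem PrG_out (ξ : ℝ → ℝ) (x : E N) (hx : 1 ≤ ‖x‖) : Xf ξ x = 0 := by
  unfold Xf
  rw [if_neg (not_lt.2 hx)]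

theorem Xf_lipschitz (ξ : ℝ → ℝ) (hξ : ∀ s, s ≤ 1 → ContDiffAt ℝ 1 ξ s) (h1 : ξ 1 = 0) :
    ∃ K : NNReal, LipschitzWith K (Xf (N := N) ξ) := by
  set Y : E N → E N := fun y => ξ (‖y‖ ^ 2) • y with hY
  have hYc : ∀ x : E N, ‖x‖ ≤ 1 → ContDiffAt ℝ 1 Y x := fun x hx => PrG_contDiffAt ξ hξ x hx
  have hcont : ContinuousOn (fun x => fderiv ℝ Y x) (Metric.closedBall (0 : E N) 1) := by
    intro x hx
    rw [mem_closedBall_zero_iff] at hx
    have h2 : ContDiffAt ℝ 0 (fderiv ℝ Y) x := (hYc x hx).fderiv_right (by norm_num)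
    exact h2.continuousAt.continuousWithinAt
  obtain ⟨K, hK⟩ := (isCompact_closedBall (0 : E N) 1).exists_bound_of_continuousOn hcont
  have hK0 : 0 ≤ K := (norm_nonneg _).trans (hK 0 (Metric.mem_closedBall_self zero_le_one))
  have hlip : ∀ x y : E N, ‖x‖ ≤ 1 → ‖y‖ ≤ 1 → ‖Y x - Y y‖ ≤ K * ‖x - y‖ := by
    intro x y hx hy
    exact (convex_closedBall (0 : E N) 1).norm_image_sub_le_of_norm_fderiv_le (𝕜 := ℝ)
      (fun z hz => (hYc z (mem_closedBall_zero_iff.1 hz)).differentiableAt one_ne_zero) hK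
      (mem_closedBall_zero_iff.2 hy) (mem_closedBall_zero_iff.2 hx)
  have hmix : ∀ x y : E N, ‖x‖ ≤ 1 → 1 ≤ ‖y‖ → ‖Xf ξ x - Xf ξ y‖ ≤ K * ‖x - y‖ := by
    intro x y hx hy
    have hc : ContinuousOn (fun t : ℝ => ‖x + t • (y - x)‖) (Set.Icc 0 1) := by
      have : Continuous (fun t : ℝ => ‖x + t • (y - x)‖) := by fun_prop
      exact this.continuousOn
    have h2 := intermediate_value_Icc (zero_le_one' ℝ) hc
    have h3 : (1 : ℝ) ∈ Set.Icc ‖x + (0 : ℝ) • (y - x)‖ ‖x + (1 : ℝ) • (y - x)‖ := by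
      rw [zero_smul, add_zero, one_smul, add_sub_cancel]
      exact ⟨hx, hy⟩
    obtain ⟨t, ht, ht2⟩ := h2 h3
    replace ht2 : ‖x + t • (y - x)‖ = 1 := ht2
    have h4 := hlip x (x + t • (y - x)) hx ht2.le
    have h5 : Y (x + t • (y - x)) = 0 := by
      rw [hY]
      show ξ (‖x + t • (y - x)‖ ^ 2) • (x + t • (y - x)) = 0
      rw [ht2, one_pow, h1, zero_smul]
    rw [PrG_in ξ h1 x hx, PrG_out ξ y hy, ← h5]
    refine h4.trans (mul_le_mul_of_nonneg_left ?_ hK0)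
    have h6 : x - (x + t • (y - x)) = t • (x - y) := by
      rw [← neg_sub x y, smul_neg]
      abel
    rw [h6, norm_smul, Real.norm_eq_abs, abs_of_nonneg ht.1]
    calc t * ‖x - y‖ ≤ 1 * ‖x - y‖ := mul_le_mul_of_nonneg_right ht.2 (norm_nonneg _)
      _ = ‖x - y‖ := one_mul _
  refine ⟨K.toNNReal, LipschitzWith.of_dist_le_mul fun x y => ?_⟩
  rw [dist_eq_norm, dist_eq_norm, Real.coe_toNNReal K hK0]
  rcases le_total ‖x‖ 1 with hx | hx <;> rcases le_total ‖y‖ 1 with hy | hy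
  · rw [PrG_in ξ h1 x hx, PrG_in ξ h1 y hy]
    exact hlip x y hx hy
  · exact hmix x y hx hy
  · rw [norm_sub_rev, norm_sub_rev x y]
    exact hmix y x hy hx
  · rw [PrG_out ξ x hx, PrG_out ξ y hy, sub_zero, norm_zero]
    positivity

theorem Xf_support (ξ : ℝ → ℝ) : HasCompactSupport (Xf (N := N) ξ) := by
  refine HasCompactSupport.of_support_subset_isCompact (isCompact_closedBall (0 : E N) 1) ?_
  intro x hx
  rw [mem_closedBall_zero_iff]
  by_contra h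
  push Not at h
  exact hx (PrG_out ξ x h.le)

theorem Xf_div (ξ : ℝ → ℝ) (hξ : ∀ s, s ≤ 1 → ContDiffAt ℝ 1 ξ s) (x : E N) (h1 : ‖x‖ < 1) :
    ∑ i, pd i (fun y => Xf ξ y i) x = N * ξ (‖x‖ ^ 2) + 2 * ‖x‖ ^ 2 * deriv ξ (‖x‖ ^ 2) := by
  have h0 : ‖x‖ ^ 2 ≤ 1 := pow_le_one₀ (norm_nonneg _) h1.le
  have hd : DifferentiableAt ℝ ξ (‖x‖ ^ 2) := (hξ _ h0).differentiableAt one_ne_zero
  have hd2 : DifferentiableAt ℝ (fun y : E N => ξ (‖y‖ ^ 2)) x := by
    have h2 : DifferentiableAt ℝ (fun y : E N => ‖y‖ ^ 2) x :=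
      ((contDiff_norm_sq ℝ (n := 1)).differentiable one_ne_zero) x
    exact DifferentiableAt.comp x hd h2
  have h2 : ∀ i : Fin N, pd i (fun y => Xf ξ y i) x =
      ξ (‖x‖ ^ 2) + 2 * deriv ξ (‖x‖ ^ 2) * x i ^ 2 := by
    intro i
    have h3 : (fun y : E N => Xf ξ y i) =ᶠ[nhds x] fun y => ξ (‖y‖ ^ 2) * y i := by
      have h4 : Metric.ball (0 : E N) 1 ∈ nhds x :=
        Metric.isOpen_ball.mem_nhds (mem_ball_zero_iff.2 h1)
      filter_upwards [h4] with y hy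
      rw [mem_ball_zero_iff] at hy
      unfold Xf
      rw [if_pos hy]
      rfl
    have h4 : pd i (fun y => Xf ξ y i) x = pd i (fun y => ξ (‖y‖ ^ 2) * y i) x := by
      unfold pd
      rw [h3.fderiv_eq]
    have h5 : DifferentiableAt ℝ (fun y : E N => y i) x := by fun_prop
    rw [h4, pd_mul i (fun y => ξ (‖y‖ ^ 2)) (fun y => y i) x hd2 h5, pd_coord, if_pos rfl,
      pd_radial i ξ x hd]
    ring
  rw [Finset.sum_congr rfl (fun i _ => h2 i), Finset.sum_add_distrib, Finset.sum_const,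
    Finset.card_univ, Fintype.card_fin, nsmul_eq_mul, ← Finset.mul_sum, sum_coord_sq]
  ring

theorem Xf_div_out (ξ : ℝ → ℝ) (x : E N) (h1 : 1 < ‖x‖) :
    ∑ i, pd i (fun y => Xf ξ y i) x = 0 := by
  refine Finset.sum_eq_zero fun i _ => ?_
  have h3 : (fun y : E N => Xf ξ y i) =ᶠ[nhds x] fun _ => (0 : ℝ) := by
    have h4 : ∀ᶠ y : E N in nhds x, 1 < ‖y‖ :=
      continuous_norm.continuousAt.eventually (lt_mem_nhds h1)
    filter_upwards [h4] with y hy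
    rw [PrG_out ξ y hy.le]
    rfl
  unfold pd
  rw [h3.fderiv_eq]
  simp

end Pool.Agent.H94.ER
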