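import Pool.Agent.H94.ER.BaB

/-!
# SpA: the integral over the unit sphere

`sph f = ∫ f dσ`, `σ = volume.toSphere`.
* `polar`: Mathlib: `MeasureTheory.Measure.measurePreserving_homeomorphUnitSphereProd` (see also
  `integral_fun_norm_addHaar` in `Mathlib/MeasureTheory/Constructions/HaarToSphere.lean`): the map
  `x ↦ (x/‖x‖, ‖x‖)` takes Lebesgue measure on `E N \ {0}` to `σ ⊗ r^(N-1) dr`.
* `sph_one_pos`: `σ(sphere) = N vol(ball) > 0`.
* `sph_mono`, `sph_cs` (Cauchy-Schwarz, from `0 ≤ sph ((f + t g)^2)` for all `t`).
All functions in this file are continuous on `E N`, the sphere is compact and `σ` finite, so everything is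
integrable (`Continuous.integrable_of_hasCompactSupport` or `Continuous.integrableOn...`).
-/

set_option autoImplicit false

open MeasureTheory

namespace Pool.Agent.H94.ER

variable {N : ℕ}

private theorem SpA_int (f : E N → ℝ) (hf : Continuous f) :
    Integrable (fun ω : Metric.sphere (0 : E N) 1 => f ω) (volume : Measure (E N)).toSphere :=
  (hf.comp continuous_subtype_val).integrable_of_hasCompactSupport
    (HasCompactSupport.of_compactSpace _)

theorem polar (hN : 1 ≤ N) (f : E N → ℝ) (hf : Continuous f) (hc : HasCompactSupport f) :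
    ∫ x, f x = ∫ r in Set.Ioi (0 : ℝ), r ^ (N - 1) * sph (fun x => f (r • x)) := by
  have hd : Module.finrank ℝ (E N) = N := finrank_euclideanSpace_fin
  have hnt : Nontrivial (E N) := Module.nontrivial_of_finrank_pos (R := ℝ) (by rw [hd]; omega)
  have hmp := (volume : Measure (E N)).measurePreserving_homeomorphUnitSphereProd
  have hemb := (homeomorphUnitSphereProd (E N)).measurableEmbedding
  have hfi : Integrable f := hf.integrable_of_hasCompactSupport hc
  let g : Metric.sphere (0 : E N) 1 × Set.Ioi (0 : ℝ) → ℝ := fun z => f (z.2.1 • z.1.1)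
  have hg : ∀ x : ({0}ᶜ : Set (E N)), g (homeomorphUnitSphereProd (E N) x) = f x.1 := by
    intro x
    have hx : ‖(x : E N)‖ ≠ 0 := norm_ne_zero_iff.2 x.2
    simp only [g, homeomorphUnitSphereProd_apply_snd_coe, homeomorphUnitSphereProd_apply_fst_coe]
    rw [smul_smul, mul_inv_cancel₀ hx, one_smul]
  have h1 : ∫ x, f x =
      ∫ x : ({0}ᶜ : Set (E N)), f x.1 ∂((volume : Measure (E N)).comap (↑)) := by
    rw [integral_subtype_comap (measurableSet_singleton _).compl f, restrict_compl_singleton]
  have h2 : ∫ x : ({0}ᶜ : Set (E N)), f x.1 ∂((volume : Measure (E N)).comap (↑)) =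
      ∫ z, g z ∂((volume : Measure (E N)).toSphere.prod
        (Measure.volumeIoiPow (Module.finrank ℝ (E N) - 1))) := by
    rw [← hmp.integral_comp hemb g]
    exact integral_congr_ae (Filter.Eventually.of_forall fun x => (hg x).symm)
  have hgi : Integrable g ((volume : Measure (E N)).toSphere.prod
        (Measure.volumeIoiPow (Module.finrank ℝ (E N) - 1))) := by
    rw [← hmp.integrable_comp_emb hemb]
    have e : g ∘ (homeomorphUnitSphereProd (E N)) = f ∘ ((↑) : ({0}ᶜ : Set (E N)) → E N) :=
      funext hg
    rw [e, ← integrableOn_iff_comap_subtypeVal (measurableSet_singleton _).compl]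
    exact hfi.integrableOn
  rw [h1, h2, integral_prod_symm g hgi]
  have h3 : ∀ y : Set.Ioi (0 : ℝ), ∫ x : Metric.sphere (0 : E N) 1, g (x, y)
      ∂(volume : Measure (E N)).toSphere = sph (fun x => f ((y : ℝ) • x)) := fun y => rfl
  simp only [h3]
  simp only [Measure.volumeIoiPow, ENNReal.ofReal]
  rw [integral_withDensity_eq_integral_smul,
    integral_subtype_comap measurableSet_Ioi
      (fun a => Real.toNNReal (a ^ (Module.finrank ℝ (E N) - 1)) •
        sph (fun x : E N => f (a • x)))]
  · refine setIntegral_congr_fun measurableSet_Ioi fun x hx => ?_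
    have hx0 : (0 : ℝ) < x := hx
    rw [NNReal.smul_def, Real.coe_toNNReal _ (pow_nonneg hx0.le _), smul_eq_mul, hd]
  · exact (measurable_subtype_coe.pow_const _).real_toNNReal

theorem sph_add (f g : E N → ℝ) (hf : Continuous f) (hg : Continuous g) :
    sph (fun x => f x + g x) = sph f + sph g :=
  integral_add (SpA_int f hf) (SpA_int g hg)

theorem sph_smul (c : ℝ) (f : E N → ℝ) : sph (fun x => c * f x) = c * sph f :=
  integral_const_mul c _

theorem sph_sum {ι : Type*} (s : Finset ι) (f : ι → E N → ℝ) (hf : ∀ i ∈ s, Continuous (f i)) :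
    sph (fun x => ∑ i ∈ s, f i x) = ∑ i ∈ s, sph (f i) :=
  integral_finsetSum s fun i hi => SpA_int (f i) (hf i hi)

theorem sph_congr (f g : E N → ℝ) (h : ∀ x, ‖x‖ = 1 → f x = g x) : sph f = sph g := by
  refine integral_congr_ae (Filter.Eventually.of_forall fun ω => ?_)
  exact h ω (mem_sphere_zero_iff_norm.1 ω.2)

theorem sph_mono (f g : E N → ℝ) (hf : Continuous f) (hg : Continuous g)
    (h : ∀ x, ‖x‖ = 1 → f x ≤ g x) : sph f ≤ sph g := by
  refine integral_mono (SpA_int f hf) (SpA_int g hg) fun ω => ?_
  exact h ω (mem_sphere_zero_iff_norm.1 ω.2)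

theorem sph_one_pos (hN : 1 ≤ N) : 0 < sph (fun _ : E N => (1 : ℝ)) := by
  have hd : Module.finrank ℝ (E N) = N := finrank_euclideanSpace_fin
  have h : sph (fun _ : E N => (1 : ℝ)) =
      (volume : Measure (E N)).toSphere.real Set.univ := by
    rw [sph, integral_const, smul_eq_mul, mul_one]
  rw [h, Measure.toSphere_real_apply_univ, hd]
  refine mul_pos (by exact_mod_cast hN) ?_
  rw [measureReal_def]
  exact ENNReal.toReal_pos (Metric.measure_ball_pos volume 0 one_pos).ne' measure_ball_lt_top.ne

theorem sph_cs (f g : E N → ℝ) (hf : Continuous f) (hg : Continuous g) :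
    sph (fun x => f x * g x) ^ 2 ≤ sph (fun x => f x ^ 2) * sph (fun x => g x ^ 2) := by
  have key : ∀ t : ℝ, 0 ≤ sph (fun x => g x ^ 2) * (t * t) +
      (2 * sph (fun x => f x * g x)) * t + sph (fun x => f x ^ 2) := by
    intro t
    have e : sph (fun x => g x ^ 2) * (t * t) +
      (2 * sph (fun x => f x * g x)) * t + sph (fun x => f x ^ 2) =
        sph (fun x => (f x + t * g x) ^ 2) := by
      have e1 : (fun x => (f x + t * g x) ^ 2) =
          fun x => ((t * t) * g x ^ 2 + (2 * t) * (f x * g x)) + f x ^ 2 := by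
        funext x
        ring
      rw [e1, sph_add (fun x => (t * t) * g x ^ 2 + (2 * t) * (f x * g x)) (fun x => f x ^ 2)
        (by fun_prop) (by fun_prop), sph_add (fun x => (t * t) * g x ^ 2)
        (fun x => (2 * t) * (f x * g x)) (by fun_prop) (by fun_prop), sph_smul, sph_smul]
      ring
    rw [e]
    exact integral_nonneg fun ω => sq_nonneg _
  have h := discrim_le_zero key
  rw [discrim] at h
  nlinarith

theorem sph_continuous (f : ℝ → E N → ℝ) (hf : Continuous (fun p : ℝ × E N => f p.1 p.2)) :
    Continuous (fun r => sph (f r)) := by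
  have h := continuous_parametric_integral_of_continuous
    (μ := (volume : Measure (E N)).toSphere)
    (f := fun (r : ℝ) (ω : Metric.sphere (0 : E N) 1) => f r ω) (s := Set.univ)
    (by
      have : Continuous (fun p : ℝ × Metric.sphere (0 : E N) 1 => f p.1 (p.2 : E N)) :=
        hf.comp (continuous_fst.prodMk (continuous_subtype_val.comp continuous_snd))
      exact this) isCompact_univ
  simp only [Measure.restrict_univ] at h
  exact h

end Pool.Agent.H94.ER
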