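import Pool.Agent.H94.ER.SpG

/-!
# SpB: integration by parts on the sphere for the rotational derivatives

`Lr i j f = x_i ∂_j f - x_j ∂_i f`.
* `sph_Lr`: for `i ≠ j` let `R_t` be the rotation by the angle `t` in the plane of `e_i, e_j`:
  `R_t x = x + (cos t - 1)(x_i e_i + x_j e_j) + sin t (x_i e_j - x_j e_i)`, a linear isometry. For `f ∈ C^1`,
  `d/dt f (R_t x) = (Lr i j f) (R_t x)`. `sph (f ∘ R_t) = sph f` is constant in `t`; differentiate at `t = 0`
  under the integral sign (bounded derivative on a compact set), or: `f (R_t x) - f x = ∫_0^t (Lr i j f)(R_τ x) dτ`,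
  integrate over the sphere and use Fubini and `sph_comp`: `0 = t sph (Lr i j f)`. For `i = j`, `Lr = 0`.
* `sph_Lr_mul`: product rule `Lr (f g) = f Lr g + g Lr f`.
* `lagrange`: `‖x‖^2 |∇f|^2 = (x·∇f)^2 + (1/2) ∑_ij (Lr i j f)^2` (Lagrange's identity for the vectors `x` and
  `(pd i f x)_i`).
* `Lr_radial_mul`: for `x` on the unit sphere and `f_r y = f (r y)`: `Lr i j (f_r) x = (Lr i j f) (r x)`
  (chain rule `pd j f_r x = r pd j f (r x)`).
-/

set_option autoImplicit false

open MeasureTheory

namespace Pool.Agent.H94.ER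

variable {N : ℕ}

/-- rotation in the plane of the coordinates `i` and `j`, as a function -/
noncomputable def rotF (i j : Fin N) (t : ℝ) (x : E N) : E N :=
  WithLp.toLp 2 (fun k => if k = i then Real.cos t * x i - Real.sin t * x j
    else if k = j then Real.sin t * x i + Real.cos t * x j else x k)

theorem rotF_apply (i j : Fin N) (t : ℝ) (x : E N) (k : Fin N) :
    rotF i j t x k = if k = i then Real.cos t * x i - Real.sin t * x j
      else if k = j then Real.sin t * x i + Real.cos t * x j else x k := rfl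

theorem rotF_norm (i j : Fin N) (hij : i ≠ j) (t : ℝ) (x : E N) : ‖rotF i j t x‖ = ‖x‖ := by
  have h : ‖rotF i j t x‖ ^ 2 = ‖x‖ ^ 2 := by
    rw [EuclideanSpace.real_norm_sq_eq, EuclideanSpace.real_norm_sq_eq]
    have h1 : ∀ k, (rotF i j t x k) ^ 2 = x k ^ 2
        + (if k = i then (Real.cos t * x i - Real.sin t * x j) ^ 2 - x i ^ 2 else 0)
        + (if k = j then (Real.sin t * x i + Real.cos t * x j) ^ 2 - x j ^ 2 else 0) := by
      intro k
      rw [rotF_apply]
      by_cases h1 : k = i
      · subst h1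
        simp [hij]
      · by_cases h2 : k = j
        · subst h2
          simp [h1]
        · simp [h1, h2]
    simp_rw [h1]
    rw [Finset.sum_add_distrib, Finset.sum_add_distrib, Finset.sum_ite_eq', Finset.sum_ite_eq']
    simp only [Finset.mem_univ, if_true]
    have := Real.sin_sq_add_cos_sq t
    linear_combination (x i ^ 2 + x j ^ 2) * this
  have := sq_eq_sq₀ (norm_nonneg (rotF i j t x)) (norm_nonneg x)
  exact this.1 h

/-- rotation as a linear isometry -/
noncomputable def rotL (i j : Fin N) (hij : i ≠ j) (t : ℝ) : E N →ₗᵢ[ℝ] E N where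
  toFun := rotF i j t
  map_add' := by
    intro x y
    ext k
    show rotF i j t (x + y) k = rotF i j t x k + rotF i j t y k
    simp only [rotF_apply, PiLp.add_apply]
    split_ifs <;> ring
  map_smul' := by
    intro c x
    ext k
    show rotF i j t (c • x) k = c * rotF i j t x k
    simp only [rotF_apply, PiLp.smul_apply, smul_eq_mul]
    split_ifs <;> ring
  norm_map' := rotF_norm i j hij t

noncomputable def rotE (i j : Fin N) (hij : i ≠ j) (t : ℝ) : E N ≃ₗᵢ[ℝ] E N :=
  (rotL i j hij t).toLinearIsometryEquiv rfl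

theorem rotE_apply (i j : Fin N) (hij : i ≠ j) (t : ℝ) (x : E N) : rotE i j hij t x = rotF i j t x :=
  rfl

theorem fderiv_eq_sum_pd (f : E N → ℝ) (x v : E N) :
    fderiv ℝ f x v = ∑ k, v k * pd k f x := by
  have hv : v = ∑ k, v k • (EuclideanSpace.single k (1 : ℝ) : E N) := by
    ext l
    rw [WithLp.ofLp_sum, Finset.sum_apply]
    simp
  conv_lhs => rw [hv]
  rw [map_sum]
  simp [pd]

theorem hasDerivAt_rotF (i j : Fin N) (hij : i ≠ j) (x : E N) (t : ℝ) :
    HasDerivAt (fun τ => rotF i j τ x)
      (WithLp.toLp 2 (fun k => if k = i then - rotF i j t x j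
        else if k = j then rotF i j t x i else 0)) t := by
  have : HasDerivAt (fun τ => (fun k => if k = i then Real.cos τ * x i - Real.sin τ * x j
    else if k = j then Real.sin τ * x i + Real.cos τ * x j else x k : Fin N → ℝ))
    (fun k => if k = i then - rotF i j t x j
        else if k = j then rotF i j t x i else 0) t := by
    rw [hasDerivAt_pi]
    intro k
    rw [rotF_apply, rotF_apply]
    by_cases h1 : k = i
    · simp only [h1, if_true, hij.symm, if_false]
      have := ((Real.hasDerivAt_cos t).mul_const (x i)).fun_sub ((Real.hasDerivAt_sin t).mul_const (x j))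
      convert this using 1
      ring
    · by_cases h2 : k = j
      · simp only [h2, hij.symm, if_true, if_false]
        have := ((Real.hasDerivAt_sin t).mul_const (x i)).fun_add
          ((Real.hasDerivAt_cos t).mul_const (x j))
        convert this using 1
        ring
      · simp only [h1, h2, if_false]
        exact hasDerivAt_const _ _
  exact ((EuclideanSpace.equiv (Fin N) ℝ).symm.toContinuousLinearMap.hasFDerivAt.comp_hasDerivAt t this)

theorem hasDerivAt_comp_rot (i j : Fin N) (hij : i ≠ j) (f : E N → ℝ) (hf : ContDiff ℝ 1 f)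
    (x : E N) (t : ℝ) :
    HasDerivAt (fun τ => f (rotF i j τ x)) (Lr i j f (rotF i j t x)) t := by
  have h1 : HasFDerivAt f (fderiv ℝ f (rotF i j t x)) (rotF i j t x) :=
    (hf.differentiable one_ne_zero _).hasFDerivAt
  have h2 := h1.comp_hasDerivAt t (hasDerivAt_rotF i j hij x t)
  have h3 : Lr i j f (rotF i j t x) = (fderiv ℝ f (rotF i j t x))
      (WithLp.toLp 2 (fun k => if k = i then - rotF i j t x j
        else if k = j then rotF i j t x i else 0)) := by
    rw [fderiv_eq_sum_pd]
    have h4 : ∀ k, (WithLp.toLp 2 (fun k => if k = i then - rotF i j t x j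
        else if k = j then rotF i j t x i else 0) : E N) k * pd k f (rotF i j t x)
        = (if k = i then - rotF i j t x j * pd i f (rotF i j t x) else 0)
        + (if k = j then rotF i j t x i * pd j f (rotF i j t x) else 0) := by
      intro k
      show (if k = i then - rotF i j t x j
        else if k = j then rotF i j t x i else 0) * pd k f (rotF i j t x) = _
      by_cases h5 : k = i
      · subst h5
        simp [hij]
      · by_cases h6 : k = j
        · subst h6
          simp [h5]
        · simp [h5, h6]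
    simp_rw [h4]
    rw [Finset.sum_add_distrib, Finset.sum_ite_eq', Finset.sum_ite_eq']
    simp only [Finset.mem_univ, if_true]
    rw [Lr]
    ring
  rw [h3]
  exact h2

theorem continuous_Lr (i j : Fin N) (f : E N → ℝ) (hf : ContDiff ℝ 1 f) : Continuous (Lr i j f) := by
  have h1 := continuous_pd i f hf
  have h2 := continuous_pd j f hf
  unfold Lr
  fun_prop

theorem sph_Lr (hN : 1 ≤ N) (i j : Fin N) (f : E N → ℝ) (hf : ContDiff ℝ 1 f) :
    sph (Lr i j f) = 0 := by
  by_cases hij : i = j
  · subst hij
    have : Lr i i f = fun _ => (0 : ℝ) := by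
      funext x
      simp [Lr]
    rw [this]
    simp [sph]
  -- bound on the sphere
  have hcL := continuous_Lr i j f hf
  obtain ⟨C, hC⟩ : ∃ C : ℝ, ∀ x ∈ Metric.sphere (0 : E N) 1, ‖Lr i j f x‖ ≤ C :=
    (isCompact_sphere (0 : E N) 1).exists_bound_of_continuousOn hcL.continuousOn
  let μ : Measure (Metric.sphere (0 : E N) 1) := (volume : Measure (E N)).toSphere
  have hcont : ∀ t : ℝ, Continuous (fun ω : Metric.sphere (0 : E N) 1 => f (rotF i j t ω)) := by
    intro t
    exact hf.continuous.comp ((rotE i j hij t).continuous.comp continuous_subtype_val)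
  have hcont' : ∀ t : ℝ, Continuous (fun ω : Metric.sphere (0 : E N) 1 =>
      Lr i j f (rotF i j t ω)) := by
    intro t
    exact hcL.comp ((rotE i j hij t).continuous.comp continuous_subtype_val)
  have hcomp : CompactSpace (Metric.sphere (0 : E N) 1) := inferInstance
  have key := hasDerivAt_integral_of_dominated_loc_of_deriv_le (μ := μ) (s := Set.univ)
    (F := fun (t : ℝ) (ω : Metric.sphere (0 : E N) 1) => f (rotF i j t ω))
    (F' := fun (t : ℝ) (ω : Metric.sphere (0 : E N) 1) => Lr i j f (rotF i j t ω))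
    (x₀ := 0) (bound := fun _ => C) Filter.univ_mem
    (Filter.Eventually.of_forall fun t => (hcont t).aestronglyMeasurable)
    ((hcont 0).integrable_of_hasCompactSupport (HasCompactSupport.of_compactSpace _))
    ((hcont' 0).aestronglyMeasurable)
    (Filter.Eventually.of_forall fun ω t _ => by
      apply hC
      rw [mem_sphere_zero_iff_norm, rotF_norm i j hij]
      exact mem_sphere_zero_iff_norm.1 ω.2)
    (integrable_const C)
    (Filter.Eventually.of_forall fun ω t _ => hasDerivAt_comp_rot i j hij f hf ω t)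
  have h1 := key.2
  have h2 : (fun t : ℝ => ∫ ω, f (rotF i j t ω) ∂μ) = fun _ => sph f := by
    funext t
    exact sph_comp hN f hf.continuous (rotE i j hij t)
  rw [h2] at h1
  have h3 := h1.unique (hasDerivAt_const (0 : ℝ) (sph f))
  have h4 : ∀ x : E N, rotF i j 0 x = x := by
    intro x
    ext k
    rw [rotF_apply]
    by_cases h5 : k = i
    · subst h5
      simp
    · by_cases h6 : k = j
      · subst h6
        simp [h5]
      · simp [h5, h6]
  simp only [h4] at h3
  exact h3

theorem Lr_mul (i j : Fin N) (f g : E N → ℝ) (hf : ContDiff ℝ 1 f) (hg : ContDiff ℝ 1 g)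
    (x : E N) : Lr i j (fun y => f y * g y) x = f x * Lr i j g x + g x * Lr i j f x := by
  have h : ∀ k, pd k (fun y => f y * g y) x = f x * pd k g x + g x * pd k f x := by
    intro k
    unfold pd
    rw [fderiv_fun_mul (hf.differentiable one_ne_zero x) (hg.differentiable one_ne_zero x)]
    simp
  unfold Lr
  rw [h, h]
  ring

theorem sph_Lr_mul (hN : 1 ≤ N) (i j : Fin N) (f g : E N → ℝ) (hf : ContDiff ℝ 1 f)
    (hg : ContDiff ℝ 1 g) :
    sph (fun x => Lr i j f x * g x) = - sph (fun x => f x * Lr i j g x) := by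
  have h1 := sph_Lr hN i j (fun y => f y * g y) (hf.mul hg)
  have h2 : Lr i j (fun y => f y * g y) = fun x => Lr i j f x * g x + f x * Lr i j g x := by
    funext x
    rw [Lr_mul i j f g hf hg]
    ring
  have h3 := sph_add (fun x => Lr i j f x * g x) (fun x => f x * Lr i j g x)
    ((continuous_Lr i j f hf).mul hg.continuous) (hf.continuous.mul (continuous_Lr i j g hg))
  rw [h2] at h1
  rw [h1] at h3
  linarith

theorem lagrange (f : E N → ℝ) (x : E N) :
    ‖x‖ ^ 2 * dot f f x = (∑ i, x i * pd i f x) ^ 2 + (1 / 2) * ∑ i, ∑ j, Lr i j f x ^ 2 := by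
  have h1 : ∑ i, ∑ j, Lr i j f x ^ 2
      = 2 * ((∑ i, x i ^ 2) * ∑ j, pd j f x ^ 2) - 2 * (∑ i, x i * pd i f x) ^ 2 := by
    have h2 : ∀ i j, Lr i j f x ^ 2 = x i ^ 2 * pd j f x ^ 2 + x j ^ 2 * pd i f x ^ 2
        - 2 * ((x i * pd i f x) * (x j * pd j f x)) := by
      intro i j
      unfold Lr
      ring
    have h5 : ∑ i, ∑ j, x j ^ 2 * pd i f x ^ 2 = (∑ i, x i ^ 2) * ∑ j, pd j f x ^ 2 := by
      rw [Finset.sum_mul_sum, Finset.sum_comm]
    have h6 : ∑ i, ∑ j, x i ^ 2 * pd j f x ^ 2 = (∑ i, x i ^ 2) * ∑ j, pd j f x ^ 2 := by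
      rw [Finset.sum_mul_sum]
    have h7 : ∑ i, ∑ j, 2 * ((x i * pd i f x) * (x j * pd j f x))
        = 2 * (∑ i, x i * pd i f x) ^ 2 := by
      rw [sq, Finset.sum_mul_sum, Finset.mul_sum]
      simp_rw [Finset.mul_sum]
    simp_rw [h2, Finset.sum_sub_distrib, Finset.sum_add_distrib]
    rw [h5, h6, h7]
    ring
  rw [h1, EuclideanSpace.real_norm_sq_eq, dot]
  have h3 : ∀ i, pd i f x * pd i f x = pd i f x ^ 2 := fun i => by ring
  simp_rw [h3]
  ring

theorem Lr_scale (i j : Fin N) (f : E N → ℝ) (hf : ContDiff ℝ 1 f) (r : ℝ) (x : E N) :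
    Lr i j (fun y => f (r • y)) x = Lr i j f (r • x) := by
  have h : ∀ k, pd k (fun y => f (r • y)) x = r * pd k f (r • x) := by
    intro k
    unfold pd
    have h1 : HasFDerivAt f (fderiv ℝ f (r • x)) (r • x) :=
      (hf.differentiable one_ne_zero _).hasFDerivAt
    have h2 : HasFDerivAt (fun y : E N => r • y) (r • ContinuousLinearMap.id ℝ (E N)) x :=
      (hasFDerivAt_id x).const_smul r
    have h3 := (h1.comp x h2).fderiv
    have h4 : (fun y => f (r • y)) = f ∘ (fun y : E N => r • y) := rfl
    rw [h4, h3]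
    simp
  unfold Lr
  rw [h, h]
  simp only [PiLp.smul_apply, smul_eq_mul]
  ring

end Pool.Agent.H94.ER
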