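import Pool.Agent.H94.ER.SpB

/-!
# SpC: polynomials, the spherical Laplacian

For `p : MvPolynomial (Fin N) ℝ`: `ev p x` its value at `x`, `LL p = ∑_ij L_ij (L_ij p)`, `L_ij p = X_i ∂_j p - X_j ∂_i p`.
* `contDiff_ev`, `pd_ev`: `pd i (ev p) = ev (∂_i p)` (induction on `p`), `Lr_ev`.
* `LL_homog`: if `p` is homogeneous of degree `m` then
   `LL p = 2 (∑ X_l^2) (∑_l ∂_l ∂_l p) - 2 m (m + N - 2) p`.
  Proof: `L_ij (X_i ∂_j p - X_j ∂_i p)`, expand:
  `∑_ij [X_i ∂_j (X_i ∂_j p - X_j ∂_i p) - X_j ∂_i (X_i ∂_j p - X_j ∂_i p)]`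
  `= 2 ∑_ij X_i ∂_j (X_i ∂_j p - X_j ∂_i p)` (symmetry `i ↔ j`)
  `= 2 ∑_ij [X_i^2 ∂_j∂_j p + δ_ij X_i ∂_j p - X_i ∂_i p - X_i X_j ∂_i ∂_j p]`
  `= 2 (∑X^2) Δp + 2 D p - 2 N D p - 2 ∑_ij X_i X_j ∂_i∂_j p`, with `D = ∑ X_i ∂_i`, and
  `∑_ij X_i X_j ∂_i ∂_j p = D (D p) - D p = m (m-1) p`, `D p = m p` (Euler:
  `MvPolynomial.IsHomogeneous.sum_X_mul_pderiv`, or `euler` by induction/`Finsupp`; `∂_i p` is homogeneous of
  degree `m - 1`). Total: `2 (∑X^2) Δp + (2 - 2N) m p - 2 m (m-1) p = 2 (∑X^2) Δp - 2 m (m + N - 2) p`.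
* `sym_LL`: `sph (ev (LL p) * ev q) = sph (ev p * ev (LL q))` and `- sph (ev (LL p) ev q) = ∑_ij sph (L p L q)` from
  `sph_Lr_mul`.
-/

set_option autoImplicit false

open MeasureTheory MvPolynomial

namespace Pool.Agent.H94.ER

variable {N : ℕ}

/-- polynomial function on `E N` -/
noncomputable def ev (p : MvPolynomial (Fin N) ℝ) (x : E N) : ℝ := eval (fun i => x i) p

/-- rotational derivative of a polynomial -/
noncomputable def Lp (i j : Fin N) (p : MvPolynomial (Fin N) ℝ) : MvPolynomial (Fin N) ℝ :=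
  X i * pderiv j p - X j * pderiv i p

/-- `∑_ij L_ij L_ij` -/
noncomputable def LL (p : MvPolynomial (Fin N) ℝ) : MvPolynomial (Fin N) ℝ :=
  ∑ i, ∑ j, Lp i j (Lp i j p)

theorem SpC_ev_C (a : ℝ) : ev (C a : MvPolynomial (Fin N) ℝ) = fun _ => a := by
  funext x; simp [ev]

theorem SpC_ev_add (p q : MvPolynomial (Fin N) ℝ) : ev (p + q) = fun x => ev p x + ev q x := by
  funext x; simp [ev]

theorem SpC_ev_sub (p q : MvPolynomial (Fin N) ℝ) : ev (p - q) = fun x => ev p x - ev q x := by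
  funext x; simp [ev]

theorem SpC_ev_mul (p q : MvPolynomial (Fin N) ℝ) : ev (p * q) = fun x => ev p x * ev q x := by
  funext x; simp [ev]

theorem SpC_ev_X (i : Fin N) : ev (X i : MvPolynomial (Fin N) ℝ) = fun x => x i := by
  funext x; simp [ev]

theorem SpC_ev_sum {ι : Type*} (s : Finset ι) (f : ι → MvPolynomial (Fin N) ℝ) :
    ev (∑ i ∈ s, f i) = fun x => ∑ i ∈ s, ev (f i) x := by
  funext x; simp [ev]

theorem SpC_contDiff_coord (i : Fin N) : ContDiff ℝ 1 (fun x : E N => x i) :=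
  (EuclideanSpace.proj i : E N →L[ℝ] ℝ).contDiff

theorem contDiff_ev (p : MvPolynomial (Fin N) ℝ) : ContDiff ℝ 1 (ev p) := by
  induction p using MvPolynomial.induction_on with
  | C a => rw [SpC_ev_C]; exact contDiff_const
  | add p q hp hq => rw [SpC_ev_add]; exact hp.add hq
  | mul_X p i hp =>
    rw [SpC_ev_mul, SpC_ev_X]
    exact hp.mul (SpC_contDiff_coord i)

theorem pd_ev (i : Fin N) (p : MvPolynomial (Fin N) ℝ) (x : E N) :
    pd i (ev p) x = ev (pderiv i p) x := by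
  induction p using MvPolynomial.induction_on with
  | C a =>
    rw [SpC_ev_C, pd_const, pderiv_C]
    simp [ev]
  | add p q hp hq =>
    rw [SpC_ev_add, pd_add i (ev p) (ev q) x
      ((contDiff_ev p).differentiable (by norm_num)).differentiableAt
      ((contDiff_ev q).differentiable (by norm_num)).differentiableAt, hp, hq, map_add,
      SpC_ev_add]
  | mul_X p j hp =>
    rw [SpC_ev_mul, pd_mul i (ev p) (ev (X j)) x
      ((contDiff_ev p).differentiable (by norm_num)).differentiableAt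
      ((contDiff_ev (X j)).differentiable (by norm_num)).differentiableAt, hp, SpC_ev_X,
      pd_coord, pderiv_mul, pderiv_X, SpC_ev_add, SpC_ev_mul, SpC_ev_mul, SpC_ev_X]
    by_cases h : i = j
    · subst h
      simp [ev]
      ring
    · simp [ev, h, Ne.symm h]

theorem Lr_ev (i j : Fin N) (p : MvPolynomial (Fin N) ℝ) (x : E N) :
    Lr i j (ev p) x = ev (Lp i j p) x := by
  rw [Lr, pd_ev, pd_ev, Lp, SpC_ev_sub, SpC_ev_mul, SpC_ev_mul, SpC_ev_X, SpC_ev_X]

theorem SpC_term (i j : Fin N) (p : MvPolynomial (Fin N) ℝ) :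
    X i * pderiv j (Lp i j p) = (if i = j then X i * pderiv i p else 0)
      + X i ^ 2 * pderiv j (pderiv j p) - X i * pderiv i p
      - X i * (X j * pderiv j (pderiv i p)) := by
  rw [Lp, map_sub, pderiv_mul, pderiv_mul, pderiv_X_self]
  by_cases h : i = j
  · subst h
    rw [pderiv_X_self, if_pos rfl]
    ring
  · rw [pderiv_X_of_ne (R := ℝ) h, if_neg h]
    ring

theorem LL_homog (p : MvPolynomial (Fin N) ℝ) (m : ℕ) (hp : p.IsHomogeneous m) :
    LL p = 2 * (∑ l, X l ^ 2) * (∑ l, pderiv l (pderiv l p))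
      - C (2 * (m : ℝ) * (m + N - 2)) * p := by
  have hanti : ∀ i j : Fin N, Lp j i p = - Lp i j p := by
    intro i j; simp only [Lp]; ring
  have h1 : LL p = 2 * ∑ i, ∑ j, X i * pderiv j (Lp i j p) := by
    have e1 : LL p = ∑ i : Fin N, ∑ j : Fin N, X i * pderiv j (Lp i j p)
        - ∑ i : Fin N, ∑ j : Fin N, X j * pderiv i (Lp i j p) := by
      rw [← Finset.sum_sub_distrib]
      refine Finset.sum_congr rfl fun i _ => ?_
      rw [← Finset.sum_sub_distrib]
      rfl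
    have e2 : ∑ i : Fin N, ∑ j : Fin N, X j * pderiv i (Lp i j p)
        = - ∑ i : Fin N, ∑ j : Fin N, X i * pderiv j (Lp i j p) := by
      rw [Finset.sum_comm, ← Finset.sum_neg_distrib]
      refine Finset.sum_congr rfl fun i _ => ?_
      rw [← Finset.sum_neg_distrib]
      refine Finset.sum_congr rfl fun j _ => ?_
      rw [hanti i j, map_neg]
      ring
    rw [e1, e2]; ring
  have hE : ∑ i, X i * pderiv i p = (m : MvPolynomial (Fin N) ℝ) * p := by
    rw [hp.sum_X_mul_pderiv, nsmul_eq_mul]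
  have hE2 : ∀ i : Fin N, ∑ j, X j * pderiv j (pderiv i p)
      = ((m - 1 : ℕ) : MvPolynomial (Fin N) ℝ) * pderiv i p := by
    intro i
    rw [hp.pderiv.sum_X_mul_pderiv, nsmul_eq_mul]
  have h2 : ∑ i, ∑ j, X i * pderiv j (Lp i j p)
      = (m : MvPolynomial (Fin N) ℝ) * p + (∑ l, X l ^ 2) * (∑ l, pderiv l (pderiv l p))
        - (N : MvPolynomial (Fin N) ℝ) * ((m : MvPolynomial (Fin N) ℝ) * p)
        - ((m - 1 : ℕ) : MvPolynomial (Fin N) ℝ) * ((m : MvPolynomial (Fin N) ℝ) * p) := by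
    have e : ∀ i : Fin N, ∑ j, X i * pderiv j (Lp i j p)
        = X i * pderiv i p + X i ^ 2 * (∑ l, pderiv l (pderiv l p))
          - (N : MvPolynomial (Fin N) ℝ) * (X i * pderiv i p)
          - ((m - 1 : ℕ) : MvPolynomial (Fin N) ℝ) * (X i * pderiv i p) := by
      intro i
      simp only [SpC_term]
      rw [Finset.sum_sub_distrib, Finset.sum_sub_distrib, Finset.sum_add_distrib,
        ← Finset.mul_sum, ← Finset.mul_sum (f := fun j : Fin N => X j * pderiv j (pderiv i p)),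
        hE2 i, Finset.sum_ite_eq]
      simp only [Finset.mem_univ, if_true, Finset.sum_const, Finset.card_univ, Fintype.card_fin,
        nsmul_eq_mul]
      ring
    rw [Finset.sum_congr rfl fun i _ => e i, Finset.sum_sub_distrib, Finset.sum_sub_distrib,
      Finset.sum_add_distrib, ← Finset.mul_sum, ← Finset.mul_sum, ← Finset.sum_mul, hE]
  have hm : ((m - 1 : ℕ) : ℝ) * m = (m : ℝ) ^ 2 - m := by
    rcases Nat.eq_zero_or_pos m with h | h
    · subst h; simp
    · rw [Nat.cast_sub h]; push_cast; ring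
  have hc : C (2 * (m : ℝ) * (m + N - 2)) = 2 * ((m : MvPolynomial (Fin N) ℝ) * (N : MvPolynomial (Fin N) ℝ)
      + ((m - 1 : ℕ) : MvPolynomial (Fin N) ℝ) * (m : MvPolynomial (Fin N) ℝ)
      - (m : MvPolynomial (Fin N) ℝ)) := by
    have e3 : 2 * (m : ℝ) * (m + N - 2) = 2 * ((m : ℝ) * N + ((m - 1 : ℕ) : ℝ) * m - m) := by
      rw [hm]; ring
    rw [e3]
    simp only [map_mul, map_add, map_sub, map_natCast]
    rw [show (C (2 : ℝ) : MvPolynomial (Fin N) ℝ) = 2 from map_ofNat C 2]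
  rw [h1, h2, hc]
  ring

theorem sph_LL (hN : 1 ≤ N) (f : E N → ℝ) (hf : ContDiff ℝ 1 f) (q : MvPolynomial (Fin N) ℝ) :
    sph (fun x => f x * ev (LL q) x) = - ∑ i, ∑ j, sph (fun x => Lr i j f x * ev (Lp i j q) x) := by
  have hcf : Continuous f := hf.continuous
  have hcp : ∀ p : MvPolynomial (Fin N) ℝ, Continuous (ev p) := fun p => (contDiff_ev p).continuous
  have h1 : (fun x => f x * ev (LL q) x)
      = fun x => ∑ i, ∑ j, f x * ev (Lp i j (Lp i j q)) x := by
    funext x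
    simp only [LL, SpC_ev_sum, Finset.mul_sum]
  rw [h1, sph_sum Finset.univ (fun i x => ∑ j, f x * ev (Lp i j (Lp i j q)) x)
    (fun i _ => continuous_finsetSum _ fun j _ => hcf.mul (hcp _)), ← Finset.sum_neg_distrib]
  refine Finset.sum_congr rfl fun i _ => ?_
  rw [sph_sum Finset.univ (fun j x => f x * ev (Lp i j (Lp i j q)) x)
    (fun j _ => hcf.mul (hcp _)), ← Finset.sum_neg_distrib]
  refine Finset.sum_congr rfl fun j _ => ?_
  have h2 := sph_Lr_mul hN i j f (ev (Lp i j q)) hf (contDiff_ev _)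
  rw [h2, neg_neg]
  congr 1
  funext x
  rw [Lr_ev]

end Pool.Agent.H94.ER
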