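import Pool.Agent.H94.ER.SpC

/-!
# SpD: decomposition of polynomials on the sphere

Every polynomial `p` agrees on the unit sphere with a finite sum `∑_{k < n} h k`, where on the unit sphere
`LL (h k) = - 2 k (k + N - 2) h k`, `h 0` is a constant and `h 1` a linear form.

Proof. It is enough to treat homogeneous `p` of degree `m` (sum over the homogeneous components; take `n` large and
pad with zeros). Strong induction on `m`, with the claim that `n = m + 1` works. `m = 0`: `p` is a constant, `LL p = 0`.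
`m = 1`: `p` is a linear form; `LL p = - 2 (N-1) p` by `LL_homog` (the Laplacian of `p` is 0). `m ≥ 2`: `q = ∑_l ∂_l∂_l p` is
homogeneous of degree `m - 2`; on the sphere `q = ∑_{k ≤ m-2} q_k`. By `LL_homog`, on the sphere
`LL p = 2 q - 2 μ_m p` (as `∑ x_l^2 = 1`), `μ_k = k (k+N-2)`. Put `h_k = q_k / (μ_m - μ_k)` for `k ≤ m-2`
(`μ_m > μ_k` for `m ≥ 2`, `N ≥ 2`), `h_{m-1} = 0`, `h_m = p - ∑_{k ≤ m-2} h_k` (as polynomials). On the sphere
`LL h_m = 2 q - 2 μ_m p + 2 ∑ μ_k h_k = - 2 μ_m p + 2 ∑ (μ_m - μ_k) h_k + 2 ∑ μ_k h_k = - 2 μ_m h_m`.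
(`LL` is linear. The identity `LL h_k = -2 μ_k h_k` on the sphere means `ev (LL (h k)) x = -2 μ_k ev (h k) x` for `‖x‖ = 1`.
CAUTION: `LL` of a polynomial that vanishes on the sphere vanishes on the sphere, but this is not needed: everything
above is a combination of identities on the sphere between `ev (LL ..)` and `ev ..` obtained by linearity of `LL`.)
-/

set_option autoImplicit false

open MeasureTheory MvPolynomial

namespace Pool.Agent.H94.ER

variable {N : ℕ}

theorem SpD_Lp_add (i j : Fin N) (p q : MvPolynomial (Fin N) ℝ) :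
    Lp i j (p + q) = Lp i j p + Lp i j q := by
  simp only [Lp, map_add]; ring

theorem LL_add (p q : MvPolynomial (Fin N) ℝ) : LL (p + q) = LL p + LL q := by
  simp only [LL, SpD_Lp_add, Finset.sum_add_distrib]

theorem SpD_Lp_smul (i j : Fin N) (c : ℝ) (p : MvPolynomial (Fin N) ℝ) :
    Lp i j (C c * p) = C c * Lp i j p := by
  simp only [Lp, pderiv_C_mul]; ring

theorem LL_smul (c : ℝ) (p : MvPolynomial (Fin N) ℝ) : LL (C c * p) = C c * LL p := by
  simp only [LL, SpD_Lp_smul, Finset.mul_sum]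

theorem SpD_LL_zero : LL (0 : MvPolynomial (Fin N) ℝ) = 0 := by
  have := LL_smul (0 : ℝ) (0 : MvPolynomial (Fin N) ℝ)
  simpa using this

theorem SpD_LL_sum (s : Finset ℕ) (h : ℕ → MvPolynomial (Fin N) ℝ) :
    LL (∑ k ∈ s, h k) = ∑ k ∈ s, LL (h k) := by
  classical
  induction s using Finset.induction_on with
  | empty => simpa using SpD_LL_zero
  | insert a s ha ih => rw [Finset.sum_insert ha, Finset.sum_insert ha, LL_add, ih]

theorem SpD_ev_add (p q : MvPolynomial (Fin N) ℝ) (x : E N) : ev (p + q) x = ev p x + ev q x := by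
  simp [ev]

theorem SpD_ev_mul (p q : MvPolynomial (Fin N) ℝ) (x : E N) : ev (p * q) x = ev p x * ev q x := by
  simp [ev]

theorem SpD_ev_C (c : ℝ) (x : E N) : ev (C c : MvPolynomial (Fin N) ℝ) x = c := by
  simp [ev]

theorem SpD_ev_sum (s : Finset ℕ) (h : ℕ → MvPolynomial (Fin N) ℝ) (x : E N) :
    ev (∑ k ∈ s, h k) x = ∑ k ∈ s, ev (h k) x := by
  simp [ev]

/-- decomposition with `n` terms -/
def SpD_Dec (n : ℕ) (p : MvPolynomial (Fin N) ℝ) : Prop :=
  ∃ (h : ℕ → MvPolynomial (Fin N) ℝ), (∀ k, n ≤ k → h k = 0) ∧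
      (∀ x : E N, ‖x‖ = 1 → ev p x = ∑ k ∈ Finset.range n, ev (h k) x) ∧
      (∀ k, ∀ x : E N, ‖x‖ = 1 → ev (LL (h k)) x = - (2 * (k : ℝ) * (k + N - 2)) * ev (h k) x) ∧
      (∃ c : ℝ, ∀ x : E N, ev (h 0) x = c) ∧
      (∃ a : Fin N → ℝ, ∀ x : E N, ev (h 1) x = ∑ i, a i * x i)

theorem SpD_mono {n n' : ℕ} (hn : n ≤ n') (p : MvPolynomial (Fin N) ℝ) (h : SpD_Dec n p) :
    SpD_Dec n' p := by
  obtain ⟨h, h1, h2, h3, h4, h5⟩ := h
  refine ⟨h, fun k hk => h1 k (hn.trans hk), fun x hx => ?_, h3, h4, h5⟩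
  rw [h2 x hx]
  apply Finset.sum_subset (Finset.range_mono hn)
  intro k _ hk
  rw [h1 k (by simpa using hk)]
  simp [ev]

theorem SpD_add {n : ℕ} (p q : MvPolynomial (Fin N) ℝ) (h : SpD_Dec n p) (h' : SpD_Dec n q) :
    SpD_Dec n (p + q) := by
  obtain ⟨h, h1, h2, h3, ⟨c, h4⟩, ⟨a, h5⟩⟩ := h
  obtain ⟨g, g1, g2, g3, ⟨c', g4⟩, ⟨a', g5⟩⟩ := h'
  refine ⟨fun k => h k + g k, fun k hk => ?_, fun x hx => ?_, fun k x hx => ?_,
    ⟨c + c', fun x => ?_⟩, ⟨fun i => a i + a' i, fun x => ?_⟩⟩
  · simp [h1 k hk, g1 k hk]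
  · rw [SpD_ev_add, h2 x hx, g2 x hx, ← Finset.sum_add_distrib]
    simp only [SpD_ev_add]
  · rw [LL_add, SpD_ev_add, SpD_ev_add, h3 k x hx, g3 k x hx]; ring
  · rw [SpD_ev_add, h4, g4]
  · rw [SpD_ev_add, h5, g5, ← Finset.sum_add_distrib]
    simp only [add_mul]

theorem SpD_zero (n : ℕ) : SpD_Dec n (0 : MvPolynomial (Fin N) ℝ) := by
  refine ⟨fun _ => 0, fun _ _ => rfl, fun x _ => by simp [ev], fun k x _ => ?_,
    ⟨0, fun x => by simp [ev]⟩, ⟨fun _ => 0, fun x => by simp [ev]⟩⟩
  rw [SpD_LL_zero]; simp [ev]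

theorem SpD_deg0 (p : MvPolynomial (Fin N) ℝ) (hp : p.IsHomogeneous 0) : ∃ c : ℝ, p = C c := by
  have h := hp.totalDegree_le
  have h' : p.totalDegree = 0 := by omega
  exact ⟨_, totalDegree_eq_zero_iff_eq_C.mp h'⟩

theorem SpD_norm (x : E N) (hx : ‖x‖ = 1) : ev (∑ l, X l ^ 2 : MvPolynomial (Fin N) ℝ) x = 1 := by
  have h := EuclideanSpace.norm_sq_eq x
  rw [hx] at h
  simp only [Real.norm_eq_abs, sq_abs, one_pow] at h
  simp [ev, ← h]

theorem SpD_homog (hN : 2 ≤ N) (m : ℕ) : ∀ p : MvPolynomial (Fin N) ℝ, p.IsHomogeneous m →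
    SpD_Dec (m + 1) p := by
  induction m using Nat.strong_induction_on with
  | _ m ih =>
  intro p hp
  rcases Nat.lt_or_ge m 2 with hm | hm
  · -- degree 0 or 1
    refine ⟨fun k => if k = m then p else 0, fun k hk => ?_, fun x hx => ?_, fun k x hx => ?_,
      ?_, ?_⟩
    · have : k ≠ m := by omega
      simp [this]
    · rw [Finset.sum_eq_single m]
      · simp
      · intro b _ hb; simp [hb, ev]
      · intro h; simp at h
    · by_cases hk : k = m
      · subst hk
        simp only [if_true]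
        rw [LL_homog p k hp]
        have h0 : ∀ l, pderiv l (pderiv l p) = 0 := by
          intro l
          obtain ⟨c, hc⟩ := SpD_deg0 (pderiv l p) (by
            have := hp.pderiv (i := l)
            have hk' : k - 1 = 0 := by omega
            rwa [hk'] at this)
          rw [hc]; simp
        simp only [h0, Finset.sum_const_zero, mul_zero, zero_sub]
        rw [← neg_mul, ← C_neg, SpD_ev_mul, SpD_ev_C]
      · simp only [hk, if_false]
        rw [SpD_LL_zero]; simp [ev]
    · by_cases h : (0 : ℕ) = m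
      · subst h
        obtain ⟨c, hc⟩ := SpD_deg0 p hp
        refine ⟨c, fun x => ?_⟩
        simp [hc, ev]
      · exact ⟨0, fun x => by simp [h, ev]⟩
    · by_cases h : (1 : ℕ) = m
      · subst h
        have h0 : ∀ l, ∃ c : ℝ, pderiv l p = C c := fun l => SpD_deg0 _ (hp.pderiv (i := l))
        choose a ha using h0
        refine ⟨a, fun x => ?_⟩
        have := hp.sum_X_mul_pderiv
        simp only [if_true]
        have h2 : p = ∑ i, X i * C (a i) := by
          rw [one_nsmul] at this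
          rw [← this]
          simp only [ha]
        rw [h2]
        simp [ev, mul_comm]
      · exact ⟨fun _ => 0, fun x => by simp [h, ev]⟩
  · -- degree at least 2
    set q := ∑ l, pderiv l (pderiv l p) with hq
    have hqh : q.IsHomogeneous (m - 2) := by
      apply MvPolynomial.IsHomogeneous.sum
      intro l _
      have := (hp.pderiv (i := l)).pderiv (i := l)
      have h2 : m - 1 - 1 = m - 2 := by omega
      rwa [h2] at this
    obtain ⟨g, g1, g2, g3, ⟨c, g4⟩, ⟨a, g5⟩⟩ := ih (m - 2) (by omega) q hqh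
    have hm1 : m - 2 + 1 = m - 1 := by omega
    rw [hm1] at g1 g2
    set μ : ℕ → ℝ := fun k => (k : ℝ) * (k + N - 2) with hμ
    have hNr : (2 : ℝ) ≤ N := by exact_mod_cast hN
    have hlt : ∀ k, k < m → μ k < μ m := by
      intro k hk
      have hkr : (k : ℝ) < m := by exact_mod_cast hk
      have hk0 : (0 : ℝ) ≤ k := Nat.cast_nonneg k
      simp only [hμ]
      nlinarith
    set s : MvPolynomial (Fin N) ℝ := ∑ k ∈ Finset.range (m - 1), C ((μ m - μ k)⁻¹) * g k with hs
    refine ⟨fun k => if k = m then p - s else C ((μ m - μ k)⁻¹) * g k, fun k hk => ?_,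
      fun x hx => ?_, fun k x hx => ?_, ⟨(μ m - μ 0)⁻¹ * c, fun x => ?_⟩,
      ⟨fun i => (μ m - μ 1)⁻¹ * a i, fun x => ?_⟩⟩
    · have : k ≠ m := by omega
      simp only [this, if_false]
      rw [g1 k (by omega)]; simp
    · rw [Finset.sum_range_succ]
      simp only [if_true]
      have h1 : ∑ k ∈ Finset.range m, ev (if k = m then p - s else C ((μ m - μ k)⁻¹) * g k) x
          = ev s x := by
        rw [hs, SpD_ev_sum]
        symm
        refine Finset.sum_subset_zero_on_sdiff (Finset.range_mono (by omega)) ?_ ?_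
        · intro k hk
          have h3 : k < m ∧ m - 1 ≤ k := by simpa using hk
          rw [if_neg (by omega), g1 k h3.2]
          simp [ev]
        · intro k hk
          have : k < m - 1 := Finset.mem_range.mp hk
          rw [if_neg (by omega)]
      rw [h1]
      have : ev (p - s) x = ev p x - ev s x := by simp [ev]
      rw [this]; ring
    · by_cases hk : k = m
      · subst hk
        simp only [if_true]
        have hneg : p - s = p + C (-1) * s := by simp [sub_eq_add_neg]
        rw [hneg, LL_add, LL_smul, LL_homog p k hp, ← hq]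
        rw [SpD_ev_add, SpD_ev_add, SpD_ev_mul, SpD_ev_mul]
        have e1 : ev (2 * (∑ l, X l ^ 2) * q - C (2 * (k : ℝ) * (k + N - 2)) * p) x
            = 2 * ev q x - 2 * μ k * ev p x := by
          have : ev (2 * (∑ l, X l ^ 2) * q - C (2 * (k : ℝ) * (k + N - 2)) * p) x
            = 2 * ev (∑ l, X l ^ 2) x * ev q x - (2 * (k : ℝ) * (k + N - 2)) * ev p x := by
            simp [ev]
          rw [this, SpD_norm x hx, hμ]; ring
        have e2 : ev (LL s) x = - ∑ j ∈ Finset.range (k - 1), 2 * μ j * ((μ k - μ j)⁻¹ * ev (g j) x) := by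
          rw [hs, SpD_LL_sum, SpD_ev_sum, ← Finset.sum_neg_distrib]
          apply Finset.sum_congr rfl
          intro j _
          rw [LL_smul, SpD_ev_mul, SpD_ev_C, g3 j x hx, hμ]; ring
        have e3 : ev s x = ∑ j ∈ Finset.range (k - 1), (μ k - μ j)⁻¹ * ev (g j) x := by
          rw [hs, SpD_ev_sum]
          apply Finset.sum_congr rfl
          intro j _
          rw [SpD_ev_mul, SpD_ev_C]
        have e4 : ev q x = ∑ j ∈ Finset.range (k - 1), (μ k - μ j) * ((μ k - μ j)⁻¹ * ev (g j) x) := by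
          rw [g2 x hx]
          apply Finset.sum_congr rfl
          intro j hj
          have hj' : μ k - μ j ≠ 0 := by
            have := hlt j (by have := Finset.mem_range.mp hj; omega)
            linarith
          rw [← mul_assoc, mul_inv_cancel₀ hj', one_mul]
        have e5 : ev q x = μ k * ev s x - ∑ j ∈ Finset.range (k - 1), μ j * ((μ k - μ j)⁻¹ * ev (g j) x) := by
          rw [e4, e3, Finset.mul_sum, ← Finset.sum_sub_distrib]
          apply Finset.sum_congr rfl
          intro j _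
          ring
        have e6 : ∑ j ∈ Finset.range (k - 1), 2 * μ j * ((μ k - μ j)⁻¹ * ev (g j) x)
            = 2 * ∑ j ∈ Finset.range (k - 1), μ j * ((μ k - μ j)⁻¹ * ev (g j) x) := by
          rw [Finset.mul_sum]
          apply Finset.sum_congr rfl
          intro j _
          ring
        rw [e1, e2, e6, SpD_ev_C, e5]
        have : - (2 * (k : ℝ) * (k + N - 2)) = -2 * μ k := by rw [hμ]; ring
        rw [this]; ring
      · simp only [hk, if_false]
        rw [LL_smul, SpD_ev_mul, SpD_ev_mul, g3 k x hx]; ring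
    · have : (0 : ℕ) ≠ m := by omega
      simp only [this, if_false]
      rw [SpD_ev_mul, SpD_ev_C, g4]
    · have : (1 : ℕ) ≠ m := by omega
      simp only [this, if_false]
      rw [SpD_ev_mul, SpD_ev_C, g5, Finset.mul_sum]
      apply Finset.sum_congr rfl
      intro i _
      ring

theorem decomp (hN : 2 ≤ N) (p : MvPolynomial (Fin N) ℝ) :
    ∃ (n : ℕ) (h : ℕ → MvPolynomial (Fin N) ℝ),
      (∀ x : E N, ‖x‖ = 1 → ev p x = ∑ k ∈ Finset.range n, ev (h k) x) ∧
      (∀ k, ∀ x : E N, ‖x‖ = 1 → ev (LL (h k)) x = - (2 * (k : ℝ) * (k + N - 2)) * ev (h k) x) ∧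
      (∃ c : ℝ, ∀ x : E N, ev (h 0) x = c) ∧
      (∃ a : Fin N → ℝ, ∀ x : E N, ev (h 1) x = ∑ i, a i * x i) := by
  have key : ∀ M : ℕ, SpD_Dec (M + 1) (∑ i ∈ Finset.range (M + 1), homogeneousComponent i p) := by
    intro M
    induction M with
    | zero =>
      simp only [zero_add, Finset.range_one, Finset.sum_singleton]
      exact SpD_homog hN 0 _ (homogeneousComponent_isHomogeneous 0 p)
    | succ M ih =>
      rw [Finset.sum_range_succ]
      exact SpD_add _ _ (SpD_mono (by omega) _ ih)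
        (SpD_homog hN (M + 1) _ (homogeneousComponent_isHomogeneous (M + 1) p))
  have h := key p.totalDegree
  rw [sum_homogeneousComponent] at h
  obtain ⟨h, _, h2, h3, h4, h5⟩ := h
  exact ⟨_, h, h2, h3, h4, h5⟩

end Pool.Agent.H94.ER
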