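import Pool.Agent.H94.ER.SpD

/-!
# SpE: second spectral gap of the sphere

For `f ∈ C^1(E N)`, orthogonal on the sphere to `1` and to the `x_i`:
  `2 N sph f^2 ≤ (1/2) ∑_ij sph (Lr i j f)^2`.

Proof. Put `D(f) = (1/2) ∑_ij sph (Lr i j f)^2`, `μ_k = k (k+N-2)` (`μ_2 = 2N`, `μ_k ≥ 2N` for `k ≥ 2`).
(1) Let `ψ` be a polynomial with `sph ψ = 0`, `sph (ψ x_i) = 0`, `ψ = ∑_{k<n} ψ_k` on the sphere (`decomp`). For `k ≠ l`
`sph (ψ_k ψ_l) = 0`: `sph_LL` (twice) shows `sph (ψ_k LL ψ_l) = sph (ψ_l LL ψ_k)`, so `(μ_k - μ_l) sph(ψ_kψ_l) = 0`.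
`sph ψ_0^2 = sph (ψ ψ_0) = 0` and `sph ψ_1^2 = sph (ψ ψ_1) = 0`. Let `χ = ∑_{2 ≤ k < n} μ_k⁻¹ ψ_k`. On the sphere
`LL χ = - 2 ∑_{k ≥ 2} ψ_k`, so for every `C^1` function `g`:
`sph (g ψ) = sph (g ∑_{k≥2} ψ_k) = - (1/2) sph (g LL χ) = (1/2) ∑_ij sph (Lr i j g · Lp i j χ)` (`ψ_0 = ψ_1 = 0` on the sphere:
`sph_cs` with `sph ψ_0^2 = 0`). In particular
`D(χ) = sph (χ ψ) = ∑_{k≥2} μ_k⁻¹ sph ψ_k^2 ≤ (1/(2N)) sph ψ^2`.
(2) duality: for `f ∈ C^1` as in the theorem and `ψ` as in (1), by Cauchy-Schwarz for sums and integrals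
`(sph (f ψ))^2 ≤ D(f) D(χ) ≤ D(f) sph ψ^2/(2N)`.
(3) density: by Stone-Weierstrass polynomials are dense in `C(sphere)` (`polynomial functions` separate points; the
subalgebra generated by the coordinates, `ContinuousMap.subalgebra_topologicalClosure_eq_top_of_separatesPoints`). Take a
polynomial `ψ'` uniformly `ε`-close to `f` on the sphere and subtract its components along `1`, `x_i`:
`ψ = ψ' - (sph ψ')/σ - ∑ (N/σ) sph(ψ' x_i) x_i`, `σ = sph 1`; as `f` is orthogonal to `1`, `x_i`, these coefficients are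
`O(ε)`, so `ψ` is `O(ε)`-close to `f`, `sph (fψ) → sph f^2`, `sph ψ^2 → sph f^2`. If `sph f^2 > 0` divide.
-/

set_option autoImplicit false

open MeasureTheory MvPolynomial

namespace Pool.Agent.H94.ER

variable {N : ℕ}

theorem SpE_cont_ev (p : MvPolynomial (Fin N) ℝ) : Continuous (ev p) := (contDiff_ev p).continuous

theorem SpE_ev_add (p q : MvPolynomial (Fin N) ℝ) (x : E N) : ev (p + q) x = ev p x + ev q x := by
  simp [ev]

theorem SpE_ev_sub (p q : MvPolynomial (Fin N) ℝ) (x : E N) : ev (p - q) x = ev p x - ev q x := by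
  simp [ev]

theorem SpE_ev_Cmul (c : ℝ) (p : MvPolynomial (Fin N) ℝ) (x : E N) :
    ev (C c * p) x = c * ev p x := by
  simp [ev]

theorem SpE_ev_C (c : ℝ) (x : E N) : ev (C c : MvPolynomial (Fin N) ℝ) x = c := by
  simp [ev]

theorem SpE_ev_X (i : Fin N) (x : E N) : ev (X i : MvPolynomial (Fin N) ℝ) x = x i := by
  simp [ev]

theorem SpE_ev_sum {ι : Type*} (s : Finset ι) (p : ι → MvPolynomial (Fin N) ℝ) (x : E N) :
    ev (∑ k ∈ s, p k) x = ∑ k ∈ s, ev (p k) x := by
  simp [ev]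

/-- Stone-Weierstrass on the sphere -/
theorem SpE_sw (f : E N → ℝ) (hf : Continuous f) (ε : ℝ) (hε : 0 < ε) :
    ∃ p : MvPolynomial (Fin N) ℝ, ∀ x : E N, ‖x‖ = 1 → |f x - ev p x| < ε := by
  classical
  let cx : Fin N → C(Metric.sphere (0 : E N) 1, ℝ) := fun i =>
    ⟨fun x => (x : E N) i, by fun_prop⟩
  let A : Subalgebra ℝ C(Metric.sphere (0 : E N) 1, ℝ) :=
    (MvPolynomial.aeval cx : MvPolynomial (Fin N) ℝ →ₐ[ℝ] _).range
  have hA : A.SeparatesPoints := by
    intro x y hxy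
    have : ∃ i, (x : E N) i ≠ (y : E N) i := by
      by_contra hcon
      push Not at hcon
      apply hxy
      apply Subtype.ext
      ext i
      exact hcon i
    obtain ⟨i, hi⟩ := this
    refine ⟨cx i, ⟨cx i, ?_, rfl⟩, hi⟩
    exact ⟨X i, by simp⟩
  obtain ⟨g, hg⟩ := ContinuousMap.exists_mem_subalgebra_near_continuous_of_separatesPoints A hA
    (fun x => f (x : E N)) (hf.comp continuous_subtype_val) ε hε
  obtain ⟨p, hp⟩ := g.2
  refine ⟨p, fun x hx => ?_⟩
  have hx' : x ∈ Metric.sphere (0 : E N) 1 := by simp [hx]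
  have h1 := hg ⟨x, hx'⟩
  have h2 : (g : C(Metric.sphere (0 : E N) 1, ℝ)) ⟨x, hx'⟩ = ev p x := by
    have h3 : ∀ q : MvPolynomial (Fin N) ℝ,
        ((MvPolynomial.aeval cx : MvPolynomial (Fin N) ℝ →ₐ[ℝ] _) q) ⟨x, hx'⟩ = ev q x := by
      intro q
      induction q using MvPolynomial.induction_on with
      | C a => simp [ev]
      | add p q hp hq =>
        rw [map_add, ContinuousMap.add_apply, hp, hq, SpE_ev_add]
      | mul_X p i hp =>
        rw [map_mul, ContinuousMap.mul_apply, hp, aeval_X]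
        simp [ev, cx]
    rw [← hp]
    exact h3 p
  rw [abs_sub_comm]
  rw [← h2]
  exact h1

/-- the LL-form is symmetric -/
theorem SpE_symm (hN : 1 ≤ N) (p q : MvPolynomial (Fin N) ℝ) :
    sph (fun x => ev p x * ev (LL q) x) = sph (fun x => ev q x * ev (LL p) x) := by
  rw [sph_LL hN (ev p) (contDiff_ev p) q, sph_LL hN (ev q) (contDiff_ev q) p]
  congr 1
  refine Finset.sum_congr rfl fun i _ => Finset.sum_congr rfl fun j _ => ?_
  apply sph_congr
  intro x _
  rw [Lr_ev, Lr_ev]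
  ring

theorem SpE_orth (hN : 1 ≤ N) (p q : MvPolynomial (Fin N) ℝ) (a b : ℝ) (hab : a ≠ b)
    (hp : ∀ x : E N, ‖x‖ = 1 → ev (LL p) x = a * ev p x)
    (hq : ∀ x : E N, ‖x‖ = 1 → ev (LL q) x = b * ev q x) :
    sph (fun x => ev p x * ev q x) = 0 := by
  have h1 := SpE_symm hN p q
  have h2 : sph (fun x => ev p x * ev (LL q) x) = b * sph (fun x => ev p x * ev q x) := by
    rw [← sph_smul]
    apply sph_congr
    intro x hx
    rw [hq x hx]; ring
  have h3 : sph (fun x => ev q x * ev (LL p) x) = a * sph (fun x => ev p x * ev q x) := by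
    rw [← sph_smul]
    apply sph_congr
    intro x hx
    rw [hp x hx]; ring
  have h4 : (a - b) * sph (fun x => ev p x * ev q x) = 0 := by
    linarith [h1, h2, h3]
  rcases mul_eq_zero.1 h4 with h | h
  · exact absurd (sub_eq_zero.1 h) hab
  · exact h

/-- Bessel/Parseval for a finite orthogonal family -/
theorem SpE_pars {ι : Type*} (s : Finset ι) (h : ι → E N → ℝ) (hc : ∀ k ∈ s, Continuous (h k))
    (ho : ∀ k ∈ s, ∀ l ∈ s, k ≠ l → sph (fun x => h k x * h l x) = 0) (a b : ι → ℝ) :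
    sph (fun x => (∑ k ∈ s, a k * h k x) * (∑ k ∈ s, b k * h k x))
      = ∑ k ∈ s, a k * b k * sph (fun x => h k x ^ 2) := by
  classical
  have h1 : (fun x : E N => (∑ k ∈ s, a k * h k x) * (∑ k ∈ s, b k * h k x))
      = fun x => ∑ k ∈ s, ∑ l ∈ s, (a k * b l) * (h k x * h l x) := by
    funext x
    rw [Finset.sum_mul_sum]
    refine Finset.sum_congr rfl fun k _ => Finset.sum_congr rfl fun l _ => ?_
    ring
  rw [h1, sph_sum]
  · refine Finset.sum_congr rfl fun k hk => ?_
    rw [sph_sum]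
    · rw [Finset.sum_eq_single k]
      · rw [sph_smul]
        congr 2
        funext x
        ring
      · intro l hl hlk
        rw [sph_smul, ho k hk l hl (Ne.symm hlk), mul_zero]
      · intro hk'
        exact absurd hk hk'
    · intro l hl
      exact continuous_const.mul ((hc k hk).mul (hc l hl))
  · intro k hk
    refine continuous_finsetSum _ fun l hl => ?_
    exact continuous_const.mul ((hc k hk).mul (hc l hl))

theorem SpE_null (g ρ : E N → ℝ) (hg : Continuous g) (hρ : Continuous ρ)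
    (h : sph (fun x => ρ x ^ 2) = 0) : sph (fun x => g x * ρ x) = 0 := by
  have h1 := sph_cs g ρ hg hρ
  rw [h, mul_zero] at h1
  have h2 : sph (fun x => g x * ρ x) ^ 2 = 0 := le_antisymm h1 (sq_nonneg _)
  exact pow_eq_zero_iff (two_ne_zero) |>.1 h2

theorem SpE_mu (hN : 2 ≤ N) (k l : ℕ) (hkl : k < l) :
    (k : ℝ) * (k + N - 2) < (l : ℝ) * (l + N - 2) := by
  have hN' : (2 : ℝ) ≤ N := by exact_mod_cast hN
  have h1 : (k : ℝ) + 1 ≤ l := by exact_mod_cast hkl
  have h2 : (0 : ℝ) ≤ k := by positivity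
  nlinarith

theorem SpE_dual (hN : 2 ≤ N) (ψ : MvPolynomial (Fin N) ℝ)
    (h0 : sph (ev ψ) = 0) (h1 : ∀ i, sph (fun x => ev ψ x * x i) = 0) :
    ∃ χ : MvPolynomial (Fin N) ℝ,
      (∀ g : E N → ℝ, ContDiff ℝ 1 g → sph (fun x => g x * ev ψ x)
        = (1 / 2) * ∑ i, ∑ j, sph (fun x => Lr i j g x * ev (Lp i j χ) x)) ∧
      sph (fun x => ev χ x * ev ψ x) ≤ 1 / (2 * N) * sph (fun x => ev ψ x ^ 2) := by
  classical
  have hN1 : 1 ≤ N := by omega
  have hN' : (2 : ℝ) ≤ N := by exact_mod_cast hN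
  obtain ⟨n, h, hdec, hLL, ⟨c, hc⟩, ⟨a, ha⟩⟩ := decomp hN ψ
  have hort : ∀ k l : ℕ, k ≠ l → sph (fun x => ev (h k) x * ev (h l) x) = 0 := by
    intro k l hkl
    refine SpE_orth hN1 _ _ _ _ ?_ (hLL k) (hLL l)
    rcases lt_or_gt_of_ne hkl with h' | h'
    · have := SpE_mu hN k l h'
      intro heq
      linarith
    · have := SpE_mu hN l k h'
      intro heq
      linarith
  set S : Finset ℕ := (Finset.range n).filter (fun k => 2 ≤ k) with hS
  set S' : Finset ℕ := (Finset.range n).filter (fun k => ¬ 2 ≤ k) with hS'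
  set φ : E N → ℝ := fun x => ∑ k ∈ S, ev (h k) x with hφ
  set ρ : E N → ℝ := fun x => ∑ k ∈ S', ev (h k) x with hρ
  have hφc : Continuous φ := continuous_finsetSum _ fun k _ => SpE_cont_ev _
  have hρc : Continuous ρ := continuous_finsetSum _ fun k _ => SpE_cont_ev _
  have hψ : ∀ x : E N, ‖x‖ = 1 → ev ψ x = φ x + ρ x := by
    intro x hx
    rw [hdec x hx, hφ, hρ]
    simp only
    rw [Finset.sum_filter_add_sum_filter_not]
  -- ψ is orthogonal to h k, k < 2
  have hψh : ∀ k ∈ S', sph (fun x => ev ψ x * ev (h k) x) = 0 := by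
    intro k hk
    rw [hS', Finset.mem_filter] at hk
    have hk2 : k = 0 ∨ k = 1 := by omega
    rcases hk2 with rfl | rfl
    · have : (fun x : E N => ev ψ x * ev (h 0) x) = fun x => c * ev ψ x := by
        funext x
        rw [hc x]; ring
      rw [this, sph_smul, h0, mul_zero]
    · have : (fun x : E N => ev ψ x * ev (h 1) x) = fun x => ∑ i, a i * (ev ψ x * x i) := by
        funext x
        rw [ha x, Finset.mul_sum]
        refine Finset.sum_congr rfl fun i _ => ?_
        ring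
      rw [this, sph_sum]
      · refine Finset.sum_eq_zero fun i _ => ?_
        rw [sph_smul, h1 i, mul_zero]
      · intro i _
        have : Continuous fun x : E N => x i := by fun_prop
        exact continuous_const.mul ((SpE_cont_ev ψ).mul this)
  have hψρ : sph (fun x => ev ψ x * ρ x) = 0 := by
    have : (fun x : E N => ev ψ x * ρ x) = fun x => ∑ k ∈ S', ev ψ x * ev (h k) x := by
      funext x
      rw [hρ]
      simp only
      rw [Finset.mul_sum]
    rw [this, sph_sum]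
    · exact Finset.sum_eq_zero hψh
    · intro k _
      exact (SpE_cont_ev ψ).mul (SpE_cont_ev _)
  have hφρ : sph (fun x => φ x * ρ x) = 0 := by
    have : (fun x : E N => φ x * ρ x) = fun x => ∑ k ∈ S, ∑ l ∈ S', ev (h k) x * ev (h l) x := by
      funext x
      rw [hρ, hφ]
      simp only
      rw [Finset.sum_mul_sum]
    rw [this, sph_sum]
    · refine Finset.sum_eq_zero fun k hk => ?_
      rw [sph_sum]
      · refine Finset.sum_eq_zero fun l hl => ?_
        refine hort k l ?_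
        rw [hS, Finset.mem_filter] at hk
        rw [hS', Finset.mem_filter] at hl
        intro h'
        rw [h'] at hk
        exact hl.2 hk.2
      · intro l _
        exact (SpE_cont_ev _).mul (SpE_cont_ev _)
    · intro k _
      exact continuous_finsetSum _ fun l _ => (SpE_cont_ev _).mul (SpE_cont_ev _)
  have hρ2 : sph (fun x => ρ x ^ 2) = 0 := by
    have e1 : sph (fun x => ev ψ x * ρ x) = sph (fun x => φ x * ρ x + ρ x ^ 2) := by
      apply sph_congr
      intro x hx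
      rw [hψ x hx]; ring
    rw [sph_add (fun x => φ x * ρ x) (fun x => ρ x ^ 2) (hφc.mul hρc) (hρc.pow 2), hψρ, hφρ,
      zero_add] at e1
    exact e1.symm
  have hgψ : ∀ g : E N → ℝ, Continuous g →
      sph (fun x => g x * ev ψ x) = sph (fun x => g x * φ x) := by
    intro g hg
    have e1 : sph (fun x => g x * ev ψ x) = sph (fun x => g x * φ x + g x * ρ x) := by
      apply sph_congr
      intro x hx
      rw [hψ x hx]; ring
    rw [e1, sph_add (fun x => g x * φ x) (fun x => g x * ρ x) (hg.mul hφc) (hg.mul hρc),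
      SpE_null g ρ hg hρc hρ2, add_zero]
  set μ : ℕ → ℝ := fun k => (k : ℝ) * (k + N - 2) with hμ
  have hμ2 : ∀ k ∈ S, 2 * (N : ℝ) ≤ μ k := by
    intro k hk
    rw [hS, Finset.mem_filter] at hk
    have hk2 : (2 : ℝ) ≤ k := by exact_mod_cast hk.2
    rw [hμ]
    simp only
    nlinarith
  set χ : MvPolynomial (Fin N) ℝ := ∑ k ∈ S, C ((μ k)⁻¹) * h k with hχ
  have hevχ : ∀ x : E N, ev χ x = ∑ k ∈ S, (μ k)⁻¹ * ev (h k) x := by
    intro x
    rw [hχ, SpE_ev_sum]
    refine Finset.sum_congr rfl fun k _ => ?_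
    rw [SpE_ev_Cmul]
  have hLLsum : ∀ (T : Finset ℕ) (p : ℕ → MvPolynomial (Fin N) ℝ),
      LL (∑ k ∈ T, p k) = ∑ k ∈ T, LL (p k) := by
    intro T p
    induction T using Finset.induction_on with
    | empty =>
      rw [Finset.sum_empty, Finset.sum_empty]
      have := LL_smul (0 : ℝ) (0 : MvPolynomial (Fin N) ℝ)
      rwa [C_0, zero_mul, zero_mul] at this
    | insert k T hk ih =>
      rw [Finset.sum_insert hk, Finset.sum_insert hk, LL_add, ih]
  have hLLχ : ∀ x : E N, ‖x‖ = 1 → ev (LL χ) x = - 2 * φ x := by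
    intro x hx
    rw [hχ, hLLsum, SpE_ev_sum, hφ]
    simp only
    rw [Finset.mul_sum]
    refine Finset.sum_congr rfl fun k hk => ?_
    rw [LL_smul, SpE_ev_Cmul, hLL k x hx]
    have h2 := hμ2 k hk
    have hpos : μ k ≠ 0 := by
      have : (0 : ℝ) < μ k := by linarith
      exact this.ne'
    have e3 : (2 * (k : ℝ) * (k + N - 2)) = 2 * μ k := by
      rw [hμ]; ring
    rw [e3]
    field_simp
  refine ⟨χ, ?_, ?_⟩
  · intro g hg
    rw [hgψ g hg.continuous]
    have e1 : sph (fun x => g x * φ x) = - (1 / 2) * sph (fun x => g x * ev (LL χ) x) := by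
      rw [← sph_smul]
      apply sph_congr
      intro x hx
      rw [hLLχ x hx]; ring
    rw [e1, sph_LL hN1 g hg χ]
    ring
  · have hPars := SpE_pars (N := N) S (fun k => ev (h k)) (fun k _ => SpE_cont_ev _)
      (fun k _ l _ hkl => hort k l hkl)
    have e1 : sph (fun x => ev χ x * ev ψ x)
        = ∑ k ∈ S, (μ k)⁻¹ * 1 * sph (fun x => ev (h k) x ^ 2) := by
      rw [hgψ (ev χ) (SpE_cont_ev χ), ← hPars]
      congr 1
      funext x
      rw [hevχ x, hφ]
      simp only [one_mul]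
    have e2 : sph (fun x => ev ψ x ^ 2)
        = ∑ k ∈ S, (1 : ℝ) * 1 * sph (fun x => ev (h k) x ^ 2) := by
      have e3 : sph (fun x => ev ψ x ^ 2) = sph (fun x => φ x * φ x) := by
        have e4 : (fun x : E N => ev ψ x ^ 2) = fun x => ev ψ x * ev ψ x := by
          funext x; ring
        rw [e4, hgψ (ev ψ) (SpE_cont_ev ψ)]
        have e5 : (fun x : E N => ev ψ x * φ x) = fun x => φ x * ev ψ x := by
          funext x; ring
        rw [e5, hgψ φ hφc]
      rw [e3, ← hPars]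
      congr 1
      funext x
      rw [hφ]
      simp only [one_mul]
    rw [e1, e2, Finset.mul_sum]
    refine Finset.sum_le_sum fun k hk => ?_
    have h2 := hμ2 k hk
    have hnn : 0 ≤ sph (fun x => ev (h k) x ^ 2) := by
      have := sph_mono (fun _ : E N => (0 : ℝ)) (fun x => ev (h k) x ^ 2) continuous_const
        ((SpE_cont_ev _).pow 2) (fun x _ => sq_nonneg _)
      have e6 : sph (fun _ : E N => (0 : ℝ)) = 0 := by
        simp [sph]
      rwa [e6] at this
    have h3 : (μ k)⁻¹ ≤ 1 / (2 * N) := by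
      rw [one_div]
      exact inv_anti₀ (by linarith) h2
    nlinarith [mul_le_mul_of_nonneg_right h3 hnn]

theorem SpE_nonneg (g : E N → ℝ) (hg : Continuous g) : 0 ≤ sph (fun x => g x ^ 2) := by
  have := sph_mono (fun _ : E N => (0 : ℝ)) (fun x => g x ^ 2) continuous_const
    (hg.pow 2) (fun x _ => sq_nonneg _)
  have e6 : sph (fun _ : E N => (0 : ℝ)) = 0 := by
    simp [sph]
  rwa [e6] at this

theorem SpE_cont_Lr (i j : Fin N) (f : E N → ℝ) (hf : ContDiff ℝ 1 f) : Continuous (Lr i j f) :=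
  continuous_Lr i j f hf

/-- the main inequality for a polynomial `ψ` -/
theorem SpE_main (hN : 2 ≤ N) (f : E N → ℝ) (hf : ContDiff ℝ 1 f) (ψ : MvPolynomial (Fin N) ℝ)
    (h0 : sph (ev ψ) = 0) (h1 : ∀ i, sph (fun x => ev ψ x * x i) = 0) :
    4 * N * sph (fun x => f x * ev ψ x) - 2 * N * sph (fun x => ev ψ x ^ 2)
      ≤ (1 / 2) * ∑ i, ∑ j, sph (fun x => Lr i j f x ^ 2) := by
  obtain ⟨χ, hχ1, hχ2⟩ := SpE_dual hN ψ h0 h1
  have hN' : (2 : ℝ) ≤ N := by exact_mod_cast hN
  have e1 := hχ1 f hf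
  have e2 := hχ1 (ev χ) (contDiff_ev χ)
  have hpt : ∀ i j : Fin N, 0 ≤ sph (fun x => Lr i j f x ^ 2)
      - 4 * N * sph (fun x => Lr i j f x * ev (Lp i j χ) x)
      + 4 * N ^ 2 * sph (fun x => ev (Lp i j χ) x ^ 2) := by
    intro i j
    have c1 := continuous_Lr i j f hf
    have c2 := SpE_cont_ev (Lp i j χ)
    have h3 := SpE_nonneg (fun x => Lr i j f x + (- (2 * N : ℝ)) * ev (Lp i j χ) x)
      (c1.add (continuous_const.mul c2))
    have h4 : (fun x => (Lr i j f x + (- (2 * N : ℝ)) * ev (Lp i j χ) x) ^ 2)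
        = fun x => (Lr i j f x ^ 2 + (- (4 * N : ℝ)) * (Lr i j f x * ev (Lp i j χ) x))
          + (4 * N ^ 2 : ℝ) * ev (Lp i j χ) x ^ 2 := by
      funext x; ring
    rw [h4, sph_add, sph_add, sph_smul, sph_smul] at h3
    · linarith
    · exact c1.pow 2
    · exact continuous_const.mul (c1.mul c2)
    · exact (c1.pow 2).add (continuous_const.mul (c1.mul c2))
    · exact continuous_const.mul (c2.pow 2)
  have hsum : 0 ≤ ∑ i : Fin N, ∑ j : Fin N, (sph (fun x => Lr i j f x ^ 2)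
      - 4 * N * sph (fun x => Lr i j f x * ev (Lp i j χ) x)
      + 4 * N ^ 2 * sph (fun x => ev (Lp i j χ) x ^ 2)) :=
    Finset.sum_nonneg fun i _ => Finset.sum_nonneg fun j _ => hpt i j
  simp only [Finset.sum_add_distrib, Finset.sum_sub_distrib, ← Finset.mul_sum] at hsum
  have e3 : ∑ i : Fin N, ∑ j : Fin N, sph (fun x => Lr i j (ev χ) x * ev (Lp i j χ) x)
      = ∑ i : Fin N, ∑ j : Fin N, sph (fun x => ev (Lp i j χ) x ^ 2) := by
    refine Finset.sum_congr rfl fun i _ => Finset.sum_congr rfl fun j _ => ?_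
    congr 1
    funext x
    rw [Lr_ev]; ring
  rw [e3] at e2
  have e4 : 4 * (N : ℝ) ^ 2 * ∑ i : Fin N, ∑ j : Fin N, sph (fun x => ev (Lp i j χ) x ^ 2)
      ≤ 4 * N * sph (fun x => ev ψ x ^ 2) := by
    have h5 : 8 * (N : ℝ) ^ 2 * sph (fun x => ev χ x * ev ψ x)
        ≤ 8 * (N : ℝ) ^ 2 * (1 / (2 * N) * sph (fun x => ev ψ x ^ 2)) :=
      mul_le_mul_of_nonneg_left hχ2 (by positivity)
    have h6 : 8 * (N : ℝ) ^ 2 * (1 / (2 * N) * sph (fun x => ev ψ x ^ 2))
        = 4 * N * sph (fun x => ev ψ x ^ 2) := by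
      have : (N : ℝ) ≠ 0 := by linarith
      field_simp
      ring
    rw [h6, e2] at h5
    linarith
  rw [e1]
  linarith

/-- linear part of a polynomial -/
theorem SpE_proj (hN : 2 ≤ N) (f : E N → ℝ) (hf : Continuous f) (h0 : sph f = 0)
    (h1 : ∀ i, sph (fun x => f x * x i) = 0) (p : MvPolynomial (Fin N) ℝ) :
    ∃ ψ : MvPolynomial (Fin N) ℝ, sph (ev ψ) = 0 ∧ (∀ i, sph (fun x => ev ψ x * x i) = 0) ∧
      sph (fun x => (f x - ev ψ x) ^ 2) ≤ sph (fun x => (f x - ev p x) ^ 2) := by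
  classical
  have hN1 : 1 ≤ N := by omega
  have hN' : (2 : ℝ) ≤ N := by exact_mod_cast hN
  have hσ := sph_one_pos (N := N) hN1
  set σ : ℝ := sph (fun _ : E N => (1 : ℝ)) with hσdef
  set c0 : ℝ := sph (ev p) / σ with hc0
  set c : Fin N → ℝ := fun i => N * sph (fun x => ev p x * x i) / σ with hc
  set ℓ : MvPolynomial (Fin N) ℝ := C c0 + ∑ i, C (c i) * X i with hℓ
  have hcx : ∀ i : Fin N, Continuous fun x : E N => x i := fun i => by fun_prop
  have hevℓ : ∀ x : E N, ev ℓ x = c0 + ∑ i, c i * x i := by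
    intro x
    rw [hℓ, SpE_ev_add, SpE_ev_C, SpE_ev_sum]
    congr 1
    refine Finset.sum_congr rfl fun i _ => ?_
    rw [SpE_ev_Cmul, SpE_ev_X]
  have hxi : ∀ i : Fin N, sph (fun x : E N => x i) = 0 := by
    intro i
    refine sph_odd hN1 _ (hcx i) ?_
    intro x
    simp
  -- integral of g * ℓ
  have hgℓ : ∀ g : E N → ℝ, Continuous g → sph (fun x => g x * ev ℓ x)
      = c0 * sph g + ∑ i, c i * sph (fun x => g x * x i) := by
    intro g hg
    have e1 : (fun x => g x * ev ℓ x) = fun x => c0 * g x + ∑ i, c i * (g x * x i) := by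
      funext x
      rw [hevℓ x, mul_add, Finset.mul_sum]
      congr 1
      · ring
      · refine Finset.sum_congr rfl fun i _ => ?_
        ring
    rw [e1, sph_add, sph_smul, sph_sum]
    · congr 1
      refine Finset.sum_congr rfl fun i _ => ?_
      rw [sph_smul]
    · intro i _
      exact continuous_const.mul (hg.mul (hcx i))
    · exact continuous_const.mul hg
    · exact continuous_finsetSum _ fun i _ => continuous_const.mul (hg.mul (hcx i))
  have hℓ0 : sph (ev ℓ) = σ * c0 := by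
    have e1 := hgℓ (fun _ => 1) continuous_const
    simp only [one_mul] at e1
    have e2 : (fun x => ev ℓ x) = ev ℓ := rfl
    rw [e2] at e1
    rw [e1]
    have e3 : ∑ i : Fin N, c i * sph (fun x : E N => x i) = 0 :=
      Finset.sum_eq_zero fun i _ => by rw [hxi i, mul_zero]
    rw [e3, add_zero, ← hσdef]
    ring
  have hℓi : ∀ i, sph (fun x => ev ℓ x * x i) = σ / N * c i := by
    intro i
    have e1 := hgℓ (fun x => x i) (hcx i)
    have e2 : (fun x : E N => ev ℓ x * x i) = fun x => x i * ev ℓ x := by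
      funext x; ring
    rw [e2, e1, hxi i, mul_zero, zero_add]
    rw [Finset.sum_eq_single i]
    · rw [sph_coord_mul hN1 i i, if_pos rfl, ← hσdef]
      ring
    · intro j _ hji
      rw [sph_coord_mul hN1 i j, if_neg (Ne.symm hji), mul_zero]
    · intro h
      exact absurd (Finset.mem_univ i) h
  refine ⟨p - ℓ, ?_, ?_, ?_⟩
  · have e1 : ev (p - ℓ) = fun x => ev p x + (-1) * ev ℓ x := by
      funext x
      rw [SpE_ev_sub]; ring
    rw [e1, sph_add (fun x => ev p x) (fun x => (-1) * ev ℓ x) (SpE_cont_ev p)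
      (continuous_const.mul (SpE_cont_ev ℓ)), sph_smul]
    have e2 : (fun x => ev p x) = ev p := rfl
    have e3 : (fun x => ev ℓ x) = ev ℓ := rfl
    have e4 : sph (fun x => ev p x) + -1 * sph (fun x => ev ℓ x) = sph (ev p) - sph (ev ℓ) := by
      rw [e2, e3]; ring
    rw [e4, hℓ0, hc0]
    field_simp
    ring
  · intro i
    have e1 : (fun x => ev (p - ℓ) x * x i)
        = fun x => ev p x * x i + (-1) * (ev ℓ x * x i) := by
      funext x
      rw [SpE_ev_sub]; ring
    rw [e1, sph_add (fun x => ev p x * x i) (fun x => (-1) * (ev ℓ x * x i))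
      ((SpE_cont_ev p).mul (hcx i))
      (continuous_const.mul ((SpE_cont_ev ℓ).mul (hcx i))), sph_smul, hℓi i, hc]
    have : (N : ℝ) ≠ 0 := by linarith
    field_simp
    ring
  · -- Pythagoras
    have hψ0 : sph (ev (p - ℓ)) = 0 := by
      have e1 : ev (p - ℓ) = fun x => ev p x + (-1) * ev ℓ x := by
        funext x
        rw [SpE_ev_sub]; ring
      rw [e1, sph_add (fun x => ev p x) (fun x => (-1) * ev ℓ x) (SpE_cont_ev p)
      (continuous_const.mul (SpE_cont_ev ℓ)), sph_smul]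
      have e2 : (fun x => ev p x) = ev p := rfl
      have e3 : (fun x => ev ℓ x) = ev ℓ := rfl
      have e4 : sph (fun x => ev p x) + -1 * sph (fun x => ev ℓ x)
          = sph (ev p) - sph (ev ℓ) := by
        rw [e2, e3]; ring
      rw [e4, hℓ0, hc0]
      field_simp
      ring
    have hψi : ∀ i, sph (fun x => ev (p - ℓ) x * x i) = 0 := by
      intro i
      have e1 : (fun x => ev (p - ℓ) x * x i)
          = fun x => ev p x * x i + (-1) * (ev ℓ x * x i) := by
        funext x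
        rw [SpE_ev_sub]; ring
      rw [e1, sph_add (fun x => ev p x * x i) (fun x => (-1) * (ev ℓ x * x i))
        ((SpE_cont_ev p).mul (hcx i))
        (continuous_const.mul ((SpE_cont_ev ℓ).mul (hcx i))), sph_smul, hℓi i, hc]
      have : (N : ℝ) ≠ 0 := by linarith
      field_simp
      ring
    have hcross : sph (fun x => (f x - ev (p - ℓ) x) * ev ℓ x) = 0 := by
      have e1 : (fun x => (f x - ev (p - ℓ) x) * ev ℓ x)
          = fun x => f x * ev ℓ x + (-1) * (ev (p - ℓ) x * ev ℓ x) := by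
        funext x; ring
      rw [e1, sph_add (fun x => f x * ev ℓ x) (fun x => (-1) * (ev (p - ℓ) x * ev ℓ x))
        (hf.mul (SpE_cont_ev ℓ))
        (continuous_const.mul ((SpE_cont_ev _).mul (SpE_cont_ev ℓ))), sph_smul, hgℓ f hf,
        hgℓ (ev (p - ℓ)) (SpE_cont_ev _), h0, hψ0]
      simp [h1, hψi]
    have e2 : (fun x => (f x - ev p x) ^ 2)
        = fun x => ((f x - ev (p - ℓ) x) ^ 2 + (-2) * ((f x - ev (p - ℓ) x) * ev ℓ x))
          + ev ℓ x ^ 2 := by
      funext x
      rw [SpE_ev_sub]; ring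
    have cψ : Continuous fun x => f x - ev (p - ℓ) x := hf.sub (SpE_cont_ev _)
    rw [e2, sph_add, sph_add, sph_smul, hcross]
    · have := SpE_nonneg (ev ℓ) (SpE_cont_ev ℓ)
      linarith
    · exact cψ.pow 2
    · exact continuous_const.mul (cψ.mul (SpE_cont_ev ℓ))
    · exact (cψ.pow 2).add (continuous_const.mul (cψ.mul (SpE_cont_ev ℓ)))
    · exact (SpE_cont_ev ℓ).pow 2

theorem gap_orth (hN : 2 ≤ N) (f : E N → ℝ) (hf : ContDiff ℝ 1 f) (h0 : sph f = 0)
    (h1 : ∀ i, sph (fun x => f x * x i) = 0) :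
    2 * N * sph (fun x => f x ^ 2) ≤ (1 / 2) * ∑ i, ∑ j, sph (fun x => Lr i j f x ^ 2) := by
  have hN1 : 1 ≤ N := by omega
  have hN' : (2 : ℝ) ≤ N := by exact_mod_cast hN
  have hσ := sph_one_pos (N := N) hN1
  set σ : ℝ := sph (fun _ : E N => (1 : ℝ)) with hσdef
  apply le_of_forall_pos_le_add
  intro δ hδ
  obtain ⟨ε, hε, hεδ⟩ : ∃ ε : ℝ, 0 < ε ∧ 2 * N * (ε ^ 2 * σ) ≤ δ := by
    refine ⟨√(δ / (2 * N * σ)), Real.sqrt_pos.2 (by positivity), ?_⟩
    rw [Real.sq_sqrt (by positivity)]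
    have : (N : ℝ) ≠ 0 := by linarith
    have h2 : σ ≠ 0 := hσ.ne'
    apply le_of_eq
    field_simp
  obtain ⟨p, hp⟩ := SpE_sw f hf.continuous ε hε
  obtain ⟨ψ, hψ0, hψ1, hψ2⟩ := SpE_proj hN f hf.continuous h0 h1 p
  have hmain := SpE_main hN f hf ψ hψ0 hψ1
  have e1 : sph (fun x => (f x - ev p x) ^ 2) ≤ ε ^ 2 * σ := by
    have e2 : ε ^ 2 * σ = sph (fun _ : E N => ε ^ 2 * (1 : ℝ)) := by
      rw [sph_smul]
    rw [e2]
    apply sph_mono
    · exact (hf.continuous.sub (SpE_cont_ev p)).pow 2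
    · exact continuous_const
    · intro x hx
      have h3 := hp x hx
      have h4 := abs_lt.1 h3
      nlinarith [h4.1, h4.2]
  have e3 : (fun x => (f x - ev ψ x) ^ 2)
      = fun x => (f x ^ 2 + (-2) * (f x * ev ψ x)) + ev ψ x ^ 2 := by
    funext x; ring
  have cf := hf.continuous
  have cψ := SpE_cont_ev ψ
  rw [e3, sph_add, sph_add, sph_smul] at hψ2
  · have h5 : 2 * (N : ℝ) * (sph (fun x => f x ^ 2) + -2 * sph (fun x => f x * ev ψ x)
        + sph (fun x => ev ψ x ^ 2)) ≤ 2 * N * (ε ^ 2 * σ) :=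
      mul_le_mul_of_nonneg_left (hψ2.trans e1) (by positivity)
    linarith
  · exact cf.pow 2
  · exact continuous_const.mul (cf.mul cψ)
  · exact (cf.pow 2).add (continuous_const.mul (cf.mul cψ))
  · exact cψ.pow 2

end Pool.Agent.H94.ER
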