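import Pool.Agent.H94.ER.SpE

/-!
# SpF: the gap inequality for a general function

`σ = sph 1`, `a0 = sph f/σ`, `a i = N sph (f x_i)/σ`. For `f ∈ C^1`:
 `(1/2) ∑_ij sph (Lr i j f)^2 ≥ (N-1) (σ/N) ∑ a_i^2 + 2N (sph f^2 - σ a0^2 - (σ/N) ∑ a_i^2)`.
Proof. `g = f - a0 - ∑ a_i x_i` is orthogonal to `1` and the `x_i` (`sph_coord_mul`, `sph_odd`), so `gap_orth` applies;
`sph f^2 = sph g^2 + σ a0^2 + (σ/N) ∑ a_i^2`; with `ℓ = ∑ a_i x_i`, `Lr i j f = Lr i j g + Lr i j ℓ`,
`(1/2) ∑_ij Lr i j (Lr i j ℓ) = - (N-1) ℓ`, so by `sph_Lr_mul` the cross term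
`∑_ij sph (Lr i j g Lr i j ℓ) = 2 (N-1) sph (g ℓ) = 0` and `(1/2) ∑_ij sph (Lr i j ℓ)^2 = (N-1) sph ℓ^2 = (N-1)(σ/N)∑a_i^2`.
(`Lr i j x_l = x_i δ_jl - x_j δ_il`; directly: `(1/2)∑_ij (Lr i j ℓ)^2 = ‖x‖^2 |a|^2 - (a·x)^2` by `lagrange`.)
-/

set_option autoImplicit false

open MeasureTheory

namespace Pool.Agent.H94.ER

variable {N : ℕ}

theorem SpF_contDiff_coord (i : Fin N) : ContDiff ℝ 1 (fun x : E N => x i) :=
  (EuclideanSpace.proj i : E N →L[ℝ] ℝ).contDiff

theorem SpF_cont_coord (i : Fin N) : Continuous (fun x : E N => x i) :=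
  (SpF_contDiff_coord i).continuous

/-- linear form -/
noncomputable def SpF_l (a : Fin N → ℝ) (x : E N) : ℝ := ∑ i, a i * x i

theorem SpF_contDiff_l (a : Fin N → ℝ) : ContDiff ℝ 1 (SpF_l a) := by
  unfold SpF_l
  exact ContDiff.sum fun i _ => contDiff_const.mul (SpF_contDiff_coord i)

theorem SpF_sph_coord (hN : 2 ≤ N) (i : Fin N) : sph (fun x : E N => x i) = 0 := by
  refine sph_odd (by omega) _ (SpF_cont_coord i) ?_
  intro x
  simp

theorem SpF_sph_l (hN : 2 ≤ N) (a : Fin N → ℝ) : sph (SpF_l a) = 0 := by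
  refine sph_odd (by omega) _ (SpF_contDiff_l a).continuous ?_
  intro x
  simp [SpF_l]

theorem SpF_sph_l_coord (hN : 2 ≤ N) (a : Fin N → ℝ) (j : Fin N) :
    sph (fun x : E N => SpF_l a x * x j) = a j * (sph (fun _ : E N => (1 : ℝ)) / N) := by
  have h1 : (fun x : E N => SpF_l a x * x j) = fun x => ∑ i ∈ Finset.univ, a i * (x i * x j) := by
    funext x
    simp only [SpF_l, Finset.sum_mul]
    exact Finset.sum_congr rfl fun i _ => by ring
  rw [h1, sph_sum]
  · rw [Finset.sum_eq_single j]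
    · rw [sph_smul (a j) (fun x : E N => x j * x j), sph_coord_mul (by omega)]
      simp
    · intro b _ hb
      rw [sph_smul (a b) (fun x : E N => x b * x j), sph_coord_mul (by omega)]
      simp [hb]
    · intro h; exact absurd (Finset.mem_univ j) h
  · intro i _
    exact continuous_const.mul ((SpF_cont_coord i).mul (SpF_cont_coord j))

theorem SpF_sph_l_sq (hN : 2 ≤ N) (a : Fin N → ℝ) :
    sph (fun x : E N => SpF_l a x ^ 2)
      = (sph (fun _ : E N => (1 : ℝ)) / N) * ∑ i, a i ^ 2 := by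
  have h1 : (fun x : E N => SpF_l a x ^ 2)
      = fun x => ∑ i ∈ Finset.univ, a i * (SpF_l a x * x i) := by
    funext x
    have e : ∀ c : ℝ, ∑ i, a i * (c * x i) = c * ∑ i, a i * x i := by
      intro c
      rw [Finset.mul_sum]
      exact Finset.sum_congr rfl fun i _ => by ring
    rw [e, sq]
    rfl
  rw [h1, sph_sum]
  · rw [Finset.mul_sum]
    refine Finset.sum_congr rfl fun i _ => ?_
    rw [sph_smul (a i) (fun x : E N => SpF_l a x * x i), SpF_sph_l_coord hN]
    ring
  · intro i _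
    exact continuous_const.mul ((SpF_contDiff_l a).continuous.mul (SpF_cont_coord i))

theorem SpF_Lr_add (i j : Fin N) (u v : E N → ℝ) (hu : ContDiff ℝ 1 u) (hv : ContDiff ℝ 1 v)
    (x : E N) : Lr i j (fun y => u y + v y) x = Lr i j u x + Lr i j v x := by
  unfold Lr
  have h1 := hu.differentiable (by norm_num) x
  have h2 := hv.differentiable (by norm_num) x
  rw [pd_add _ _ _ _ h1 h2, pd_add _ _ _ _ h1 h2]
  ring

theorem SpF_pd_lin (i : Fin N) (c d : ℝ) (k l : Fin N) (x : E N) :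
    pd i (fun y : E N => c * y k + d * y l) x
      = c * (if i = k then 1 else 0) + d * (if i = l then 1 else 0) := by
  have h1 : ∀ (k : Fin N) (c : ℝ), DifferentiableAt ℝ (fun y : E N => c * y k) x := fun k c =>
    ((contDiff_const.mul (SpF_contDiff_coord k)).differentiable (n := 1) (by norm_num)) x
  rw [pd_add i (fun y : E N => c * y k) (fun y : E N => d * y l) x (h1 k c) (h1 l d),
    pd_const_mul i c (fun y : E N => y k), pd_const_mul i d (fun y : E N => y l),
    pd_coord, pd_coord]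

theorem SpF_pd_l (i : Fin N) (a : Fin N → ℝ) (x : E N) : pd i (SpF_l a) x = a i := by
  have h0 : SpF_l a = fun y : E N => ∑ j ∈ Finset.univ, (fun (j : Fin N) (y : E N) => a j * y j) j y := by
    funext y; rfl
  have h1 : ∀ (k : Fin N) (c : ℝ), DifferentiableAt ℝ (fun y : E N => c * y k) x := fun k c =>
    ((contDiff_const.mul (SpF_contDiff_coord k)).differentiable (n := 1) (by norm_num)) x
  rw [h0, pd_sum Finset.univ i (fun (j : Fin N) (y : E N) => a j * y j) x (fun j _ => h1 j (a j))]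
  have h2 : ∀ j : Fin N, pd i ((fun (j : Fin N) (y : E N) => a j * y j) j) x
      = if i = j then a j else 0 := by
    intro j
    have := pd_const_mul i (a j) (fun y : E N => y j) x
    simp only []
    rw [this, pd_coord]
    split_ifs <;> simp
  rw [Finset.sum_congr rfl fun j _ => h2 j]
  simp

theorem SpF_Lr_l (i j : Fin N) (a : Fin N → ℝ) :
    Lr i j (SpF_l a) = fun x => a j * x i + (-a i) * x j := by
  funext x
  unfold Lr
  rw [SpF_pd_l, SpF_pd_l]
  ring

theorem SpF_Lr_const (i j : Fin N) (c : ℝ) (x : E N) : Lr i j (fun _ => c) x = 0 := by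
  unfold Lr
  rw [pd_const, pd_const]
  ring

theorem SpF_sum_sq (a b : Fin N → ℝ) :
    ∑ i, ∑ j, (a j * b i + (-a i) * b j) ^ 2
      = 2 * ((∑ i, a i ^ 2) * ∑ i, b i ^ 2) - 2 * (∑ i, a i * b i) ^ 2 := by
  have h1 : ∀ i, ∑ j, (a j * b i + (-a i) * b j) ^ 2
      = b i ^ 2 * (∑ j, a j ^ 2) + a i ^ 2 * (∑ j, b j ^ 2)
        - 2 * (a i * b i) * ∑ j, a j * b j := by
    intro i
    rw [Finset.mul_sum, Finset.mul_sum, Finset.mul_sum, ← Finset.sum_add_distrib,
      ← Finset.sum_sub_distrib]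
    exact Finset.sum_congr rfl fun j _ => by ring
  rw [Finset.sum_congr rfl fun i _ => h1 i, Finset.sum_sub_distrib, Finset.sum_add_distrib,
    ← Finset.sum_mul, ← Finset.sum_mul, ← Finset.sum_mul, ← Finset.mul_sum]
  ring

theorem SpF_sph_Lr_l (hN : 2 ≤ N) (a : Fin N → ℝ) :
    ∑ i, ∑ j, sph (fun x : E N => Lr i j (SpF_l a) x ^ 2)
      = 2 * ((N - 1) * (sph (fun _ : E N => (1 : ℝ)) / N) * ∑ i, a i ^ 2) := by
  have hc : ∀ i j : Fin N, Continuous fun x : E N => Lr i j (SpF_l a) x ^ 2 := fun i j =>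
    (continuous_Lr i j _ (SpF_contDiff_l a)).pow 2
  have h1 : ∑ i, ∑ j, sph (fun x : E N => Lr i j (SpF_l a) x ^ 2)
      = sph (fun x : E N => ∑ i ∈ Finset.univ, ∑ j ∈ Finset.univ, Lr i j (SpF_l a) x ^ 2) := by
    rw [sph_sum Finset.univ (fun i (x : E N) => ∑ j ∈ Finset.univ, Lr i j (SpF_l a) x ^ 2)]
    · refine Finset.sum_congr rfl fun i _ => ?_
      rw [sph_sum Finset.univ (fun j (x : E N) => Lr i j (SpF_l a) x ^ 2)]
      exact fun j _ => hc i j
    · intro i _
      exact continuous_finset_sum _ fun j _ => hc i j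
  rw [h1]
  have h2 : sph (fun x : E N => ∑ i ∈ Finset.univ, ∑ j ∈ Finset.univ, Lr i j (SpF_l a) x ^ 2)
      = sph (fun x : E N => 2 * (∑ i, a i ^ 2) * 1 + (-2) * SpF_l a x ^ 2) := by
    refine sph_congr _ _ fun x hx => ?_
    simp only [SpF_Lr_l]
    rw [SpF_sum_sq a (fun i => x i)]
    have e := sum_coord_sq x
    rw [hx] at e
    rw [e]
    simp only [SpF_l]
    ring
  have hlc := (SpF_contDiff_l a).continuous
  rw [h2, sph_add (fun _ : E N => 2 * (∑ i, a i ^ 2) * 1) (fun x => (-2) * SpF_l a x ^ 2)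
    (by fun_prop) (by fun_prop),
    sph_smul, sph_smul, SpF_sph_l_sq hN]
  have hN0 : (N : ℝ) ≠ 0 := by
    have : 0 < N := by omega
    positivity
  field_simp
  ring

theorem gap_full (hN : 2 ≤ N) (f : E N → ℝ) (hf : ContDiff ℝ 1 f) (σ a0 : ℝ) (a : Fin N → ℝ)
    (hσ : σ = sph (fun _ : E N => (1 : ℝ))) (ha0 : a0 = sph f / σ)
    (ha : ∀ i, a i = N * sph (fun x => f x * x i) / σ) :
    (N - 1) * (σ / N) * (∑ i, a i ^ 2)
        + 2 * N * (sph (fun x => f x ^ 2) - σ * a0 ^ 2 - (σ / N) * ∑ i, a i ^ 2)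
      ≤ (1 / 2) * ∑ i, ∑ j, sph (fun x => Lr i j f x ^ 2) := by
  have hσ0 : 0 < σ := by rw [hσ]; exact sph_one_pos (by omega)
  have hN0 : (0 : ℝ) < N := by
    have : 0 < N := by omega
    positivity
  have hlc := (SpF_contDiff_l a).continuous
  set g : E N → ℝ := fun x => f x + ((-a0) * 1 + (-1) * SpF_l a x) with hg
  have hgC : ContDiff ℝ 1 g :=
    hf.add (contDiff_const.add (contDiff_const.mul (SpF_contDiff_l a)))
  have hgc := hgC.continuous
  -- orthogonality
  have hs1 : sph (fun _ : E N => (1 : ℝ)) = σ := hσ.symm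
  have hg0 : sph g = 0 := by
    rw [hg, sph_add _ _ hf.continuous (by fun_prop),
      sph_add (fun _ : E N => (-a0) * 1) (fun x => (-1) * SpF_l a x) (by fun_prop) (by fun_prop),
      sph_smul, sph_smul, SpF_sph_l hN, hs1, ha0]
    field_simp
    ring
  have hg1 : ∀ i, sph (fun x => g x * x i) = 0 := by
    intro i
    have hci := SpF_cont_coord (N := N) i
    have e : (fun x : E N => g x * x i)
        = fun x => f x * x i + ((-a0) * x i + (-1) * (SpF_l a x * x i)) := by
      funext x; simp only [hg]; ring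
    have hfc := hf.continuous
    rw [e, sph_add (fun x : E N => f x * x i) _ (by fun_prop) (by fun_prop),
      sph_add (fun x : E N => (-a0) * x i) _ (by fun_prop) (by fun_prop),
      sph_smul, sph_smul, SpF_sph_coord hN, SpF_sph_l_coord hN, hs1, ha i]
    field_simp
    ring
  have hgap := gap_orth hN g hgC hg0 hg1
  -- sph f^2
  have hgl : sph (fun x => g x * SpF_l a x) = 0 := by
    have e : (fun x : E N => g x * SpF_l a x)
        = fun x => ∑ i ∈ Finset.univ, a i * (g x * x i) := by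
      funext x
      simp only [SpF_l, Finset.mul_sum]
      exact Finset.sum_congr rfl fun i _ => by ring
    rw [e, sph_sum]
    · refine Finset.sum_eq_zero fun i _ => ?_
      rw [sph_smul (a i) (fun x => g x * x i), hg1 i, mul_zero]
    · intro i _
      exact continuous_const.mul (hgc.mul (SpF_cont_coord i))
  have hf2 : sph (fun x => f x ^ 2) = sph (fun x => g x ^ 2) + σ * a0 ^ 2
      + (σ / N) * ∑ i, a i ^ 2 := by
    have e : (fun x : E N => f x ^ 2)
        = fun x => g x ^ 2 + ((2 * a0) * g x + (2 * (g x * SpF_l a x)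
          + (a0 ^ 2 * 1 + ((2 * a0) * SpF_l a x + SpF_l a x ^ 2)))) := by
      funext x; simp only [hg]; ring
    rw [e, sph_add (fun x => g x ^ 2) _ (by fun_prop) (by fun_prop),
      sph_add (fun x => (2 * a0) * g x) _ (by fun_prop) (by fun_prop),
      sph_add (fun x => 2 * (g x * SpF_l a x)) _ (by fun_prop) (by fun_prop),
      sph_add (fun _ => a0 ^ 2 * 1) _ (by fun_prop) (by fun_prop),
      sph_add (fun x => (2 * a0) * SpF_l a x) _ (by fun_prop) (by fun_prop),
      sph_smul, sph_smul, sph_smul, sph_smul, hg0, hgl, SpF_sph_l hN, SpF_sph_l_sq hN, hs1]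
    ring
  -- derivatives
  have hLr : ∀ i j x, Lr i j f x = Lr i j g x + Lr i j (SpF_l a) x := by
    intro i j x
    have e : f = fun y => g y + (a0 + SpF_l a y) := by
      funext y; simp only [hg]; ring
    conv_lhs => rw [e]
    rw [SpF_Lr_add i j g _ hgC (contDiff_const.add (SpF_contDiff_l a)),
      SpF_Lr_add i j (fun _ => a0) (SpF_l a) contDiff_const (SpF_contDiff_l a), SpF_Lr_const]
    ring
  have hcross : ∀ i j, sph (fun x => Lr i j g x * Lr i j (SpF_l a) x) = 0 := by
    intro i j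
    have hCl : ContDiff ℝ 1 (Lr i j (SpF_l a)) := by
      rw [SpF_Lr_l]
      exact (contDiff_const.mul (SpF_contDiff_coord i)).add
        (contDiff_const.mul (SpF_contDiff_coord j))
    rw [sph_Lr_mul (by omega) i j g _ hgC hCl]
    have e : ∃ c d : ℝ, ∀ x : E N, Lr i j (Lr i j (SpF_l a)) x = c * x i + d * x j := by
      rw [SpF_Lr_l]
      refine ⟨a j * (if j = i then 1 else 0) + (-a i), -(a j + (-a i) * (if i = j then 1 else 0)),
        fun x => ?_⟩
      unfold Lr
      rw [SpF_pd_lin, SpF_pd_lin]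
      simp only [if_true]
      ring
    obtain ⟨c, d, hcd⟩ := e
    have e2 : (fun x => g x * Lr i j (Lr i j (SpF_l a)) x)
        = fun x => c * (g x * x i) + d * (g x * x j) := by
      funext x; rw [hcd]; ring
    rw [e2, sph_add (fun x => c * (g x * x i)) (fun x => d * (g x * x j))
      (continuous_const.mul (hgc.mul (SpF_cont_coord i)))
      (continuous_const.mul (hgc.mul (SpF_cont_coord j))), sph_smul, sph_smul, hg1, hg1]
    ring
  have hD : ∀ i j, sph (fun x => Lr i j f x ^ 2)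
      = sph (fun x => Lr i j g x ^ 2) + sph (fun x => Lr i j (SpF_l a) x ^ 2) := by
    intro i j
    have c1 := continuous_Lr i j g hgC
    have c2 := continuous_Lr i j (SpF_l a) (SpF_contDiff_l a)
    have e : (fun x : E N => Lr i j f x ^ 2)
        = fun x => Lr i j g x ^ 2 + (2 * (Lr i j g x * Lr i j (SpF_l a) x)
          + Lr i j (SpF_l a) x ^ 2) := by
      funext x; rw [hLr]; ring
    rw [e, sph_add (fun x => Lr i j g x ^ 2) _ (by fun_prop) (by fun_prop),
      sph_add (fun x => 2 * (Lr i j g x * Lr i j (SpF_l a) x)) _ (by fun_prop) (by fun_prop),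
      sph_smul, hcross]
    ring
  have hDD : ∑ i, ∑ j, sph (fun x => Lr i j f x ^ 2)
      = (∑ i, ∑ j, sph (fun x => Lr i j g x ^ 2))
        + ∑ i, ∑ j, sph (fun x => Lr i j (SpF_l a) x ^ 2) := by
    rw [← Finset.sum_add_distrib]
    refine Finset.sum_congr rfl fun i _ => ?_
    rw [← Finset.sum_add_distrib]
    exact Finset.sum_congr rfl fun j _ => hD i j
  rw [hDD, SpF_sph_Lr_l hN, hf2, hs1]
  nlinarith [hgap]

end Pool.Agent.H94.ER
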