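import Pool.Agent.H94.ER.SpA

/-!
# SpG: symmetries of the integral over the unit sphere

* `sph_comp`: invariance under linear isometries. Apply `polar` to `x ↦ χ(‖x‖) f (g x/‖x‖)` and to
  `x ↦ χ(‖x‖) f (x/‖x‖)`, `χ` a nonnegative continuous bump on `(1/2, 2)` (the integrals over `E N` agree because
  `g` preserves volume and the norm); or show directly that `σ` is invariant under `g` from the definition
  `σ(A) = N vol {r ω : ω ∈ A, 0 < r < 1}`.
* `sph_odd`: from `sph_comp` with `g = -1`.
* `sph_coord_mul`: `sph (x_i x_j) = δ_ij (sph 1)/N`: for `i ≠ j` use the reflection `x_i ↦ -x_i`; for `i = j` the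
  permutation of coordinates shows that `sph x_i^2` does not depend on `i`, and `∑_i x_i^2 = 1` on the sphere.
-/

set_option autoImplicit false

open MeasureTheory Pointwise

namespace Pool.Agent.H94.ER

variable {N : ℕ}

/-- the isometry restricted to the unit sphere -/
noncomputable def SpG_res (g : E N ≃ₗᵢ[ℝ] E N) (ω : Metric.sphere (0 : E N) 1) :
    Metric.sphere (0 : E N) 1 :=
  ⟨g ω, by rw [mem_sphere_zero_iff_norm, g.norm_map, norm_eq_of_mem_sphere]⟩

theorem SpG_mp (g : E N ≃ₗᵢ[ℝ] E N) :
    MeasurePreserving (SpG_res g) (volume : Measure (E N)).toSphere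
      (volume : Measure (E N)).toSphere := by
  have hcont : Continuous (SpG_res g) :=
    (g.continuous.comp continuous_subtype_val).subtype_mk _
  refine ⟨hcont.measurable, ?_⟩
  ext s hs
  rw [Measure.map_apply hcont.measurable hs, Measure.toSphere_apply' _ (hcont.measurable hs),
    Measure.toSphere_apply' _ hs]
  congr 1
  have h1 : Set.Ioo (0 : ℝ) 1 • (Subtype.val '' (SpG_res g ⁻¹' s)) =
      g ⁻¹' (Set.Ioo (0 : ℝ) 1 • (Subtype.val '' s)) := by
    ext x
    constructor
    · rintro ⟨r, hr, _, ⟨ω, hω, rfl⟩, rfl⟩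
      refine ⟨r, hr, g ω, ⟨SpG_res g ω, hω, rfl⟩, ?_⟩
      simp
    · rintro ⟨r, hr, _, ⟨ω, hω, rfl⟩, h⟩
      refine ⟨r, hr, g.symm ω, ⟨SpG_res g.symm ω, ?_, rfl⟩, ?_⟩
      · change SpG_res g (SpG_res g.symm ω) ∈ s
        have h2 : SpG_res g (SpG_res g.symm ω) = ω := Subtype.ext (by simp [SpG_res])
        rwa [h2]
      · apply g.injective
        simpa using h
  rw [h1]
  exact g.measurePreserving.measure_preimage_emb g.toHomeomorph.measurableEmbedding _

theorem sph_comp (hN : 1 ≤ N) (f : E N → ℝ) (hf : Continuous f) (g : E N ≃ₗᵢ[ℝ] E N) :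
    sph (fun x => f (g x)) = sph f := by
  unfold sph
  have h := SpG_mp g
  have h2 : AEStronglyMeasurable (fun ω : Metric.sphere (0 : E N) 1 => f ω)
      ((volume : Measure (E N)).toSphere.map (SpG_res g)) :=
    (hf.comp continuous_subtype_val).aestronglyMeasurable
  have h3 := integral_map h.measurable.aemeasurable h2
  rw [h.map_eq] at h3
  exact h3.symm

theorem sph_odd (hN : 1 ≤ N) (f : E N → ℝ) (hf : Continuous f) (ho : ∀ x, f (-x) = - f x) :
    sph f = 0 := by
  have h1 := sph_comp hN f hf (LinearIsometryEquiv.neg ℝ)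
  have h2 : (fun x : E N => f ((LinearIsometryEquiv.neg ℝ : E N ≃ₗᵢ[ℝ] E N) x)) =
      fun x => (-1) * f x := by
    ext x
    rw [LinearIsometryEquiv.coe_neg, ho]
    ring
  rw [h2, sph_smul] at h1
  linarith

theorem SpG_coord_cont (i : Fin N) : Continuous (fun x : E N => x i) := by
  fun_prop

theorem sph_coord_mul (hN : 1 ≤ N) (i j : Fin N) :
    sph (fun x : E N => x i * x j) = if i = j then sph (fun _ : E N => (1 : ℝ)) / N else 0 := by
  classical
  split_ifs with hij
  · subst hij
    have hperm : ∀ k : Fin N, sph (fun x : E N => x k * x k) = sph (fun x : E N => x i * x i) := by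
      intro k
      have h1 := sph_comp hN (fun x : E N => x i * x i)
        ((SpG_coord_cont i).mul (SpG_coord_cont i))
        (LinearIsometryEquiv.piLpCongrLeft 2 ℝ ℝ (Equiv.swap i k))
      rw [← h1]
      congr 1
      ext x
      have h2 : (LinearIsometryEquiv.piLpCongrLeft 2 ℝ ℝ (Equiv.swap i k)) x i = x k := by
        simp [LinearIsometryEquiv.piLpCongrLeft_apply, Equiv.piCongrLeft']
      rw [h2]
    have hsum : sph (fun x : E N => ∑ k, x k * x k) = sph (fun _ : E N => (1 : ℝ)) := by
      apply sph_congr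
      intro x hx
      have h3 := sum_coord_sq x
      rw [hx] at h3
      simp only [sq] at h3
      rw [h3]
      norm_num
    rw [sph_sum Finset.univ (fun (k : Fin N) (x : E N) => x k * x k)
      fun k _ => (SpG_coord_cont k).mul (SpG_coord_cont k)] at hsum
    simp only [hperm] at hsum
    rw [Finset.sum_const, Finset.card_univ, Fintype.card_fin, nsmul_eq_mul] at hsum
    have hN0 : (N : ℝ) ≠ 0 := by
      have : N ≠ 0 := by omega
      exact_mod_cast this
    rw [← hsum]
    field_simp
  · have h1 := sph_comp hN (fun x : E N => x i * x j)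
      ((SpG_coord_cont i).mul (SpG_coord_cont j))
      (LinearIsometryEquiv.piLpCongrRight 2 (fun k : Fin N =>
        if k = i then LinearIsometryEquiv.neg ℝ else LinearIsometryEquiv.refl ℝ ℝ))
    have h2 : (fun x : E N => (LinearIsometryEquiv.piLpCongrRight 2 (fun k : Fin N =>
        if k = i then LinearIsometryEquiv.neg ℝ else LinearIsometryEquiv.refl ℝ ℝ)) x i *
        (LinearIsometryEquiv.piLpCongrRight 2 (fun k : Fin N =>
        if k = i then LinearIsometryEquiv.neg ℝ else LinearIsometryEquiv.refl ℝ ℝ)) x j) =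
        fun x => (-1) * (x i * x j) := by
      ext x
      simp [LinearIsometryEquiv.piLpCongrRight_apply, Ne.symm hij]
    rw [h2, sph_smul] at h1
    linarith

end Pool.Agent.H94.ER
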