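import Pool.Agent.H94.ER.Main

/-!
# Short names used in the statement of `MP_db9694_an.SymmetricBall`
-/

set_option autoImplicit false

namespace Pool.Agent.H94.ER

/-- the open unit ball of `R^N` -/
def uball (N : ℕ) : Set (E N) := Metric.ball 0 1

/-- linear isometries of `R^N` onto itself -/
abbrev Iso (N : ℕ) : Type := E N ≃ₗᵢ[ℝ] E N

/-- groups of linear isometries of `R^N` -/
abbrev IsoGroup (N : ℕ) : Type := Subgroup (Iso N)

/-- no linear subspace of `R^N` other than `0` and `R^N` is mapped into itself by all of `G` -/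
def Irreducible {N : ℕ} (G : IsoGroup N) : Prop :=
  ∀ V : Submodule ℝ (E N), (∀ g ∈ G, ∀ v ∈ V, g v ∈ V) → V = ⊥ ∨ V = ⊤

/-- the map `x ↦ -x` belongs to `G` -/
def HasNeg {N : ℕ} (G : IsoGroup N) : Prop := LinearIsometryEquiv.neg ℝ ∈ G

/-- `Ω` is mapped onto itself by all of `G` -/
def Preserves {N : ℕ} (G : IsoGroup N) (Ω : Set (E N)) : Prop := ∀ g ∈ G, g '' Ω = Ω

theorem main' (N : ℕ) (hN : 2 ≤ N) (G : IsoGroup N) (hfin : Finite G) (hneg : HasNeg G)
    (hirr : Irreducible G) (Ω : Set (E N)) (hΩ : IsOpen Ω) (hne : Ω.Nonempty)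
    (hG : Preserves G Ω) :
    0 < dirEig (uball N) 1 ∧
    dirEig Ω (N + 2) * dirEig (uball N) 1 ≤ dirEig (uball N) (N + 2) * dirEig Ω 1 :=
  main N hN Ω hΩ hne G hG hneg hirr

end Pool.Agent.H94.ER
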